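import Pool.Agent.Helper44.S3.Defs
import Pool.Agent.Helper36.NB.E0
import Pool.Agent.Helper36.NB.Inv

/-!
# Project S3, block part: definitions
-/

open scoped BigOperators MonoidAlgebra
open Classical

namespace Pool.Agent.Helper44.S3

open Pool.Agent.Helper36.NB

/-- The block idempotents of `O[N]`, where `N` is a subgroup of `G` of odd order, as elements of
`O[G]` (lifts of the central idempotents `E0aux.e I b` of `ℂ[N]`). -/
structure OddBlocks (O : ValuationSubring ℂ) {G : Type} [Group G] (N : Subgroup G) where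
  I : IrrData N
  F : Fin I.r → MonoidAlgebra O G
  toC_F : ∀ b, toC O G (F b) = incl ℂ N (E0aux.e I b)

/-- `D` centralises `c` and the elements of `E ∖ D` invert `c`. -/
def PairIn {G : Type} [Group G] (D E : Subgroup G) (c : G) : Prop :=
  (∀ d ∈ D, d * c * d⁻¹ = c) ∧ ∀ t ∈ E, t ∉ D → t * c * t⁻¹ = c⁻¹

/-- `R` is a transversal of the left cosets `g G1`. -/
def IsTrans {G : Type} [Group G] (G1 : Subgroup G) (R : Finset G) : Prop :=
  ∀ g : G, ∃ r ∈ R, r⁻¹ * g ∈ G1 ∧ ∀ r' ∈ R, r'⁻¹ * g ∈ G1 → r' = r

/-- The symmetric idempotent `h` of `R[G1]` is fixed by the subgroup `G1` and orthogonal to its other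
conjugates. -/
structure Impr {R : Type} [CommRing R] {G : Type} [Group G] (G1 : Subgroup G)
    (h : MonoidAlgebra R G) : Prop where
  idem : h * h = h
  inv : inv' h = h
  fix : ∀ g ∈ G1, cj g h = h
  orth : ∀ g, g ∉ G1 → h * cj g h = 0
  supp : ∀ g, g ∉ G1 → h.coeff g = 0

/-- The set of elements commuting with `y`. -/
noncomputable def cset {G : Type} [Group G] [Fintype G] (y : G) : Finset G :=
  Finset.univ.filter (fun s : G => s * y = y * s)

/-- The set of elements of `N` commuting with `y`. -/
noncomputable def csetN {G : Type} [Group G] [Fintype G] (N : Subgroup G) (y : G) : Finset G :=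
  Finset.univ.filter (fun s : G => s ∈ N ∧ s * y = y * s)

end Pool.Agent.Helper44.S3
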