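import Pool.Agent.Helper44.S3.Defs

set_option autoImplicit false
open scoped BigOperators MonoidAlgebra
open Classical

namespace Pool.Agent.Helper44.S3

open Pool.Agent.Helper36.NB

/-- LA (hint). Skolem-Noether for matrix algebras: Mathlib `AlgEquiv.eq_linearEquivConjAlgEquiv` (for
`Module.End k V`, file LinearAlgebra/GeneralLinearGroup/AlgEquiv) and `Matrix.toLinAlgEquiv'`. An injective
`f` is bijective (finite dimension), so `f 1 = 1`. -/
theorem inner_of_aut {k : Type} [Field k] {n : ℕ} (f : Mt k n →ₗ[k] Mt k n)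
    (hmul : ∀ a b, f (a * b) = f a * f b) (hinj : Function.Injective f) :
    ∃ u : Mt k n, IsUnit u ∧ ∀ a, f a * u = u * a := by
  have hsurj : Function.Surjective f := LinearMap.surjective_of_injective hinj
  have h1 : f 1 = 1 := by
    obtain ⟨b, hb⟩ := hsurj 1
    have := hmul 1 b
    rw [one_mul, hb, mul_one] at this
    exact this.symm
  let e : Mt k n ≃ₐ[k] Mt k n :=
    AlgEquiv.ofLinearEquiv (LinearEquiv.ofBijective f ⟨hinj, hsurj⟩) h1 hmul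
  let L : Mt k n ≃ₐ[k] Module.End k (Fin n → k) := Matrix.toLinAlgEquiv'
  obtain ⟨T, hT⟩ := AlgEquiv.eq_linearEquivConjAlgEquiv ((L.symm.trans e).trans L)
  have key : ∀ a : Mt k n, L (f a) * (T : (Fin n → k) →ₗ[k] (Fin n → k)) =
      (T : (Fin n → k) →ₗ[k] (Fin n → k)) * L a := by
    intro a
    have h2 : L (f a) = ((L.symm.trans e).trans L) (L a) := by
      simp only [AlgEquiv.trans_apply, AlgEquiv.symm_apply_apply]
      rfl
    rw [h2, hT]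
    apply LinearMap.ext
    intro x
    simp [Module.End.mul_apply, LinearEquiv.conjAlgEquiv_apply]
  refine ⟨L.symm (T : (Fin n → k) →ₗ[k] (Fin n → k)), ?_, ?_⟩
  · have hu : IsUnit (T : Module.End k (Fin n → k)) := by
      refine ⟨⟨(T : (Fin n → k) →ₗ[k] (Fin n → k)), (T.symm : (Fin n → k) →ₗ[k] (Fin n → k)),
        ?_, ?_⟩, rfl⟩
      · apply LinearMap.ext
        intro x
        simp [Module.End.mul_apply]
      · apply LinearMap.ext
        intro x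
        simp [Module.End.mul_apply]
    exact hu.map L.symm
  · intro a
    apply L.injective
    rw [map_mul, map_mul, AlgEquiv.apply_symm_apply]
    exact key a

variable {Γ : Type} [Group Γ] {T G : Subgroup Γ} {k : Type} [Field k] {n : ℕ}
  (A : StarAct T G k n)

/-- `α g` is injective because of `α g⁻¹`. -/
theorem alpha_inj {g : Γ} (hg : g ∈ G) : Function.Injective (A.α g) := by
  intro a b hab
  have h : ∀ c, A.α g⁻¹ (A.α g c) = c := by
    intro c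
    rw [← A.mul g⁻¹ (G.inv_mem hg) g hg, inv_mul_cancel, A.one]
  rw [← h a, ← h b, hab]

theorem alpha_inv {g : Γ} (hg : g ∈ G) (a : Mt k n) : A.α g (A.α g⁻¹ a) = a := by
  rw [← A.mul g hg g⁻¹ (G.inv_mem hg), mul_inv_cancel, A.one]

theorem alpha_one {g : Γ} (hg : g ∈ G) : A.α g 1 = 1 := by
  have hs : A.α g (A.α g⁻¹ 1) = 1 := alpha_inv A hg 1
  by_cases hgT : g ∈ T
  · have h := A.aut g hg hgT 1 (A.α g⁻¹ 1)
    rw [one_mul, hs, mul_one] at h
    exact h.symm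
  · have h := A.anti g hg hgT (A.α g⁻¹ 1) 1
    rw [mul_one, hs, mul_one] at h
    exact h.symm

theorem exists_impl {g : Γ} (hg : g ∈ G) (hgT : g ∈ T) : ∃ u, A.Impl g u := by
  obtain ⟨u, hu, h⟩ := inner_of_aut (A.α g) (A.aut g hg hgT) (alpha_inj A hg)
  exact ⟨u, hu, h⟩

theorem impl_one : A.Impl 1 1 := by
  refine ⟨isUnit_one, ?_⟩
  intro a
  rw [A.one, mul_one, one_mul]

theorem impl_mul {g h : Γ} (hg : g ∈ G) (hh : h ∈ G) {u v : Mt k n} (hu : A.Impl g u)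
    (hv : A.Impl h v) : A.Impl (g * h) (u * v) := by
  refine ⟨hu.1.mul hv.1, ?_⟩
  intro a
  rw [A.mul g hg h hh, ← mul_assoc, hu.2, mul_assoc, hv.2, mul_assoc]

theorem impl_inv {g : Γ} (hg : g ∈ G) {u v : Mt k n} (hu : A.Impl g u) (huv : u * v = 1) :
    A.Impl g⁻¹ v := by
  have hvu : v * u = 1 := mul_eq_one_comm.mp huv
  refine ⟨⟨⟨v, u, hvu, huv⟩, rfl⟩, ?_⟩
  intro a
  have h := hu.2 (A.α g⁻¹ a)
  rw [alpha_inv A hg] at h
  calc A.α g⁻¹ a * v = v * u * (A.α g⁻¹ a) * v := by rw [hvu, one_mul]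
    _ = v * (u * A.α g⁻¹ a) * v := by rw [mul_assoc v u]
    _ = v * (a * u) * v := by rw [h]
    _ = v * a * (u * v) := by simp only [mul_assoc]
    _ = v * a := by rw [huv, mul_one]

theorem impl_smul {g : Γ} {u : Mt k n} (hu : A.Impl g u) {c : k} (hc : c ≠ 0) :
    A.Impl g (c • u) := by
  obtain ⟨⟨w, hw⟩, h⟩ := hu
  refine ⟨⟨⟨c • u, c⁻¹ • ((w⁻¹ : (Mt k n)ˣ) : Mt k n), ?_, ?_⟩, rfl⟩, ?_⟩
  · rw [smul_mul_smul_comm, mul_inv_cancel₀ hc, one_smul, ← hw, Units.mul_inv]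
  · rw [smul_mul_smul_comm, inv_mul_cancel₀ hc, one_smul, ← hw, Units.inv_mul]
  · intro a
    rw [mul_smul_comm, smul_mul_assoc, h]

/-- The centre of the matrix algebra consists of the scalars. -/
theorem impl_unique {g : Γ} {u v : Mt k n} (hu : A.Impl g u) (hv : A.Impl g v) :
    ∃ c : k, c ≠ 0 ∧ v = c • u := by
  obtain ⟨⟨w, hw⟩, h⟩ := hu
  obtain ⟨⟨x, hx⟩, h'⟩ := hv
  -- the matrix `u⁻¹ v` is central
  have hcomm : ∀ a : Mt k n, Commute a (((w⁻¹ : (Mt k n)ˣ) : Mt k n) * v) := by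
    intro a
    have h1 : A.α g a = u * a * ((w⁻¹ : (Mt k n)ˣ) : Mt k n) := by
      rw [← h, mul_assoc, ← hw, Units.mul_inv, mul_one]
    have h2 := h' a
    rw [h1] at h2
    show a * (((w⁻¹ : (Mt k n)ˣ) : Mt k n) * v) = (((w⁻¹ : (Mt k n)ˣ) : Mt k n) * v) * a
    calc a * (((w⁻¹ : (Mt k n)ˣ) : Mt k n) * v)
        = (((w⁻¹ : (Mt k n)ˣ) : Mt k n) * u) * a * (((w⁻¹ : (Mt k n)ˣ) : Mt k n) * v) := by
          rw [← hw, Units.inv_mul, one_mul]
      _ = ((w⁻¹ : (Mt k n)ˣ) : Mt k n) * (u * a * ((w⁻¹ : (Mt k n)ˣ) : Mt k n) * v) := by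
          simp only [mul_assoc]
      _ = ((w⁻¹ : (Mt k n)ˣ) : Mt k n) * (v * a) := by rw [h2]
      _ = (((w⁻¹ : (Mt k n)ˣ) : Mt k n) * v) * a := by rw [mul_assoc]
  have hsc : (((w⁻¹ : (Mt k n)ˣ) : Mt k n) * v) ∈ Set.range (Matrix.scalar (Fin n) : k → Mt k n) := by
    rw [Matrix.mem_range_scalar_iff_commute_single']
    intro i j
    exact (hcomm (Matrix.single i j 1))
  obtain ⟨c, hc⟩ := hsc
  have hv' : v = c • u := by
    have h3 : u * (((w⁻¹ : (Mt k n)ˣ) : Mt k n) * v) = v := by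
      rw [← mul_assoc, ← hw, Units.mul_inv, one_mul]
    rw [← hc] at h3
    rw [← h3, Matrix.scalar_apply, ← Matrix.smul_one_eq_diagonal, mul_smul_comm, mul_one]
  by_cases hn : n = 0
  · subst hn
    exact ⟨1, one_ne_zero, Subsingleton.elim _ _⟩
  · refine ⟨c, ?_, hv'⟩
    rintro rfl
    rw [zero_smul] at hv'
    have : NeZero n := ⟨hn⟩
    have : Nonempty (Fin n) := ⟨0⟩
    have hx0 : IsUnit (0 : Mt k n) := ⟨x, by rw [hx, hv']⟩
    exact not_isUnit_zero hx0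

theorem impl_conj {g h : Γ} (hg : g ∈ G) (hh : h ∈ G) (hhT : h ∈ T) {u : Mt k n}
    (hu : A.Impl g u) : A.Impl (h * g * h⁻¹) (A.α h u) := by
  obtain ⟨⟨w, hw⟩, hu2⟩ := hu
  refine ⟨⟨⟨A.α h u, A.α h ((w⁻¹ : (Mt k n)ˣ) : Mt k n), ?_, ?_⟩, rfl⟩, ?_⟩
  · rw [← A.aut h hh hhT, ← hw, Units.mul_inv, alpha_one A hh]
  · rw [← A.aut h hh hhT, ← hw, Units.inv_mul, alpha_one A hh]
  · intro a
    rw [A.mul (h * g) (G.mul_mem hh hg) h⁻¹ (G.inv_mem hh), A.mul h hh g hg,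
      ← A.aut h hh hhT, hu2, A.aut h hh hhT, alpha_inv A hh]

/-- `α_{h g⁻¹ h⁻¹}(α_h a') α_h u = α_h (u α_{g⁻¹} a') = α_h (a' u) = α_h u α_h a'`. -/
theorem impl_conj_anti {g h : Γ} (hg : g ∈ G) (hh : h ∈ G) (hhT : h ∉ T) {u : Mt k n}
    (hu : A.Impl g u) : A.Impl (h * g⁻¹ * h⁻¹) (A.α h u) := by
  obtain ⟨⟨w, hw⟩, hu2⟩ := hu
  refine ⟨⟨⟨A.α h u, A.α h ((w⁻¹ : (Mt k n)ˣ) : Mt k n), ?_, ?_⟩, rfl⟩, ?_⟩
  · rw [← A.anti h hh hhT, ← hw, Units.inv_mul, alpha_one A hh]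
  · rw [← A.anti h hh hhT, ← hw, Units.mul_inv, alpha_one A hh]
  · intro a
    have h2 := hu2 (A.α g⁻¹ (A.α h⁻¹ a))
    rw [alpha_inv A hg] at h2
    rw [A.mul (h * g⁻¹) (G.mul_mem hh (G.inv_mem hg)) h⁻¹ (G.inv_mem hh),
      A.mul h hh g⁻¹ (G.inv_mem hg), ← A.anti h hh hhT, ← h2, A.anti h hh hhT, alpha_inv A hh]

theorem triv_iff {g : Γ} {u : Mt k n} (hu : A.Impl g u) :
    A.Triv g ↔ ∃ c : k, u = c • (1 : Mt k n) := by
  constructor
  · intro ht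
    have h1 : A.Impl g 1 := by
      refine ⟨isUnit_one, ?_⟩
      intro a
      rw [ht a, mul_one, one_mul]
    obtain ⟨c, -, hc⟩ := impl_unique A h1 hu
    exact ⟨c, hc⟩
  · rintro ⟨c, hc⟩ a
    obtain ⟨hunit, h⟩ := hu
    have h2 := h a
    have h3 : u * a = a * u := by
      rw [hc, smul_mul_assoc, one_mul, mul_smul_comm, mul_one]
    rw [h3] at h2
    exact hunit.mul_right_cancel h2

end Pool.Agent.Helper44.S3
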