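import Pool.Agent.Helper44.S3.CA
import Pool.Agent.Helper44.S3.LA

set_option autoImplicit false
open scoped BigOperators MonoidAlgebra
open Classical

namespace Pool.Agent.Helper44.S3

open Pool.Agent.Helper36.NB

variable {Γ : Type} [Group Γ] [Finite Γ] {T G K H M : Subgroup Γ} {k : Type} [Field k] {n : ℕ}

/-- CB (hint). The centraliser of `φ (Mat_a)` is stable under all `α g`, `g ∈ G` (also for the
anti-automorphisms), and equals `ψ (Mat_b)` of `cs_struct`; transport `α g` to `Mat_b` (`B.α g = id`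
for `g ∉ G`, say). `irr`: for a left ideal `I` of `Mat_b` stable under `G ∩ T` the span `J` of the
`φ x * ψ y'`, `y' ∈ I`, is a left ideal (use that the `φ x * ψ y` span) and stable, so `⊥` or `⊤`; use the last
statement of `cs_struct` and injectivity. -/
theorem cs_star (A : StarAct T G k n) (hn : 0 < n) {a : ℕ} (φ : Mt k a →ₗ[k] Mt k n)
    (hmul : ∀ x y, φ (x * y) = φ x * φ y) (hone : φ 1 = 1)
    (hst : ∀ g ∈ G, ∀ x, ∃ x', A.α g (φ x) = φ x') :
    ∃ (b : ℕ) (B : StarAct T G k b) (ψ : Mt k b →ₗ[k] Mt k n), n = a * b ∧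
      (∀ x y, ψ (x * y) = ψ x * ψ y) ∧ ψ 1 = 1 ∧ Function.Injective ψ ∧
      (∀ x y, φ x * ψ y = ψ y * φ x) ∧ ∀ g ∈ G, ∀ y, ψ (B.α g y) = A.α g (ψ y) := by
  obtain ⟨b, ψ, hab, ψmul, ψone, ψinj, hcomm, hcent, hspan, hI⟩ := cs_struct hn φ hmul hone
  have hstab : ∀ g ∈ G, ∀ y, ∃ y', ψ y' = A.α g (ψ y) := by
    intro g hg y
    apply hcent
    intro x
    obtain ⟨x', hx'⟩ := hst g⁻¹ (G.inv_mem hg) x
    have hx : φ x = A.α g (φ x') := by
      rw [← hx', alpha_inv A hg]
    rw [hx]
    by_cases hgT : g ∈ T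
    · rw [← A.aut g hg hgT, ← A.aut g hg hgT, hcomm]
    · rw [← A.anti g hg hgT, ← A.anti g hg hgT, hcomm]
  let e := LinearEquiv.ofInjective ψ ψinj
  have hrange : ∀ g, g ∈ G → ∀ y, ((A.α g).comp ψ) y ∈ LinearMap.range ψ := by
    intro g hg y
    obtain ⟨y', hy'⟩ := hstab g hg y
    exact ⟨y', hy'⟩
  let β : Γ → (Mt k b →ₗ[k] Mt k b) := fun g =>
    if h : g ∈ G then
      (e.symm : LinearMap.range ψ →ₗ[k] Mt k b).comp
        (LinearMap.codRestrict (LinearMap.range ψ) ((A.α g).comp ψ) (hrange g h))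
    else LinearMap.id
  have hβ : ∀ g ∈ G, ∀ y, ψ (β g y) = A.α g (ψ y) := by
    intro g hg y
    have h1 : β g y = e.symm ⟨A.α g (ψ y), hrange g hg y⟩ := by
      simp only [β, dif_pos hg]
      rfl
    rw [h1]
    have h2 := LinearEquiv.ofInjective_apply ψ (h := ψinj) (e.symm ⟨A.α g (ψ y), hrange g hg y⟩)
    rw [← h2]
    change ((e (e.symm ⟨A.α g (ψ y), hrange g hg y⟩) : LinearMap.range ψ) : Mt k n) = _
    rw [LinearEquiv.apply_symm_apply]
  refine ⟨b, ⟨β, ?_, ?_, ?_, ?_, ?_⟩, ψ, hab, ψmul, ψone, ψinj, hcomm, hβ⟩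
  · intro y
    apply ψinj
    rw [hβ 1 G.one_mem, A.one]
  · intro g hg h hh y
    apply ψinj
    rw [hβ _ (G.mul_mem hg hh), hβ g hg, hβ h hh, A.mul g hg h hh]
  · intro g hg hgT x y
    apply ψinj
    rw [hβ g hg, ψmul, ψmul, hβ g hg, hβ g hg, A.aut g hg hgT]
  · intro g hg hgT x y
    apply ψinj
    rw [hβ g hg, ψmul, ψmul, hβ g hg, hβ g hg, A.anti g hg hgT]
  · intro I hleft hstabI
    set J : Submodule k (Mt k n) := Submodule.span k {z | ∃ x, ∃ y' ∈ I, z = φ x * ψ y'} with hJ
    have hJleft : ∀ a, ∀ c ∈ J, a * c ∈ J := by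
      intro a c hc
      have ha : a ∈ Submodule.span k {z | ∃ x y, z = φ x * ψ y} := by
        rw [hspan]; exact Submodule.mem_top
      induction hc using Submodule.span_induction with
      | mem c hc =>
        obtain ⟨x, y', hy', rfl⟩ := hc
        induction ha using Submodule.span_induction with
        | mem a ha =>
          obtain ⟨x1, y1, rfl⟩ := ha
          refine Submodule.subset_span ⟨x1 * x, y1 * y', hleft _ _ hy', ?_⟩
          rw [hmul, ψmul, mul_assoc, ← mul_assoc (ψ y1), ← hcomm x y1]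
          simp only [mul_assoc]
        | zero => rw [zero_mul]; exact J.zero_mem
        | add u v _ _ hu hv => rw [add_mul]; exact J.add_mem hu hv
        | smul t u _ hu => rw [smul_mul_assoc]; exact J.smul_mem _ hu
      | zero => rw [mul_zero]; exact J.zero_mem
      | add u v _ _ hu hv => rw [mul_add]; exact J.add_mem hu hv
      | smul t u _ hu => rw [mul_smul_comm]; exact J.smul_mem _ hu
    have hJst : ∀ g ∈ G, g ∈ T → ∀ c ∈ J, A.α g c ∈ J := by
      intro g hg hgT c hc
      induction hc using Submodule.span_induction with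
      | mem c hc =>
        obtain ⟨x, y', hy', rfl⟩ := hc
        obtain ⟨x', hx'⟩ := hst g hg x
        refine Submodule.subset_span ⟨x', β g y', ?_, ?_⟩
        · exact hstabI g hg hgT y' hy'
        · rw [A.aut g hg hgT, hx', hβ g hg]
      | zero => rw [map_zero]; exact J.zero_mem
      | add u v _ _ hu hv => rw [map_add]; exact J.add_mem hu hv
      | smul t u _ hu => rw [map_smul]; exact J.smul_mem _ hu
    rcases A.irr J hJleft hJst with h | h
    · left
      rw [eq_bot_iff]
      intro y hy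
      have h1 : ψ y ∈ J := by
        refine Submodule.subset_span ⟨1, y, hy, ?_⟩
        rw [hone, one_mul]
      rw [h, Submodule.mem_bot] at h1
      rw [Submodule.mem_bot]
      apply ψinj
      rw [h1, map_zero]
    · right
      rw [eq_top_iff]
      intro y _
      apply hI I y
      rw [← hJ, h]
      exact Submodule.mem_top

end Pool.Agent.Helper44.S3
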