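import Pool.Agent.Helper44.S3.Defs2

set_option autoImplicit false
open scoped BigOperators MonoidAlgebra
open Classical

namespace Pool.Agent.Helper44.S3

open Pool.Agent.Helper36.NB

variable {k : Type} [CommRing k] {G : Type} [Group G]

private theorem coeff_sum' {ι : Type} (s : Finset ι) (a : ι → MonoidAlgebra k G) (x : G) :
    (∑ i ∈ s, a i).coeff x = ∑ i ∈ s, (a i).coeff x := by
  rw [MonoidAlgebra.coeff_sum, Finsupp.finsetSum_apply]

private theorem incl_supp' (H : Subgroup G) (a : MonoidAlgebra k H) {g : G} (h : g ∉ H) :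
    (incl k H a).coeff g = 0 := by
  induction a using MonoidAlgebra.induction_linear with
  | zero => rw [map_zero]; rfl
  | add x y hx hy =>
    rw [map_add, MonoidAlgebra.coeff_add, Finsupp.add_apply, hx, hy, add_zero]
  | single x r =>
    have e : incl k H (MonoidAlgebra.single x r) = MonoidAlgebra.single (x : G) r := by
      simp [incl]
    rw [e, MonoidAlgebra.coeff_single, Finsupp.single_apply, if_neg]
    intro h2
    exact h (h2 ▸ x.2)

/-- CJ: rules for `cj` (conjugation) and `inv'`. -/
theorem cj_coeff (g : G) (a : MonoidAlgebra k G) (x : G) :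
    (cj g a).coeff x = a.coeff (g⁻¹ * x * g) := by
  unfold cj
  rw [mul_el_coeff, el_mul_coeff, inv_inv, mul_assoc]

theorem cj_mul (g : G) (a b : MonoidAlgebra k G) : cj g (a * b) = cj g a * cj g b := by
  unfold cj
  have h : el k g⁻¹ * el k g = 1 := el_inv_mul_el g
  calc el k g * (a * b) * el k g⁻¹ = el k g * a * 1 * b * el k g⁻¹ := by noncomm_ring
    _ = el k g * a * (el k g⁻¹ * el k g) * b * el k g⁻¹ := by rw [h]
    _ = el k g * a * el k g⁻¹ * (el k g * b * el k g⁻¹) := by noncomm_ring

theorem cj_add (g : G) (a b : MonoidAlgebra k G) : cj g (a + b) = cj g a + cj g b := by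
  ext x
  rw [MonoidAlgebra.coeff_add, Finsupp.add_apply, cj_coeff, cj_coeff, cj_coeff,
    MonoidAlgebra.coeff_add, Finsupp.add_apply]

theorem cj_sum {ι : Type} (s : Finset ι) (g : G) (a : ι → MonoidAlgebra k G) :
    cj g (∑ i ∈ s, a i) = ∑ i ∈ s, cj g (a i) := by
  unfold cj
  rw [Finset.mul_sum, Finset.sum_mul]

theorem cj_smul (g : G) (c : k) (a : MonoidAlgebra k G) : cj g (c • a) = c • cj g a := by
  unfold cj
  rw [mul_smul_comm, smul_mul_assoc]

theorem cj_cj (g h : G) (a : MonoidAlgebra k G) : cj g (cj h a) = cj (g * h) a := by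
  ext x
  rw [cj_coeff, cj_coeff, cj_coeff, mul_inv_rev]
  simp only [mul_assoc]

theorem cj_one (a : MonoidAlgebra k G) : cj 1 a = a := by
  ext x
  rw [cj_coeff, inv_one, one_mul, mul_one]

theorem cj_el (g h : G) : cj g (el k h) = el k (g * h * g⁻¹) := by
  unfold cj
  rw [← el_mul, ← el_mul]

theorem cj_inv' (g : G) (a : MonoidAlgebra k G) : inv' (cj g a) = cj g (inv' a) := by
  ext x
  rw [inv'_coeff, cj_coeff, cj_coeff, inv'_coeff]
  congr 1
  group

theorem cj_eq_iff (g : G) (a : MonoidAlgebra k G) : cj g a = a ↔ el k g * a = a * el k g := by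
  exact (comm_iff_conj g a).symm

theorem cj_inj (g : G) {a b : MonoidAlgebra k G} (h : cj g a = cj g b) : a = b := by
  have h1 : cj g⁻¹ (cj g a) = cj g⁻¹ (cj g b) := by rw [h]
  rwa [cj_cj, cj_cj, inv_mul_cancel, cj_one, cj_one] at h1

/-- Elements commuting with all `el k g` are central. -/
theorem central_of_cj [Finite G] {a : MonoidAlgebra k G} (h : ∀ g, cj g a = a)
    (y : MonoidAlgebra k G) : y * a = a * y := by
  induction y using MonoidAlgebra.induction_linear with
  | zero => rw [zero_mul, mul_zero]
  | add x y hx hy => rw [add_mul, mul_add, hx, hy]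
  | single g r =>
    have e : (MonoidAlgebra.single g r : MonoidAlgebra k G) = r • el k g := by
      rw [el, MonoidAlgebra.smul_single, smul_eq_mul, mul_one]
    rw [e, smul_mul_assoc, mul_smul_comm, (cj_eq_iff g a).1 (h g)]

theorem cj_of_central {a : MonoidAlgebra k G} (h : ∀ y, y * a = a * y) (g : G) :
    cj g a = a := by
  exact (cj_eq_iff g a).2 (h _)

theorem toK_cj (O : ValuationSubring ℂ) {G : Type} [Group G] (g : G) (a : MonoidAlgebra O G) :
    toK O G (cj g a) = cj g (toK O G a) := by
  unfold cj
  rw [map_mul, map_mul, toK_el, toK_el]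

theorem toC_cj (O : ValuationSubring ℂ) {G : Type} [Group G] (g : G) (a : MonoidAlgebra O G) :
    toC O G (cj g a) = cj g (toC O G a) := by
  unfold cj
  rw [map_mul, map_mul, toC_el, toC_el]

theorem toK_res (O : ValuationSubring ℂ) {G : Type} [Group G] (H : Subgroup G)
    (a : MonoidAlgebra O G) : toK O H (res H a) = res H (toK O G a) := by
  ext h
  rw [toK_apply, res_coeff, res_coeff, toK_apply]

theorem incl_res (H : Subgroup G) {a : MonoidAlgebra k G} (h : ∀ g, g ∉ H → a.coeff g = 0) :
    incl k H (res H a) = a := by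
  ext g
  by_cases hg : g ∈ H
  · have h1 := res_coeff H (incl k H (res H a)) ⟨g, hg⟩
    rw [res_incl, res_coeff] at h1
    exact h1.symm
  · rw [h g hg]
    exact incl_supp' H _ hg

theorem incl_supp (H : Subgroup G) (a : MonoidAlgebra k H) {g : G} (h : g ∉ H) :
    (incl k H a).coeff g = 0 := by
  exact incl_supp' H a h

theorem incl_coeff (H : Subgroup G) (a : MonoidAlgebra k H) (h : H) :
    (incl k H a).coeff (h : G) = a.coeff h := by
  rw [← res_coeff, res_incl]

/-- An element supported on `H` commutes with everything that commutes with `H`. -/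
theorem comm_of_supp [Finite G] (H : Subgroup G) {a b : MonoidAlgebra k G}
    (ha : ∀ g, g ∉ H → a.coeff g = 0) (hb : ∀ g ∈ H, el k g * b = b * el k g) :
    a * b = b * a := by
  have e : a = ∑ g ∈ a.coeff.support, a.coeff g • el k g := by
    ext x
    rw [coeff_sum']
    have h1 : ∀ g, (a.coeff g • el k g).coeff x = if g = x then a.coeff g else 0 := by
      intro g
      rw [MonoidAlgebra.coeff_smul, Finsupp.smul_apply, el_coeff, smul_eq_mul]
      split_ifs with h2
      · rw [mul_one]
      · rw [mul_zero]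
    rw [Finset.sum_congr rfl (fun g _ => h1 g), Finset.sum_ite_eq']
    split_ifs with h2
    · rfl
    · rw [Finsupp.notMem_support_iff] at h2
      exact h2
  rw [e, Finset.sum_mul, Finset.mul_sum]
  refine Finset.sum_congr rfl fun g hg => ?_
  have hgH : g ∈ H := by
    by_contra h2
    rw [Finsupp.mem_support_iff] at hg
    exact hg (ha g h2)
  rw [smul_mul_assoc, mul_smul_comm, hb g hgH]

theorem supp_mul [Finite G] (H : Subgroup G) {a b : MonoidAlgebra k G}
    (ha : ∀ g, g ∉ H → a.coeff g = 0) (hb : ∀ g, g ∉ H → b.coeff g = 0) :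
    ∀ g, g ∉ H → (a * b).coeff g = 0 := by
  intro g hg
  have e : a * b = incl k H (res H a * res H b) := by
    rw [map_mul, incl_res H ha, incl_res H hb]
  rw [e]
  exact incl_supp' H _ hg

theorem classSum_toK (O : ValuationSubring ℂ) {G : Type} [Group G] [Fintype G] (x : G) :
    toK O G (classSum O x) = classSum (resK O) x := by
  unfold classSum
  rw [map_sum]
  exact Finset.sum_congr rfl fun g _ => toK_el O g

theorem classSum_inv' [Fintype G] {w : G} (hw : IsConj w w⁻¹) :
    inv' (classSum k w) = classSum k w := by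
  have h1 : ∀ g : G, (classSum k w).coeff g = if IsConj w g then 1 else 0 := by
    intro g
    unfold classSum
    rw [coeff_sum', Finset.sum_congr rfl (fun x _ => el_coeff x g), Finset.sum_ite_eq']
    simp only [Finset.mem_filter, Finset.mem_univ, true_and]
  have h2 : ∀ g : G, IsConj w g⁻¹ ↔ IsConj w g := by
    have h3 : ∀ a b : G, IsConj a b → IsConj a⁻¹ b⁻¹ := by
      intro a b h
      rw [isConj_iff] at h ⊢
      obtain ⟨c, hc⟩ := h
      refine ⟨c, ?_⟩
      rw [← hc]
      group
    intro g
    constructor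
    · intro h
      have h4 := h3 _ _ h
      rw [inv_inv] at h4
      exact hw.trans h4
    · intro h
      exact hw.trans (h3 _ _ h)
  ext g
  rw [inv'_coeff, h1, h1]
  simp only [h2]

end Pool.Agent.Helper44.S3
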