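import Pool.Agent.Helper44.S3.Defs2
import Pool.Agent.Helper36.NB.D2

set_option autoImplicit false
open scoped BigOperators MonoidAlgebra
open Classical

namespace Pool.Agent.Helper44.S3

open Pool.Agent.Helper36.NB

private theorem uaKer {k : Type} [Field k] {G : Type} [Group G] [Finite G] {e : MonoidAlgebra k G}
    (her : inv' e = e) (S : SimpleQuot e) (a : MonoidAlgebra k G) (ha : S.ρ a = 0) :
    S.ρ (inv' a) = 0 := by
  have h : ∀ x : Mt k S.n, (S.ρ (inv' a) * x).trace = 0 := by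
    intro x
    obtain ⟨b, rfl⟩ := S.surj x
    have h1 : inv' a * b = inv' (inv' b * a) := by rw [inv'_mul, inv'_inv']
    rw [← map_mul, h1, trace_inv e her S, map_mul, ha, mul_zero, Matrix.trace_zero]
  rw [Matrix.ext_iff_trace_mul_right]
  intro x
  rw [h x, zero_mul, Matrix.trace_zero]

/-- UA (hint). `S.ρ a = 0` implies `S.ρ (inv' a) = 0`: for all `b`, `tr (S.ρ (inv' a) S.ρ (inv' b)) =
tr (S.ρ (inv' (b a))) = tr (S.ρ (b a)) = 0` (`trace_inv`) and the trace form of `Mat_n` is non-degenerate, `S.ρ` is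
surjective. So `ι` is well defined (linear, via a linear section of `S.ρ`). -/
theorem star_inv {k : Type} [Field k] {G : Type} [Group G] [Finite G] {e : MonoidAlgebra k G}
    (her : inv' e = e) (S : SimpleQuot e) :
    ∃ ι : Mt k S.n →ₗ[k] Mt k S.n, (∀ a, ι (S.ρ a) = S.ρ (inv' a)) ∧
      (∀ x y, ι (x * y) = ι y * ι x) ∧ ∀ x, ι (ι x) = x := by
  let J : MonoidAlgebra k G →ₗ[k] MonoidAlgebra k G :=
    { toFun := inv'
      map_add' := inv'_add
      map_smul' := fun c a => inv'_smul c a }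
  obtain ⟨s, hs⟩ := S.ρ.toLinearMap.exists_rightInverse_of_surjective
    (LinearMap.range_eq_top.2 S.surj)
  have hs' : ∀ x, S.ρ (s x) = x := fun x => by
    have := LinearMap.congr_fun hs x
    simpa using this
  have key : ∀ a, S.ρ (inv' (s (S.ρ a))) = S.ρ (inv' a) := by
    intro a
    have h1 : S.ρ (s (S.ρ a) - a) = 0 := by rw [map_sub, hs', sub_self]
    have h2 := uaKer her S _ h1
    rw [inv'_sub, map_sub, sub_eq_zero] at h2
    exact h2
  have hk : ∀ a, ((S.ρ.toLinearMap ∘ₗ J) ∘ₗ s) (S.ρ a) = S.ρ (inv' a) := key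
  refine ⟨(S.ρ.toLinearMap ∘ₗ J) ∘ₗ s, hk, ?_, ?_⟩
  · intro x y
    obtain ⟨a, rfl⟩ := S.surj x
    obtain ⟨b, rfl⟩ := S.surj y
    rw [← map_mul S.ρ, hk, hk, hk, inv'_mul, map_mul S.ρ]
  · intro x
    obtain ⟨a, rfl⟩ := S.surj x
    rw [hk, hk, inv'_inv']

end Pool.Agent.Helper44.S3
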