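import Pool.Agent.Helper44.S3.Defs2
import Pool.Agent.Helper44.S3.CJ
import Pool.Agent.Helper44.S3.UA
import Pool.Agent.Helper36.NB.C1

set_option autoImplicit false
open scoped BigOperators MonoidAlgebra
open Classical

namespace Pool.Agent.Helper44.S3

open Pool.Agent.Helper36.NB

/-- Splitting of an idempotent matrix. -/
private theorem ub_split {k : Type} [Field k] {n : ℕ} (p : Matrix (Fin n) (Fin n) k)
    (hp : p * p = p) : ∃ (m : ℕ) (X : Matrix (Fin n) (Fin m) k) (Y : Matrix (Fin m) (Fin n) k),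
      p.rank = m ∧ X * Y = p ∧ Y * X = 1 := by
  let V := LinearMap.range (Matrix.toLin' p)
  have hV : Module.finrank k V = p.rank := rfl
  let b : Module.Basis (Fin p.rank) k V := Module.finBasisOfFinrankEq k V hV
  let φ : V ≃ₗ[k] (Fin p.rank → k) := b.equivFun
  have hfix : ∀ v : V, Matrix.toLin' p (v : Fin n → k) = v := by
    rintro ⟨_, ⟨w, rfl⟩⟩
    change Matrix.toLin' p (Matrix.toLin' p w) = Matrix.toLin' p w
    rw [← Matrix.toLin'_mul_apply, hp]
  refine ⟨p.rank, LinearMap.toMatrix' (V.subtype ∘ₗ φ.symm.toLinearMap),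
    LinearMap.toMatrix' (φ.toLinearMap ∘ₗ (Matrix.toLin' p).rangeRestrict), rfl, ?_, ?_⟩
  · rw [← LinearMap.toMatrix'_comp]
    have : (V.subtype ∘ₗ φ.symm.toLinearMap) ∘ₗ (φ.toLinearMap ∘ₗ (Matrix.toLin' p).rangeRestrict) =
        Matrix.toLin' p := by
      apply LinearMap.ext
      intro x
      change ((φ.symm (φ ((Matrix.toLin' p).rangeRestrict x)) : V) : Fin n → k) = _
      rw [LinearEquiv.symm_apply_apply]
      rfl
    rw [this, LinearMap.toMatrix'_toLin']
  · rw [← LinearMap.toMatrix'_comp]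
    have : (φ.toLinearMap ∘ₗ (Matrix.toLin' p).rangeRestrict) ∘ₗ (V.subtype ∘ₗ φ.symm.toLinearMap) =
        LinearMap.id := by
      apply LinearMap.ext
      intro x
      have h1 : (Matrix.toLin' p).rangeRestrict ((φ.symm x : V) : Fin n → k) = φ.symm x :=
        Subtype.ext (hfix (φ.symm x))
      change φ ((Matrix.toLin' p).rangeRestrict ((φ.symm x : V) : Fin n → k)) = x
      rw [h1, LinearEquiv.apply_symm_apply]
    rw [this, LinearMap.toMatrix'_id]

/-- A two-sided ideal of a matrix algebra is trivial. -/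
private theorem ub_simple {k : Type} [Field k] {m : ℕ} (I : Submodule k (Mt k m))
    (hl : ∀ a, ∀ b ∈ I, a * b ∈ I) (hr : ∀ a, ∀ b ∈ I, b * a ∈ I) : I = ⊥ ∨ I = ⊤ := by
  by_cases h : I = ⊥
  · exact Or.inl h
  right
  obtain ⟨b, hb, hb0⟩ := Submodule.exists_mem_ne_zero_of_ne_bot h
  obtain ⟨i, j, hij⟩ : ∃ i j, b i j ≠ 0 := by
    by_contra hc
    push Not at hc
    exact hb0 (by ext i j; exact hc i j)
  have h1 : ∀ (p q : Fin m), Matrix.single p q (1 : k) ∈ I := by
    intro p q
    have h2 : Matrix.single p i (1 : k) * b * Matrix.single j q (1 : k) ∈ I :=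
      hr _ _ (hl _ _ hb)
    rw [Matrix.single_mul_mul_single] at h2
    have h3 := I.smul_mem (b i j)⁻¹ h2
    rw [Matrix.smul_single, one_mul, mul_one, smul_eq_mul, inv_mul_cancel₀ hij] at h3
    exact h3
  rw [eq_top_iff]
  intro x _
  rw [Matrix.matrix_eq_sum_single x]
  refine Submodule.sum_mem _ (fun p _ => Submodule.sum_mem _ (fun q _ => ?_))
  have : Matrix.single p q (x p q) = x p q • Matrix.single p q (1 : k) := by
    rw [Matrix.smul_single, smul_eq_mul, mul_one]
  rw [this]
  exact I.smul_mem _ (h1 p q)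

/-- UB (hint). On all of `Mat_n`: `β g X = ρ(g) X ρ(g⁻¹)` for `g ∈ T` and `β g X = ρ(g) ι(X) ρ(g⁻¹)` for `g ∉ T`
(`ι` from `star_inv`); `β (g h) = β g ∘ β h`, and `β g (ρ c) = ρ (cj g c)` or `ρ (cj g (inv' c))`. All fix `p = ρ(f)`.
`p` and `ρ (inv' f)` are orthogonal idempotents with sum `1` and of the same rank (conjugate by `ρ(g)`, `g ∉ T`), so
`n = 2 m`, `m = rank p`. `Y X = 1`, `X Y = p` (`X : n × m`, `Y : m × n`), `ψ y = X y Y`, `A.α g y = Y (β g (ψ y)) X`.
`irr`: `f (el g) f = 0` for `g ∉ T` (`cj g f = inv' f`, `f * inv' f = 0`), so every `ψ y` is a combination of the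
`ρ(f (el t) f)`, `t ∈ T`; a left ideal stable under `T` is two-sided (`I ρ(t f) ⊆ ρ(t f) I`), so `⊥` or `⊤`
(`Mat_m` is a simple ring). -/
theorem star_corner {k : Type} [Field k] {G : Type} [Group G] [Finite G]
    {e f : MonoidAlgebra k G} (her : inv' e = e) (S : SimpleQuot e) (hf : f * f = f)
    (hef : e = f + inv' f) (hff : f * inv' f = 0) {T : Subgroup G} (hT : T.index = 2)
    (h1 : ∀ g ∈ T, cj g f = f) (h2 : ∀ g, g ∉ T → cj g f = inv' f) :
    ∃ (m : ℕ) (A : StarAct T ⊤ k m) (ψ : Mt k m →ₗ[k] Mt k S.n), S.n = 2 * m ∧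
      Function.Injective ψ ∧ (∀ x y, ψ (x * y) = ψ x * ψ y) ∧ ψ 1 = S.ρ f ∧
      (∀ c, ∃ y, ψ y = S.ρ (f * c * f)) ∧
      (∀ g ∈ T, ∀ y c, ψ y = S.ρ c → ψ (A.α g y) = S.ρ (cj g c)) ∧
      (∀ g, g ∉ T → ∀ y c, ψ y = S.ρ c → ψ (A.α g y) = S.ρ (cj g (inv' c))) := by
  obtain ⟨ι, hι, hιmul, hιι⟩ := star_inv her S
  have hTmul : ∀ {a b : G}, a * b ∈ T ↔ (a ∈ T ↔ b ∈ T) := Subgroup.mul_mem_iff_of_index_two hT
  -- the idempotents
  set p := S.ρ f with hp
  have hpp : p * p = p := by rw [hp, ← map_mul, hf]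
  have hpp1 : p + S.ρ (inv' f) = 1 := by rw [hp, ← map_add, ← hef, S.one]
  have hpp2 : p * S.ρ (inv' f) = 0 := by rw [hp, ← map_mul, hff, map_zero]
  have hpq : S.ρ (inv' f) = 1 - p := by rw [← hpp1]; abel
  have hpp3 : S.ρ (inv' f) * p = 0 := by rw [hpq, sub_mul, one_mul, hpp, sub_self]
  have hpp4 : S.ρ (inv' f) * S.ρ (inv' f) = S.ρ (inv' f) := by
    rw [← map_mul, ← inv'_mul, hf]
  obtain ⟨g0, hg0⟩ : ∃ g : G, g ∉ T := by
    by_contra hcon
    push Not at hcon
    have : T = ⊤ := by
      rw [eq_top_iff]; intro g _; exact hcon g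
    rw [this, Subgroup.index_top] at hT
    omega
  have hunit : ∀ g : G, IsUnit (S.ρ (el k g)) := by
    intro g
    have h3 : S.ρ (el k g) * S.ρ (el k g⁻¹) = 1 := by
      rw [← map_mul, el_mul_el_inv, map_one]
    have h4 : S.ρ (el k g⁻¹) * S.ρ (el k g) = 1 := by
      rw [← map_mul, el_inv_mul_el, map_one]
    exact ⟨⟨_, _, h3, h4⟩, rfl⟩
  have hrank : (S.ρ (inv' f)).rank = p.rank := by
    rw [← h2 g0 hg0]
    unfold cj
    rw [map_mul, map_mul, Matrix.rank_mul_eq_left_of_isUnit_det _ _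
      ((Matrix.isUnit_iff_isUnit_det _).1 (hunit g0⁻¹)),
      Matrix.rank_mul_eq_right_of_isUnit_det _ _
      ((Matrix.isUnit_iff_isUnit_det _).1 (hunit g0))]
  have hn : S.n = 2 * p.rank := by
    have h3 := C1aux.rank_add_orth p (S.ρ (inv' f)) hpp hpp4 hpp2 hpp3
    rw [hpp1, hrank, Matrix.rank_one, Fintype.card_fin] at h3
    omega
  obtain ⟨m, X, Y, hm, hXY, hYX⟩ := ub_split p hpp
  rw [hm] at hn
  -- the map ψ
  let ψ : Mt k m →ₗ[k] Mt k S.n :=
    { toFun := fun y => X * y * Y
      map_add' := fun a b => by rw [Matrix.mul_add, Matrix.add_mul]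
      map_smul' := fun c a => by
        rw [Matrix.mul_smul, Matrix.smul_mul]; rfl }
  have hψ : ∀ y, ψ y = X * y * Y := fun y => rfl
  let ψ' : Mt k S.n →ₗ[k] Mt k m :=
    { toFun := fun y => Y * y * X
      map_add' := fun a b => by rw [Matrix.mul_add, Matrix.add_mul]
      map_smul' := fun c a => by
        rw [Matrix.mul_smul, Matrix.smul_mul]; rfl }
  have hψ' : ∀ y, ψ' y = Y * y * X := fun y => rfl
  have hψ'ψ : ∀ y, ψ' (ψ y) = y := by
    intro y
    rw [hψ, hψ']
    calc Y * (X * y * Y) * X = (Y * X) * y * (Y * X) := by simp only [Matrix.mul_assoc]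
      _ = y := by rw [hYX, Matrix.one_mul, Matrix.mul_one]
  have hψψ' : ∀ z, ψ (ψ' z) = p * z * p := by
    intro z
    rw [hψ, hψ', ← hXY]
    simp only [Matrix.mul_assoc]
  have hψinj : Function.Injective ψ := Function.LeftInverse.injective hψ'ψ
  have hψmul : ∀ x y, ψ (x * y) = ψ x * ψ y := by
    intro x y
    rw [hψ, hψ, hψ]
    have h3 : X * x * Y * (X * y * Y) = X * x * (Y * X) * y * Y := by
      simp only [Matrix.mul_assoc]
    rw [h3, hYX, Matrix.mul_one]
    simp only [Matrix.mul_assoc]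
  have hψone : ψ 1 = p := by
    rw [hψ, Matrix.mul_one, hXY]
  have hpψ : ∀ y, p * ψ y * p = ψ y := by
    intro y
    rw [← hψone, ← hψmul, ← hψmul, one_mul, mul_one]
  have hrange : ∀ c, ∃ y, ψ y = S.ρ (f * c * f) := by
    intro c
    exact ⟨ψ' (S.ρ c), by rw [hψψ', map_mul, map_mul]⟩
  -- the maps β
  let β : G → (Mt k S.n →ₗ[k] Mt k S.n) := fun g =>
    if g ∈ T then (LinearMap.mulLeft k (S.ρ (el k g))).comp (LinearMap.mulRight k (S.ρ (el k g⁻¹)))
    else ((LinearMap.mulLeft k (S.ρ (el k g))).comp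
      (LinearMap.mulRight k (S.ρ (el k g⁻¹)))).comp ι
  have hβ1 : ∀ g ∈ T, ∀ c, β g (S.ρ c) = S.ρ (cj g c) := by
    intro g hg c
    simp only [β, if_pos hg]
    rw [LinearMap.comp_apply, LinearMap.mulRight_apply, LinearMap.mulLeft_apply, ← map_mul,
      ← map_mul, cj, mul_assoc]
  have hβ2 : ∀ g, g ∉ T → ∀ c, β g (S.ρ c) = S.ρ (cj g (inv' c)) := by
    intro g hg c
    simp only [β, if_neg hg]
    rw [LinearMap.comp_apply, LinearMap.comp_apply, hι, LinearMap.mulRight_apply,
      LinearMap.mulLeft_apply, ← map_mul, ← map_mul, cj, mul_assoc]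
  have hβp : ∀ g, ∀ z, p * z * p = z → p * β g z * p = β g z := by
    intro g z hz
    obtain ⟨c, rfl⟩ := S.surj z
    by_cases hg : g ∈ T
    · rw [← hz, hp, ← map_mul, ← map_mul, hβ1 g hg, cj_mul, cj_mul, h1 g hg, ← map_mul,
        ← map_mul]
      congr 1
      rw [← mul_assoc, ← mul_assoc, hf, mul_assoc, mul_assoc, mul_assoc, hf, ← mul_assoc]
    · rw [← hz, hp, ← map_mul, ← map_mul, hβ2 g hg, inv'_mul, inv'_mul, cj_mul, cj_mul,
        ← cj_inv', h2 g hg, inv'_inv', ← map_mul, ← map_mul]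
      congr 1
      simp only [← mul_assoc]
      rw [hf]
      simp only [mul_assoc]
      rw [hf]
  let α : G → (Mt k m →ₗ[k] Mt k m) := fun g => (ψ'.comp (β g)).comp ψ
  have hα : ∀ g y, ψ (α g y) = β g (ψ y) := by
    intro g y
    change ψ (ψ' (β g (ψ y))) = _
    rw [hψψ']
    exact hβp g _ (hpψ y)
  have hα1 : ∀ g ∈ T, ∀ y c, ψ y = S.ρ c → ψ (α g y) = S.ρ (cj g c) := by
    intro g hg y c h
    rw [hα, h, hβ1 g hg]
  have hα2 : ∀ g, g ∉ T → ∀ y c, ψ y = S.ρ c → ψ (α g y) = S.ρ (cj g (inv' c)) := by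
    intro g hg y c h
    rw [hα, h, hβ2 g hg]
  have hlift : ∀ y, ∃ c, ψ y = S.ρ c := fun y => by
    obtain ⟨c, hc⟩ := S.surj (ψ y)
    exact ⟨c, hc.symm⟩
  let A : StarAct T ⊤ k m :=
    { α := α
      one := by
        intro a
        obtain ⟨c, hc⟩ := hlift a
        apply hψinj
        rw [hα1 1 T.one_mem a c hc, cj_one, hc]
      mul := by
        intro g _ h _ a
        obtain ⟨c, hc⟩ := hlift a
        apply hψinj
        by_cases hg : g ∈ T <;> by_cases hh : h ∈ T
        · rw [hα1 (g * h) (hTmul.2 (by simp [hg, hh])) a c hc,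
            hα1 g hg (α h a) _ (hα1 h hh a c hc), cj_cj]
        · rw [hα2 (g * h) (by rw [hTmul]; simp [hg, hh]) a c hc,
            hα1 g hg (α h a) _ (hα2 h hh a c hc), cj_cj]
        · rw [hα2 (g * h) (by rw [hTmul]; simp [hg, hh]) a c hc,
            hα2 g hg (α h a) _ (hα1 h hh a c hc), cj_inv', cj_cj]
        · rw [hα1 (g * h) (hTmul.2 (by simp [hg, hh])) a c hc,
            hα2 g hg (α h a) _ (hα2 h hh a c hc), cj_inv', cj_cj, inv'_inv']
      aut := by
        intro g _ hg a b
        obtain ⟨c, hc⟩ := hlift a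
        obtain ⟨d, hd⟩ := hlift b
        apply hψinj
        rw [hψmul, hα1 g hg a c hc, hα1 g hg b d hd,
          hα1 g hg (a * b) (c * d) (by rw [hψmul, hc, hd, map_mul]), cj_mul, map_mul]
      anti := by
        intro g _ hg a b
        obtain ⟨c, hc⟩ := hlift a
        obtain ⟨d, hd⟩ := hlift b
        apply hψinj
        rw [hψmul, hα2 g hg a c hc, hα2 g hg b d hd,
          hα2 g hg (a * b) (c * d) (by rw [hψmul, hc, hd, map_mul]), inv'_mul, cj_mul, map_mul]
      irr := by
        intro I hl hst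
        apply ub_simple I hl
        intro y b hb
        obtain ⟨d, hd⟩ := hlift b
        -- the products with the images of group elements
        have hgr : ∀ g : G, b * ψ' (S.ρ (el k g)) ∈ I := by
          intro g
          by_cases hg : g ∈ T
          · have hgi : g⁻¹ ∈ T := T.inv_mem hg
            have h3 : el k g * f = f * el k g := (cj_eq_iff g f).1 (h1 g hg)
            have h4 : ψ (b * ψ' (S.ρ (el k g))) = ψ (ψ' (S.ρ (el k g)) * α g⁻¹ b) := by
              rw [hψmul, hψmul, hψψ', hα1 g⁻¹ hgi b d hd]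
              have h5 : S.ρ (cj g⁻¹ d) = S.ρ (el k g⁻¹) * (p * S.ρ d * p) * S.ρ (el k g) := by
                rw [← hd, hpψ, hd, cj, inv_inv, map_mul, map_mul]
              have h6 : S.ρ (el k g) * p = p * S.ρ (el k g) := by
                rw [hp, ← map_mul, ← map_mul, h3]
              have h7 : S.ρ (el k g) * S.ρ (el k g⁻¹) = 1 := by
                rw [← map_mul, el_mul_el_inv, map_one]
              have h8 : ψ b * p = ψ b := by rw [← hψone, ← hψmul, mul_one]
              have h9 : p * ψ b = ψ b := by rw [← hψone, ← hψmul, one_mul]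
              rw [h5, ← hd]
              calc ψ b * (p * S.ρ (el k g) * p) = (ψ b * p) * (S.ρ (el k g) * p) := by
                    simp only [mul_assoc]
                _ = ψ b * S.ρ (el k g) := by
                    rw [h6, ← mul_assoc, h8, h8]
                _ = ψ b * (S.ρ (el k g)) := rfl
                _ = p * (p * ψ b * p) * S.ρ (el k g) := by
                    rw [hpψ, h9]
                _ = p * (S.ρ (el k g) * S.ρ (el k g⁻¹)) * (p * ψ b * p) * S.ρ (el k g) := by
                    rw [h7, mul_one]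
                _ = p * (S.ρ (el k g) * p) * (S.ρ (el k g⁻¹) * (p * ψ b * p) * S.ρ (el k g)) := by
                    rw [h6]
                    have h10 : p * S.ρ (el k g⁻¹) = S.ρ (el k g⁻¹) * p := by
                      have := (cj_eq_iff g⁻¹ f).1 (h1 g⁻¹ hgi)
                      rw [hp, ← map_mul, ← map_mul, this]
                    rw [← mul_assoc p p, hpp]
                    simp only [mul_assoc]
                _ = _ := by simp only [mul_assoc]
            have h5 := hψinj h4
            rw [h5]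
            exact hl _ _ (hst g⁻¹ (Subgroup.mem_top _) hgi b hb)
          · have h3 : f * el k g * f = 0 := by
              have h4 : f * el k g * f = f * cj g f * el k g := by
                rw [cj, mul_assoc, mul_assoc, mul_assoc, mul_assoc, el_inv_mul_el, mul_one]
              rw [h4, h2 g hg, hff, zero_mul]
            have h5 : ψ' (S.ρ (el k g)) = 0 := by
              apply hψinj
              rw [hψψ', hp, ← map_mul, ← map_mul, h3, map_zero, map_zero]
            rw [h5, mul_zero]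
            exact I.zero_mem
        have hall : ∀ c : MonoidAlgebra k G, b * ψ' (S.ρ c) ∈ I := by
          intro c
          induction c using MonoidAlgebra.induction_linear with
          | zero => rw [map_zero, map_zero, mul_zero]; exact I.zero_mem
          | add x y hx hy => rw [map_add, map_add, mul_add]; exact I.add_mem hx hy
          | single g r =>
            have : (MonoidAlgebra.single g r : MonoidAlgebra k G) = r • el k g := by
              simp [el]
            rw [this, map_smul, map_smul, Matrix.mul_smul]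
            exact I.smul_mem _ (hgr g)
        obtain ⟨c, hc⟩ := hlift y
        have := hall c
        rw [← hc, hψ'ψ] at this
        exact this }
  exact ⟨m, A, ψ, hn, hψinj, hψmul, hψone, hrange, hα1, hα2⟩

end Pool.Agent.Helper44.S3
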