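import Pool.Agent.Helper44.S3.Defs2
import Pool.Agent.Helper36.NB.Asm7

set_option autoImplicit false
open scoped BigOperators MonoidAlgebra
open Classical

namespace Pool.Agent.Helper44.S3

open Pool.Agent.Helper36.NB

/-- PA (hint). `pim_eq`: `pim O j g = ∑_a ch_a(g) m_a`, `m_a = χ_a(j)`; `prim_rank` and `trace_rank` (for `y = e`, the
rank of `ρ(toK e) = 1` is `S.n`; `T = TraceFun.ofChi`) give `χ_a(e) = S.n m_a`; and `|G| e(g) = ∑_a d_a χ_a(e g⁻¹)
= ∑_a χ_a(e) ch_a(g⁻¹)` (`E0aux.coeff_formula`, `chi_central`: `e` acts as `0` or `1` in every block of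
`ℂ[G]`). -/
theorem coeff_pim (O : ValuationSubring ℂ) {G : Type} [Group G] [Fintype G]
    (e : MonoidAlgebra O G) (he : e * e = e) (hec : ∀ a, a * e = e * a)
    (S : SimpleQuot (toK O G e)) (j : MonoidAlgebra O G) (hj : IsPrimitiveIdem j)
    (hje : j * e = j) (g : G) :
    (Nat.card G : ℂ) * (e.coeff g : ℂ) = S.n * pim O j g⁻¹ := by
  obtain ⟨I⟩ := exists_irrData G
  have hj1 := prim_rank O e he hec S j hj.2.1 hje hj.1 hj.2.2
  have hchi : ∀ a, I.chi a (toC O G e) = (S.n : ℂ) * I.chi a (toC O G j) := by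
    intro a
    have h := trace_rank O e he hec S j hj.2.1 hje hj1 e he he (TraceFun.ofChi O I a)
    simp only [TraceFun.ofChi_apply] at h
    rw [h, S.one, Matrix.rank_one, Fintype.card_fin]
  have hcen : ∀ y, y * toC O G e = toC O G e * y := by
    apply E0aux.central_of_el
    intro g
    rw [← toC_el O g, ← map_mul, ← map_mul, hec]
  rw [← toC_apply, ← E0aux.coeff_formula I, pim_eq j I, Finset.mul_sum]
  refine Finset.sum_congr rfl fun a _ => ?_
  rw [E0aux.chi_mul_central I a _ _ hcen, hchi]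
  change (S.n : ℂ) * I.chi a (toC O G j) * I.ch a g⁻¹ = _
  ring

end Pool.Agent.Helper44.S3
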