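import Pool.Agent.Helper44.S3.Defs2
import Pool.Agent.Helper44.S3.CJ
import Pool.Agent.Helper36.NB.G1

set_option autoImplicit false
open scoped BigOperators MonoidAlgebra
open Classical

namespace Pool.Agent.Helper44.S3

open Pool.Agent.Helper36.NB

/-- the twisted conjugation -/
private noncomputable def tw {G : Type} [Group G] (D : Subgroup G) (t c : G) : G :=
  if t ∈ D then t * c * t⁻¹ else t * c⁻¹ * t⁻¹

private theorem tw_mem {G : Type} [Group G] {D : Subgroup G} {t : G} (h : t ∈ D) (c : G) :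
    tw D t c = t * c * t⁻¹ := if_pos h

private theorem tw_not {G : Type} [Group G] {D : Subgroup G} {t : G} (h : t ∉ D) (c : G) :
    tw D t c = t * c⁻¹ * t⁻¹ := if_neg h

private theorem tw_one {G : Type} [Group G] (D : Subgroup G) (c : G) : tw D 1 c = c := by
  rw [tw_mem D.one_mem]
  group

private theorem tw_mul {G : Type} [Group G] {D E : Subgroup G}
    (hidx : ∀ t ∈ E, ∀ t' ∈ E, t ∉ D → t' ∉ D → t * t' ∈ D) {t t' : G} (ht : t ∈ E) (ht' : t' ∈ E)
    (c : G) : tw D (t * t') c = tw D t (tw D t' c) := by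
  by_cases h : t ∈ D
  · by_cases h' : t' ∈ D
    · rw [tw_mem (D.mul_mem h h'), tw_mem h, tw_mem h']
      group
    · rw [tw_not (fun h2 => h' ((D.mul_mem_cancel_left h).1 h2)), tw_mem h, tw_not h']
      group
  · by_cases h' : t' ∈ D
    · rw [tw_not (fun h2 => h ((D.mul_mem_cancel_right h').1 h2)), tw_not h, tw_mem h']
      group
    · rw [tw_mem (hidx t ht t' ht' h h'), tw_not h, tw_not h']
      group

private theorem tw_conj {G : Type} [Group G] (D : Subgroup G) {w : G} (hw : IsConj w w⁻¹) (t : G)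
    {c : G} (hc : IsConj w c) : IsConj w (tw D t c) := by
  by_cases h : t ∈ D
  · rw [tw_mem h]
    exact hc.trans (isConj_iff.2 ⟨t, rfl⟩)
  · rw [tw_not h]
    obtain ⟨s, hs⟩ := isConj_iff.1 hc
    have h1 : IsConj w⁻¹ c⁻¹ := isConj_iff.2 ⟨s, by rw [← hs]; group⟩
    exact (hw.trans h1).trans (isConj_iff.2 ⟨t, rfl⟩)

/-- QA (hint). `E` acts on the finite set `{c | IsConj w c}`: `t ∈ D` by `c ↦ t c t⁻¹`, `t ∈ E ∖ D` by
`c ↦ t c⁻¹ t⁻¹` (`IsConj w w⁻¹`, `hidx`; alternatively let `D` act first and then the quotient of order two).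
`F(c) = a.coeff (c⁻¹ * x)` is invariant: for `t ∉ D`, `F(t c⁻¹ t⁻¹) = a(t c t⁻¹ x) = a(t c x⁻¹ t⁻¹) = a(c x⁻¹) =
a(x c⁻¹) = a(c⁻¹ x)` (`t⁻¹ x t = x⁻¹`, `a` commutes with `t` and `x`, `inv' a = a`). `∑_c F(c)` is the given
coefficient (`Inv.coeff_mul_sum`), non-zero, so by `sum_fixed` there is a fixed point `c`. -/
theorem ud {k : Type} [Field k] [CharP k 2] {G : Type} [Group G] [Fintype G]
    (a : MonoidAlgebra k G) (hainv : inv' a = a) (D E : Subgroup G) (hE : IsPGroup 2 E)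
    (hDE : D ≤ E) (hidx : ∀ t ∈ E, ∀ t' ∈ E, t ∉ D → t' ∉ D → t * t' ∈ D)
    (hcen : ∀ t ∈ E, el k t * a = a * el k t) (x w : G) (hxa : el k x * a = a * el k x)
    (hx : PairIn D E x) (hw : IsConj w w⁻¹) (hne : (classSum k w * a).coeff x ≠ 0) :
    ∃ c, IsConj w c ∧ PairIn D E c := by
  -- commutation with a group element
  have hcom : ∀ t : G, el k t * a = a * el k t → ∀ g, a.coeff (t * g * t⁻¹) = a.coeff g := by
    intro t ht g
    have h1 := congrArg (fun z => z.coeff (t * g)) ht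
    simp only [el_mul_coeff, mul_el_coeff] at h1
    rw [← h1, inv_mul_cancel_left]
  have hinv : ∀ g, a.coeff g⁻¹ = a.coeff g := by
    intro g
    rw [← inv'_coeff, hainv]
  -- the action
  let act : MulAction E {c : G // IsConj w c} :=
    { smul := fun t c => ⟨tw D (t : G) (c : G), tw_conj D hw t c.2⟩
      one_smul := fun c => Subtype.ext (tw_one D c)
      mul_smul := fun t t' c => Subtype.ext (tw_mul hidx t.2 t'.2 c) }
  have hact : ∀ (t : E) (c : {c : G // IsConj w c}), ((t • c : {c : G // IsConj w c}) : G) =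
      tw D t c := fun t c => rfl
  have hF : ∀ (t : E) (c : {c : G // IsConj w c}),
      a.coeff (((t • c : {c : G // IsConj w c}) : G)⁻¹ * x) = a.coeff ((c : G)⁻¹ * x) := by
    intro t c
    rw [hact]
    by_cases h : (t : G) ∈ D
    · rw [tw_mem h]
      have h1 := hx.1 t h
      have h2 : ((t : G) * c * (t : G)⁻¹)⁻¹ * x = (t : G) * ((c : G)⁻¹ * x) * (t : G)⁻¹ := by
        conv_lhs => rw [← h1]
        group
      rw [h2, hcom t (hcen t t.2)]
    · rw [tw_not h]
      have h1 := hx.2 t t.2 h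
      have h1' : x = (t : G) * x⁻¹ * (t : G)⁻¹ := by
        calc x = (x⁻¹)⁻¹ := (inv_inv x).symm
          _ = ((t : G) * x * (t : G)⁻¹)⁻¹ := by rw [h1]
          _ = (t : G) * x⁻¹ * (t : G)⁻¹ := by group
      have h2 : ((t : G) * (c : G)⁻¹ * (t : G)⁻¹)⁻¹ * x =
          (t : G) * ((c : G) * x⁻¹) * (t : G)⁻¹ := by
        calc ((t : G) * (c : G)⁻¹ * (t : G)⁻¹)⁻¹ * x =
            ((t : G) * (c : G)⁻¹ * (t : G)⁻¹)⁻¹ * ((t : G) * x⁻¹ * (t : G)⁻¹) := by rw [← h1']
          _ = (t : G) * ((c : G) * x⁻¹) * (t : G)⁻¹ := by group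
      rw [h2, hcom t (hcen t t.2), ← hinv, ← hcom x hxa ((c : G)⁻¹ * x)]
      congr 1
      group
  have hsum := sum_fixed hE (fun c : {c : G // IsConj w c} => a.coeff ((c : G)⁻¹ * x)) hF
  have hcoef : (classSum k w * a).coeff x =
      ∑ c : {c : G // IsConj w c}, a.coeff ((c : G)⁻¹ * x) := by
    rw [classSum, Finset.sum_mul]
    have h1 : (∑ g ∈ Finset.univ.filter (fun g : G => IsConj w g), el k g * a).coeff x =
        ∑ g ∈ Finset.univ.filter (fun g : G => IsConj w g), (el k g * a).coeff x := by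
      rw [MonoidAlgebra.coeff_sum, Finsupp.finsetSum_apply]
    rw [h1]
    simp only [el_mul_coeff]
    exact Finset.sum_subtype _ (fun g => by simp) _
  rw [hcoef, hsum] at hne
  obtain ⟨c, hc, -⟩ := Finset.exists_ne_zero_of_sum_ne_zero hne
  have hfix := ((@Finset.mem_filter _ _ (_) _ _).1 hc).2
  refine ⟨c, c.2, ?_, ?_⟩
  · intro d hd
    have h1 := congrArg Subtype.val (hfix ⟨d, hDE hd⟩)
    rw [hact, tw_mem hd] at h1
    exact h1
  · intro t ht htD
    have h1 := congrArg Subtype.val (hfix ⟨t, ht⟩)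
    rw [hact, tw_not htD] at h1
    have h2 : t * (c : G)⁻¹ * t⁻¹ = c := h1
    calc t * (c : G) * t⁻¹ = (t * (c : G)⁻¹ * t⁻¹)⁻¹ := by group
      _ = (c : G)⁻¹ := by rw [h2]

end Pool.Agent.Helper44.S3
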