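import Pool.Agent.Helper44.S3.Defs2
import Pool.Agent.Helper44.S3.CJ
import Pool.Agent.Helper36.NB.F2

set_option autoImplicit false
open scoped BigOperators MonoidAlgebra
open Classical

namespace Pool.Agent.Helper44.S3

open Pool.Agent.Helper36.NB

/-- central and symmetric -/
private def CS {k : Type} [Field k] {G : Type} [Group G] (y : MonoidAlgebra k G) : Prop :=
  (∀ b, b * y = y * b) ∧ inv' y = y

private theorem CS_mul {k : Type} [Field k] {G : Type} [Group G] {y z : MonoidAlgebra k G}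
    (hy : CS y) (hz : CS z) : CS (y * z) := by
  refine ⟨fun b => ?_, ?_⟩
  · rw [← mul_assoc, hy.1 b, mul_assoc, hz.1 b, mul_assoc]
  · rw [inv'_mul, hy.2, hz.2, hz.1 y]

private theorem CS_add {k : Type} [Field k] {G : Type} [Group G] {y z : MonoidAlgebra k G}
    (hy : CS y) (hz : CS z) : CS (y + z) := by
  refine ⟨fun b => ?_, ?_⟩
  · rw [mul_add, hy.1 b, hz.1 b, add_mul]
  · rw [inv'_add, hy.2, hz.2]

private theorem CS_smul {k : Type} [Field k] {G : Type} [Group G] {y : MonoidAlgebra k G}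
    (c : k) (hy : CS y) : CS (c • y) := by
  refine ⟨fun b => ?_, ?_⟩
  · rw [mul_smul_comm, hy.1 b, smul_mul_assoc]
  · rw [inv'_smul, hy.2]

private theorem CS_one {k : Type} [Field k] {G : Type} [Group G] : CS (1 : MonoidAlgebra k G) :=
  ⟨fun b => by rw [mul_one, one_mul], inv'_one⟩

private theorem CS_zero {k : Type} [Field k] {G : Type} [Group G] : CS (0 : MonoidAlgebra k G) :=
  ⟨fun b => by rw [mul_zero, zero_mul], inv'_zero⟩

private theorem CS_pow {k : Type} [Field k] {G : Type} [Group G] {y : MonoidAlgebra k G}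
    (hy : CS y) (n : ℕ) : CS (y ^ n) := by
  induction n with
  | zero => rw [pow_zero]; exact CS_one
  | succ n ih => rw [pow_succ]; exact CS_mul ih hy

/-- QB (hint). `K = classSum w * e` is central, `S.ρ K` commutes with all matrices, so `S.ρ K = c • 1`; `c ≠ 0`, since
otherwise `K * e = K` is nilpotent by `S.nil`. `ν = K - c • e` satisfies `S.ρ ν = 0`, so it is nilpotent (`S.nil`),
central, `ν e = ν`, `inv' ν = ν` (`classSum_inv'`). `z = ∑_i (-1)^i c⁻¹^(i+1) ν^i e` (finite sum). -/
theorem exists_symm_inv {k : Type} [Field k] {G : Type} [Group G] [Fintype G]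
    (e : MonoidAlgebra k G) (he : e * e = e) (hec : ∀ a, a * e = e * a) (her : inv' e = e)
    (S : SimpleQuot e) (w : G) (hw : IsConj w w⁻¹) (hnil : ¬ IsNilpotent (classSum k w * e)) :
    ∃ z : MonoidAlgebra k G, (∀ y, y * z = z * y) ∧ inv' z = z ∧ classSum k w * z = e := by
  have hce : CS e := ⟨hec, her⟩
  have hcw : CS (classSum k w) := ⟨F2aux.classSum_central k w, classSum_inv' hw⟩
  have hcK : CS (classSum k w * e) := CS_mul hcw hce
  have hcomm : ∀ M : Matrix (Fin S.n) (Fin S.n) k, Commute M (S.ρ (classSum k w * e)) := by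
    intro M
    obtain ⟨y, rfl⟩ := S.surj M
    change S.ρ y * S.ρ (classSum k w * e) = S.ρ (classSum k w * e) * S.ρ y
    rw [← map_mul, ← map_mul, hcK.1 y]
  obtain ⟨c, hc⟩ := Matrix.mem_range_scalar_of_commute_single (M := S.ρ (classSum k w * e))
    (fun i j _ => hcomm _)
  have hc1 : S.ρ (classSum k w * e) = c • (1 : Matrix (Fin S.n) (Fin S.n) k) := by
    rw [← hc]
    ext i j
    simp [Matrix.scalar_apply, Matrix.one_apply, Matrix.diagonal_apply]
  have hKe : classSum k w * e * e = classSum k w * e := by rw [mul_assoc, he]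
  have hc0 : c ≠ 0 := by
    intro h0
    apply hnil
    rw [h0, zero_smul] at hc1
    have := S.nil _ hc1
    rwa [hKe] at this
  set ν : MonoidAlgebra k G := classSum k w * e - c • e with hν
  have hνρ : S.ρ ν = 0 := by
    rw [hν, map_sub, hc1, map_smul, S.one, sub_self]
  have hνe : ν * e = ν := by
    rw [hν, sub_mul, hKe, smul_mul_assoc, he]
  obtain ⟨m, hm⟩ := S.nil _ hνρ
  rw [hνe] at hm
  have hcν : CS ν := by
    have h1 : ν = classSum k w * e + (-c) • e := by
      rw [hν, neg_smul, sub_eq_add_neg]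
    rw [h1]
    exact CS_add hcK (CS_smul _ hce)
  set u : MonoidAlgebra k G := (-c⁻¹) • ν with hu
  have hcu : CS u := CS_smul _ hcν
  set g : MonoidAlgebra k G := ∑ i ∈ Finset.range m, u ^ i with hg
  have hcg : CS g := by
    rw [hg]
    exact Finset.sum_induction _ CS (fun a b ha hb => CS_add ha hb) CS_zero
      (fun i _ => CS_pow hcu i)
  have hgeom : (1 - u) * g = 1 := by
    rw [hg, mul_neg_geom_sum]
    have h1 : u ^ m = 0 := by
      rw [hu, smul_pow, hm, smul_zero]
    rw [h1, sub_zero]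
  have hcz : CS (e * (c⁻¹ • g)) := CS_mul hce (CS_smul _ hcg)
  refine ⟨e * (c⁻¹ • g), hcz.1, hcz.2, ?_⟩
  have h1 : classSum k w * e = (c • (1 - u)) * e := by
    rw [smul_mul_assoc, sub_mul, one_mul, hu, smul_mul_assoc, hνe, smul_sub, smul_smul,
      mul_neg, mul_inv_cancel₀ hc0, neg_smul, one_smul, sub_neg_eq_add, hν]
    abel
  rw [← mul_assoc, h1]
  calc c • (1 - u) * e * (c⁻¹ • g) = e * (c • (1 - u)) * (c⁻¹ • g) := by rw [hec]
    _ = (c * c⁻¹) • (e * ((1 - u) * g)) := by
        rw [mul_smul_comm, mul_smul_comm, smul_mul_assoc, smul_smul, mul_assoc, mul_comm c⁻¹ c]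
    _ = e := by rw [hgeom, mul_inv_cancel₀ hc0, one_smul, mul_one]

end Pool.Agent.Helper44.S3
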