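import Pool.Agent.Helper44.S3.Defs2
import Pool.Agent.Helper44.S3.CJ
import Pool.Agent.Helper36.NB.F2
import Pool.Agent.Helper36.NB.D2
import Pool.Agent.Helper36.NB.B3
import Pool.Agent.Helper36.NB.A2

set_option autoImplicit false
open scoped BigOperators MonoidAlgebra
open Classical

namespace Pool.Agent.Helper44.S3

open Pool.Agent.Helper36.NB

private theorem qd_coeff_sum {k : Type} [CommRing k] {G : Type} [Group G] {ι : Type}
    (s : Finset ι) (a : ι → MonoidAlgebra k G) (x : G) :
    (∑ i ∈ s, a i).coeff x = ∑ i ∈ s, (a i).coeff x := by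
  rw [MonoidAlgebra.coeff_sum, Finsupp.finsetSum_apply]

private theorem qd_classSum_coeff {k : Type} [CommRing k] {G : Type} [Group G] [Fintype G]
    (x g : G) : (classSum k x).coeff g = if IsConj x g then 1 else 0 := by
  unfold classSum
  rw [qd_coeff_sum, Finset.sum_congr rfl (fun y _ => el_coeff y g), Finset.sum_ite_eq']
  simp only [Finset.mem_filter, Finset.mem_univ, true_and]

private theorem qd_inv_conj {G : Type} [Group G] {a b : G} (h : IsConj a b) :
    IsConj a⁻¹ b⁻¹ := by
  rw [isConj_iff] at h ⊢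
  obtain ⟨c, hc⟩ := h
  refine ⟨c, ?_⟩
  rw [← hc]
  group

private theorem qd_classSum_inv {k : Type} [CommRing k] {G : Type} [Group G] [Fintype G]
    (x : G) : inv' (classSum k x) = classSum k x⁻¹ := by
  ext g
  rw [inv'_coeff, qd_classSum_coeff, qd_classSum_coeff]
  have h : IsConj x g⁻¹ ↔ IsConj x⁻¹ g := by
    constructor
    · intro h
      have h4 := qd_inv_conj h
      rwa [inv_inv] at h4
    · intro h
      have h4 := qd_inv_conj h
      rwa [inv_inv] at h4
  simp only [h]

private theorem qd_classSum_conj {k : Type} [CommRing k] {G : Type} [Group G] [Fintype G]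
    {x y : G} (h : IsConj x y) : classSum k x = classSum k y := by
  ext g
  rw [qd_classSum_coeff, qd_classSum_coeff]
  have h' : IsConj x g ↔ IsConj y g := ⟨fun h1 => h.symm.trans h1, fun h1 => h.trans h1⟩
  simp only [h']

private theorem qd_scalar {k : Type} [Field k] {n : ℕ} (hn : 0 < n)
    {z : Matrix (Fin n) (Fin n) k} (h : ∀ M : Matrix (Fin n) (Fin n) k, M * z = z * M) :
    z = z ⟨0, hn⟩ ⟨0, hn⟩ • (1 : Matrix (Fin n) (Fin n) k) := by
  ext i j
  have h1 := congrFun (congrFun (h (Matrix.single ⟨0, hn⟩ i 1)) ⟨0, hn⟩) j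
  rw [Matrix.single_mul_apply_same, one_mul] at h1
  rw [h1]
  by_cases hij : i = j
  · subst hij
    rw [Matrix.mul_single_apply_same, Matrix.smul_apply, Matrix.one_apply_eq]
    simp
  · rw [Matrix.mul_single_apply_of_ne _ _ _ _ _ (fun h => hij h.symm), Matrix.smul_apply,
      Matrix.one_apply_ne hij]
    simp

/-- QD (hint). Over `k`: every central `z` has `S.ρ z = ω(z) • 1`. `1 = ω(e) = ∑_K e(x_K) ω(K)` over the
conjugacy classes (`K` also denotes the class sum). Classes with `x_K` not conjugate to its inverse come in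
pairs `K`, `K⁻¹` with the same contribution (`inv' e = e`; `ω(inv' z) = ω(z)`: `trace_inv` applied to `z a` with
`tr (S.ρ a) ≠ 0` and to `inv' a`, e.g. because the trace form is non-degenerate and `S.ρ` is surjective), so they
cancel in characteristic 2, and there is a real class with `e(x) ≠ 0`, `ω(K) ≠ 0` in `k`. `x` has odd order
(`proj_vanish`, `e` is central). `ω(K) ≠ 0` implies that `classSum x * e` is not nilpotent. -/
theorem exists_real_class (O : ValuationSubring ℂ) {G : Type} [Group G] [Fintype G]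
    (h2 : (2 : O) ∈ IsLocalRing.maximalIdeal O) (e : MonoidAlgebra O G) (he : e * e = e)
    (hec : ∀ a, a * e = e * a) (her : inv' e = e) (S : SimpleQuot (toK O G e)) :
    ∃ x : G, IsDefectClass O e x ∧ IsConj x x⁻¹ := by
  have : CharP (resK O) 2 := resK_charP O h2
  set E := toK O G e with hE
  have hEc : ∀ y, y * E = E * y := by
    intro y
    obtain ⟨a, rfl⟩ := toK_surjective O y
    rw [hE, ← map_mul, ← map_mul, hec]
  have hEr : inv' E = E := by rw [hE, ← toK_inv', her]
  have hEconj : ∀ x y : G, IsConj x y → E.coeff x = E.coeff y := by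
    intro x y hxy
    rw [isConj_iff] at hxy
    obtain ⟨c, hc⟩ := hxy
    have h1 : (cj c⁻¹ E).coeff x = E.coeff x := by rw [cj_of_central hEc]
    rw [cj_coeff, inv_inv, hc] at h1
    exact h1.symm
  have hEinv : ∀ x : G, E.coeff x⁻¹ = E.coeff x := by
    intro x
    rw [← inv'_coeff, hEr]
  -- the central character
  have hcen : ∀ z : MonoidAlgebra (resK O) G, (∀ y, y * z = z * y) →
      S.ρ z = (S.ρ z) ⟨0, S.pos⟩ ⟨0, S.pos⟩ • (1 : Matrix (Fin S.n) (Fin S.n) (resK O)) := by
    intro z hz
    refine qd_scalar S.pos fun M => ?_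
    obtain ⟨a, rfl⟩ := S.surj M
    rw [← map_mul, ← map_mul, hz]
  set w : G → resK O := fun x => (S.ρ (classSum (resK O) x)) ⟨0, S.pos⟩ ⟨0, S.pos⟩ with hw
  have hwx : ∀ x, S.ρ (classSum (resK O) x) = w x • (1 : Matrix (Fin S.n) (Fin S.n) (resK O)) :=
    fun x => hcen _ (F2aux.classSum_central _ x)
  have hwconj : ∀ x y : G, IsConj x y → w x = w y := by
    intro x y hxy
    simp only [hw]
    rw [qd_classSum_conj hxy]
  obtain ⟨a, ha⟩ := S.surj (Matrix.single ⟨0, S.pos⟩ ⟨0, S.pos⟩ 1)
  have hatr : (S.ρ a).trace = 1 := by rw [ha, Matrix.trace_single_eq_same]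
  have hwinv : ∀ x : G, w x⁻¹ = w x := by
    intro x
    have h1 := trace_inv E hEr S (classSum (resK O) x * a)
    rw [inv'_mul, qd_classSum_inv, map_mul, map_mul, hwx, hwx, Matrix.mul_smul, Matrix.mul_one,
      Matrix.smul_mul, Matrix.one_mul, Matrix.trace_smul, Matrix.trace_smul,
      trace_inv E hEr S a, hatr, smul_eq_mul, smul_eq_mul, mul_one, mul_one] at h1
    exact h1
  have hdec : E = ∑ C : ConjClasses G, E.coeff C.out • classSum (resK O) C.out := by
    ext x
    rw [qd_coeff_sum]
    have h1 : ∀ C : ConjClasses G, (E.coeff C.out • classSum (resK O) C.out).coeff x =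
        if C = ConjClasses.mk x then E.coeff x else 0 := by
      intro C
      rw [MonoidAlgebra.coeff_smul, Finsupp.smul_apply, qd_classSum_coeff, smul_eq_mul]
      have h2 : IsConj C.out x ↔ C = ConjClasses.mk x := by
        rw [← ConjClasses.mk_eq_mk_iff_isConj]
        have h3 : ConjClasses.mk C.out = C := Quotient.out_eq C
        rw [h3]
      by_cases h4 : IsConj C.out x
      · rw [if_pos h4, if_pos (h2.1 h4), mul_one, hEconj _ _ h4]
      · rw [if_neg h4, if_neg (fun h => h4 (h2.2 h)), mul_zero]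
    rw [Finset.sum_congr rfl fun C _ => h1 C, Finset.sum_ite_eq' Finset.univ]
    simp
  have hone : (1 : resK O) = ∑ C : ConjClasses G, E.coeff C.out * w C.out := by
    have h1 := congrArg (fun z => (S.ρ z) ⟨0, S.pos⟩ ⟨0, S.pos⟩) hdec
    simp only [S.one, map_sum, map_smul, Matrix.one_apply_eq, Matrix.sum_apply,
      Matrix.smul_apply, smul_eq_mul] at h1
    exact h1
  have hex : ∃ x : G, IsConj x x⁻¹ ∧ E.coeff x * w x ≠ 0 := by
    by_contra hcon
    push Not at hcon
    have hzero : ∑ C : ConjClasses G, E.coeff C.out * w C.out = 0 := by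
      refine Finset.sum_involution (fun C _ => ConjClasses.mk (C.out)⁻¹) ?_ ?_ ?_ ?_
      · intro C _
        have h1 : IsConj (C.out)⁻¹ (ConjClasses.mk (C.out)⁻¹).out := by
          rw [← ConjClasses.mk_eq_mk_iff_isConj]
          exact (Quotient.out_eq _).symm
        rw [← hEconj _ _ h1, ← hwconj _ _ h1, hEinv, hwinv]
        exact CharTwo.add_self_eq_zero _
      · intro C _ hC hfix
        apply hC
        apply hcon
        rw [← ConjClasses.mk_eq_mk_iff_isConj, hfix]
        exact Quotient.out_eq C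
      · intro C _; exact Finset.mem_univ _
      · intro C _
        have h1 : IsConj (ConjClasses.mk (C.out)⁻¹).out (C.out)⁻¹ := by
          rw [← ConjClasses.mk_eq_mk_iff_isConj]
          exact Quotient.out_eq _
        have h3 := qd_inv_conj h1
        rw [inv_inv, ← ConjClasses.mk_eq_mk_iff_isConj] at h3
        rw [h3]
        exact Quotient.out_eq C
    rw [hzero] at hone
    exact one_ne_zero hone
  obtain ⟨x, hx, hne⟩ := hex
  have hE0 : E.coeff x ≠ 0 := left_ne_zero_of_mul hne
  have hw0 : w x ≠ 0 := right_ne_zero_of_mul hne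
  refine ⟨x, ⟨?_, ?_, ?_⟩, hx⟩
  · rw [← Nat.not_even_iff_odd]
    intro hev
    have h1 := proj_vanish O h2 e he x hev
    have h3 : ∀ g : G, e.coeff (g⁻¹ * x * g) = e.coeff x := by
      intro g
      rw [← cj_coeff, cj_of_central hec]
    rw [Finset.sum_congr rfl fun g _ => h3 g, Finset.sum_const, nsmul_eq_mul] at h1
    rcases mul_eq_zero.1 h1 with h4 | h4
    · have h5 : (Finset.univ : Finset G).card = 0 := by exact_mod_cast h4
      rw [Finset.card_univ] at h5
      exact Fintype.card_ne_zero h5
    · apply hE0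
      rw [hE, toK_apply, h4, map_zero]
  · rw [← toK_apply]; exact hE0
  · rintro ⟨m, hm⟩
    have h1 := congrArg S.ρ hm
    rw [map_mul, classSum_toK, map_pow, map_mul, hwx, map_zero, ← hE, S.one, mul_one, smul_pow,
      one_pow] at h1
    have h3 := congrFun (congrFun h1 ⟨0, S.pos⟩) ⟨0, S.pos⟩
    rw [Matrix.smul_apply, Matrix.one_apply_eq, Matrix.zero_apply, smul_eq_mul, mul_one] at h3
    exact hw0 (eq_zero_of_pow_eq_zero h3)

end Pool.Agent.Helper44.S3
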