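import Pool.Agent.Helper44.S3.Defs2
import Pool.Agent.Helper36.NB.Asm1

set_option autoImplicit false
open scoped BigOperators MonoidAlgebra
open Classical

namespace Pool.Agent.Helper44.S3

open Pool.Agent.Helper36.NB

variable {G : Type} [Group G] [Fintype G]

/-- QE (hint). A Sylow 2-subgroup `D` of `cent x` (as a subgroup of `G`), inside a Sylow 2-subgroup of `extCent x`. -/
theorem exists_pair (x : G) : ∃ D E : Subgroup G, IsDefectPair x D E := by
  have hle : cent x ≤ extCent x := fun t ht => Or.inl (mem_cent_iff.mp ht)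
  obtain ⟨P⟩ : Nonempty (Sylow 2 (cent x)) := inferInstance
  obtain ⟨D, hD⟩ : ∃ D : Subgroup G, D = (P : Subgroup (cent x)).map (cent x).subtype := ⟨_, rfl⟩
  have hDcent : D ≤ cent x := by
    rw [hD]
    exact Subgroup.map_subtype_le _
  have hDcard : Nat.card D = 2 ^ (Nat.card (cent x)).factorization 2 := by
    rw [hD, Subgroup.card_map_of_injective (Subgroup.subtype_injective _)]
    exact P.card_eq_multiplicity
  have hD2 : IsPGroup 2 D := IsPGroup.of_card hDcard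
  have hD3 : IsPGroup 2 (D.subgroupOf (extCent x)) := by
    rw [Subgroup.subgroupOf]
    exact hD2.comap_subtype
  obtain ⟨Q, hQ⟩ := hD3.exists_le_sylow
  refine ⟨D, (Q : Subgroup (extCent x)).map (extCent x).subtype, ?_, hDcent,
    Subgroup.map_subtype_le _, hDcard, ?_⟩
  · intro t ht
    have ht' : t ∈ extCent x := hle (hDcent ht)
    exact ⟨⟨t, ht'⟩, hQ (Subgroup.mem_subgroupOf.mpr ht), rfl⟩
  · rw [Subgroup.card_map_of_injective (Subgroup.subtype_injective _)]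
    exact Q.card_eq_multiplicity

theorem pair_basic {x : G} {D E : Subgroup G} (h : IsDefectPair x D E) :
    IsPGroup 2 E ∧ PairIn D E x ∧
      ∀ t ∈ E, ∀ t' ∈ E, t ∉ D → t' ∉ D → t * t' ∈ D := by
  refine ⟨IsPGroup.of_card h.2.2.2.2, ⟨fun d hd => mem_cent_iff.mp (h.2.1 hd),
    fun t ht ht' => defectPair_t h ht ht'⟩, ?_⟩
  intro t ht t' ht' hn hn'
  have h1 := defectPair_t h ht hn
  have h2 := defectPair_t h ht' hn'
  rw [inf_cent_eq h]
  refine ⟨E.mul_mem ht ht', mem_cent_iff.mpr ?_⟩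
  calc t * t' * x * (t * t')⁻¹ = t * (t' * x * t'⁻¹) * t⁻¹ := by group
    _ = t * x⁻¹ * t⁻¹ := by rw [h2]
    _ = (t * x * t⁻¹)⁻¹ := by group
    _ = x := by rw [h1, inv_inv]

private theorem pair_incl {x : G} {D' E' : Subgroup G} (hDE' : D' ≤ E') (hP : PairIn D' E' x) :
    D' ≤ cent x ∧ E' ≤ extCent x := by
  refine ⟨fun t ht => mem_cent_iff.mpr (hP.1 t ht), fun t ht => ?_⟩
  by_cases h : t ∈ D'
  · exact Or.inl (hP.1 t h)
  · exact Or.inr (hP.2 t ht h)

private theorem card_le_aux {H K : Subgroup G} (hH : IsPGroup 2 H) (hHK : H ≤ K) :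
    Nat.card H ≤ 2 ^ (Nat.card K).factorization 2 := by
  obtain ⟨m, hm⟩ := IsPGroup.iff_card.mp hH
  have hdvd : Nat.card H ∣ Nat.card K := Subgroup.card_dvd_of_le hHK
  rw [hm] at hdvd
  have hle : m ≤ (Nat.card K).factorization 2 :=
    (Nat.Prime.pow_dvd_iff_le_factorization Nat.prime_two Nat.card_pos.ne').mp hdvd
  rw [hm]
  exact Nat.pow_le_pow_right (by norm_num) hle

/-- `D' ≤ cent x` and `E' ≤ extCent x` are `2`-groups. -/
theorem pair_le {x : G} {D E D' E' : Subgroup G} (h : IsDefectPair x D E)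
    (hE' : IsPGroup 2 E') (hDE' : D' ≤ E') (hP : PairIn D' E' x) :
    Nat.card D' ≤ Nat.card D ∧ Nat.card E' ≤ Nat.card E := by
  obtain ⟨h1, h2⟩ := pair_incl hDE' hP
  rw [h.2.2.2.1, h.2.2.2.2]
  exact ⟨card_le_aux (hE'.to_le hDE') h1, card_le_aux hE' h2⟩

/-- `E'` and `E` are Sylow 2-subgroups of `extCent x`, so `E' = g⁻¹ E g` with `g ∈ extCent x`. `D'` is contained
in `E' ⊓ cent x`, which is conjugate to `E ⊓ cent x = D` (`inf_cent_eq`; `cent x` is normalised by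
`extCent x`); compare the orders. -/
theorem pair_conj {x : G} {D E D' E' : Subgroup G} (h : IsDefectPair x D E)
    (hE' : IsPGroup 2 E') (hDE' : D' ≤ E') (hP : PairIn D' E' x)
    (hD : Nat.card D ≤ Nat.card D') (hE : Nat.card E ≤ Nat.card E') :
    ∃ g : G, (∀ t, t ∈ D' ↔ g * t * g⁻¹ ∈ D) ∧ ∀ t, t ∈ E' ↔ g * t * g⁻¹ ∈ E := by
  obtain ⟨h1, h2⟩ := pair_incl hDE' hP
  obtain ⟨h3, h4⟩ := pair_le h hE' hDE' hP
  have h' : IsDefectPair x D' E' :=
    ⟨hDE', h1, h2, (le_antisymm h3 hD).trans h.2.2.2.1, (le_antisymm h4 hE).trans h.2.2.2.2⟩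
  have hcE : Nat.card (E.subgroupOf (extCent x)) = 2 ^ (Nat.card (extCent x)).factorization 2 := by
    rw [Nat.card_congr (Subgroup.subgroupOfEquivOfLe h.2.2.1).toEquiv]
    exact h.2.2.2.2
  have hcE' : Nat.card (E'.subgroupOf (extCent x)) =
      2 ^ (Nat.card (extCent x)).factorization 2 := by
    rw [Nat.card_congr (Subgroup.subgroupOfEquivOfLe h2).toEquiv]
    exact h'.2.2.2.2
  obtain ⟨Q, hQ⟩ : ∃ Q : Sylow 2 (extCent x), (Q : Subgroup (extCent x)) = E.subgroupOf (extCent x) :=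
    ⟨Sylow.ofCard _ hcE, Sylow.coe_ofCard _ hcE⟩
  obtain ⟨Q', hQ'⟩ : ∃ Q' : Sylow 2 (extCent x),
      (Q' : Subgroup (extCent x)) = E'.subgroupOf (extCent x) :=
    ⟨Sylow.ofCard _ hcE', Sylow.coe_ofCard _ hcE'⟩
  obtain ⟨g, hg⟩ := MulAction.exists_smul_eq (extCent x) Q' Q
  have hmem : ∀ t : G, t ∈ E' ↔ (g : G) * t * (g : G)⁻¹ ∈ E := by
    have key : ∀ t : extCent x, t ∈ (Q' : Subgroup (extCent x)) ↔
        g * t * g⁻¹ ∈ (Q : Subgroup (extCent x)) := by
      intro t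
      rw [← hg, Sylow.coe_subgroup_smul, Subgroup.mem_pointwise_smul_iff_inv_smul_mem]
      simp [MulAut.smul_def, mul_assoc]
    intro t
    constructor
    · intro ht
      have := (key ⟨t, h2 ht⟩).mp (by rw [hQ']; exact Subgroup.mem_subgroupOf.mpr ht)
      rw [hQ] at this
      exact Subgroup.mem_subgroupOf.mp this
    · intro ht
      have ht2 : t ∈ extCent x := by
        have h5 : (g : G)⁻¹ * ((g : G) * t * (g : G)⁻¹) * (g : G) ∈ extCent x :=
          (extCent x).mul_mem ((extCent x).mul_mem ((extCent x).inv_mem g.2) (h.2.2.1 ht)) g.2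
        have h6 : (g : G)⁻¹ * ((g : G) * t * (g : G)⁻¹) * (g : G) = t := by group
        rwa [h6] at h5
      have := (key ⟨t, ht2⟩).mpr (by rw [hQ]; exact Subgroup.mem_subgroupOf.mpr ht)
      rw [hQ'] at this
      exact Subgroup.mem_subgroupOf.mp this
  refine ⟨g, fun t => ?_, hmem⟩
  rw [inf_cent_eq h, inf_cent_eq h', Subgroup.mem_inf, Subgroup.mem_inf, hmem t,
    mem_cent_iff, mem_cent_iff]
  refine and_congr_right fun _ => ?_
  have e1 : ∀ s : G, (g : G) * (t * x * t⁻¹) * (g : G)⁻¹ =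
      ((g : G) * t * (g : G)⁻¹) * ((g : G) * x * (g : G)⁻¹) * ((g : G) * t * (g : G)⁻¹)⁻¹ := by
    intro s; group
  rcases g.2 with hg' | hg'
  · constructor
    · intro ht
      have := e1 1
      rw [hg', ht, hg'] at this
      exact this.symm
    · intro ht
      have := e1 1
      rw [hg', ht] at this
      have h7 : (g : G) * (t * x * t⁻¹) * (g : G)⁻¹ = (g : G) * x * (g : G)⁻¹ := this.trans hg'.symm
      exact mul_left_cancel (mul_right_cancel h7)
  · have inv_iff : ∀ s : G, s * x * s⁻¹ = x ↔ s * x⁻¹ * s⁻¹ = x⁻¹ := by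
      intro s
      have e2 : s * x⁻¹ * s⁻¹ = (s * x * s⁻¹)⁻¹ := by group
      rw [e2, inv_inj]
    constructor
    · intro ht
      have := e1 1
      rw [hg', ht, hg'] at this
      rw [inv_iff]
      exact this.symm
    · intro ht
      have := e1 1
      rw [inv_iff] at ht
      rw [hg', ht] at this
      have h7 : (g : G) * (t * x * t⁻¹) * (g : G)⁻¹ = (g : G) * x * (g : G)⁻¹ := this.trans hg'.symm
      exact mul_left_cancel (mul_right_cancel h7)

/-- If `D ≠ E` then `x` is real. -/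
theorem pair_real {x : G} {D E : Subgroup G} (h : IsDefectPair x D E) (hne : D ≠ E) :
    IsConj x x⁻¹ := by
  obtain ⟨t, ht, ht'⟩ := exists_t h hne
  exact isConj_iff.mpr ⟨t, defectPair_t h ht ht'⟩

/-- Conjugating a pair. -/
theorem pairIn_conj {D E : Subgroup G} {c : G} (h : PairIn D E c) (g : G) :
    PairIn (D.map (MulAut.conj g).toMonoidHom) (E.map (MulAut.conj g).toMonoidHom)
      (g * c * g⁻¹) := by
  constructor
  · rintro _ ⟨d, hd, rfl⟩
    have h1 := h.1 d hd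
    change g * d * g⁻¹ * (g * c * g⁻¹) * (g * d * g⁻¹)⁻¹ = g * c * g⁻¹
    calc g * d * g⁻¹ * (g * c * g⁻¹) * (g * d * g⁻¹)⁻¹ = g * (d * c * d⁻¹) * g⁻¹ := by group
      _ = g * c * g⁻¹ := by rw [h1]
  · rintro _ ⟨t, ht, rfl⟩ hn
    have ht' : t ∉ D := fun h' => hn ⟨t, h', rfl⟩
    have h1 := h.2 t ht ht'
    change g * t * g⁻¹ * (g * c * g⁻¹) * (g * t * g⁻¹)⁻¹ = (g * c * g⁻¹)⁻¹
    calc g * t * g⁻¹ * (g * c * g⁻¹) * (g * t * g⁻¹)⁻¹ = g * (t * c * t⁻¹) * g⁻¹ := by group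
      _ = g * c⁻¹ * g⁻¹ := by rw [h1]
      _ = (g * c * g⁻¹)⁻¹ := by group

end Pool.Agent.Helper44.S3
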