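import Pool.Agent.Helper44.S3.Defs2

set_option autoImplicit false
open scoped BigOperators MonoidAlgebra
open Classical

namespace Pool.Agent.Helper44.S3

open Pool.Agent.Helper36.NB

variable {G : Type} [Group G] [Finite G] {G1 : Subgroup G}

/-- TR: transversals. (Choose representatives of the left cosets.) -/
theorem exists_trans (G1 : Subgroup G) : ∃ R : Finset G, IsTrans G1 R := by
  have : Fintype (G ⧸ G1) := Fintype.ofFinite _
  refine ⟨Finset.univ.image (fun q : G ⧸ G1 => q.out), ?_⟩
  intro g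
  refine ⟨(QuotientGroup.mk g : G ⧸ G1).out, ?_, ?_, ?_⟩
  · exact Finset.mem_image_of_mem _ (Finset.mem_univ _)
  · rw [← QuotientGroup.eq, QuotientGroup.out_eq']
  · intro r' hr' h
    obtain ⟨q, -, rfl⟩ := Finset.mem_image.1 hr'
    rw [← QuotientGroup.eq, QuotientGroup.out_eq'] at h
    rw [h]

private noncomputable def rep {R : Finset G} (hR : IsTrans G1 R) (g : G) : G := (hR g).choose

omit [Finite G] in
private theorem rep_mem {R : Finset G} (hR : IsTrans G1 R) (g : G) : rep hR g ∈ R :=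
  (hR g).choose_spec.1

omit [Finite G] in
private theorem rep_inv {R : Finset G} (hR : IsTrans G1 R) (g : G) : (rep hR g)⁻¹ * g ∈ G1 :=
  (hR g).choose_spec.2.1

omit [Finite G] in
private theorem rep_uniq {R : Finset G} (hR : IsTrans G1 R) (g r : G) (hr : r ∈ R)
    (h : r⁻¹ * g ∈ G1) : rep hR g = r :=
  ((hR g).choose_spec.2.2 r hr h).symm

theorem trans_card {R : Finset G} (hR : IsTrans G1 R) : R.card = G1.index := by
  rw [Subgroup.index, ← Nat.card_eq_finsetCard R]
  refine Nat.card_congr (Equiv.ofBijective (fun r : R => (QuotientGroup.mk (r : G) : G ⧸ G1)) ⟨?_, ?_⟩)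
  · intro r r' h
    have h1 : (r : G)⁻¹ * (r' : G) ∈ G1 := QuotientGroup.eq.1 h
    have h2 := rep_uniq hR (r' : G) r r.2 h1
    have h3 := rep_uniq hR (r' : G) r' r'.2 (by rw [inv_mul_cancel]; exact G1.one_mem)
    exact Subtype.ext (h2.symm.trans h3)
  · intro q
    obtain ⟨g, rfl⟩ := QuotientGroup.mk_surjective q
    exact ⟨⟨rep hR g, rep_mem hR g⟩, QuotientGroup.eq.2 (rep_inv hR g)⟩

/-- Every element is `r s` with unique `r ∈ R`, `s ∈ G1`. -/
theorem trans_sum [Fintype G] {R : Finset G} (hR : IsTrans G1 R) {A : Type} [AddCommMonoid A]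
    (F : G → A) :
    ∑ g : G, F g = ∑ r ∈ R, ∑ s ∈ Finset.univ.filter (fun s : G => s ∈ G1), F (r * s) := by
  rw [← Finset.sum_product' R (Finset.univ.filter (fun s : G => s ∈ G1)) (fun r s => F (r * s))]
  symm
  refine Finset.sum_nbij' (fun p => p.1 * p.2) (fun g => (rep hR g, (rep hR g)⁻¹ * g)) ?_ ?_ ?_ ?_ ?_
  · intro p _
    exact Finset.mem_univ _
  · intro g _
    rw [Finset.mem_product]
    exact ⟨rep_mem hR g, Finset.mem_filter.2 ⟨Finset.mem_univ _, rep_inv hR g⟩⟩
  · rintro ⟨r, s⟩ hp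
    rw [Finset.mem_product] at hp
    have hs : s ∈ G1 := (Finset.mem_filter.1 hp.2).2
    have h : rep hR (r * s) = r := rep_uniq hR _ r hp.1 (by
      rw [inv_mul_cancel_left]
      exact hs)
    simp only [h, inv_mul_cancel_left]
  · intro g _
    exact mul_inv_cancel_left _ _
  · intro p _
    rfl

/-- Left multiplication by `g` permutes the cosets. -/
theorem trans_shift {R : Finset G} (hR : IsTrans G1 R) {A : Type} [AddCommMonoid A]
    (F : G → A) (hF : ∀ x, ∀ s ∈ G1, F (x * s) = F x) (g : G) :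
    ∑ r ∈ R, F (g * r) = ∑ r ∈ R, F r := by
  have key : ∀ (g r : G), r ∈ R → rep hR (g⁻¹ * rep hR (g * r)) = r := by
    intro g r hr
    refine rep_uniq hR _ r hr ?_
    have h := G1.inv_mem (rep_inv hR (g * r))
    have e : ((rep hR (g * r))⁻¹ * (g * r))⁻¹ = r⁻¹ * (g⁻¹ * rep hR (g * r)) := by group
    rwa [e] at h
  refine Finset.sum_nbij' (fun r => rep hR (g * r)) (fun r => rep hR (g⁻¹ * r)) ?_ ?_ ?_ ?_ ?_
  · intro r _
    exact rep_mem hR _
  · intro r _
    exact rep_mem hR _
  · intro r hr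
    exact key g r hr
  · intro r hr
    have := key g⁻¹ r hr
    rwa [inv_inv] at this
  · intro r _
    have h := hF (rep hR (g * r)) _ (rep_inv hR (g * r))
    rwa [mul_inv_cancel_left] at h

/-- Independence of the transversal: if `a` commutes with `G1` then `∑ r a r⁻¹` is central. -/
theorem trans_central {k : Type} [CommRing k] {R : Finset G} (hR : IsTrans G1 R)
    (a : MonoidAlgebra k G) (ha : ∀ g ∈ G1, cj g a = a) (y : MonoidAlgebra k G) :
    y * ∑ r ∈ R, cj r a = (∑ r ∈ R, cj r a) * y := by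
  have cj2 : ∀ g h : G, cj g (cj h a) = cj (g * h) a := by
    intro g h
    unfold cj
    rw [mul_inv_rev, el_mul, el_mul]
    simp only [mul_assoc]
  have hel : ∀ g : G, el k g * ∑ r ∈ R, cj r a = (∑ r ∈ R, cj r a) * el k g := by
    intro g
    have h1 : ∑ r ∈ R, cj (g * r) a = ∑ r ∈ R, cj r a :=
      trans_shift hR (fun x => cj x a) (fun x s hs => by rw [← cj2, ha s hs]) g
    have h2 : ∀ r : G, el k g * cj r a = cj (g * r) a * el k g := by
      intro r
      rw [← cj2 g r]
      change el k g * cj r a = el k g * cj r a * el k g⁻¹ * el k g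
      rw [mul_assoc _ (el k g⁻¹), el_inv_mul_el, mul_one]
    calc el k g * ∑ r ∈ R, cj r a = ∑ r ∈ R, cj (g * r) a * el k g := by
          rw [Finset.mul_sum]
          exact Finset.sum_congr rfl fun r _ => h2 r
      _ = (∑ r ∈ R, cj r a) * el k g := by rw [← Finset.sum_mul, h1]
  induction y using MonoidAlgebra.induction_on with
  | of g => exact hel g
  | add x y hx hy => rw [add_mul, mul_add, hx, hy]
  | smul r f hf => rw [smul_mul_assoc, mul_smul_comm, hf]

end Pool.Agent.Helper44.S3
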