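import Pool.Agent.Helper44.S3.Defs2
import Pool.Agent.Helper44.S3.CJ
import Pool.Agent.Helper44.S3.TR
import Pool.Agent.Helper36.NB.G1

set_option autoImplicit false
open scoped BigOperators MonoidAlgebra
open Classical

namespace Pool.Agent.Helper44.S3

open Pool.Agent.Helper36.NB

/-- QC (hint). `e.coeff x = ∑_{r ∈ R} e1.coeff (r⁻¹ x r)`. `E` acts on the set `G ⧸ G1` of left cosets (a
transversal is `R`), `g G1 ↦ e1.coeff (g⁻¹ x g)` is well defined and `E`-invariant (for `t ∈ E ∖ D` use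
`t⁻¹ x t = x⁻¹` and `inv' e1 = e1`). By `sum_fixed` there is a coset `g G1` fixed by `E` (`g⁻¹ t g ∈ G1`) with
non-zero value. -/
theorem descend {k : Type} [Field k] [CharP k 2] {G : Type} [Group G] [Fintype G]
    (G1 : Subgroup G) (e e1 : MonoidAlgebra k G) (hc : ∀ g ∈ G1, cj g e1 = e1)
    (hinv : inv' e1 = e1) {R : Finset G} (hR : IsTrans G1 R) (hsum : e = ∑ r ∈ R, cj r e1)
    (D E : Subgroup G) (hE : IsPGroup 2 E) (hDE : D ≤ E) (x : G) (hx : PairIn D E x)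
    (hne : e.coeff x ≠ 0) :
    ∃ g, (∀ t ∈ E, g⁻¹ * t * g ∈ G1) ∧ e1.coeff (g⁻¹ * x * g) ≠ 0 := by
  have hinvc : ∀ y, e1.coeff y⁻¹ = e1.coeff y := by
    intro y
    have h := congrArg (fun z => z.coeff y) hinv
    simp only [inv'_coeff] at h
    exact h
  have hG1 : ∀ s ∈ G1, ∀ y, e1.coeff (s⁻¹ * y * s) = e1.coeff y := by
    intro s hs y
    have h := congrArg (fun z => z.coeff y) (hc s hs)
    simp only [cj_coeff] at h
    exact h
  obtain ⟨F, hF⟩ : ∃ F : G ⧸ G1 → k, ∀ g : G, F (QuotientGroup.mk g) = e1.coeff (g⁻¹ * x * g) := by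
    refine ⟨fun q => e1.coeff (q.out⁻¹ * x * q.out), fun g => ?_⟩
    have h1 : (QuotientGroup.mk g : G ⧸ G1).out⁻¹ * g ∈ G1 := by
      rw [← QuotientGroup.eq, QuotientGroup.out_eq']
    have h2 := hG1 _ h1 ((QuotientGroup.mk g : G ⧸ G1).out⁻¹ * x * (QuotientGroup.mk g : G ⧸ G1).out)
    show e1.coeff ((QuotientGroup.mk g : G ⧸ G1).out⁻¹ * x * (QuotientGroup.mk g : G ⧸ G1).out) = _
    rw [← h2]
    congr 1
    group
  have : Fintype (G ⧸ G1) := Fintype.ofFinite _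
  have hsum2 : e.coeff x = ∑ q : G ⧸ G1, F q := by
    have h1 : e.coeff x = ∑ r ∈ R, e1.coeff (r⁻¹ * x * r) := by
      rw [hsum, MonoidAlgebra.coeff_sum, Finsupp.finsetSum_apply]
      exact Finset.sum_congr rfl fun r _ => cj_coeff r e1 x
    rw [h1]
    refine Finset.sum_bij (fun r _ => (QuotientGroup.mk r : G ⧸ G1)) (fun _ _ => Finset.mem_univ _)
      ?_ ?_ ?_
    · intro r hr r' hr' h
      have h2 : r⁻¹ * r' ∈ G1 := QuotientGroup.eq.1 h
      obtain ⟨r0, -, -, hu⟩ := hR r'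
      rw [hu r hr h2, hu r' hr' (by rw [inv_mul_cancel]; exact G1.one_mem)]
    · intro q _
      obtain ⟨g, rfl⟩ := QuotientGroup.mk_surjective q
      obtain ⟨r, hr, hrg, -⟩ := hR g
      exact ⟨r, hr, QuotientGroup.eq.2 hrg⟩
    · intro r _
      rw [hF]
  have hFE : ∀ (p : E) (q : G ⧸ G1), F (p • q) = F q := by
    intro p q
    obtain ⟨g, rfl⟩ := QuotientGroup.mk_surjective q
    have h1 : p • (QuotientGroup.mk g : G ⧸ G1) = QuotientGroup.mk ((p : G) * g) := rfl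
    rw [h1, hF, hF]
    have h2 : ((p : G) * g)⁻¹ * x * ((p : G) * g) = g⁻¹ * ((p : G)⁻¹ * x * (p : G)) * g := by group
    rw [h2]
    by_cases hp : (p : G) ∈ D
    · have h3 := hx.1 _ (D.inv_mem hp)
      rw [inv_inv] at h3
      rw [h3]
    · have hp' : (p : G)⁻¹ ∉ D := fun h => hp (by simpa using D.inv_mem h)
      have h3 := hx.2 _ (E.inv_mem p.2) hp'
      rw [inv_inv] at h3
      rw [h3]
      have h4 : g⁻¹ * x⁻¹ * g = (g⁻¹ * x * g)⁻¹ := by group
      rw [h4, hinvc]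
  have hfix := sum_fixed (P := E) (X := G ⧸ G1) hE F hFE
  rw [hsum2, hfix] at hne
  obtain ⟨q, hq, hq0⟩ := Finset.exists_ne_zero_of_sum_ne_zero hne
  obtain ⟨g, rfl⟩ := QuotientGroup.mk_surjective q
  simp only [Finset.mem_filter, Finset.mem_univ, true_and] at hq
  refine ⟨g, ?_, by rwa [hF] at hq0⟩
  intro t ht
  have h1 := hq ⟨t, ht⟩
  have h2 : (QuotientGroup.mk (t * g) : G ⧸ G1) = QuotientGroup.mk g := h1
  have h3 := QuotientGroup.eq.1 h2.symm
  rwa [← mul_assoc] at h3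

end Pool.Agent.Helper44.S3
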