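import Pool.Agent.Helper44.S3.Defs2
import Pool.Agent.Helper44.S3.QA
import Pool.Agent.Helper44.S3.QB
import Pool.Agent.Helper44.S3.QC
import Pool.Agent.Helper44.S3.QE
import Pool.Agent.Helper36.NB.A2

set_option autoImplicit false
open scoped BigOperators MonoidAlgebra
open Classical

namespace Pool.Agent.Helper44.S3

open Pool.Agent.Helper36.NB

private theorem mem_map_conj {G : Type} [Group G] (D : Subgroup G) (g t : G) :
    t ∈ D.map (MulAut.conj g).toMonoidHom ↔ g⁻¹ * t * g ∈ D := by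
  constructor
  · rintro ⟨d, hd, rfl⟩
    have h : g⁻¹ * (MulAut.conj g).toMonoidHom d * g = d := by
      change g⁻¹ * (g * d * g⁻¹) * g = d
      group
    rwa [h]
  · intro h
    refine ⟨g⁻¹ * t * g, h, ?_⟩
    change g * (g⁻¹ * t * g) * g⁻¹ = t
    group

private theorem card_map_conj {G : Type} [Group G] (D : Subgroup G) (g : G) :
    Nat.card (D.map (MulAut.conj g).toMonoidHom) = Nat.card D :=
  Subgroup.card_map_of_injective (MulAut.conj g).injective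

/-- The subgroup `g0⁻¹ D g0` of `G1`. -/
private def dg {G : Type} [Group G] (G1 D : Subgroup G) (g0 : G) : Subgroup G1 :=
  D.comap ((MulAut.conj g0).toMonoidHom.comp G1.subtype)

private theorem mem_dg {G : Type} [Group G] (G1 D : Subgroup G) (g0 : G) (s : G1) :
    s ∈ dg G1 D g0 ↔ g0 * (s : G) * g0⁻¹ ∈ D := Iff.rfl

private theorem card_dg {G : Type} [Group G] [Finite G] (G1 D : Subgroup G) (g0 : G)
    (hg0 : ∀ t ∈ D, g0⁻¹ * t * g0 ∈ G1) : Nat.card D ≤ Nat.card (dg G1 D g0) := by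
  refine Nat.card_le_card_of_injective
    (fun t : D => (⟨⟨g0⁻¹ * (t : G) * g0, hg0 _ t.2⟩, ?_⟩ : dg G1 D g0)) ?_
  · rw [mem_dg]
    have h : g0 * (g0⁻¹ * (t : G) * g0) * g0⁻¹ = t := by group
    change g0 * (g0⁻¹ * (t : G) * g0) * g0⁻¹ ∈ D
    rw [h]
    exact t.2
  · intro t t' h
    have h1 : g0⁻¹ * (t : G) * g0 = g0⁻¹ * (t' : G) * g0 :=
      congrArg (fun y : dg G1 D g0 => ((y : G1) : G)) h
    exact Subtype.ext (mul_left_cancel (mul_right_cancel h1))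

private theorem isP_dg {G : Type} [Group G] (G1 E : Subgroup G) (g0 : G) (hE : IsPGroup 2 E) :
    IsPGroup 2 (dg G1 E g0) := by
  refine hE.comap_of_injective _ ?_
  intro a b h
  have h1 : g0 * (a : G) * g0⁻¹ = g0 * (b : G) * g0⁻¹ := h
  exact Subtype.ext (mul_left_cancel (mul_right_cancel h1))

private theorem pair_dg {G : Type} [Group G] (G1 D E : Subgroup G) (g0 : G) {x : G} {x' : G1}
    (hx' : (x' : G) = g0⁻¹ * x * g0) (h : PairIn D E x) :
    PairIn (dg G1 D g0) (dg G1 E g0) x' := by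
  constructor
  · intro d hd
    have h1 := h.1 _ hd
    change (g0 * (d : G) * g0⁻¹) * x * (g0 * (d : G) * g0⁻¹)⁻¹ = x at h1
    apply Subtype.ext
    change (d : G) * (x' : G) * (d : G)⁻¹ = x'
    rw [hx']
    calc (d : G) * (g0⁻¹ * x * g0) * (d : G)⁻¹
        = g0⁻¹ * ((g0 * (d : G) * g0⁻¹) * x * (g0 * (d : G) * g0⁻¹)⁻¹) * g0 := by group
      _ = g0⁻¹ * x * g0 := by rw [h1]
  · intro t ht ht'
    have h1 := h.2 _ ht ht'
    change (g0 * (t : G) * g0⁻¹) * x * (g0 * (t : G) * g0⁻¹)⁻¹ = x⁻¹ at h1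
    apply Subtype.ext
    change (t : G) * (x' : G) * (t : G)⁻¹ = (x' : G)⁻¹
    rw [hx']
    calc (t : G) * (g0⁻¹ * x * g0) * (t : G)⁻¹
        = g0⁻¹ * ((g0 * (t : G) * g0⁻¹) * x * (g0 * (t : G) * g0⁻¹)⁻¹) * g0 := by group
      _ = (g0⁻¹ * x * g0)⁻¹ := by rw [h1]; group

private theorem pair_map {G : Type} [Group G] (G1 : Subgroup G) {D1 E1 : Subgroup G1} {x1 : G1}
    (h : PairIn D1 E1 x1) : PairIn (D1.map G1.subtype) (E1.map G1.subtype) (x1 : G) := by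
  constructor
  · rintro _ ⟨d, hd, rfl⟩
    exact congrArg (fun y : G1 => (y : G)) (h.1 d hd)
  · rintro _ ⟨t, ht, rfl⟩ ht'
    exact congrArg (fun y : G1 => (y : G)) (h.2 t ht (fun h' => ht' ⟨t, h', rfl⟩))

private theorem final_iff {G : Type} [Group G] (G1 D : Subgroup G) (D1 : Subgroup G1) (g0 : G)
    (u g1 : G1) (hg0 : ∀ t ∈ D, g0⁻¹ * t * g0 ∈ G1)
    (hg1 : ∀ t, t ∈ (dg G1 D g0).map (MulAut.conj u⁻¹).toMonoidHom ↔ g1 * t * g1⁻¹ ∈ D1) (t : G) :
    t ∈ D ↔ ((g1 : G) * (u : G)⁻¹ * g0⁻¹) * t * ((g1 : G) * (u : G)⁻¹ * g0⁻¹)⁻¹ ∈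
      D1.map G1.subtype := by
  have key : ∀ s : G1, s ∈ dg G1 D g0 ↔ g1 * (u⁻¹ * s * u) * g1⁻¹ ∈ D1 := by
    intro s
    rw [← hg1, mem_map_conj]
    have h : (u⁻¹)⁻¹ * (u⁻¹ * s * u) * u⁻¹ = s := by group
    rw [h]
  constructor
  · intro ht
    have hs : (⟨g0⁻¹ * t * g0, hg0 t ht⟩ : G1) ∈ dg G1 D g0 := by
      rw [mem_dg]
      have h : g0 * (g0⁻¹ * t * g0) * g0⁻¹ = t := by group
      change g0 * (g0⁻¹ * t * g0) * g0⁻¹ ∈ D
      rw [h]
      exact ht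
    refine ⟨_, (key _).mp hs, ?_⟩
    change (g1 : G) * ((u : G)⁻¹ * (g0⁻¹ * t * g0) * (u : G)) * (g1 : G)⁻¹ = _
    group
  · rintro ⟨d, hd, hdt⟩
    change (d : G) = _ at hdt
    have hs : u * g1⁻¹ * d * g1 * u⁻¹ ∈ dg G1 D g0 := by
      rw [key]
      have h : g1 * (u⁻¹ * (u * g1⁻¹ * d * g1 * u⁻¹) * u) * g1⁻¹ = d := by group
      rw [h]
      exact hd
    rw [mem_dg] at hs
    change g0 * ((u : G) * (g1 : G)⁻¹ * (d : G) * (g1 : G) * (u : G)⁻¹) * g0⁻¹ ∈ D at hs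
    rw [hdt] at hs
    have h : g0 * ((u : G) * (g1 : G)⁻¹ *
        (((g1 : G) * (u : G)⁻¹ * g0⁻¹) * t * ((g1 : G) * (u : G)⁻¹ * g0⁻¹)⁻¹) *
        (g1 : G) * (u : G)⁻¹) * g0⁻¹ = t := by group
    rwa [h] at hs

private theorem incl_inv {R : Type} [CommRing R] {G : Type} [Group G] (H : Subgroup G)
    (a : MonoidAlgebra R H) : inv' (incl R H a) = incl R H (inv' a) := by
  ext g
  by_cases hg : g ∈ H
  · rw [inv'_coeff]
    have h1 := incl_coeff H a (⟨g, hg⟩⁻¹ : H)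
    have h2 := incl_coeff H (inv' a) (⟨g, hg⟩ : H)
    rw [inv'_coeff] at h2
    change (incl R H a).coeff g⁻¹ = _ at h1
    change (incl R H (inv' a)).coeff g = _ at h2
    rw [h1, h2]
  · rw [inv'_coeff, incl_supp H _ hg, incl_supp H _ (fun h => hg (by simpa using H.inv_mem h))]

private theorem incl_cj {R : Type} [CommRing R] {G : Type} [Group G] (H : Subgroup G)
    (a : MonoidAlgebra R H) (g : H) : cj (g : G) (incl R H a) = incl R H (cj g a) := by
  unfold cj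
  rw [map_mul, map_mul, incl_el, incl_el]
  rfl

/-- QG (hint). Work over `k = resK O`. (1) `descend`: there is `g0` with `g0⁻¹ E g0 ≤ G1` and
`e1.coeff (g0⁻¹ x g0) ≠ 0`; in the group `G1`, `ud` with `a = z1` from `exists_symm_inv` for `x1` gives `c ∈ G1`
conjugate to `x1` in `G1` and `PairIn (D^g0) (E^g0) c`. So `|D| ≤ |D1|`, `|E| ≤ |E1|` (`pair_le`).
(2) `exists_symm_inv` for `x` in `G` gives `z`, `classSum x * z = e` in `k[G]`; `a = z h` (`h` reduced mod the maximal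
ideal) commutes with `G1`, `inv' a = a`, `(classSum x * a).coeff x1 = (e h).coeff x1 = e1.coeff x1 ≠ 0`; `ud` with the
images of `D1`, `E1` in `G` gives `c'` conjugate to `x` with `PairIn D1 E1 c'`, so `|D1| ≤ |D|`, `|E1| ≤ |E|`.
(3) Conjugate `(D^g0, E^g0)` in `G1` so that `c` becomes `x1` and use `pair_conj` in `G1`. -/
theorem defect_transfer (O : ValuationSubring ℂ) {G : Type} [Group G] [Fintype G]
    (h2 : (2 : O) ∈ IsLocalRing.maximalIdeal O) (e : MonoidAlgebra O G) (he : e * e = e)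
    (hec : ∀ a, a * e = e * a) (her : inv' e = e) (S : SimpleQuot (toK O G e)) {x : G}
    (hx : IsDefectClass O e x) (hxr : IsConj x x⁻¹) {D E : Subgroup G} (h : IsDefectPair x D E)
    (G1 : Subgroup G) (e1 : MonoidAlgebra O G1) (he1 : e1 * e1 = e1)
    (he1c : ∀ a, a * e1 = e1 * a) (he1r : inv' e1 = e1) (S1 : SimpleQuot (toK O G1 e1))
    {R : Finset G} (hR : IsTrans G1 R) (hsum : e = ∑ r ∈ R, cj r (incl O G1 e1))
    (h0 : MonoidAlgebra O G) (heh : incl O G1 e1 = e * h0) (hinv : inv' h0 = h0)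
    (hfix : ∀ g ∈ G1, cj g h0 = h0) {x1 : G1} (hx1 : IsDefectClass O e1 x1)
    (hx1r : IsConj x1 x1⁻¹) {D1 E1 : Subgroup G1} (h1 : IsDefectPair x1 D1 E1) :
    ∃ g : G, (∀ t, t ∈ D ↔ g * t * g⁻¹ ∈ D1.map G1.subtype) ∧
      ∀ t, t ∈ E ↔ g * t * g⁻¹ ∈ E1.map G1.subtype := by
  haveI : CharP (resK O) 2 := resK_charP O h2
  obtain ⟨hE2, hP, hidx⟩ := pair_basic h
  obtain ⟨hE12, hP1, hidx1⟩ := pair_basic h1
  -- facts about the reductions
  have hebI : toK O G e * toK O G e = toK O G e := by rw [← map_mul, he]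
  have hebc : ∀ a, a * toK O G e = toK O G e * a := by
    intro a
    obtain ⟨a', rfl⟩ := toK_surjective O a
    rw [← map_mul, hec, map_mul]
  have hebr : inv' (toK O G e) = toK O G e := by rw [← toK_inv', her]
  have hnil : ¬ IsNilpotent (classSum (resK O) x * toK O G e) := by
    rw [← classSum_toK, ← map_mul]
    exact hx.2.2
  have he1I : toK O G1 e1 * toK O G1 e1 = toK O G1 e1 := by rw [← map_mul, he1]
  have he1bc : ∀ a, a * toK O G1 e1 = toK O G1 e1 * a := by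
    intro a
    obtain ⟨a', rfl⟩ := toK_surjective O a
    rw [← map_mul, he1c, map_mul]
  have he1br : inv' (toK O G1 e1) = toK O G1 e1 := by rw [← toK_inv', he1r]
  have hnil1 : ¬ IsNilpotent (classSum (resK O) x1 * toK O G1 e1) := by
    rw [← classSum_toK, ← map_mul]
    exact hx1.2.2
  -- the element f1
  obtain ⟨f1, hf1⟩ : ∃ f1, f1 = toK O G (incl O G1 e1) := ⟨_, rfl⟩
  have hf1' : f1 = incl (resK O) G1 (toK O G1 e1) := by rw [hf1, toK_incl]
  have hf1c : ∀ g ∈ G1, cj g f1 = f1 := by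
    intro g hg
    have h3 := incl_cj G1 (toK O G1 e1) ⟨g, hg⟩
    rw [cj_of_central he1bc, ← hf1'] at h3
    exact h3
  have hf1inv : inv' f1 = f1 := by rw [hf1', incl_inv, he1br]
  have hf1sum : toK O G e = ∑ r ∈ R, cj r f1 := by
    rw [hsum, map_sum]
    refine Finset.sum_congr rfl fun r _ => ?_
    rw [toK_cj, hf1]
  have hne : (toK O G e).coeff x ≠ 0 := by
    rw [toK_apply]
    exact hx.2.1
  obtain ⟨g0, hg0, hne1⟩ := descend G1 (toK O G e) f1 hf1c hf1inv hR hf1sum D E hE2 h.1 x hP hne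
  have hx'G : g0⁻¹ * x * g0 ∈ G1 := by
    by_contra hcon
    exact hne1 (by rw [hf1', incl_supp G1 _ hcon])
  obtain ⟨x', hx'⟩ : ∃ x' : G1, (x' : G) = g0⁻¹ * x * g0 := ⟨⟨_, hx'G⟩, rfl⟩
  have hne1' : (toK O G1 e1).coeff x' ≠ 0 := by
    rw [← hx', hf1', incl_coeff] at hne1
    exact hne1
  -- (2) inside G1
  obtain ⟨z1, hz1c, hz1r, hz1⟩ := exists_symm_inv (toK O G1 e1) he1I he1bc he1br S1 x1 hx1r hnil1
  obtain ⟨c, hc, hcP⟩ := ud z1 hz1r (dg G1 D g0) (dg G1 E g0) (isP_dg G1 E g0 hE2)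
    (Subgroup.comap_mono h.1)
    (by
      intro t ht t' ht' hn hn'
      have h3 := hidx _ ht _ ht' hn hn'
      rw [mem_dg]
      have h4 : g0 * ((t * t' : G1) : G) * g0⁻¹ =
          (g0 * (t : G) * g0⁻¹) * (g0 * (t' : G) * g0⁻¹) := by
        rw [Subgroup.coe_mul]; group
      rw [h4]
      exact h3)
    (fun t _ => hz1c _) x' x1 (hz1c _) (pair_dg G1 D E g0 hx' hP) hx1r (by rw [hz1]; exact hne1')
  obtain ⟨u, hu⟩ := isConj_iff.mp hc
  have hP2 := pairIn_conj hcP u⁻¹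
  have hux : u⁻¹ * c * u⁻¹⁻¹ = x1 := by rw [← hu]; group
  rw [hux] at hP2
  have hE22 : IsPGroup 2 ((dg G1 E g0).map (MulAut.conj u⁻¹).toMonoidHom) :=
    (isP_dg G1 E g0 hE2).map _
  have hDE2 : (dg G1 D g0).map (MulAut.conj u⁻¹).toMonoidHom ≤
      (dg G1 E g0).map (MulAut.conj u⁻¹).toMonoidHom :=
    Subgroup.map_mono (Subgroup.comap_mono h.1)
  -- (3) inside G
  obtain ⟨z, hzc, hzr, hz⟩ := exists_symm_inv (toK O G e) hebI hebc hebr S x hxr hnil
  have hh0inv : inv' (toK O G h0) = toK O G h0 := by rw [← toK_inv', hinv]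
  have hh0fix : ∀ g ∈ G1, el (resK O) g * toK O G h0 = toK O G h0 * el (resK O) g := by
    intro g hg
    rw [← cj_eq_iff, ← toK_cj, hfix g hg]
  have hacen : ∀ g ∈ G1, el (resK O) g * (z * toK O G h0) = z * toK O G h0 * el (resK O) g := by
    intro g hg
    rw [← mul_assoc, hzc, mul_assoc, hh0fix g hg, ← mul_assoc]
  have hainv : inv' (z * toK O G h0) = z * toK O G h0 := by
    rw [inv'_mul, hzr, hh0inv, hzc]
  have hane : (classSum (resK O) x * (z * toK O G h0)).coeff (x1 : G) ≠ 0 := by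
    rw [← mul_assoc, hz, ← map_mul, ← heh, toK_incl, incl_coeff, toK_apply]
    exact hx1.2.1
  have hE1m : IsPGroup 2 (E1.map G1.subtype) := hE12.map _
  obtain ⟨c', hc', hcP'⟩ := ud (z * toK O G h0) hainv (D1.map G1.subtype) (E1.map G1.subtype)
    hE1m (Subgroup.map_mono h1.1)
    (by
      rintro _ ⟨t, ht, rfl⟩ _ ⟨t', ht', rfl⟩ hn hn'
      exact ⟨t * t', hidx1 t ht t' ht' (fun h' => hn ⟨t, h', rfl⟩) (fun h' => hn' ⟨t', h', rfl⟩),
        rfl⟩)
    (by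
      rintro _ ⟨t, ht, rfl⟩
      exact hacen _ t.2)
    (x1 : G) x (hacen _ x1.2) (pair_map G1 hP1) hxr hane
  obtain ⟨v, hv⟩ := isConj_iff.mp hc'
  have hP3 := pairIn_conj hcP' v⁻¹
  have hvx : v⁻¹ * c' * v⁻¹⁻¹ = x := by rw [← hv]; group
  rw [hvx] at hP3
  have hle3 := pair_le h (hE1m.map _) (Subgroup.map_mono (Subgroup.map_mono h1.1)) hP3
  rw [card_map_conj, card_map_conj, Subgroup.card_map_of_injective (Subgroup.subtype_injective _),
    Subgroup.card_map_of_injective (Subgroup.subtype_injective _)] at hle3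
  -- (4) conclusion
  have hcD : Nat.card D1 ≤ Nat.card ((dg G1 D g0).map (MulAut.conj u⁻¹).toMonoidHom) := by
    rw [card_map_conj]
    exact hle3.1.trans (card_dg G1 D g0 (fun t ht => hg0 t (h.1 ht)))
  have hcE : Nat.card E1 ≤ Nat.card ((dg G1 E g0).map (MulAut.conj u⁻¹).toMonoidHom) := by
    rw [card_map_conj]
    exact hle3.2.trans (card_dg G1 E g0 hg0)
  obtain ⟨g1, hg1, hg1'⟩ := pair_conj h1 hE22 hDE2 hP2 hcD hcE
  exact ⟨(g1 : G) * (u : G)⁻¹ * g0⁻¹,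
    final_iff G1 D D1 g0 u g1 (fun t ht => hg0 t (h.1 ht)) hg1,
    final_iff G1 E E1 g0 u g1 hg0 hg1'⟩

end Pool.Agent.Helper44.S3
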