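import Pool.Agent.Helper44.S3.Defs2
import Pool.Agent.Helper44.S3.CJ
import Pool.Agent.Helper44.S3.TR

set_option autoImplicit false
open scoped BigOperators MonoidAlgebra
open Classical

namespace Pool.Agent.Helper44.S3

open Pool.Agent.Helper36.NB

variable {k : Type} [CommRing k] {G : Type} [Group G] [Finite G] {G1 : Subgroup G}
  {h : MonoidAlgebra k G}

private theorem ra_expand {k : Type} [CommRing k] {G : Type} [Group G] (a : MonoidAlgebra k G) :
    a = ∑ g ∈ a.coeff.support, a.coeff g • el k g := by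
  ext x
  rw [MonoidAlgebra.coeff_sum, Finsupp.finsetSum_apply]
  have h1 : ∀ g, (a.coeff g • el k g).coeff x = if g = x then a.coeff g else 0 := by
    intro g
    rw [MonoidAlgebra.coeff_smul, Finsupp.smul_apply, el_coeff, smul_eq_mul]
    split_ifs with h2
    · rw [mul_one]
    · rw [mul_zero]
  rw [Finset.sum_congr rfl (fun g _ => h1 g), Finset.sum_ite_eq']
  split_ifs with h2
  · rfl
  · rw [Finsupp.notMem_support_iff] at h2
    exact h2

private theorem ra_kill (hI : Impr G1 h) {b : MonoidAlgebra k G}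
    (hb : ∀ g ∈ G1, b.coeff g = 0) : h * b * h = 0 := by
  rw [ra_expand b, Finset.mul_sum, Finset.sum_mul]
  refine Finset.sum_eq_zero fun g hg => ?_
  have hg1 : g ∉ G1 := by
    intro h2
    rw [Finsupp.mem_support_iff] at hg
    exact hg (hb g h2)
  have h1 : el k g * h = cj g h * el k g := by
    unfold cj
    rw [mul_assoc (el k g * h), el_inv_mul_el, mul_one]
  rw [mul_smul_comm, smul_mul_assoc, mul_assoc, h1, ← mul_assoc, hI.orth g hg1, zero_mul,
    smul_zero]

/-- RA (Fong-Reynolds; hint). `h (el g) h = 0` for `g ∉ G1` (`el g * h = cj g h * el g`), so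
`e h = h e h = ∑_{g ∈ G1} e(g) h (el g)`. -/
theorem fr_supp (hI : Impr G1 h) {e : MonoidAlgebra k G} (hec : ∀ a, a * e = e * a) :
    ∀ g, g ∉ G1 → (e * h).coeff g = 0 := by
  have h1 : h * (e - incl k G1 (res G1 e)) * h = 0 := by
    refine ra_kill hI fun g hg => ?_
    have h2 := incl_coeff G1 (res G1 e) ⟨g, hg⟩
    rw [res_coeff] at h2
    rw [MonoidAlgebra.coeff_sub, Finsupp.sub_apply]
    rw [show (incl k G1 (res G1 e)).coeff g = e.coeff g from h2, sub_self]
  have h3 : e * h = h * incl k G1 (res G1 e) * h := by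
    rw [mul_sub, sub_mul, sub_eq_zero] at h1
    rw [← h1, hec h, mul_assoc, hI.idem]
  rw [h3]
  exact supp_mul G1 (supp_mul G1 hI.supp (fun g hg => incl_supp G1 _ hg)) hI.supp

/-- `e1 = res G1 (e h)`. -/
theorem fr_facts (hI : Impr G1 h) {e : MonoidAlgebra k G} (he : e * e = e)
    (hec : ∀ a, a * e = e * a) (her : inv' e = e) {R : Finset G} (hR : IsTrans G1 R)
    (hcov : e * ∑ r ∈ R, cj r h = e) :
    incl k G1 (res G1 (e * h)) = e * h ∧
      res G1 (e * h) * res G1 (e * h) = res G1 (e * h) ∧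
      (∀ a, a * res G1 (e * h) = res G1 (e * h) * a) ∧
      inv' (res G1 (e * h)) = res G1 (e * h) ∧ e = ∑ r ∈ R, cj r (e * h) := by
  have h0 : incl k G1 (res G1 (e * h)) = e * h := incl_res G1 (fr_supp hI hec)
  refine ⟨h0, ?_, ?_, ?_, ?_⟩
  · apply incl_injective G1
    rw [map_mul, h0]
    calc e * h * (e * h) = e * (h * e) * h := by noncomm_ring
      _ = e * (e * h) * h := by rw [hec h]
      _ = (e * e) * (h * h) := by noncomm_ring
      _ = e * h := by rw [he, hI.idem]
  · intro a
    apply incl_injective G1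
    rw [map_mul, map_mul, h0]
    have h1 : incl k G1 a * h = h * incl k G1 a :=
      comm_of_supp G1 (fun g hg => incl_supp G1 a hg)
        (fun g hg => (cj_eq_iff g h).1 (hI.fix g hg))
    calc incl k G1 a * (e * h) = (incl k G1 a * e) * h := by noncomm_ring
      _ = e * (incl k G1 a * h) := by rw [hec, mul_assoc]
      _ = e * h * incl k G1 a := by rw [h1, mul_assoc]
  · have h2 : inv' (e * h) = e * h := by
      rw [inv'_mul, her, hI.inv, hec]
    ext g
    rw [inv'_coeff, res_coeff, res_coeff]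
    have h3 := congrArg (fun z => z.coeff (g : G)) h2
    simp only [inv'_coeff] at h3
    exact h3
  · have h4 : ∀ r ∈ R, cj r (e * h) = e * cj r h := by
      intro r _
      rw [cj_mul, cj_of_central hec]
    rw [Finset.sum_congr rfl h4, ← Finset.mul_sum, hcov]

/-- Conjugates of `h` are equal or orthogonal, `z = ∑ r h r⁻¹` is a central idempotent (`trans_central`),
`z h = h`. Since `e` is a block and `e z h = e h ≠ 0`, `e z = e`. -/
theorem fr_cover (hI : Impr G1 h) {e : MonoidAlgebra k G} (hb : IsBlock e) (hne : e * h ≠ 0)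
    {R : Finset G} (hR : IsTrans G1 R) : e * ∑ r ∈ R, cj r h = e := by
  have hzc : ∀ y, y * ∑ r ∈ R, cj r h = (∑ r ∈ R, cj r h) * y := trans_central hR h hI.fix
  have hort : ∀ r ∈ R, ∀ r' ∈ R, r ≠ r' → cj r h * cj r' h = 0 := by
    intro r hr r' hr' hne'
    have h1 : r⁻¹ * r' ∉ G1 := by
      intro h2
      obtain ⟨r0, _, _, hu⟩ := hR r'
      have h3 := hu r hr h2
      have h4 := hu r' hr' (by rw [inv_mul_cancel]; exact G1.one_mem)
      exact hne' (h3.trans h4.symm)
    have h2 : cj r' h = cj r (cj (r⁻¹ * r') h) := by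
      rw [cj_cj, mul_inv_cancel_left]
    rw [h2, ← cj_mul, hI.orth _ h1]
    unfold cj
    rw [mul_zero, zero_mul]
  have hidem : (∑ r ∈ R, cj r h) * ∑ r ∈ R, cj r h = ∑ r ∈ R, cj r h := by
    rw [Finset.sum_mul]
    refine Finset.sum_congr rfl fun r hr => ?_
    rw [Finset.mul_sum, Finset.sum_eq_single_of_mem r hr, ← cj_mul, hI.idem]
    intro r' hr' hne'
    exact hort r hr r' hr' hne'.symm
  have hzh : (∑ r ∈ R, cj r h) * h = h := by
    obtain ⟨r0, hr0, hr0G, hu⟩ := hR 1
    rw [mul_one] at hr0G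
    have hr0G' : r0 ∈ G1 := by
      have := G1.inv_mem hr0G
      rwa [inv_inv] at this
    rw [Finset.sum_mul, Finset.sum_eq_single_of_mem r0 hr0, hI.fix r0 hr0G', hI.idem]
    intro r hr hne'
    have h1 := hort r hr r0 hr0 hne'
    rwa [hI.fix r0 hr0G'] at h1
  rcases hb.2.2.2 _ hidem hzc with h1 | h1
  · exfalso
    apply hne
    calc e * h = e * ((∑ r ∈ R, cj r h) * h) := by rw [hzh]
      _ = (e * ∑ r ∈ R, cj r h) * h := by rw [mul_assoc]
      _ = ((∑ r ∈ R, cj r h) * e) * h := by rw [hzc]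
      _ = 0 := by rw [h1, zero_mul]
  · rw [hzc, h1]

end Pool.Agent.Helper44.S3
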