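import Pool.Agent.Helper44.S3.Defs2
import Pool.Agent.Helper44.S3.RA

set_option autoImplicit false
open scoped BigOperators MonoidAlgebra
open Classical

namespace Pool.Agent.Helper44.S3

open Pool.Agent.Helper36.NB

/-- RB (hint). Let `f` be a central idempotent of `k[G1]`; replace it by `f e1`, `e1 = res G1 (e h)`, and put
`f' = ∑ r (incl f) r⁻¹`, `r ∈ R`: since `incl f = incl f * h` the summands are orthogonal, `f'` is a central idempotent
of `k[G]`, `f' e = f'`, so `f' = 0` or `e`, and `f = f' h`. `e1 ≠ 0` since `e = ∑ r (e h) r⁻¹`. -/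
theorem fr_block {k : Type} [CommRing k] {G : Type} [Group G] [Finite G] {G1 : Subgroup G}
    {h : MonoidAlgebra k G} (hI : Impr G1 h) {e : MonoidAlgebra k G} (hb : IsBlock e)
    (her : inv' e = e) {R : Finset G} (hR : IsTrans G1 R) (hcov : e * ∑ r ∈ R, cj r h = e) :
    IsBlock (res G1 (e * h)) := by
  obtain ⟨he0, hee, hec, hprim⟩ := hb
  obtain ⟨hincl, hidem, hcen, -, hsum⟩ := fr_facts hI hee hec her hR hcov
  have hcj0 : ∀ g : G, cj g (0 : MonoidAlgebra k G) = 0 := by
    intro g
    unfold cj
    rw [mul_zero, zero_mul]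
  refine ⟨?_, hidem, hcen, ?_⟩
  · intro h0
    rw [h0, map_zero] at hincl
    apply he0
    rw [hsum, ← hincl]
    exact Finset.sum_eq_zero fun r _ => hcj0 r
  · intro f hff hfc
    set e1 := res G1 (e * h) with he1
    -- the element F
    obtain ⟨F, hF⟩ : ∃ F : MonoidAlgebra k G, F = incl k G1 (f * e1) := ⟨_, rfl⟩
    have hf1c : ∀ a, a * (f * e1) = (f * e1) * a := by
      intro a
      rw [← mul_assoc, hfc, mul_assoc, hcen, mul_assoc]
    have hf1e : (f * e1) * e1 = f * e1 := by rw [mul_assoc, hidem]
    have hf1f : (f * e1) * (f * e1) = f * e1 := by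
      calc (f * e1) * (f * e1) = f * (e1 * f) * e1 := by noncomm_ring
        _ = f * (f * e1) * e1 := by rw [hfc e1]
        _ = (f * f) * (e1 * e1) := by noncomm_ring
        _ = f * e1 := by rw [hff, hidem]
    have hFeh : F * (e * h) = F := by
      rw [hF, ← hincl, ← map_mul, hf1e]
    have hFh : F * h = F := by
      conv_lhs => rw [← hFeh]
      rw [mul_assoc, mul_assoc, hI.idem, hFeh]
    have hhe : h * e = e * h := hec h
    have hFe : F * e = F := by
      conv_lhs => rw [← hFeh]
      rw [mul_assoc, mul_assoc, hhe, ← mul_assoc e, hee, hFeh]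
    have hFF : F * F = F := by rw [hF, ← map_mul, hf1f]
    have hFfix : ∀ g ∈ G1, cj g F = F := by
      intro g hg
      rw [cj_eq_iff, hF]
      have h1 : el k g = incl k G1 (el k (⟨g, hg⟩ : G1)) := by rw [incl_el]
      rw [h1, ← map_mul, ← map_mul, hf1c]
    have hFsupp : ∀ g, g ∉ G1 → F.coeff g = 0 := by
      intro g hg
      rw [hF]
      exact incl_supp G1 _ hg
    have hhF : h * F = F := by
      rw [← comm_of_supp G1 hFsupp (fun g hg => (cj_eq_iff g h).1 (hI.fix g hg)), hFh]
    have horth : ∀ g, g ∉ G1 → F * cj g F = 0 := by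
      intro g hg
      have h1 : F * cj g F = F * (h * cj g h) * cj g F := by
        rw [mul_assoc, mul_assoc, ← cj_mul, hhF, ← mul_assoc, hFh]
      rw [h1, hI.orth g hg, mul_zero, zero_mul]
    have huniq : ∀ r ∈ R, ∀ s ∈ R, r⁻¹ * s ∈ G1 → r = s := by
      intro r hr s hs hrs
      obtain ⟨r0, -, -, hu⟩ := hR s
      rw [hu r hr hrs, hu s hs (by rw [inv_mul_cancel]; exact G1.one_mem)]
    obtain ⟨f', hf'⟩ : ∃ f' : MonoidAlgebra k G, f' = ∑ r ∈ R, cj r F := ⟨_, rfl⟩
    have hf'c : ∀ a, a * f' = f' * a := by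
      intro a
      rw [hf']
      exact trans_central hR F hFfix a
    have hf'f' : f' * f' = f' := by
      have h1 : ∀ r ∈ R, cj r F * f' = cj r F := by
        intro r hr
        rw [hf', Finset.mul_sum, Finset.sum_eq_single r]
        · rw [← cj_mul, hFF]
        · intro s hs hsr
          have h2 : cj r F * cj s F = cj r (F * cj (r⁻¹ * s) F) := by
            rw [cj_mul, cj_cj, mul_inv_cancel_left]
          rw [h2, horth _ (fun h3 => hsr (huniq r hr s hs h3).symm), hcj0]
        · intro h2
          exact absurd hr h2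
      have h2 : f' * f' = (∑ r ∈ R, cj r F) * f' := by rw [← hf']
      rw [h2, Finset.sum_mul, Finset.sum_congr rfl h1, ← hf']
    have hf'e : f' * e = f' := by
      rw [hf', Finset.sum_mul]
      refine Finset.sum_congr rfl fun r _ => ?_
      conv_lhs => rw [← cj_of_central hec r]
      rw [← cj_mul, hFe]
    have hf'h : f' * h = F := by
      obtain ⟨r0, hr0, hr01, hu⟩ := hR 1
      have hr0' : r0 ∈ G1 := by
        rw [mul_one] at hr01
        exact G1.inv_mem_iff.1 hr01
      rw [hf', Finset.sum_mul, Finset.sum_eq_single r0]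
      · rw [hFfix r0 hr0', hFh]
      · intro r hr hrr
        have hrG : r⁻¹ ∉ G1 := by
          intro h3
          apply hrr
          apply hu r hr
          rw [mul_one]
          exact h3
        have h2 : cj r F * h = cj r (F * (h * cj r⁻¹ h)) := by
          rw [← mul_assoc, hFh, cj_mul, cj_cj, mul_inv_cancel, cj_one]
        rw [h2, hI.orth _ hrG, mul_zero, hcj0]
      · intro h2
        exact absurd hr0 h2
    rcases hprim f' hf'f' hf'c with h1 | h1
    · left
      rw [hf'e] at h1
      rw [h1, zero_mul] at hf'h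
      apply incl_injective G1
      rw [← hF, ← hf'h, map_zero]
    · right
      rw [hf'e] at h1
      apply incl_injective G1
      rw [← hF, ← hf'h, h1, hincl]

end Pool.Agent.Helper44.S3
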