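import Pool.Agent.Helper44.S3.Defs2
import Pool.Agent.Helper44.S3.RA
import Pool.Agent.Helper44.S3.CJ
import Pool.Agent.Helper44.S3.TR
import Pool.Agent.Helper36.NB.C1

set_option autoImplicit false
open scoped BigOperators MonoidAlgebra
open Classical

namespace Pool.Agent.Helper44.S3

open Pool.Agent.Helper36.NB

/-- Factorisation of an idempotent matrix. -/
private theorem rc_factor {k : Type} [Field k] {n : ℕ} (p : Mt k n) (hp : p * p = p) :
    ∃ (m : ℕ) (X : Matrix (Fin n) (Fin m) k) (Y : Matrix (Fin m) (Fin n) k),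
      p.rank = m ∧ Y * X = 1 ∧ X * Y = p := by
  let W : Submodule k (Fin n → k) := LinearMap.range p.mulVecLin
  have hW : Module.finrank k W = p.rank := rfl
  let b : Module.Basis (Fin p.rank) k W := Module.finBasisOfFinrankEq k W hW
  let i : (Fin p.rank → k) →ₗ[k] (Fin n → k) := W.subtype ∘ₗ b.equivFun.symm.toLinearMap
  let q : (Fin n → k) →ₗ[k] (Fin p.rank → k) := b.equivFun.toLinearMap ∘ₗ p.mulVecLin.rangeRestrict
  have hfix : ∀ w : W, p.mulVecLin.rangeRestrict (w : Fin n → k) = w := by
    rintro ⟨w, v, rfl⟩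
    apply Subtype.ext
    change p.mulVecLin (p.mulVecLin v) = p.mulVecLin v
    simp only [Matrix.mulVecLin_apply, Matrix.mulVec_mulVec, hp]
  have hqi : q ∘ₗ i = LinearMap.id := by
    apply LinearMap.ext
    intro v
    change b.equivFun (p.mulVecLin.rangeRestrict ((b.equivFun.symm v : W) : Fin n → k)) = v
    rw [hfix, LinearEquiv.apply_symm_apply]
  have hiq : i ∘ₗ q = p.mulVecLin := by
    apply LinearMap.ext
    intro v
    change ((b.equivFun.symm (b.equivFun (p.mulVecLin.rangeRestrict v)) : W) : Fin n → k) = _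
    rw [LinearEquiv.symm_apply_apply]
    rfl
  refine ⟨p.rank, LinearMap.toMatrix' i, LinearMap.toMatrix' q, rfl, ?_, ?_⟩
  · rw [← LinearMap.toMatrix'_comp, hqi, LinearMap.toMatrix'_id]
  · rw [← LinearMap.toMatrix'_comp, hiq]
    have h1 : p.mulVecLin = Matrix.toLin' p := rfl
    rw [h1, LinearMap.toMatrix'_toLin']

private theorem rc_rank_sum {k : Type} [Field k] {n : ℕ} {ι : Type} (s : Finset ι)
    (P : ι → Mt k n) (m : ℕ) (hid : ∀ i ∈ s, P i * P i = P i)
    (horth : ∀ i ∈ s, ∀ j ∈ s, i ≠ j → P i * P j = 0) (hr : ∀ i ∈ s, (P i).rank = m) :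
    (∑ i ∈ s, P i).rank = s.card * m := by
  induction s using Finset.induction_on with
  | empty => simp
  | insert a s ha ih =>
    have hne : ∀ i ∈ s, i ≠ a := fun i hi h => ha (h ▸ hi)
    have ih' := ih (fun i hi => hid i (Finset.mem_insert_of_mem hi))
      (fun i hi j hj => horth i (Finset.mem_insert_of_mem hi) j (Finset.mem_insert_of_mem hj))
      (fun i hi => hr i (Finset.mem_insert_of_mem hi))
    have hss : (∑ i ∈ s, P i) * (∑ i ∈ s, P i) = ∑ i ∈ s, P i := by
      rw [Finset.sum_mul]
      apply Finset.sum_congr rfl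
      intro i hi
      rw [Finset.mul_sum, Finset.sum_eq_single i]
      · exact hid i (Finset.mem_insert_of_mem hi)
      · intro j hj hji
        exact horth i (Finset.mem_insert_of_mem hi) j (Finset.mem_insert_of_mem hj) (Ne.symm hji)
      · intro h
        exact absurd hi h
    have has : P a * (∑ i ∈ s, P i) = 0 := by
      rw [Finset.mul_sum]
      apply Finset.sum_eq_zero
      intro i hi
      exact horth a (Finset.mem_insert_self a s) i (Finset.mem_insert_of_mem hi)
        (Ne.symm (hne i hi))
    have hsa : (∑ i ∈ s, P i) * P a = 0 := by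
      rw [Finset.sum_mul]
      apply Finset.sum_eq_zero
      intro i hi
      exact horth i (Finset.mem_insert_of_mem hi) a (Finset.mem_insert_self a s) (hne i hi)
    rw [Finset.sum_insert ha, C1aux.rank_add_orth _ _ (hid a (Finset.mem_insert_self a s)) hss has hsa,
      ih', hr a (Finset.mem_insert_self a s), Finset.card_insert_of_notMem ha]
    ring

private theorem rc_rank_conj {k : Type} [Field k] {n : ℕ} (u v p : Mt k n) (huv : u * v = 1) :
    (u * p * v).rank = p.rank := by
  have hvu : v * u = 1 := mul_eq_one_comm.mp huv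
  apply le_antisymm
  · exact (Matrix.rank_mul_le_left _ _).trans (Matrix.rank_mul_le_right _ _)
  · have h1 : p = v * (u * p * v) * u := by
      calc p = 1 * p * 1 := by rw [one_mul, mul_one]
        _ = v * (u * p * v) * u := by rw [← hvu]; simp only [mul_assoc]
    calc p.rank = (v * (u * p * v) * u).rank := by rw [← h1]
      _ ≤ (v * (u * p * v)).rank := Matrix.rank_mul_le_left _ _
      _ ≤ (u * p * v).rank := Matrix.rank_mul_le_right _ _

/-- `h x h = 0` for `x` supported outside `G1`. -/
private theorem rc_off {k : Type} [CommRing k] {G : Type} [Group G] {G1 : Subgroup G}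
    {h : MonoidAlgebra k G} (hI : Impr G1 h) (x : MonoidAlgebra k G)
    (hx : ∀ g ∈ G1, x.coeff g = 0) : h * x * h = 0 := by
  have h1 : x = ∑ g ∈ x.coeff.support, x.coeff g • el k g := by
    ext g
    rw [MonoidAlgebra.coeff_sum, Finset.sum_apply']
    simp only [MonoidAlgebra.coeff_smul, Finsupp.smul_apply, el_coeff]
    by_cases hg : g ∈ x.coeff.support
    · rw [Finset.sum_eq_single g]
      · simp
      · intro j _ hj
        rw [if_neg hj, smul_zero]
      · intro h
        exact absurd hg h
    · rw [Finset.sum_eq_zero]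
      · exact Finsupp.notMem_support_iff.mp hg
      · intro j hj
        rw [if_neg (fun h2 : j = g => hg (h2 ▸ hj)), smul_zero]
  rw [h1, Finset.mul_sum, Finset.sum_mul]
  apply Finset.sum_eq_zero
  intro g hg
  have hgn : g ∉ G1 := fun h => (Finsupp.mem_support_iff.mp hg) (hx g h)
  have h2 : h * el k g * h = 0 := by
    calc h * el k g * h = h * (el k g * h * el k g⁻¹) * el k g := by
          simp only [mul_assoc, el_inv_mul_el, mul_one]
      _ = 0 := by
          have := hI.orth g hgn
          rw [cj] at this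
          rw [this, zero_mul]
  rw [mul_smul_comm, smul_mul_assoc, h2, smul_zero]

/-- RC (hint). `p = S.ρ h` is idempotent, the `S.ρ (cj r h)`, `r ∈ R`, are orthogonal idempotents with sum `1`
(`S.ρ e = 1`) and of the same rank, so `S.n = |R| rank p` (`rank_add_orth`, `trans_card`). With
`Y X = 1`, `X Y = p` (`X : n × n1`, `Y : n1 × n`, `n1 = rank p`) put `ρ1 a = Y (S.ρ (incl a)) X`, multiplicative
because `h` commutes with `G1`; surjective: `p (S.ρ c) p = S.ρ (h c h)` and `h (el g) h = 0` for `g ∉ G1`;
`ρ1 a = 0` implies `S.ρ (incl a * h) = 0`, so `incl a * h * e = incl (a * e1)` is nilpotent. -/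
theorem fr_simple {k : Type} [Field k] {G : Type} [Group G] [Finite G] {G1 : Subgroup G}
    {h : MonoidAlgebra k G} (hI : Impr G1 h) {e : MonoidAlgebra k G} (he : e * e = e)
    (hec : ∀ a, a * e = e * a) (her : inv' e = e) {R : Finset G} (hR : IsTrans G1 R)
    (hcov : e * ∑ r ∈ R, cj r h = e) (S : SimpleQuot e) :
    ∃ S1 : SimpleQuot (res G1 (e * h)), S.n = G1.index * S1.n := by
  obtain ⟨hinc, -, -, -, -⟩ := fr_facts hI he hec her hR hcov
  set p : Mt k S.n := S.ρ h with hp
  have hpp : p * p = p := by rw [hp, ← map_mul, hI.idem]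
  obtain ⟨n1, X, Y, hrk, hYX, hXY⟩ := rc_factor p hpp
  have hYp : Y * p = Y := by rw [← hXY, ← Matrix.mul_assoc, hYX, Matrix.one_mul]
  have hpX : p * X = X := by rw [← hXY, Matrix.mul_assoc, hYX, Matrix.mul_one]
  -- the elements of `k[G1]` commute with `h`
  have hcomm : ∀ a : MonoidAlgebra k G1, incl k G1 a * h = h * incl k G1 a := by
    intro a
    apply comm_of_supp G1 (fun g hg => incl_supp G1 a hg)
    intro g hg
    exact (cj_eq_iff g h).mp (hI.fix g hg)
  have hpc : ∀ a : MonoidAlgebra k G1, S.ρ (incl k G1 a) * p = p * S.ρ (incl k G1 a) := by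
    intro a
    rw [hp, ← map_mul, ← map_mul, hcomm]
  have hmul : ∀ a b : MonoidAlgebra k G1, Y * S.ρ (incl k G1 (a * b)) * X =
      (Y * S.ρ (incl k G1 a) * X) * (Y * S.ρ (incl k G1 b) * X) := by
    intro a b
    calc Y * S.ρ (incl k G1 (a * b)) * X
        = Y * S.ρ (incl k G1 a) * (S.ρ (incl k G1 b) * X) := by
          rw [map_mul, map_mul]; simp only [Matrix.mul_assoc]
      _ = Y * p * S.ρ (incl k G1 a) * (S.ρ (incl k G1 b) * X) := by rw [hYp]
      _ = Y * (S.ρ (incl k G1 a) * p) * (S.ρ (incl k G1 b) * X) := by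
          rw [hpc]; simp only [Matrix.mul_assoc]
      _ = (Y * S.ρ (incl k G1 a) * X) * (Y * S.ρ (incl k G1 b) * X) := by
          rw [← hXY]; simp only [Matrix.mul_assoc]
  have hincl_smul : ∀ (r : k) (a : MonoidAlgebra k G1),
      incl k G1 (r • a) = r • incl k G1 a := by
    intro r a
    ext g
    by_cases hg : g ∈ G1
    · have h1 := incl_coeff G1 (r • a) ⟨g, hg⟩
      have h2 := incl_coeff G1 a ⟨g, hg⟩
      simp only at h1 h2
      rw [h1, MonoidAlgebra.coeff_smul, MonoidAlgebra.coeff_smul, Finsupp.smul_apply,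
        Finsupp.smul_apply, h2]
    · rw [incl_supp G1 _ hg, MonoidAlgebra.coeff_smul, Finsupp.smul_apply, incl_supp G1 _ hg,
        smul_zero]
  let L : MonoidAlgebra k G1 →ₗ[k] Mt k n1 :=
    { toFun := fun a => Y * S.ρ (incl k G1 a) * X
      map_add' := fun a b => by
        rw [map_add, map_add, Matrix.mul_add, Matrix.add_mul]
      map_smul' := fun r a => by
        rw [hincl_smul, map_smul, Matrix.mul_smul, Matrix.smul_mul, RingHom.id_apply] }
  have hone : L 1 = 1 := by
    change Y * S.ρ (incl k G1 1) * X = 1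
    rw [map_one, map_one, Matrix.mul_one, hYX]
  let ρ1 : MonoidAlgebra k G1 →ₐ[k] Mt k n1 := AlgHom.ofLinearMap L hone hmul
  have hρ1 : ∀ a, ρ1 a = Y * S.ρ (incl k G1 a) * X := fun a => rfl
  -- the rank formula
  have hcount : S.n = G1.index * n1 := by
    have h1 : S.ρ (∑ r ∈ R, cj r h) = 1 := by
      have h2 := congrArg S.ρ hcov
      rw [map_mul, S.one, one_mul] at h2
      exact h2
    have h3 : (∑ r ∈ R, S.ρ (cj r h)).rank = R.card * n1 := by
      apply rc_rank_sum
      · intro r _
        rw [← map_mul, ← cj_mul, hI.idem]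
      · intro r hr s hs hrs
        rw [← map_mul]
        have hns : r⁻¹ * s ∉ G1 := by
          intro hmem
          obtain ⟨r0, -, -, hu⟩ := hR s
          have h4 := hu r hr hmem
          have h5 := hu s hs (by rw [inv_mul_cancel]; exact G1.one_mem)
          exact hrs (h4.trans h5.symm)
        have h6 : cj r h * cj s h = cj r (h * cj (r⁻¹ * s) h) := by
          rw [cj_mul, cj_cj, mul_inv_cancel_left]
        rw [h6, hI.orth _ hns]
        have h7 : cj r (0 : MonoidAlgebra k G) = 0 := by rw [cj, mul_zero, zero_mul]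
        rw [h7, map_zero]
      · intro r _
        rw [cj, map_mul, map_mul, ← hrk]
        apply rc_rank_conj
        rw [← map_mul, el_mul_el_inv, map_one]
    rw [← map_sum, h1, Matrix.rank_one, Fintype.card_fin, trans_card hR] at h3
    exact h3
  have hpos : 0 < n1 := by
    rcases Nat.eq_zero_or_pos n1 with h0 | h0
    · have := S.pos
      rw [hcount, h0, mul_zero] at this
      exact absurd this (lt_irrefl 0)
    · exact h0
  refine ⟨{ n := n1, ρ := ρ1, pos := hpos, surj := ?_, one := ?_, nil := ?_ }, hcount⟩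
  · intro Z
    obtain ⟨c, hc⟩ := S.surj (X * Z * Y)
    refine ⟨res G1 c, ?_⟩
    rw [hρ1]
    have h1 : h * (c - incl k G1 (res G1 c)) * h = 0 := by
      apply rc_off hI
      intro g hg
      have h2 := incl_coeff G1 (res G1 c) ⟨g, hg⟩
      simp only at h2
      rw [MonoidAlgebra.coeff_sub, Finsupp.sub_apply, h2, res_coeff, sub_self]
    have h3 : h * incl k G1 (res G1 c) * h = h * c * h := by
      rw [mul_sub, sub_mul] at h1
      exact (sub_eq_zero.mp h1).symm
    have h4 : p * S.ρ (incl k G1 (res G1 c)) * p = p * (X * Z * Y) * p := by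
      have := congrArg S.ρ h3
      rw [map_mul, map_mul, map_mul, map_mul, hc, ← hp] at this
      exact this
    calc Y * S.ρ (incl k G1 (res G1 c)) * X
        = (Y * p) * S.ρ (incl k G1 (res G1 c)) * (p * X) := by rw [hYp, hpX]
      _ = Y * (p * S.ρ (incl k G1 (res G1 c)) * p) * X := by simp only [Matrix.mul_assoc]
      _ = Y * (p * (X * Z * Y) * p) * X := by rw [h4]
      _ = (Y * p * X) * Z * (Y * (p * X)) := by simp only [Matrix.mul_assoc]
      _ = Z := by rw [hYp, hpX, hYX, Matrix.one_mul, Matrix.mul_one]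
  · rw [hρ1, hinc, map_mul, S.one, one_mul, ← hp, hYp, hYX]
  · intro a ha
    rw [hρ1] at ha
    have h1 : S.ρ (incl k G1 a * h) = 0 := by
      rw [map_mul, ← hp]
      calc S.ρ (incl k G1 a) * p = S.ρ (incl k G1 a) * (p * p) := by rw [hpp]
        _ = p * S.ρ (incl k G1 a) * p := by rw [← mul_assoc, hpc]
        _ = X * (Y * S.ρ (incl k G1 a) * X) * Y := by
            rw [← hXY]; simp only [Matrix.mul_assoc]
        _ = 0 := by rw [ha, Matrix.mul_zero, Matrix.zero_mul]
    obtain ⟨N, hN⟩ := S.nil _ h1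
    refine ⟨N, ?_⟩
    apply incl_injective
    rw [map_pow, map_mul, hinc, map_zero]
    have h2 : incl k G1 a * (e * h) = incl k G1 a * h * e := by
      rw [mul_assoc, hec h]
    rw [h2, hN]

end Pool.Agent.Helper44.S3
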