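import Pool.Agent.Helper44.S3.Defs2
import Pool.Agent.Helper44.S3.CJ
import Pool.Agent.Helper36.NB.A2
import Pool.Agent.Helper36.NB.F2
import Pool.Agent.Helper36.NB.K3

set_option autoImplicit false
open scoped BigOperators MonoidAlgebra
open Classical

namespace Pool.Agent.Helper44.S3

open Pool.Agent.Helper36.NB

variable {O : ValuationSubring ℂ} {G : Type} [Group G]

namespace NAaux

theorem e_ne {H : Type} [Group H] [Fintype H] (I : IrrData H) (b : Fin I.r) : E0aux.e I b ≠ 0 := by
  intro h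
  have h1 := E0aux.chi_e I b b
  rw [h, if_pos rfl] at h1
  have h2 : I.chi b 0 = 0 := by simp [IrrData.chi]
  rw [h2] at h1
  have h3 := I.pos b
  have h4 : (I.d b : ℂ) ≠ 0 := by exact_mod_cast h3.ne'
  exact h4 h1.symm

theorem e_orth {H : Type} [Group H] [Fintype H] (I : IrrData H) (b b' : Fin I.r) :
    E0aux.e I b * E0aux.e I b' = if b = b' then E0aux.e I b else 0 := by
  by_cases h : b = b'
  · subst h
    rw [if_pos rfl, E0aux.e_mul_e]
  · rw [if_neg h]
    apply I.equiv.injective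
    rw [map_mul, E0aux.equiv_e, E0aux.equiv_e, map_zero]
    funext c
    rw [Pi.mul_apply]
    by_cases hc : c = b
    · subst hc
      rw [Pi.single_eq_of_ne h, mul_zero, Pi.zero_apply]
    · rw [Pi.single_eq_of_ne hc, zero_mul, Pi.zero_apply]

theorem e_sum {H : Type} [Group H] [Fintype H] (I : IrrData H) : ∑ b, E0aux.e I b = 1 := by
  apply I.equiv.injective
  rw [map_sum, map_one]
  funext c
  rw [Finset.sum_apply, Finset.sum_eq_single c]
  · rw [E0aux.equiv_e, Pi.single_eq_same, Pi.one_apply]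
  · intro b _ hb
    rw [E0aux.equiv_e, Pi.single_eq_of_ne (Ne.symm hb)]
  · simp

theorem inv'_incl {R : Type} [CommRing R] (H : Subgroup G) (a : MonoidAlgebra R H) :
    inv' (incl R H a) = incl R H (inv' a) := by
  induction a using MonoidAlgebra.induction_linear with
  | zero => rw [map_zero, inv'_zero, inv'_zero, map_zero]
  | add x y hx hy => rw [map_add, inv'_add, inv'_add, map_add, hx, hy]
  | single h r => simp [inv', incl]

end NAaux

/-- NA (hint). `|N| * coeff` is `I.d b * I.ch b n⁻¹` (`E0aux.e_coeff`), an algebraic integer, so an element of the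
valuation ring `O`; `|N|` is odd, so a unit of `O` (`odd_unit`). -/
theorem exists_oddBlocks [Finite G] (h2 : (2 : O) ∈ IsLocalRing.maximalIdeal O)
    (N : Subgroup G) (hN : Odd (Nat.card N)) : Nonempty (OddBlocks O N) := by
  have := Fintype.ofFinite N
  obtain ⟨I⟩ := exists_irrData N
  obtain ⟨u, hu⟩ := F2aux.odd_unit h2 hN
  have hmem : ∀ b (n : N), (E0aux.e I b).coeff n ∈ O := by
    intro b n
    have h1 := E0aux.e_coeff I b n
    have h3 : (I.d b : ℂ) * I.ch b n⁻¹ ∈ O :=
      K3aux.integral_mem O ((isIntegral_natCast _).mul (isChar_integral (ch_isChar I b) n⁻¹))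
    have h5 : ((↑u⁻¹ : O) : ℂ) * (Nat.card N : ℂ) = 1 := by
      have h6 : (↑u⁻¹ : O) * (u : O) = 1 := Units.inv_mul u
      rw [hu] at h6
      have h7 := congrArg (fun z : O => (z : ℂ)) h6
      simpa using h7
    have h4 : (E0aux.e I b).coeff n = ((↑u⁻¹ : O) : ℂ) * (I.d b * I.ch b n⁻¹) := by
      rw [← h1, ← mul_assoc, h5, one_mul]
    rw [h4]
    exact O.mul_mem _ _ (↑u⁻¹ : O).2 h3
  have hlift : ∀ b, ∃ F : MonoidAlgebra O G, toC O G F = incl ℂ N (E0aux.e I b) := by
    intro b
    refine ⟨incl O N (∑ n, (⟨_, hmem b n⟩ : O) • el O n), ?_⟩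
    rw [toC_incl]
    congr 1
    rw [map_sum]
    conv_rhs => rw [E0aux.expand (E0aux.e I b)]
    refine Finset.sum_congr rfl fun n _ => ?_
    rw [toC_smul, toC_el]
  choose F hF using hlift
  exact ⟨⟨I, F, hF⟩⟩

variable [Finite G] {N : Subgroup G} (B : OddBlocks O N)

theorem F_coeff (b : Fin B.I.r) (n : N) :
    (Nat.card N : ℂ) * ((B.F b).coeff (n : G) : ℂ) = B.I.d b * B.I.ch b n⁻¹ := by
  have := Fintype.ofFinite N
  rw [← toC_apply, B.toC_F, incl_coeff, E0aux.e_coeff]

theorem F_supp (b : Fin B.I.r) {g : G} (hg : g ∉ N) : (B.F b).coeff g = 0 := by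
  have h1 := toC_apply O (B.F b) g
  rw [B.toC_F, incl_supp N _ hg] at h1
  exact Subtype.ext h1.symm

theorem F_mul (b b' : Fin B.I.r) : B.F b * B.F b' = if b = b' then B.F b else 0 := by
  have := Fintype.ofFinite N
  apply toC_injective O
  rw [map_mul, B.toC_F, B.toC_F, ← map_mul, NAaux.e_orth]
  by_cases h : b = b'
  · rw [if_pos h, if_pos h, B.toC_F]
  · rw [if_neg h, if_neg h, map_zero, map_zero]

theorem F_sum : ∑ b, B.F b = 1 := by
  have := Fintype.ofFinite N
  apply toC_injective O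
  rw [map_sum, Finset.sum_congr rfl fun b _ => B.toC_F b, ← map_sum, NAaux.e_sum, map_one,
    map_one]

theorem F_ne (b : Fin B.I.r) : B.F b ≠ 0 := by
  have := Fintype.ofFinite N
  intro h
  have h1 := B.toC_F b
  rw [h, map_zero] at h1
  apply NAaux.e_ne B.I b
  apply incl_injective N
  rw [← h1, map_zero]

theorem F_inj {b b' : Fin B.I.r} (h : B.F b = B.F b') : b = b' := by
  by_contra hb
  have h1 := F_mul B b b'
  rw [if_neg hb, ← h, F_mul, if_pos rfl] at h1
  exact F_ne B b h1

theorem F_comm (b : Fin B.I.r) {h : G} (hh : h ∈ N) : el O h * B.F b = B.F b * el O h := by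
  have := Fintype.ofFinite N
  apply toC_injective O
  rw [map_mul, map_mul, toC_el, B.toC_F]
  have h1 := incl_el ℂ N ⟨h, hh⟩
  rw [← h1, ← map_mul, ← map_mul, E0aux.e_central]

/-- The centre of `O[N]`. Hint: over `ℂ` the element `z * F b` is a multiple `w • F b` (`central_scalar` for
`ℂ[N]`), and `F b` has a coefficient which is a unit of `O` (otherwise `toK (F b) = 0`, `idem_eq_zero`), so
`w ∈ O`. -/
theorem F_central (b : Fin B.I.r) (z : MonoidAlgebra O G) (hz : ∀ g, g ∉ N → z.coeff g = 0)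
    (hzc : ∀ h ∈ N, el O h * z = z * el O h) : ∃ c : O, z * B.F b = c • B.F b := by
  have := Fintype.ofFinite N
  set zN : MonoidAlgebra ℂ N := res N (toC O G z) with hzN
  have h1 : incl ℂ N zN = toC O G z := by
    apply incl_res
    intro g hg
    rw [toC_apply, hz g hg]
    rfl
  have h2 : ∀ y, y * zN = zN * y := by
    apply E0aux.central_of_el
    intro g
    apply incl_injective N
    rw [map_mul, map_mul, incl_el, h1, ← toC_el O, ← map_mul, ← map_mul, hzc _ g.2]
  have h3 : zN * E0aux.e B.I b = (B.I.chi b zN / (B.I.d b : ℂ)) • E0aux.e B.I b := by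
    apply B.I.equiv.injective
    rw [map_mul, map_smul, E0aux.equiv_e]
    funext c
    rw [Pi.mul_apply, Pi.smul_apply]
    by_cases hc : c = b
    · subst hc
      rw [Pi.single_eq_same, mul_one, F2aux.central_scalar B.I c zN h2]
    · rw [Pi.single_eq_of_ne hc, mul_zero, smul_zero]
  set w := B.I.chi b zN / (B.I.d b : ℂ) with hw
  have h4 : toC O G (z * B.F b) = w • toC O G (B.F b) := by
    rw [map_mul, B.toC_F, ← h1, ← map_mul, h3]
    ext g
    have hx : ∀ x : MonoidAlgebra ℂ N, incl ℂ N (w • x) = w • incl ℂ N x := by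
      intro x
      ext g
      by_cases hg : g ∈ N
      · have e1 := incl_coeff N (w • x) ⟨g, hg⟩
        have e2 := incl_coeff N x ⟨g, hg⟩
        simp only [MonoidAlgebra.coeff_smul_apply] at e1 ⊢
        rw [e1, e2]
      · rw [MonoidAlgebra.coeff_smul_apply, incl_supp N _ hg, incl_supp N _ hg, smul_zero]
    rw [hx]
  obtain ⟨g, hg⟩ : ∃ g, IsLocalRing.residue O ((B.F b).coeff g) ≠ 0 := by
    by_contra hcon
    push Not at hcon
    apply F_ne B b
    refine idem_eq_zero O (by rw [F_mul, if_pos rfl]) ?_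
    ext g
    rw [toK_apply, hcon g]
    rfl
  have hunit : IsUnit ((B.F b).coeff g) := by
    by_contra hn
    exact hg ((IsLocalRing.residue_eq_zero_iff _).2 ((IsLocalRing.mem_maximalIdeal _).2 hn))
  obtain ⟨u, hu⟩ := hunit
  have h5 : ((z * B.F b).coeff g : ℂ) = w * ((B.F b).coeff g : ℂ) := by
    have h6 := congrArg (fun x => x.coeff g) h4
    simp only [MonoidAlgebra.coeff_smul_apply, toC_apply, smul_eq_mul] at h6
    exact h6
  have h7 : ((u : O) : ℂ) * ((↑u⁻¹ : O) : ℂ) = 1 := by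
    have h8 : (u : O) * (↑u⁻¹ : O) = 1 := Units.mul_inv u
    exact congrArg (fun z : O => (z : ℂ)) h8
  have h10 : w = (((z * B.F b).coeff g * (↑u⁻¹ : O) : O) : ℂ) := by
    have h11 : (((z * B.F b).coeff g * (↑u⁻¹ : O) : O) : ℂ) =
        ((z * B.F b).coeff g : ℂ) * ((↑u⁻¹ : O) : ℂ) := rfl
    rw [h11, h5, ← hu, mul_assoc, h7, mul_one]
  refine ⟨(z * B.F b).coeff g * (↑u⁻¹ : O), ?_⟩
  apply toC_injective O
  rw [h4, toC_smul, ← h10]

/-- A central idempotent of `O[N]` which is below `F b` is `0` or `F b`; hint: `F_central`. -/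
theorem F_prim (b : Fin B.I.r) (z : MonoidAlgebra O G) (hz : ∀ g, g ∉ N → z.coeff g = 0)
    (hzc : ∀ h ∈ N, el O h * z = z * el O h) (hzz : z * z = z) :
    z * B.F b = 0 ∨ z * B.F b = B.F b := by
  obtain ⟨c, hc⟩ := F_central B b z hz hzc
  have h1 : z * (z * B.F b) = z * B.F b := by rw [← mul_assoc, hzz]
  rw [hc, mul_smul_comm, hc, smul_smul] at h1
  obtain ⟨g, hg⟩ : ∃ g, (B.F b).coeff g ≠ 0 := by
    by_contra hcon
    push Not at hcon
    apply F_ne B b
    ext g
    rw [hcon g]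
    rfl
  have h2 := congrArg (fun x => x.coeff g) h1
  simp only [MonoidAlgebra.coeff_smul_apply, smul_eq_mul] at h2
  have h3 : c * c = c := mul_right_cancel₀ hg h2
  have h4 : c * (c - 1) = 0 := by rw [mul_sub, h3, mul_one, sub_self]
  rcases mul_eq_zero.mp h4 with h | h
  · left
    rw [hc, h, zero_smul]
  · right
    rw [hc, sub_eq_zero.mp h, one_smul]

/-- `g (F b) g⁻¹` is again one of the `F b'`: it is an idempotent `z ≠ 0` of the centre of `O[N]`, so
`z (F b') = F b'` for some `b'`; similarly for `g⁻¹ (F b') g`. -/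
theorem F_perm (hNn : N.Normal) (g : G) (b : Fin B.I.r) : ∃ b', cj g (B.F b) = B.F b' := by
  have key : ∀ (g : G) (b : Fin B.I.r), (∀ x, x ∉ N → (cj g (B.F b)).coeff x = 0) ∧
      (∀ h ∈ N, el O h * cj g (B.F b) = cj g (B.F b) * el O h) ∧
      cj g (B.F b) * cj g (B.F b) = cj g (B.F b) := by
    intro g b
    refine ⟨fun x hx => ?_, fun h hh => ?_, ?_⟩
    · rw [cj_coeff]
      apply F_supp
      intro h
      apply hx
      have h1 := hNn.conj_mem _ h g
      have h2 : g * (g⁻¹ * x * g) * g⁻¹ = x := by group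
      rwa [h2] at h1
    · rw [← cj_eq_iff, cj_cj]
      have h1 : h * g = g * (g⁻¹ * h * g) := by group
      rw [h1, ← cj_cj]
      congr 1
      rw [cj_eq_iff]
      apply F_comm
      have h2 := hNn.conj_mem _ hh g⁻¹
      rwa [inv_inv] at h2
    · rw [← cj_mul, F_mul, if_pos rfl]
  obtain ⟨h1, h2, h3⟩ := key g b
  obtain ⟨b', hb'⟩ : ∃ b', cj g (B.F b) * B.F b' ≠ 0 := by
    by_contra hcon
    push Not at hcon
    have h4 : cj g (B.F b) * 1 = 0 := by
      rw [← F_sum B, Finset.mul_sum]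
      exact Finset.sum_eq_zero fun b' _ => hcon b'
    rw [mul_one] at h4
    have h5 : cj g (B.F b) = cj g 0 := by
      rw [h4]
      simp [cj]
    exact F_ne B b (cj_inj g h5)
  have h6 := (F_prim B b' _ h1 h2 h3).resolve_left hb'
  have h7 : cj g (B.F b) * B.F b' = B.F b' * cj g (B.F b) :=
    comm_of_supp N h1 fun h hh => F_comm B b' hh
  obtain ⟨k1, k2, k3⟩ := key g⁻¹ b'
  have h8 : cj g (cj g⁻¹ (B.F b') * B.F b) = B.F b' * cj g (B.F b) := by
    rw [cj_mul, cj_cj, mul_inv_cancel, cj_one]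
  refine ⟨b', ?_⟩
  rcases F_prim B b _ k1 k2 k3 with h | h
  · exfalso
    rw [h] at h8
    apply F_ne B b'
    rw [← h6, h7, ← h8]
    simp [cj]
  · rw [h] at h8
    rw [h8, ← h7, h6]

theorem F_inv (b : Fin B.I.r) : ∃ b', inv' (B.F b) = B.F b' := by
  have := Fintype.ofFinite N
  obtain ⟨b', hb'⟩ := E0aux.exists_conj B.I b
  have hinv : inv' (E0aux.e B.I b) = E0aux.e B.I b' := hb'
  refine ⟨b', ?_⟩
  apply toC_injective O
  rw [toC_inv', B.toC_F, B.toC_F, NAaux.inv'_incl, hinv]

end Pool.Agent.Helper44.S3
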