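import Pool.Agent.Helper44.S3.Defs2
import Pool.Agent.Helper44.S3.NA

set_option autoImplicit false
open scoped BigOperators MonoidAlgebra
open Classical

namespace Pool.Agent.Helper44.S3

open Pool.Agent.Helper36.NB

variable {O : ValuationSubring ℂ} {G : Type} [Group G] [Finite G] {N : Subgroup G}
  (B : OddBlocks O N)

private theorem F_self (b : Fin B.I.r) : B.F b * B.F b = B.F b := by
  rw [F_mul, if_pos rfl]

private theorem F_zero {b b' : Fin B.I.r} (h : b ≠ b') : B.F b * B.F b' = 0 := by
  rw [F_mul, if_neg h]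

/-- the element `h` is an idempotent -/
private theorem h_idem (b c : Fin B.I.r) (hbc : b ≠ c) :
    (B.F b + B.F c) * (B.F b + B.F c) = B.F b + B.F c := by
  rw [mul_add, add_mul, add_mul, F_self, F_self, F_zero B hbc, F_zero B hbc.symm, add_zero,
    zero_add]

private theorem cj_of_mem (hNn : N.Normal) (b : Fin B.I.r) {g : G} (hg : g ∈ N) :
    cj g (B.F b) = B.F b :=
  (cj_eq_iff g _).2 (F_comm B b hg)

/-- CLa (hint). `G1 = {g | cj g h = h}`, `h = F b + inv' (F b)`. `cj g (F b)` is one of the `F b'` (`F_perm`), and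
`inv' (F b)` too (`F_inv`). If `cj g h ≠ h` then `cj g (F b)` is neither `F b` nor `inv' (F b)` (otherwise
`cj g (inv' (F b)) = inv' (cj g (F b))` is the other one), and the same for `cj g (inv' (F b))`, so
`h * cj g h = 0` by `F_mul`. `N ≤ G1` by `F_comm`. -/
theorem stab_struct (hNn : N.Normal) (b : Fin B.I.r) (hne : inv' (B.F b) ≠ B.F b) :
    ∃ G1 : Subgroup G, Impr G1 (B.F b + inv' (B.F b)) ∧ N ≤ G1 ∧
      (∀ g, g ∈ G1 ↔ cj g (B.F b + inv' (B.F b)) = B.F b + inv' (B.F b)) ∧
      ∀ v, v ∉ G1 → cj v (inv' (B.F b)) ≠ B.F b := by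
  obtain ⟨c, hc⟩ := F_inv B b
  have hbc : b ≠ c := by
    rintro rfl
    exact hne hc
  have hinvc : inv' (B.F c) = B.F b := by rw [← hc, inv'_inv']
  rw [hc]
  have hmul : ∀ x y : G, cj x (B.F b + B.F c) = B.F b + B.F c →
      cj y (B.F b + B.F c) = B.F b + B.F c → cj (x * y) (B.F b + B.F c) = B.F b + B.F c := by
    intro x y hx hy
    rw [← cj_cj, hy, hx]
  let G1 : Subgroup G :=
    { carrier := {g | cj g (B.F b + B.F c) = B.F b + B.F c}
      one_mem' := cj_one _
      mul_mem' := fun {x y} hx hy => hmul x y hx hy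
      inv_mem' := by
        intro x hx
        have hx' : cj x (B.F b + B.F c) = B.F b + B.F c := hx
        have : cj x (cj x⁻¹ (B.F b + B.F c)) = cj x (B.F b + B.F c) := by
          rw [cj_cj, mul_inv_cancel, cj_one, hx']
        exact cj_inj x this }
  have hmem : ∀ g, g ∈ G1 ↔ cj g (B.F b + B.F c) = B.F b + B.F c := fun g => Iff.rfl
  have hN : N ≤ G1 := by
    intro n hn
    rw [hmem, cj_add, cj_of_mem B hNn b hn, cj_of_mem B hNn c hn]
  refine ⟨G1, ⟨h_idem B b c hbc, ?_, fun g hg => hg, ?_, ?_⟩, hN, hmem, ?_⟩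
  · rw [inv'_add, hc, hinvc, add_comm]
  · intro g hg
    obtain ⟨b', hb'⟩ := F_perm B hNn g b
    obtain ⟨c', hc'⟩ := F_perm B hNn g c
    have h1 : inv' (B.F b') = B.F c' := by rw [← hb', cj_inv', hc, hc']
    have h2 : inv' (B.F c') = B.F b' := by rw [← h1, inv'_inv']
    have hsum : cj g (B.F b + B.F c) = B.F b' + B.F c' := by rw [cj_add, hb', hc']
    have e1 : b' ≠ b := by
      rintro rfl
      apply hg
      rw [hmem, hsum, ← h1, hc]
    have e2 : b' ≠ c := by
      rintro rfl
      apply hg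
      rw [hmem, hsum, ← h1, hinvc, add_comm]
    have e3 : c' ≠ b := by
      rintro rfl
      apply e2
      exact F_inj B (by rw [← h2, hc])
    have e4 : c' ≠ c := by
      rintro rfl
      apply e1
      exact F_inj B (by rw [← h2, hinvc])
    rw [hsum, mul_add, add_mul, add_mul, F_zero B e1.symm, F_zero B e2.symm, F_zero B e3.symm,
      F_zero B e4.symm]
    simp
  · intro g hg
    have hgN : g ∉ N := fun h => hg (hN h)
    rw [MonoidAlgebra.coeff_add, Finsupp.add_apply, F_supp B b hgN, F_supp B c hgN, add_zero]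
  · intro v hv h
    apply hv
    have h1 : cj v (B.F b) = B.F c := by
      rw [← hinvc, ← cj_inv', h, hc]
    rw [hmem, cj_add, h1, h, add_comm]

/-- The case that `h = F b + inv' (F b)` is `G`-stable. `T = {g | cj g (F b) = F b}`; for all `g`
`cj g (F b)` is `F b` or `inv' (F b)` (because `cj g (F b) * h ≠ 0`). If `T = G` then `F b` is a central idempotent of
`O[G]`, so `e * F b = e` (`e` is a block), `e = inv' e = inv' (F b) * e`-type argument: `e = e e = 0`, contradiction.
So `T` has index `2` (product of two elements outside `T` is in `T`). -/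
theorem half_struct (hNn : N.Normal) (b : Fin B.I.r) (hne : inv' (B.F b) ≠ B.F b)
    {e : MonoidAlgebra O G} (hb : IsBlock e) (her : inv' e = e) (heb : e * B.F b ≠ 0)
    (htop : ∀ g, cj g (B.F b + inv' (B.F b)) = B.F b + inv' (B.F b)) :
    ∃ T : Subgroup G, T.index = 2 ∧ (∀ g ∈ T, cj g (B.F b) = B.F b) ∧
      (∀ g, g ∉ T → cj g (B.F b) = inv' (B.F b)) ∧ N ≤ T := by
  obtain ⟨c, hc⟩ := F_inv B b
  have hbc : b ≠ c := by
    rintro rfl
    exact hne hc
  have hinvc : inv' (B.F c) = B.F b := by rw [← hc, inv'_inv']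
  rw [hc] at htop ⊢
  have hdi : ∀ g, cj g (B.F b) = B.F b ∨ cj g (B.F b) = B.F c := by
    intro g
    obtain ⟨b', hb'⟩ := F_perm B hNn g b
    have h1 : B.F b * (B.F b + B.F c) = B.F b := by
      rw [mul_add, F_self, F_zero B hbc, add_zero]
    have h2 : B.F b' * (B.F b + B.F c) = B.F b' := by
      have := congrArg (cj g) h1
      rw [cj_mul, htop g, hb'] at this
      exact this
    by_cases e1 : b' = b
    · left; rw [hb', e1]
    · by_cases e2 : b' = c
      · right; rw [hb', e2]
      · exfalso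
        rw [mul_add, F_zero B e1, F_zero B e2, add_zero] at h2
        exact F_ne B b' h2.symm
  let T : Subgroup G :=
    { carrier := {g | cj g (B.F b) = B.F b}
      one_mem' := cj_one _
      mul_mem' := by
        intro x y hx hy
        have hx' : cj x (B.F b) = B.F b := hx
        have hy' : cj y (B.F b) = B.F b := hy
        show cj (x * y) (B.F b) = B.F b
        rw [← cj_cj, hy', hx']
      inv_mem' := by
        intro x hx
        have hx' : cj x (B.F b) = B.F b := hx
        have : cj x (cj x⁻¹ (B.F b)) = cj x (B.F b) := by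
          rw [cj_cj, mul_inv_cancel, cj_one, hx']
        exact cj_inj x this }
  have hmem : ∀ g, g ∈ T ↔ cj g (B.F b) = B.F b := fun g => Iff.rfl
  have hnot : ∀ g, g ∉ T → cj g (B.F b) = B.F c := by
    intro g hg
    rcases hdi g with h | h
    · exact absurd h hg
    · exact h
  have hex : ∃ a, a ∉ T := by
    by_contra hall
    push Not at hall
    have hcen : ∀ y, y * B.F b = B.F b * y := central_of_cj fun g => hall g
    have h1 := hb.2.2.2 (B.F b) (F_self B b) hcen
    have h2 : B.F b * e = e := by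
      rcases h1 with h | h
      · exact absurd ((hb.2.2.1 (B.F b)).symm.trans h) heb
      · exact h
    have h3 : e * B.F c = e := by
      have := congrArg inv' h2
      rw [inv'_mul, her, hc] at this
      exact this
    apply hb.1
    calc e = e * B.F c := h3.symm
      _ = (e * B.F b) * B.F c := by rw [← hb.2.2.1 (B.F b), h2]
      _ = 0 := by rw [mul_assoc, F_zero B hbc, mul_zero]
  refine ⟨T, ?_, fun g hg => hg, hnot, fun n hn => cj_of_mem B hNn b hn⟩
  obtain ⟨a, ha⟩ := hex
  rw [Subgroup.index_eq_two_iff]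
  refine ⟨a, fun x => ?_⟩
  by_cases hx : x ∈ T
  · right
    refine ⟨hx, fun h => ha ?_⟩
    have := T.mul_mem (T.inv_mem hx) h
    rwa [inv_mul_cancel_left] at this
  · left
    refine ⟨?_, hx⟩
    rw [hmem, ← cj_cj, hnot a ha, ← hc, ← cj_inv', hnot x hx, hinvc]

/-- Some `F b` is below `e`, and then `e * (F b + inv' (F b)) ≠ 0`. -/
theorem exists_below {e : MonoidAlgebra O G} (hb : IsBlock e) :
    ∃ b, e * B.F b ≠ 0 := by
  by_contra hall
  push Not at hall
  apply hb.1
  calc e = e * ∑ b, B.F b := by rw [F_sum, mul_one]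
    _ = 0 := by rw [Finset.mul_sum]; exact Finset.sum_eq_zero fun b _ => hall b

theorem below_sum (b : Fin B.I.r) (hne : inv' (B.F b) ≠ B.F b) {e : MonoidAlgebra O G}
    (heb : e * B.F b ≠ 0) : e * (B.F b + inv' (B.F b)) ≠ 0 := by
  obtain ⟨c, hc⟩ := F_inv B b
  have hbc : b ≠ c := by
    rintro rfl
    exact hne hc
  rw [hc]
  intro h
  apply heb
  calc e * B.F b = e * (B.F b + B.F c) * B.F b := by
        rw [mul_assoc, add_mul, F_self, F_zero B hbc.symm, add_zero]
    _ = 0 := by rw [h, zero_mul]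

end Pool.Agent.Helper44.S3
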