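import Pool.Agent.Helper44.S3.Defs2

set_option autoImplicit false
open scoped BigOperators MonoidAlgebra
open Classical

namespace Pool.Agent.Helper44.S3

open Pool.Agent.Helper36.NB

private theorem oa_surj {G : Type} [Group G] [Fintype G] {N : Subgroup G} (hNn : N.Normal)
    {k : ℕ} (hpow : ∀ c ∈ N, c ^ (2 * k + 1) = 1) {y : G} (hy : y * y = 1) {n : G} (hn : n ∈ N) :
    ∃ r ∈ N, ∃ c ∈ N, c * y = y * c ∧ r * c * y * r⁻¹ * y = n := by
  have hyi : y⁻¹ = y := inv_eq_of_mul_eq_one_left hy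
  have hyn : y * n * y ∈ N := by
    have h := hNn.conj_mem n hn y
    rwa [hyi] at h
  obtain ⟨w, hw⟩ : ∃ w, w = n * y := ⟨_, rfl⟩
  have hw2 : w ^ 2 ∈ N := by
    have : w ^ 2 = n * (y * n * y) := by rw [hw, pow_two]; group
    rw [this]
    exact N.mul_mem hn hyn
  obtain ⟨t, ht⟩ : ∃ t, t = w ^ (2 * k + 1) := ⟨_, rfl⟩
  have hwy : w * y = n := by rw [hw, mul_assoc, hy, mul_one]
  have hty : t * y ∈ N := by
    rw [ht, pow_succ, mul_assoc, hwy, pow_mul]
    exact N.mul_mem (N.pow_mem hw2 k) hn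
  have htt : t * t = 1 := by
    rw [ht, ← pow_add, ← two_mul, pow_mul]
    exact hpow _ hw2
  have hti : t⁻¹ = t := inv_eq_of_mul_eq_one_left htt
  have hst : w * t ∈ N := by
    have : w * t = (w ^ 2) ^ (k + 1) := by
      rw [ht, ← pow_mul, ← pow_succ', show 2 * (k + 1) = 2 * k + 1 + 1 by ring]
    rw [this]
    exact N.pow_mem hw2 _
  have hwt : w * t = t * w := by
    rw [ht, ← pow_succ', ← pow_succ]
  obtain ⟨s, hs⟩ : ∃ s, s = w * t := ⟨_, rfl⟩
  have hsN : s ∈ N := by rw [hs]; exact hst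
  have hstc : s * t = t * s := by
    rw [hs]
    calc w * t * t = t * w * t := by rw [hwt]
      _ = t * (w * t) := by rw [mul_assoc]
  have hw' : s * t = w := by rw [hs, mul_assoc, htt, mul_one]
  obtain ⟨z, hz⟩ : ∃ z, z = t * y := ⟨_, rfl⟩
  have hzN : z ∈ N := by rw [hz]; exact hty
  have hzinv : y * z * y⁻¹ = z⁻¹ := by
    rw [hz, mul_inv_rev, hyi, hti, mul_assoc, mul_assoc, hy, mul_one]
  obtain ⟨r, hr⟩ : ∃ r, r = z ^ (k + 1) := ⟨_, rfl⟩
  have hrN : r ∈ N := by rw [hr]; exact N.pow_mem hzN _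
  have hrr : r * r = z := by
    rw [hr, ← pow_add]
    have : k + 1 + (k + 1) = (2 * k + 1) + 1 := by ring
    rw [this, pow_succ, hpow z hzN, one_mul]
  have hyr : y * r * y⁻¹ = r⁻¹ := by
    rw [hr, ← inv_pow, ← hzinv, conj_pow]
  have hry : r * y * r⁻¹ = t := by
    have h1 : y * r⁻¹ = r * y := by
      have h2 : (y * r * y⁻¹)⁻¹ = r := by rw [hyr, inv_inv]
      have h3 : y * r⁻¹ * y⁻¹ = r := by
        calc y * r⁻¹ * y⁻¹ = (y * r * y⁻¹)⁻¹ := by group
          _ = r := h2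
      calc y * r⁻¹ = y * r⁻¹ * y⁻¹ * y := by group
        _ = r * y := by rw [h3]
    rw [mul_assoc, h1, ← mul_assoc, hrr, hz, mul_assoc, hy, mul_one]
  have hty' : r * y = t * r := by rw [← hry]; group
  have hty2 : y * r⁻¹ = r⁻¹ * t := by rw [← hry]; group
  refine ⟨r, hrN, r⁻¹ * s * r, ?_, ?_, ?_⟩
  · have h := hNn.conj_mem s hsN r⁻¹
    rwa [inv_inv] at h
  · calc r⁻¹ * s * r * y = r⁻¹ * s * (r * y) := by group
      _ = r⁻¹ * s * (t * r) := by rw [hty']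
      _ = r⁻¹ * (s * t) * r := by group
      _ = r⁻¹ * (t * s) * r := by rw [hstc]
      _ = (r⁻¹ * t) * s * r := by group
      _ = (y * r⁻¹) * s * r := by rw [hty2]
      _ = y * (r⁻¹ * s * r) := by group
  · calc r * (r⁻¹ * s * r) * y * r⁻¹ * y = s * (r * y * r⁻¹) * y := by group
      _ = s * t * y := by rw [hry]
      _ = w * y := by rw [hw']
      _ = n := hwy

/-- OA (hint). `m = |N|` is odd. For `w = n y ∈ N y` put `t = w ^ m ∈ N y` (`N` is normal, `y ^ m = y`), `t t = 1`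
because `(n y)² = n (y n y) ∈ N` has order dividing `m`, and `s = w t⁻¹ ∈ N`, `s` commutes with `t`,
`w = t s`, `w² = s²`. This is a bijection from `N` to the pairs `(t, s)`, `t ∈ N y`, `t t = 1`, `s ∈ N`, `s t = t s`
(inverse: `w = t s`, `w ^ m = t`). Squaring is a bijection of the group `C_N(t)` of odd order, so
`∑_n f(n y n y) = ∑_t ∑_{s ∈ C_N(t)} f(s)`. Every such `t` is `r y r⁻¹` with `r ∈ N`: `z = t y ∈ N` satisfies
`y z y⁻¹ = z⁻¹`, `r = z ^ ((m + 1) / 2)`, `r² = z`, `y r y⁻¹ = r⁻¹`, `r y r⁻¹ = r² y = t`. So the inner sum does not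
depend on `t` and the number of `t` is `|N : C_N(y)|` (orbit of `y` under conjugation by `N`). -/
theorem gow_count {G : Type} [Group G] [Fintype G] {N : Subgroup G} (hNn : N.Normal)
    (hN : Odd (Nat.card N)) {y : G} (hy : y * y = 1) (f : G → ℂ)
    (hf : ∀ n ∈ N, ∀ g, f (n * g * n⁻¹) = f g) :
    ((csetN N y).card : ℂ) * ∑ n ∈ Finset.univ.filter (fun n : G => n ∈ N), f (n * y * n * y) =
      Nat.card N * ∑ c ∈ csetN N y, f c := by
  obtain ⟨k, hk⟩ := hN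
  have hyi : y⁻¹ = y := inv_eq_of_mul_eq_one_left hy
  have hpow : ∀ c ∈ N, c ^ (2 * k + 1) = 1 := by
    intro c hc
    have h : (⟨c, hc⟩ : N) ^ Nat.card N = 1 := pow_card_eq_one'
    rw [hk] at h
    have h2 := congrArg Subtype.val h
    simpa using h2
  have hym : y ^ (2 * k + 1) = y := by
    rw [pow_succ, pow_mul, pow_two, hy, one_pow, one_mul]
  have hmem : ∀ c, c ∈ csetN N y ↔ c ∈ N ∧ c * y = y * c := by
    intro c
    simp [csetN]
  have hcard : (Finset.univ.filter (fun n : G => n ∈ N)).card = Nat.card N := by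
    rw [Nat.card_eq_fintype_card, Fintype.card_subtype]
  -- squaring
  have hsq : ∑ c ∈ csetN N y, f c = ∑ c ∈ csetN N y, f (c ^ 2) := by
    symm
    refine Finset.sum_nbij' (fun c => c ^ 2) (fun c => c ^ (k + 1)) ?_ ?_ ?_ ?_ ?_
    · intro c hc
      rw [hmem] at hc ⊢
      exact ⟨N.pow_mem hc.1 _, ((show Commute c y from hc.2).pow_left 2)⟩
    · intro c hc
      rw [hmem] at hc ⊢
      exact ⟨N.pow_mem hc.1 _, ((show Commute c y from hc.2).pow_left (k + 1))⟩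
    · intro c hc
      rw [hmem] at hc
      show (c ^ 2) ^ (k + 1) = c
      rw [← pow_mul, show 2 * (k + 1) = (2 * k + 1) + 1 by ring, pow_succ, hpow c hc.1, one_mul]
    · intro c hc
      rw [hmem] at hc
      show (c ^ (k + 1)) ^ 2 = c
      rw [← pow_mul, show (k + 1) * 2 = (2 * k + 1) + 1 by ring, pow_succ, hpow c hc.1, one_mul]
    · intro c _
      rfl
  -- double count
  have hmaps : ∀ p ∈ (Finset.univ.filter (fun n : G => n ∈ N)) ×ˢ (csetN N y),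
      p.1 * p.2 * y * p.1⁻¹ * y ∈ Finset.univ.filter (fun n : G => n ∈ N) := by
    intro p hp
    rw [Finset.mem_product, hmem] at hp
    simp only [Finset.mem_filter, Finset.mem_univ, true_and] at hp ⊢
    have h1 : y * p.1⁻¹ * y ∈ N := by
      have h := hNn.conj_mem p.1⁻¹ (N.inv_mem hp.1) y
      rwa [hyi] at h
    have h2 : p.1 * p.2 * y * p.1⁻¹ * y = p.1 * p.2 * (y * p.1⁻¹ * y) := by group
    rw [h2]
    exact N.mul_mem (N.mul_mem hp.1 hp.2.1) h1
  have hL : ∑ p ∈ (Finset.univ.filter (fun n : G => n ∈ N)) ×ˢ (csetN N y), f (p.2 ^ 2) =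
      Nat.card N * ∑ c ∈ csetN N y, f c := by
    rw [hsq, Finset.sum_product]
    simp only
    rw [Finset.sum_const, hcard, nsmul_eq_mul]
  rw [← hL, ← Finset.sum_fiberwise_of_maps_to hmaps, Finset.mul_sum]
  apply Finset.sum_congr rfl
  intro n hn
  simp only [Finset.mem_filter, Finset.mem_univ, true_and] at hn
  obtain ⟨r0, hr0, c0, hc0, hc0y, hn0⟩ := oa_surj hNn hpow hy hn
  have hval : ∀ p ∈ Finset.filter (fun p : G × G => p.1 * p.2 * y * p.1⁻¹ * y = n)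
      ((Finset.univ.filter (fun n : G => n ∈ N)) ×ˢ (csetN N y)), f (p.2 ^ 2) = f (n * y * n * y) := by
    intro p hp
    rw [Finset.mem_filter, Finset.mem_product, hmem] at hp
    obtain ⟨⟨hp1, hp2, hp3⟩, hp4⟩ := hp
    simp only [Finset.mem_filter, Finset.mem_univ, true_and] at hp1
    have h1 : n * y = p.1 * p.2 * y * p.1⁻¹ := by
      rw [← hp4, mul_assoc (p.1 * p.2 * y * p.1⁻¹) y y, hy, mul_one]
    have h2 : n * y * n * y = p.1 * (p.2 ^ 2) * p.1⁻¹ := by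
      calc n * y * n * y = (n * y) * (n * y) := by group
        _ = (p.1 * p.2 * y * p.1⁻¹) * (p.1 * p.2 * y * p.1⁻¹) := by rw [h1]
        _ = p.1 * (p.2 * (y * p.2) * y) * p.1⁻¹ := by group
        _ = p.1 * (p.2 * (p.2 * y) * y) * p.1⁻¹ := by rw [hp3]
        _ = p.1 * (p.2 * p.2 * (y * y)) * p.1⁻¹ := by group
        _ = p.1 * (p.2 ^ 2) * p.1⁻¹ := by rw [hy, mul_one, pow_two]
    rw [h2, hf _ hp1]
  rw [Finset.sum_congr rfl hval, Finset.sum_const, nsmul_eq_mul]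
  congr 2
  refine Finset.card_nbij' (fun a => (r0 * a, a⁻¹ * c0 * a)) (fun p => r0⁻¹ * p.1) ?_ ?_ ?_ ?_
  · intro a ha
    have ha' := (hmem a).1 ha
    have hac : a * y * a⁻¹ = y := by rw [ha'.2]; group
    have haN : a ∈ N := ha'.1
    simp only [Finset.coe_filter, Finset.mem_product, Finset.mem_filter, Finset.mem_univ, true_and,
      Set.mem_ofPred_eq]
    rw [hmem]
    refine ⟨⟨N.mul_mem hr0 haN, N.mul_mem (N.mul_mem (N.inv_mem haN) hc0) haN, ?_⟩, ?_⟩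
    · have h1 : Commute a y := ha'.2
      have h2 : Commute c0 y := hc0y
      exact ((h1.inv_left.mul_left h2).mul_left h1).eq
    · calc r0 * a * (a⁻¹ * c0 * a) * y * (r0 * a)⁻¹ * y = r0 * c0 * (a * y * a⁻¹) * r0⁻¹ * y := by group
        _ = r0 * c0 * y * r0⁻¹ * y := by rw [hac]
        _ = n := hn0
  · intro p hp
    simp only [Finset.coe_filter, Finset.mem_product, Finset.mem_filter, Finset.mem_univ, true_and,
      Set.mem_ofPred_eq] at hp
    rw [hmem] at hp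
    obtain ⟨⟨hp1, hp2, hp3⟩, hp4⟩ := hp
    rw [Finset.mem_coe, hmem]
    refine ⟨N.mul_mem (N.inv_mem hr0) hp1, ?_⟩
    have h1 : p.1 * (p.2 * y) * p.1⁻¹ = r0 * (c0 * y) * r0⁻¹ := by
      have h2 : p.1 * p.2 * y * p.1⁻¹ * y = r0 * c0 * y * r0⁻¹ * y := by rw [hp4, hn0]
      have h3 := mul_right_cancel h2
      simpa only [mul_assoc] using h3
    have h4 : (p.1 * (p.2 * y) * p.1⁻¹) ^ (2 * k + 1) = (r0 * (c0 * y) * r0⁻¹) ^ (2 * k + 1) := by
      rw [h1]
    rw [conj_pow, conj_pow, (show Commute p.2 y from hp3).mul_pow, (show Commute c0 y from hc0y).mul_pow,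
      hpow _ hp2, hpow _ hc0, hym, one_mul] at h4
    calc r0⁻¹ * p.1 * y = r0⁻¹ * (p.1 * y * p.1⁻¹) * p.1 := by group
      _ = r0⁻¹ * (r0 * y * r0⁻¹) * p.1 := by rw [h4]
      _ = y * (r0⁻¹ * p.1) := by group
  · intro a _
    show r0⁻¹ * (r0 * a) = a
    group
  · intro p hp
    simp only [Finset.coe_filter, Finset.mem_product, Finset.mem_filter, Finset.mem_univ, true_and,
      Set.mem_ofPred_eq] at hp
    rw [hmem] at hp
    obtain ⟨⟨hp1, hp2, hp3⟩, hp4⟩ := hp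
    have h1 : p.1 * (p.2 * y) * p.1⁻¹ = r0 * (c0 * y) * r0⁻¹ := by
      have h2 : p.1 * p.2 * y * p.1⁻¹ * y = r0 * c0 * y * r0⁻¹ * y := by rw [hp4, hn0]
      have h3 := mul_right_cancel h2
      simpa only [mul_assoc] using h3
    have h4 : (p.1 * (p.2 * y) * p.1⁻¹) ^ (2 * k + 1) = (r0 * (c0 * y) * r0⁻¹) ^ (2 * k + 1) := by
      rw [h1]
    rw [conj_pow, conj_pow, (show Commute p.2 y from hp3).mul_pow, (show Commute c0 y from hc0y).mul_pow,
      hpow _ hp2, hpow _ hc0, hym, one_mul] at h4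
    have h5 : (r0⁻¹ * p.1)⁻¹ * y * (r0⁻¹ * p.1) = y := by
      calc (r0⁻¹ * p.1)⁻¹ * y * (r0⁻¹ * p.1) = p.1⁻¹ * (r0 * y * r0⁻¹) * p.1 := by group
        _ = p.1⁻¹ * (p.1 * y * p.1⁻¹) * p.1 := by rw [h4]
        _ = y := by group
    show (r0 * (r0⁻¹ * p.1), (r0⁻¹ * p.1)⁻¹ * c0 * (r0⁻¹ * p.1)) = p
    apply Prod.ext
    · show r0 * (r0⁻¹ * p.1) = p.1
      group
    · show (r0⁻¹ * p.1)⁻¹ * c0 * (r0⁻¹ * p.1) = p.2
      apply mul_right_cancel (b := y)
      calc (r0⁻¹ * p.1)⁻¹ * c0 * (r0⁻¹ * p.1) * y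
          = (r0⁻¹ * p.1)⁻¹ * c0 * (r0⁻¹ * p.1) * ((r0⁻¹ * p.1)⁻¹ * y * (r0⁻¹ * p.1)) := by rw [h5]
        _ = p.1⁻¹ * (r0 * (c0 * y) * r0⁻¹) * p.1 := by group
        _ = p.1⁻¹ * (p.1 * (p.2 * y) * p.1⁻¹) * p.1 := by rw [h1]
        _ = p.2 * y := by group

end Pool.Agent.Helper44.S3
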