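import Pool.Agent.Helper44.S3.Defs2
import Pool.Agent.Helper44.S3.CJ
import Pool.Agent.Helper44.S3.LA

set_option autoImplicit false
open scoped BigOperators MonoidAlgebra
open Classical

namespace Pool.Agent.Helper44.S3

open Pool.Agent.Helper36.NB

section core

variable {H : Type} [Group H] [Fintype H] (I : IrrData H) (b : Fin I.r)

/-- The `b`-th component. -/
private noncomputable def rh (x : MonoidAlgebra ℂ H) : Mt ℂ (I.d b) := I.equiv x b

private theorem rh_mul (x y : MonoidAlgebra ℂ H) :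
    rh I b (x * y) = rh I b x * rh I b y := by
  unfold rh
  rw [map_mul, Pi.mul_apply]

private theorem rh_add (x y : MonoidAlgebra ℂ H) :
    rh I b (x + y) = rh I b x + rh I b y := by
  unfold rh
  rw [map_add, Pi.add_apply]

private theorem rh_smul (c : ℂ) (x : MonoidAlgebra ℂ H) :
    rh I b (c • x) = c • rh I b x := by
  unfold rh
  rw [map_smul, Pi.smul_apply]

private theorem rh_sum {κ : Type} (s : Finset κ) (x : κ → MonoidAlgebra ℂ H) :
    rh I b (∑ i ∈ s, x i) = ∑ i ∈ s, rh I b (x i) := by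
  unfold rh
  rw [map_sum, Finset.sum_apply]

private theorem rh_one : rh I b 1 = 1 := by
  unfold rh
  rw [map_one, Pi.one_apply]

private theorem rh_e : rh I b (E0aux.e I b) = 1 := by
  unfold rh
  rw [E0aux.equiv_e, Pi.single_eq_same]

/-- The embedding of the `b`-th component. -/
private noncomputable def io (X : Mt ℂ (I.d b)) : MonoidAlgebra ℂ H :=
  I.equiv.symm (Pi.single b X)

private theorem rh_io (X : Mt ℂ (I.d b)) : rh I b (io I b X) = X := by
  unfold rh io
  rw [AlgEquiv.apply_symm_apply, Pi.single_eq_same]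

private theorem mul_e (x : MonoidAlgebra ℂ H) : x * E0aux.e I b = io I b (rh I b x) := by
  apply I.equiv.injective
  rw [map_mul, E0aux.equiv_e, io, AlgEquiv.apply_symm_apply]
  funext c
  rw [Pi.mul_apply]
  by_cases h : c = b
  · subst h
    rw [Pi.single_eq_same, Pi.single_eq_same, mul_one]
    rfl
  · rw [Pi.single_eq_of_ne h, Pi.single_eq_of_ne h, mul_zero]

private theorem io_mul (X Y : Mt ℂ (I.d b)) : io I b (X * Y) = io I b X * io I b Y := by
  unfold io
  rw [← map_mul, ← Pi.single_mul]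

private theorem io_mul_e (X : Mt ℂ (I.d b)) : io I b X * E0aux.e I b = io I b X := by
  rw [mul_e, rh_io]

private theorem io_add (X Y : Mt ℂ (I.d b)) : io I b (X + Y) = io I b X + io I b Y := by
  unfold io
  rw [← map_add, ← Pi.single_add]

private theorem io_smul (c : ℂ) (X : Mt ℂ (I.d b)) : io I b (c • X) = c • io I b X := by
  unfold io
  rw [← map_smul, ← Pi.single_smul]

private theorem rh_el_mul (g h : H) : rh I b (el ℂ (g * h)) = rh I b (el ℂ g) * rh I b (el ℂ h) := by
  rw [el_mul, rh_mul]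

private theorem rh_el_inv (g : H) : rh I b (el ℂ g) * rh I b (el ℂ g⁻¹) = 1 := by
  rw [← rh_el_mul, mul_inv_cancel, el_one, rh_one]

/-- Only scalar matrices commute with everything. -/
private theorem scalar_of_comm {A : Mt ℂ (I.d b)} (h : ∀ X : Mt ℂ (I.d b), X * A = A * X) :
    ∃ c : ℂ, A = c • (1 : Mt ℂ (I.d b)) := by
  obtain ⟨c, hc⟩ := Matrix.mem_range_scalar_iff_commute_single'.mpr
    (fun i j => (h (Matrix.single i j (1 : ℂ)) : Commute (Matrix.single i j (1 : ℂ)) A))
  exact ⟨c, by rw [← hc, Matrix.scalar_apply, Matrix.smul_one_eq_diagonal]⟩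

/-- Schur orthogonality in the form of averages. -/
private theorem avg (X : Mt ℂ (I.d b)) :
    (I.d b : ℂ) • ∑ h : H, rh I b (el ℂ h) * X * rh I b (el ℂ h⁻¹) =
      ((Nat.card H : ℂ) * Matrix.trace X) • (1 : Mt ℂ (I.d b)) := by
  set A := ∑ h : H, rh I b (el ℂ h) * X * rh I b (el ℂ h⁻¹) with hA
  have h1 : ∀ g : H, rh I b (el ℂ g) * A = A * rh I b (el ℂ g) := by
    intro g
    rw [hA, Finset.mul_sum, Finset.sum_mul]
    refine Fintype.sum_bijective (fun h => g * h) (Group.mulLeft_bijective g) _ _ fun h => ?_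
    rw [mul_inv_rev, rh_el_mul, rh_el_mul]
    have h2 : rh I b (el ℂ g⁻¹) * rh I b (el ℂ g) = 1 := by
      rw [← rh_el_mul, inv_mul_cancel, el_one, rh_one]
    simp only [mul_assoc]
    rw [h2, mul_one]
  have h3 : ∀ x : MonoidAlgebra ℂ H, rh I b x * A = A * rh I b x := by
    intro x
    rw [E0aux.expand x, rh_sum, Finset.sum_mul, Finset.mul_sum]
    refine Finset.sum_congr rfl fun g _ => ?_
    rw [rh_smul, smul_mul_assoc, mul_smul_comm, h1]
  obtain ⟨c, hc⟩ := scalar_of_comm I b (A := A) (fun Y => by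
    have := h3 (io I b Y)
    rwa [rh_io] at this)
  have h4 : Matrix.trace A = (Nat.card H : ℂ) * Matrix.trace X := by
    rw [hA, Matrix.trace_sum]
    have : ∀ h : H, Matrix.trace (rh I b (el ℂ h) * X * rh I b (el ℂ h⁻¹)) = Matrix.trace X := by
      intro h
      rw [Matrix.trace_mul_comm, ← mul_assoc, ← rh_el_mul, inv_mul_cancel, el_one, rh_one, one_mul]
    rw [Finset.sum_congr rfl (fun h _ => this h), Finset.sum_const, Finset.card_univ,
      nsmul_eq_mul, Nat.card_eq_fintype_card]
  have h5 : Matrix.trace A = c * I.d b := by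
    rw [hc, Matrix.trace_smul, Matrix.trace_one, Fintype.card_fin, smul_eq_mul]
  rw [hc, smul_smul, ← h4, h5, mul_comm]

variable (σ : MonoidAlgebra ℂ H →ₗ[ℂ] MonoidAlgebra ℂ H) (φ : H → H)

/-- The sum of traces. -/
private theorem sum_trace (hφ : ∀ g h, φ (g * h) = φ g * φ h) :
    (Nat.card H : ℂ) * ∑ h : H, (E0aux.e I b).coeff (h * φ h) =
      I.d b * ∑ h : H, Matrix.trace (rh I b (el ℂ h) * rh I b (el ℂ (φ h))) := by
  have hφ1 : φ 1 = 1 := by
    have := hφ 1 1
    rw [mul_one] at this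
    exact (mul_eq_left.mp this.symm)
  have hφi : ∀ h, φ h⁻¹ = (φ h)⁻¹ := by
    intro h
    have := hφ h⁻¹ h
    rw [inv_mul_cancel, hφ1] at this
    exact eq_inv_of_mul_eq_one_left this.symm
  rw [Finset.mul_sum, Finset.mul_sum]
  refine Fintype.sum_bijective (fun h => h⁻¹) (inv_involutive.bijective) _ _ fun h => ?_
  rw [E0aux.e_coeff]
  congr 1
  rw [mul_inv_rev, hφi, Matrix.trace_mul_comm, ← rh_el_mul]
  rfl

private theorem case_one (hφ : ∀ g h, φ (g * h) = φ g * φ h)
    (hm : ∀ x y, σ (x * y) = σ y * σ x) (hs : ∀ x, σ (σ x) = x)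
    (he : ∀ h, σ (el ℂ h) = el ℂ (φ h)⁻¹) (hne : σ (E0aux.e I b) ≠ E0aux.e I b) :
    ∑ h : H, Matrix.trace (rh I b (el ℂ h) * rh I b (el ℂ (φ h))) = 0 := by
  have hA0 : ∀ X : Mt ℂ (I.d b),
      ∑ h : H, rh I b (el ℂ h) * X * (rh I b (el ℂ (φ h))).transpose = 0 := by
    intro X
    set A := ∑ h : H, rh I b (el ℂ h) * X * (rh I b (el ℂ (φ h))).transpose with hA
    have h1 : ∀ g : H, rh I b (el ℂ g) * A * (rh I b (el ℂ (φ g))).transpose = A := by
      intro g
      rw [hA, Finset.mul_sum, Finset.sum_mul]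
      refine Fintype.sum_bijective (fun h => g * h) (Group.mulLeft_bijective g) _ _ fun h => ?_
      rw [hφ, rh_el_mul, rh_el_mul, Matrix.transpose_mul]
      simp only [mul_assoc]
    have h2 : ∀ g : H, rh I b (el ℂ g) * A = A * (rh I b (σ (el ℂ g))).transpose := by
      intro g
      have h3 : (rh I b (el ℂ (φ g))).transpose * (rh I b (el ℂ (φ g)⁻¹)).transpose = 1 := by
        rw [← Matrix.transpose_mul, ← rh_el_mul, inv_mul_cancel, el_one, rh_one,
          Matrix.transpose_one]
      rw [he]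
      conv_rhs => rw [← h1 g]
      rw [mul_assoc (rh I b (el ℂ g) * A), h3, mul_one]
    have h4 : ∀ x : MonoidAlgebra ℂ H, rh I b x * A = A * (rh I b (σ x)).transpose := by
      intro x
      rw [E0aux.expand x, map_sum, rh_sum, rh_sum, Matrix.transpose_sum, Finset.sum_mul,
        Finset.mul_sum]
      refine Finset.sum_congr rfl fun g _ => ?_
      rw [map_smul, rh_smul, rh_smul, Matrix.transpose_smul, smul_mul_assoc, mul_smul_comm, h2]
    have h5 := h4 (E0aux.e I b)
    rw [rh_e, one_mul] at h5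
    have hid : σ (E0aux.e I b) * σ (E0aux.e I b) = σ (E0aux.e I b) := by
      rw [← hm, E0aux.e_mul_e]
    have hcen : ∀ y, y * σ (E0aux.e I b) = σ (E0aux.e I b) * y := by
      intro y
      have := congrArg σ (E0aux.e_central I b (σ y))
      rw [hm, hm, hs] at this
      exact this.symm
    rcases chi_central I b _ hid hcen with h | h
    · have h' : rh I b (σ (E0aux.e I b)) = 0 := h
      rw [h', Matrix.transpose_zero, mul_zero] at h5
      exact h5
    · exfalso
      apply hne
      have h' : rh I b (σ (E0aux.e I b)) = 1 := h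
      have h6 : σ (E0aux.e I b) * E0aux.e I b = E0aux.e I b := by
        rw [mul_e, h', ← rh_e I b, ← mul_e, E0aux.e_mul_e]
      have h7 := congrArg σ h6
      rw [hm, hs, h6] at h7
      exact h7.symm
  have hkey : ∀ h : H, Matrix.trace (rh I b (el ℂ h) * rh I b (el ℂ (φ h))) =
      ∑ i, ∑ j, (rh I b (el ℂ h) * Matrix.single j i (1 : ℂ) *
        (rh I b (el ℂ (φ h))).transpose : Mt ℂ (I.d b)) i j := by
    intro h
    rw [Matrix.trace]
    refine Finset.sum_congr rfl fun i _ => ?_
    rw [Matrix.diag_apply, Matrix.mul_apply]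
    refine Finset.sum_congr rfl fun j _ => ?_
    rw [Matrix.mul_apply, Finset.sum_eq_single i]
    · rw [Matrix.mul_single_apply_same, mul_one, Matrix.transpose_apply]
    · intro k _ hk
      rw [Matrix.mul_single_apply_of_ne _ _ _ _ _ hk, zero_mul]
    · intro h0
      exact absurd (Finset.mem_univ i) h0
  rw [Finset.sum_congr rfl (fun h _ => hkey h), Finset.sum_comm]
  refine Finset.sum_eq_zero fun i _ => ?_
  rw [Finset.sum_comm]
  refine Finset.sum_eq_zero fun j _ => ?_
  have := congrFun (congrFun (hA0 (Matrix.single j i (1 : ℂ))) i) j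
  rw [Matrix.sum_apply] at this
  exact this

private theorem case_two (hφ : ∀ g h, φ (g * h) = φ g * φ h)
    (hm : ∀ x y, σ (x * y) = σ y * σ x) (hs : ∀ x, σ (σ x) = x)
    (he : ∀ h, σ (el ℂ h) = el ℂ (φ h)⁻¹) (heq : σ (E0aux.e I b) = E0aux.e I b) :
    ∃ s : ℂ, (s = 1 ∨ s = -1) ∧
    ∑ h : H, Matrix.trace (rh I b (el ℂ h) * rh I b (el ℂ (φ h))) = s * Nat.card H := by
  have hφ1 : φ 1 = 1 := by
    have := hφ 1 1
    rw [mul_one] at this
    exact (mul_eq_left.mp this.symm)
  have hφi : ∀ h, φ h⁻¹ = (φ h)⁻¹ := by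
    intro h
    have := hφ h⁻¹ h
    rw [inv_mul_cancel, hφ1] at this
    exact eq_inv_of_mul_eq_one_left this.symm
  have hd : (I.d b : ℂ) ≠ 0 := by exact_mod_cast (I.pos b).ne'
  let f : Mt ℂ (I.d b) →ₗ[ℂ] Mt ℂ (I.d b) :=
    { toFun := fun X => rh I b (σ (io I b X.transpose))
      map_add' := fun X Y => by
        rw [Matrix.transpose_add, io_add, map_add, rh_add]
      map_smul' := fun c X => by
        rw [Matrix.transpose_smul, io_smul, map_smul, rh_smul]
        rfl }
  have hf : ∀ X, f X = rh I b (σ (io I b X.transpose)) := fun X => rfl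
  have hfm : ∀ X Y, f (X * Y) = f X * f Y := by
    intro X Y
    rw [hf, hf, hf, Matrix.transpose_mul, io_mul, hm, rh_mul]
  have hsig : ∀ x, rh I b (σ x) = f (rh I b x).transpose := by
    intro x
    rw [hf, Matrix.transpose_transpose, ← mul_e, hm, heq, rh_mul, rh_e, one_mul]
  have hinj : Function.Injective f := by
    intro X Y hXY
    have h1 : ∀ Z : Mt ℂ (I.d b), σ (io I b Z.transpose) = io I b (f Z) := by
      intro Z
      rw [hf, ← mul_e]
      conv_lhs => rw [← io_mul_e, hm, heq]
      rw [E0aux.e_central]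
    have h2 : io I b X.transpose = io I b Y.transpose := by
      rw [← hs (io I b X.transpose), ← hs (io I b Y.transpose), h1, h1, hXY]
    have h3 := congrArg (rh I b) h2
    rw [rh_io, rh_io] at h3
    exact Matrix.transpose_injective h3
  obtain ⟨P, hPu, hP⟩ := inner_of_aut f hfm hinj
  obtain ⟨u, rfl⟩ := hPu
  set P : Mt ℂ (I.d b) := (u : Mt ℂ (I.d b)) with hPdef
  set Q : Mt ℂ (I.d b) := ((u⁻¹ : (Mt ℂ (I.d b))ˣ) : Mt ℂ (I.d b)) with hQdef
  have hPQ : P * Q = 1 := u.mul_inv
  have hQP : Q * P = 1 := u.inv_mul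
  have hkey : ∀ x, rh I b (σ x) * P = P * (rh I b x).transpose := by
    intro x
    rw [hsig, hP]
  have hkeyT : ∀ x, rh I b (σ x) * P.transpose = P.transpose * (rh I b x).transpose := by
    intro x
    have h1 := congrArg Matrix.transpose (hkey (σ x))
    rw [Matrix.transpose_mul, Matrix.transpose_mul, hs, Matrix.transpose_transpose] at h1
    exact h1.symm
  have hcomm : ∀ X : Mt ℂ (I.d b), X * (P.transpose * Q) = P.transpose * Q * X := by
    intro X
    have h1 : X = rh I b (σ (σ (io I b X))) := by rw [hs, rh_io]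
    set x := σ (io I b X)
    have h2 : (rh I b x).transpose = Q * X * P := by
      rw [mul_assoc, h1, hkey, ← mul_assoc, hQP, one_mul]
    rw [← mul_assoc]
    conv_lhs => rw [h1]
    rw [hkeyT, h2]
    simp only [mul_assoc]
    rw [hPQ, mul_one]
  obtain ⟨s, hsc⟩ := scalar_of_comm I b hcomm
  have hPT : P.transpose = s • P := by
    have : P.transpose = P.transpose * Q * P := by rw [mul_assoc, hQP, mul_one]
    rw [this, hsc, smul_mul_assoc, one_mul]
  have hss : s * s = 1 := by
    have h1 : P = (s * s) • P := by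
      have := congrArg Matrix.transpose hPT
      rw [Matrix.transpose_transpose, Matrix.transpose_smul, hPT, smul_smul] at this
      exact this
    have h2 : (1 : Mt ℂ (I.d b)) = (s * s) • (1 : Mt ℂ (I.d b)) := by
      have := congrArg (fun Z => Z * Q) h1
      simp only [smul_mul_assoc] at this
      rw [hPQ] at this
      exact this
    have h3 := congrArg Matrix.trace h2
    rw [Matrix.trace_smul, Matrix.trace_one, Fintype.card_fin, smul_eq_mul] at h3
    have h4 : (s * s - 1) * (I.d b : ℂ) = 0 := by linear_combination -h3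
    rcases mul_eq_zero.mp h4 with h | h
    · linear_combination h
    · exact absurd h hd
  refine ⟨s, mul_self_eq_one_iff.mp hss, ?_⟩
  have hphi : ∀ h : H, rh I b (el ℂ (φ h)) = P * (rh I b (el ℂ h⁻¹)).transpose * Q := by
    intro h
    rw [← hkey, he, hφi, inv_inv, mul_assoc, hPQ, mul_one]
  have hexp : ∀ h : H, Matrix.trace (rh I b (el ℂ h) * rh I b (el ℂ (φ h))) =
      ∑ i, ∑ l, ∑ k, ∑ j, P j k * Q l i *
        (rh I b (el ℂ h) * Matrix.single j l (1 : ℂ) * rh I b (el ℂ h⁻¹)) i k := by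
    intro h
    rw [hphi, ← mul_assoc, ← mul_assoc, Matrix.trace]
    refine Finset.sum_congr rfl fun i _ => ?_
    rw [Matrix.diag_apply, Matrix.mul_apply]
    refine Finset.sum_congr rfl fun l _ => ?_
    rw [Matrix.mul_apply, Finset.sum_mul]
    refine Finset.sum_congr rfl fun k _ => ?_
    rw [Matrix.mul_apply, Finset.sum_mul, Finset.sum_mul]
    refine Finset.sum_congr rfl fun j _ => ?_
    rw [Matrix.mul_apply, Finset.sum_eq_single l]
    · rw [Matrix.mul_single_apply_same, mul_one, Matrix.transpose_apply]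
      ring
    · intro m _ hm
      rw [Matrix.mul_single_apply_of_ne _ _ _ _ _ hm, zero_mul]
    · intro h0
      exact absurd (Finset.mem_univ l) h0
  have hS : ∀ i j k l : Fin (I.d b), (I.d b : ℂ) * ∑ h : H,
      (rh I b (el ℂ h) * Matrix.single j l (1 : ℂ) * rh I b (el ℂ h⁻¹)) i k =
      (Nat.card H : ℂ) * (if j = l then 1 else 0) * (if i = k then 1 else 0) := by
    intro i j k l
    have h1 := congrFun (congrFun (avg I b (Matrix.single j l (1 : ℂ))) i) k
    rw [Matrix.smul_apply, Matrix.smul_apply, Matrix.sum_apply, Matrix.one_apply, smul_eq_mul,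
      smul_eq_mul] at h1
    rw [h1]
    congr 2
    by_cases hjl : j = l
    · subst hjl
      rw [Matrix.trace_single_eq_same, if_pos rfl]
    · rw [Matrix.trace_single_eq_of_ne _ _ _ hjl, if_neg hjl]
  have hfin : (I.d b : ℂ) * ∑ h : H, Matrix.trace (rh I b (el ℂ h) * rh I b (el ℂ (φ h))) =
      (I.d b : ℂ) * (s * Nat.card H) := by
    rw [Finset.sum_congr rfl (fun h _ => hexp h)]
    have h1 : ∑ h : H, ∑ i, ∑ l, ∑ k, ∑ j, P j k * Q l i *
        (rh I b (el ℂ h) * Matrix.single j l (1 : ℂ) * rh I b (el ℂ h⁻¹)) i k =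
        ∑ i, ∑ l, ∑ k, ∑ j, P j k * Q l i * ∑ h : H,
        (rh I b (el ℂ h) * Matrix.single j l (1 : ℂ) * rh I b (el ℂ h⁻¹)) i k := by
      rw [Finset.sum_comm]
      refine Finset.sum_congr rfl fun i _ => ?_
      rw [Finset.sum_comm]
      refine Finset.sum_congr rfl fun l _ => ?_
      rw [Finset.sum_comm]
      refine Finset.sum_congr rfl fun k _ => ?_
      rw [Finset.sum_comm]
      refine Finset.sum_congr rfl fun j _ => ?_
      rw [Finset.mul_sum]
    rw [h1]
    have h2 : (I.d b : ℂ) * ∑ i, ∑ l, ∑ k, ∑ j, P j k * Q l i * ∑ h : H,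
        (rh I b (el ℂ h) * Matrix.single j l (1 : ℂ) * rh I b (el ℂ h⁻¹)) i k =
        ∑ i, ∑ l, ∑ k, ∑ j, P j k * Q l i *
          ((Nat.card H : ℂ) * (if j = l then 1 else 0) * (if i = k then 1 else 0)) := by
      simp only [Finset.mul_sum]
      refine Finset.sum_congr rfl fun i _ => Finset.sum_congr rfl fun l _ =>
        Finset.sum_congr rfl fun k _ => Finset.sum_congr rfl fun j _ => ?_
      rw [← hS i j k l, ← Finset.mul_sum, ← Finset.mul_sum]
      ring
    rw [h2]
    have h3 : ∀ i : Fin (I.d b), ∑ l, ∑ k, ∑ j, P j k * Q l i *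
          ((Nat.card H : ℂ) * (if j = l then 1 else 0) * (if i = k then 1 else 0)) =
        (Nat.card H : ℂ) * (P.transpose * Q) i i := by
      intro i
      rw [Matrix.mul_apply, Finset.mul_sum]
      refine Finset.sum_congr rfl fun l _ => ?_
      rw [Finset.sum_eq_single i]
      · rw [Finset.sum_eq_single l]
        · rw [if_pos rfl, if_pos rfl, Matrix.transpose_apply]
          ring
        · intro j _ hj
          rw [if_neg hj]
          ring
        · intro h0
          exact absurd (Finset.mem_univ l) h0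
      · intro k _ hk
        refine Finset.sum_eq_zero fun j _ => ?_
        rw [if_neg (fun h : i = k => hk h.symm)]
        ring
      · intro h0
        exact absurd (Finset.mem_univ i) h0
    rw [Finset.sum_congr rfl (fun i _ => h3 i), ← Finset.mul_sum]
    have h4 : ∑ i, (P.transpose * Q) i i = s * I.d b := by
      rw [hsc]
      simp only [Matrix.smul_apply, Matrix.one_apply_eq, smul_eq_mul, mul_one]
      rw [Finset.sum_const, Finset.card_univ, Fintype.card_fin, nsmul_eq_mul]
      ring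
    rw [h4]
    ring
  exact mul_left_cancel₀ hd hfin

end core

/-- OB (hint). Put `E = incl (E0aux.e I b)`, `σ(a) = y inv'(a) y⁻¹ = cj y (inv' a)`, an anti-automorphism of
`ℂ[N]` (inside `ℂ[G]`) with `σ σ = id`. The sum is the trace of the linear map `T : a ↦ E σ(a)` of `ℂ[N]`
(coefficient of `E (y n⁻¹ y⁻¹)` at `n` is `E.coeff (n y n y⁻¹)`, `y⁻¹ = y`). If `σ(E) ≠ E` then `σ(E)` is another
`incl (E0aux.e I b')` and `E σ(E) = 0`; `T = L_E T`, `T a = σ(a σ(E))`, so `tr T = tr (L_E T) = tr (T L_E)`-type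
manipulations give `0` (`T (E a) = E σ(a) σ(E)`, central, `= 0`). If `σ(E) = E` then `T` lives on the block
`ℂ[N] E ≅ Mat_d(ℂ)` (use `I.equiv`), where it is an anti-automorphism `τ` with `τ τ = id`, and
`tr τ = ± d`: by `inner_of_aut` applied to `M ↦ τ(Mᵀ)`, `τ(M) = P Mᵀ P⁻¹`, `τ τ = id` gives `Pᵀ = s P` with
`s² = 1`, and `tr τ = ∑_{ij} P_{ij} (P⁻¹)_{ij} = s ∑_{ij} P_{ji} (P⁻¹)_{ij} = s d`. (Alternatively Schur orthogonality
for the matrix coefficients of the `b`-th representation.) -/
theorem gow_trace {G : Type} [Group G] [Fintype G] {N : Subgroup G} (hNn : N.Normal)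
    (I : IrrData N) (b : Fin I.r) {y : G} (hy : y * y = 1) :
    (cj y (inv' (incl ℂ N (E0aux.e I b))) ≠ incl ℂ N (E0aux.e I b) →
      ∑ n ∈ Finset.univ.filter (fun n : G => n ∈ N),
        (incl ℂ N (E0aux.e I b)).coeff (n * y * n * y) = 0) ∧
    (cj y (inv' (incl ℂ N (E0aux.e I b))) = incl ℂ N (E0aux.e I b) →
      ∃ s : ℂ, (s = 1 ∨ s = -1) ∧ ∑ n ∈ Finset.univ.filter (fun n : G => n ∈ N),
        (incl ℂ N (E0aux.e I b)).coeff (n * y * n * y) = s * I.d b) := by
  have hyi : y⁻¹ = y := inv_eq_of_mul_eq_one_left hy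
  have hmem : ∀ n : N, y * (n : G) * y⁻¹ ∈ N := fun n => hNn.conj_mem n n.2 y
  let φ : N → N := fun n => ⟨y * (n : G) * y⁻¹, hmem n⟩
  have hφc : ∀ n : N, ((φ n : N) : G) = y * (n : G) * y⁻¹ := fun n => rfl
  have hφ : ∀ g h, φ (g * h) = φ g * φ h := by
    intro g h
    apply Subtype.ext
    rw [Subgroup.coe_mul, hφc, hφc, hφc, Subgroup.coe_mul]
    group
  have hsupp : ∀ x : MonoidAlgebra ℂ N, ∀ g, g ∉ N → (cj y (inv' (incl ℂ N x))).coeff g = 0 := by
    intro x g hg
    rw [cj_coeff, Pool.Agent.Helper36.NB.inv'_coeff]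
    apply incl_supp
    intro h
    apply hg
    have h1 := hNn.conj_mem _ (N.inv_mem h) y
    have h2 : y * (y⁻¹ * g * y)⁻¹⁻¹ * y⁻¹ = g := by group
    rwa [h2] at h1
  let σ : MonoidAlgebra ℂ N →ₗ[ℂ] MonoidAlgebra ℂ N :=
    { toFun := fun x => res N (cj y (inv' (incl ℂ N x)))
      map_add' := fun x z => by
        rw [map_add, inv'_add, cj_add, res_add]
      map_smul' := fun c x => by
        apply incl_injective
        have h3 : ∀ z : MonoidAlgebra ℂ N, incl ℂ N (c • z) = c • incl ℂ N z := by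
          intro z
          ext g
          by_cases hg : g ∈ N
          · have := incl_coeff N (c • z) ⟨g, hg⟩
            have h2 := incl_coeff N z ⟨g, hg⟩
            simp only at this h2
            rw [this, MonoidAlgebra.coeff_smul_apply, MonoidAlgebra.coeff_smul_apply, h2]
          · rw [incl_supp _ _ hg, MonoidAlgebra.coeff_smul_apply, incl_supp _ _ hg, smul_zero]
        rw [RingHom.id_apply, h3 (res N _), incl_res N (hsupp _), incl_res N (hsupp x), h3 x,
          inv'_smul, cj_smul] }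
  have hσ : ∀ x, incl ℂ N (σ x) = cj y (inv' (incl ℂ N x)) := fun x => incl_res N (hsupp x)
  have hm : ∀ x z, σ (x * z) = σ z * σ x := by
    intro x z
    apply incl_injective
    rw [map_mul (incl ℂ N), hσ, hσ, hσ, map_mul (incl ℂ N), Pool.Agent.Helper36.NB.inv'_mul,
      cj_mul]
  have hs : ∀ x, σ (σ x) = x := by
    intro x
    apply incl_injective
    rw [hσ, hσ, cj_inv', Pool.Agent.Helper36.NB.inv'_inv', cj_cj, hy, cj_one]
  have he : ∀ h, σ (el ℂ h) = el ℂ (φ h)⁻¹ := by
    intro h
    apply incl_injective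
    rw [hσ, incl_el, incl_el, Pool.Agent.Helper36.NB.inv'_el, cj_el, Subgroup.coe_inv, hφc]
    congr 1
    group
  have hsum : ∑ n ∈ Finset.univ.filter (fun n : G => n ∈ N),
      (incl ℂ N (E0aux.e I b)).coeff (n * y * n * y) =
      ∑ h : N, (E0aux.e I b).coeff (h * φ h) := by
    rw [Finset.sum_subtype (Finset.univ.filter (fun n : G => n ∈ N)) (p := fun n : G => n ∈ N)
      (fun x => by simp)]
    refine Finset.sum_congr rfl fun h _ => ?_
    rw [← incl_coeff, Subgroup.coe_mul, hφc, hyi]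
    simp only [mul_assoc]
  have htr := sum_trace I b φ hφ
  have hN := E0aux.card_ne (G := N)
  constructor
  · intro hne
    have hne' : σ (E0aux.e I b) ≠ E0aux.e I b := by
      intro h
      apply hne
      rw [← hσ, h]
    rw [case_one I b σ φ hφ hm hs he hne', mul_zero] at htr
    rw [hsum]
    exact (mul_eq_zero.mp htr).resolve_left hN
  · intro heq
    have heq' : σ (E0aux.e I b) = E0aux.e I b := by
      apply incl_injective
      rw [hσ, heq]
    obtain ⟨s, hs1, hs2⟩ := case_two I b σ φ hφ hm hs he heq'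
    refine ⟨s, hs1, ?_⟩
    rw [hs2] at htr
    rw [hsum]
    apply mul_left_cancel₀ hN
    rw [htr]
    ring

end Pool.Agent.Helper44.S3
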