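import Pool.Agent.Helper44.S3.Defs2
import Pool.Agent.Helper44.S3.CJ
import Pool.Agent.Helper44.S3.NA
import Pool.Agent.Helper44.S3.OA
import Pool.Agent.Helper44.S3.OB

set_option autoImplicit false
open scoped BigOperators MonoidAlgebra
open Classical

namespace Pool.Agent.Helper44.S3

open Pool.Agent.Helper36.NB

private theorem equiv_zero_of_chi {H : Type} [Group H] (I : IrrData H) (b : Fin I.r)
    (x : MonoidAlgebra ℂ H) (hx : x * x = x) (h0 : I.chi b x = 0) : I.equiv x b = 0 := by
  have hAA : I.equiv x b * I.equiv x b = I.equiv x b := by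
    rw [← Pi.mul_apply, ← map_mul, hx]
  have hid : IsIdempotentElem (Matrix.toLin' (I.equiv x b)) := by
    unfold IsIdempotentElem
    rw [Module.End.mul_eq_comp, ← Matrix.toLin'_mul, hAA]
  have ht : LinearMap.trace ℂ (Fin (I.d b) → ℂ) (Matrix.toLin' (I.equiv x b)) = 0 := by
    rw [Matrix.trace_toLin'_eq]
    exact h0
  have h1 := LinearMap.IsIdempotentElem.eq_zero_of_trace_eq_zero hid ht
  exact (LinearEquiv.map_eq_zero_iff _).1 h1

private theorem mul_e_zero {H : Type} [Group H] [Fintype H] (I : IrrData H) (b : Fin I.r)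
    (x : MonoidAlgebra ℂ H) (h : I.equiv x b = 0) : x * E0aux.e I b = 0 := by
  apply I.equiv.injective
  rw [map_mul, E0aux.equiv_e, map_zero]
  funext a
  rw [Pi.mul_apply, Pi.zero_apply]
  by_cases hab : a = b
  · subst hab
    rw [h, zero_mul]
  · rw [Pi.single_eq_of_ne hab, mul_zero]

/-- the elements of `N` commuting with `y`, as elements of `N` -/
private noncomputable def cs {G : Type} [Group G] [Fintype G] (N : Subgroup G) (y : G) :
    Finset N :=
  Finset.univ.filter (fun c : N => (c : G) * y = y * c)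

private theorem csetN_eq {G : Type} [Group G] [Fintype G] (N : Subgroup G) (y : G) :
    csetN N y = (cs N y).map (Function.Embedding.subtype (fun g : G => g ∈ N)) := by
  ext g
  simp only [csetN, cs, Finset.mem_filter, Finset.mem_univ, true_and, Finset.mem_map,
    Function.Embedding.subtype_apply]
  constructor
  · rintro ⟨h1, h2⟩
    exact ⟨⟨g, h1⟩, h2, rfl⟩
  · rintro ⟨c, hc, rfl⟩
    exact ⟨c.2, hc⟩

private theorem sum_csetN {G : Type} [Group G] [Fintype G] {M : Type} [AddCommMonoid M]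
    (N : Subgroup G) (y : G) (F : G → M) :
    ∑ c ∈ csetN N y, F c = ∑ c ∈ cs N y, F (c : G) := by
  rw [csetN_eq, Finset.sum_map]
  rfl

private theorem card_csetN {G : Type} [Group G] [Fintype G] (N : Subgroup G) (y : G) :
    (csetN N y).card = (cs N y).card := by
  rw [csetN_eq, Finset.card_map]

private theorem mem_cs {G : Type} [Group G] [Fintype G] {N : Subgroup G} {y : G} {c : N} :
    c ∈ cs N y ↔ (c : G) * y = y * c := by
  simp only [cs, Finset.mem_filter, Finset.mem_univ, true_and]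

private theorem cs_mul {G : Type} [Group G] [Fintype G] {N : Subgroup G} {y : G} {c d : N}
    (hc : c ∈ cs N y) (hd : d ∈ cs N y) : c * d ∈ cs N y := by
  rw [mem_cs] at hc hd ⊢
  rw [Subgroup.coe_mul, mul_assoc, hd, ← mul_assoc, hc, mul_assoc]

private theorem cs_inv {G : Type} [Group G] [Fintype G] {N : Subgroup G} {y : G} {c : N}
    (hc : c ∈ cs N y) : c⁻¹ ∈ cs N y := by
  rw [mem_cs] at hc ⊢
  rw [Subgroup.coe_inv, inv_mul_eq_iff_eq_mul, ← mul_assoc, hc, mul_assoc, mul_inv_cancel,
    mul_one]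

private theorem one_mem_cs {G : Type} [Group G] [Fintype G] (N : Subgroup G) (y : G) :
    (1 : N) ∈ cs N y := by
  rw [mem_cs, Subgroup.coe_one, one_mul, mul_one]

private theorem cs_idem {G : Type} [Group G] [Fintype G] (N : Subgroup G) (y : G) :
    (∑ c ∈ cs N y, el ℂ c) * (∑ c ∈ cs N y, el ℂ c) =
      ((cs N y).card : ℂ) • ∑ c ∈ cs N y, el ℂ c := by
  have h1 : ∀ d ∈ cs N y, el ℂ d * (∑ c ∈ cs N y, el ℂ c) = ∑ c ∈ cs N y, el ℂ c := by
    intro d hd
    rw [Finset.mul_sum]
    refine Finset.sum_bij' (fun c _ => d * c) (fun c _ => d⁻¹ * c) ?_ ?_ ?_ ?_ ?_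
    · intro c hc
      exact cs_mul hd hc
    · intro c hc
      exact cs_mul (cs_inv hd) hc
    · intro c _
      exact inv_mul_cancel_left d c
    · intro c _
      exact mul_inv_cancel_left d c
    · intro c _
      exact (el_mul ℂ d c).symm
  rw [Finset.sum_mul, Finset.sum_congr rfl h1, Finset.sum_const, Nat.cast_smul_eq_nsmul]

/-- OC (hint). Put `C = C_N(y)`, `f = incl (E0aux.e B.I b)` (`B.toC_F`), a class function on `N`. By `gow_count` and
`gow_trace` `|N| ∑_{c ∈ C} f(c)` is `|C|` times `0` (first case) or `± d` (second case). On the other hand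
`|N| ∑_{c ∈ C} f(c) = d ∑_{c ∈ C} ch(c⁻¹) = d |C| m` with a natural number `m` (the multiplicity of the trivial
character of `C`: `char_inner` in NB/E1 for the subgroup `C` with `ch_isChar`, or: `p = (1 / |C|) ∑_{c ∈ C} c` is
an idempotent of `ℂ[N]` and `chi_idem`). So `m = 0` in the first case, `m = 1` in the second. If `m = 0` the
matrix `I.equiv p b` is idempotent of trace `0`, so it is zero, which means `p * E0aux.e I b = 0`. -/
theorem gow {O : ValuationSubring ℂ} {G : Type} [Group G] [Fintype G] {N : Subgroup G}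
    (hNn : N.Normal) (hN : Odd (Nat.card N)) (B : OddBlocks O N) (b : Fin B.I.r) {y : G}
    (hy : y * y = 1) :
    (cj y (inv' (B.F b)) ≠ B.F b → (∑ c ∈ csetN N y, el O c) * B.F b = 0) ∧
    (cj y (inv' (B.F b)) = B.F b →
      (Nat.card N : ℂ) * ∑ c ∈ csetN N y, ((B.F b).coeff c : ℂ) =
        B.I.d b * (csetN N y).card) := by
  obtain ⟨C, hC⟩ : ∃ C : ℂ, C = ((csetN N y).card : ℂ) := ⟨_, rfl⟩
  have hC' : C = ((cs N y).card : ℂ) := by rw [hC, card_csetN]
  have hC0 : C ≠ 0 := by
    rw [hC']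
    exact_mod_cast (Finset.card_pos.2 ⟨1, one_mem_cs N y⟩).ne'
  have hd0 : (B.I.d b : ℂ) ≠ 0 := by exact_mod_cast (B.I.pos b).ne'
  obtain ⟨E, hE⟩ : ∃ E, E = incl ℂ N (E0aux.e B.I b) := ⟨_, rfl⟩
  have hFE : toC O G (B.F b) = E := by rw [hE]; exact B.toC_F b
  have hfF : ∀ g, ((B.F b).coeff g : ℂ) = E.coeff g := by
    intro g
    rw [← hFE, toC_apply]
  have hcl : ∀ n ∈ N, ∀ g, E.coeff (n * g * n⁻¹) = E.coeff g := by
    intro n hn g
    have h1 : el ℂ n⁻¹ * E = E * el ℂ n⁻¹ := by
      have h2 := E0aux.e_central B.I b (el ℂ (⟨n, hn⟩ : N)⁻¹)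
      have h3 := congrArg (incl ℂ N) h2
      rw [map_mul, map_mul, incl_el, ← hE] at h3
      exact h3
    have h2 := (cj_eq_iff n⁻¹ E).2 h1
    have h3 := cj_coeff n⁻¹ E g
    rw [h2, inv_inv] at h3
    exact h3.symm
  -- the idempotent of the centraliser
  obtain ⟨p0, hp0⟩ : ∃ p0 : MonoidAlgebra ℂ N, p0 = ∑ c ∈ cs N y, el ℂ c := ⟨_, rfl⟩
  have hpp : p0 * p0 = C • p0 := by rw [hp0, hC']; exact cs_idem N y
  obtain ⟨p, hp⟩ : ∃ p : MonoidAlgebra ℂ N, p = C⁻¹ • p0 := ⟨_, rfl⟩
  have hpi : p * p = p := by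
    rw [hp, smul_mul_smul_comm, hpp, smul_smul, mul_assoc, inv_mul_cancel₀ hC0, mul_one]
  obtain ⟨m, hm⟩ := chi_idem B.I b p hpi
  have hsum0 : ∑ c ∈ cs N y, B.I.ch b c = C * m := by
    have h1 : B.I.chi b p = C⁻¹ * ∑ c ∈ cs N y, B.I.ch b c := by
      rw [hp, chi_smul, hp0, chi_sum]
      rfl
    rw [← hm, h1, mul_inv_cancel_left₀ hC0]
  have hsum1 : ∑ c ∈ cs N y, B.I.ch b c⁻¹ = C * m := by
    rw [← hsum0]
    refine Finset.sum_bij' (fun c _ => c⁻¹) (fun c _ => c⁻¹) ?_ ?_ ?_ ?_ ?_
    · intro c hc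
      exact cs_inv hc
    · intro c hc
      exact cs_inv hc
    · intro c _
      exact inv_inv c
    · intro c _
      exact inv_inv c
    · intro c _
      rfl
  have hsum : (Nat.card N : ℂ) * ∑ c ∈ csetN N y, E.coeff c = B.I.d b * (C * m) := by
    rw [sum_csetN, ← hsum1, Finset.mul_sum, Finset.mul_sum]
    refine Finset.sum_congr rfl fun c _ => ?_
    rw [hE, incl_coeff]
    exact E0aux.e_coeff B.I b c
  have hcount := gow_count hNn hN hy (fun g => E.coeff g) hcl
  have htr := gow_trace hNn B.I b hy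
  rw [← hE] at htr
  rw [hsum, ← hC] at hcount
  have htoC : toC O G (cj y (inv' (B.F b))) = cj y (inv' E) := by
    rw [toC_cj, toC_inv', hFE]
  refine ⟨?_, ?_⟩
  · intro hne
    have hne' : cj y (inv' E) ≠ E := by
      intro h
      apply hne
      apply toC_injective O
      rw [htoC, hFE, h]
    rw [htr.1 hne', mul_zero] at hcount
    have hm0 : (m : ℂ) = 0 := by
      have h1 := hcount.symm
      rw [mul_eq_zero, mul_eq_zero] at h1
      rcases h1 with h1 | h1 | h1
      · exact absurd h1 hd0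
      · exact absurd h1 hC0
      · exact h1
    rw [hm0] at hm
    have h1 := mul_e_zero B.I b p (equiv_zero_of_chi B.I b p hpi hm)
    have h2 : p0 * E0aux.e B.I b = 0 := by
      have h3 : p0 = C • p := by rw [hp, smul_smul, mul_inv_cancel₀ hC0, one_smul]
      rw [h3, smul_mul_assoc, h1, smul_zero]
    have h3 := congrArg (incl ℂ N) h2
    rw [map_mul, map_zero, ← hE, hp0, map_sum] at h3
    simp only [incl_el] at h3
    apply toC_injective O
    rw [map_mul, map_zero, hFE, map_sum, ← h3, sum_csetN]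
    simp only [toC_el]
  · intro heq
    have heq' : cj y (inv' E) = E := by rw [← htoC, heq, hFE]
    obtain ⟨s, hs, hs2⟩ := htr.2 heq'
    rw [hs2] at hcount
    have hms : (m : ℂ) = s := by
      have h1 : (B.I.d b : ℂ) * C * (m - s) = 0 := by linear_combination -hcount
      rw [mul_eq_zero, mul_eq_zero] at h1
      rcases h1 with (h1 | h1) | h1
      · exact absurd h1 hd0
      · exact absurd h1 hC0
      · exact sub_eq_zero.1 h1
    have hs1 : s = 1 := by
      rcases hs with hs | hs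
      · exact hs
      · exfalso
        rw [hs] at hms
        have h2 : (m : ℂ) + 1 = 0 := by rw [hms]; ring
        exact Nat.cast_add_one_ne_zero m h2
    rw [Finset.sum_congr rfl (fun c _ => hfF c), hsum, hms, hs1, ← hC, mul_one]

end Pool.Agent.Helper44.S3
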