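import Pool.Agent.Helper44.S3.Defs2
import Pool.Agent.Helper44.S3.OC
import Pool.Agent.Helper36.NB.F2

set_option autoImplicit false
open scoped BigOperators MonoidAlgebra
open Classical

namespace Pool.Agent.Helper44.S3

open Pool.Agent.Helper36.NB

private theorem clb_coeff_sum {k : Type} [CommRing k] {G : Type} [Group G] {ι : Type}
    (s : Finset ι) (a : ι → MonoidAlgebra k G) (x : G) :
    (∑ i ∈ s, a i).coeff x = ∑ i ∈ s, (a i).coeff x := by
  rw [MonoidAlgebra.coeff_sum, Finsupp.finsetSum_apply]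

/-- CLb (Burnside: the only real block of a group of odd order is the principal one; hint). `gow` for `y = 1`
(`csetN N 1 = N`): `∑_{n ∈ N} F(n) = d ≠ 0`. Let `s = ∑_{n ∈ N} el n`: `s * F = (∑ F(n)) • s`, and by `F_central`
`s * F = c • F`. So `F` is a multiple of `s`; it is non-zero, and a multiple `c' s` which is idempotent has
`c' |N| = 1`. -/
theorem real_triv {O : ValuationSubring ℂ} {G : Type} [Group G] [Fintype G] {N : Subgroup G}
    (h2 : (2 : O) ∈ IsLocalRing.maximalIdeal O) (hNn : N.Normal) (hN : Odd (Nat.card N))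
    (B : OddBlocks O N) (b : Fin B.I.r) (hr : inv' (B.F b) = B.F b) :
    (∀ g, cj g (B.F b) = B.F b) ∧ IsLocalRing.residue O ((B.F b).coeff 1) ≠ 0 := by
  have hmem : ∀ c : G, c ∈ csetN N 1 ↔ c ∈ N := by
    intro c
    simp [csetN]
  have hcardN : (csetN N (1 : G)).card = Nat.card N := by
    rw [Nat.card_eq_fintype_card, Fintype.card_subtype]
    congr 1
    ext c
    simp [hmem]
  obtain ⟨F, hF⟩ : ∃ F, F = B.F b := ⟨_, rfl⟩
  obtain ⟨σ, hσ⟩ : ∃ σ : O, σ = ∑ c ∈ csetN N (1 : G), F.coeff c := ⟨_, rfl⟩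
  have hsuppF : ∀ g, g ∉ N → F.coeff g = 0 := by
    intro g hg
    rw [hF]
    exact F_supp B b hg
  have hg := (gow hNn hN B b (y := 1) (one_mul 1)).2 (by rw [cj_one]; exact hr)
  have hNc : (Nat.card N : ℂ) ≠ 0 := by exact_mod_cast Nat.card_pos.ne'
  have hσC : ((σ : O) : ℂ) = B.I.d b := by
    rw [hcardN] at hg
    have h1 : ((σ : O) : ℂ) = ∑ c ∈ csetN N (1 : G), ((B.F b).coeff c : ℂ) := by
      rw [hσ, hF]
      exact map_sum O.subtype _ _
    rw [h1]
    apply mul_left_cancel₀ hNc
    rw [hg]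
    ring
  have hσ0 : σ ≠ 0 := by
    rintro h
    rw [h] at hσC
    have h3 : (B.I.d b : ℂ) ≠ 0 := by exact_mod_cast (B.I.pos b).ne'
    exact h3 hσC.symm
  obtain ⟨s, hs⟩ : ∃ s : MonoidAlgebra O G, s = ∑ n ∈ csetN N (1 : G), el O n := ⟨_, rfl⟩
  have hsc : ∀ g, s.coeff g = if g ∈ N then 1 else 0 := by
    intro g
    rw [hs, clb_coeff_sum, Finset.sum_congr rfl (fun x _ => el_coeff x g), Finset.sum_ite_eq']
    simp only [hmem]
  have hsel : ∀ c ∈ N, s * el O c = s := by
    intro c hc
    ext g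
    rw [mul_el_coeff, hsc, hsc]
    have h1 : g * c⁻¹ ∈ N ↔ g ∈ N := by
      constructor
      · intro h
        have h3 := N.mul_mem h hc
        rwa [inv_mul_cancel_right] at h3
      · intro h
        exact N.mul_mem h (N.inv_mem hc)
    simp only [h1]
  have hels : ∀ c ∈ N, el O c * s = s := by
    intro c hc
    ext g
    rw [el_mul_coeff, hsc, hsc]
    have h1 : c⁻¹ * g ∈ N ↔ g ∈ N := by
      constructor
      · intro h
        have h3 := N.mul_mem hc h
        rwa [mul_inv_cancel_left] at h3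
      · intro h
        exact N.mul_mem (N.inv_mem hc) h
    simp only [h1]
  have hexp : F = ∑ c ∈ csetN N (1 : G), F.coeff c • el O c := by
    ext g
    rw [clb_coeff_sum]
    have h1 : ∀ c : G, (F.coeff c • el O c).coeff g = if c = g then F.coeff c else 0 := by
      intro c
      rw [MonoidAlgebra.coeff_smul, Finsupp.smul_apply, el_coeff, smul_eq_mul]
      split_ifs with h3
      · rw [mul_one]
      · rw [mul_zero]
    rw [Finset.sum_congr rfl (fun c _ => h1 c), Finset.sum_ite_eq']
    by_cases hgN : g ∈ N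
    · rw [if_pos ((hmem g).2 hgN)]
    · rw [if_neg (fun h => hgN ((hmem g).1 h)), hsuppF g hgN]
  have hsF : s * F = σ • s := by
    have h1 : s * F = ∑ c ∈ csetN N (1 : G), s * (F.coeff c • el O c) := by
      conv_lhs => rw [hexp]
      rw [Finset.mul_sum]
    rw [h1, hσ, Finset.sum_smul]
    refine Finset.sum_congr rfl fun c hc => ?_
    rw [mul_smul_comm, hsel c ((hmem c).1 hc)]
  obtain ⟨c, hc⟩ := F_central B b s (fun g hg => by rw [hsc, if_neg hg])
    (fun h hh => by rw [hels h hh, hsel h hh])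
  rw [← hF, hsF] at hc
  have hcg : ∀ g ∈ N, σ = c * F.coeff g := by
    intro g hgN
    have h1 := congrArg (fun x => x.coeff g) hc
    simp only [MonoidAlgebra.coeff_smul_apply, smul_eq_mul, hsc, if_pos hgN, mul_one] at h1
    exact h1
  have hc1 := hcg 1 N.one_mem
  have hc0 : c ≠ 0 := by
    rintro rfl
    rw [zero_mul] at hc1
    exact hσ0 hc1
  have hF1 : F.coeff 1 ≠ 0 := by
    intro h
    rw [h, mul_zero] at hc1
    exact hσ0 hc1
  have hconst : ∀ g ∈ N, F.coeff g = F.coeff 1 := by
    intro g hgN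
    apply mul_left_cancel₀ hc0
    rw [← hcg g hgN, ← hc1]
  have hFs : F = F.coeff 1 • s := by
    ext g
    rw [MonoidAlgebra.coeff_smul_apply, smul_eq_mul, hsc]
    by_cases hgN : g ∈ N
    · rw [if_pos hgN, mul_one, hconst g hgN]
    · rw [if_neg hgN, mul_zero, hsuppF g hgN]
  have hFF : F * F = F := by
    rw [hF, F_mul, if_pos rfl]
  have hσ1 : σ = 1 := by
    have h1 : F * F = F.coeff 1 • (σ • s) := by
      conv_lhs => rw [hFs]
      rw [smul_mul_assoc]
      conv_lhs => rw [← hFs]
      rw [hsF]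
    rw [hFF] at h1
    have h3 := congrArg (fun x => x.coeff 1) h1
    simp only [MonoidAlgebra.coeff_smul_apply, smul_eq_mul, hsc, if_pos N.one_mem, mul_one] at h3
    apply mul_left_cancel₀ hF1
    rw [mul_one]
    exact h3.symm
  have hcardF : (Nat.card N : O) * F.coeff 1 = 1 := by
    rw [← hσ1, hσ, Finset.sum_congr rfl (fun c hc => hconst c ((hmem c).1 hc)), Finset.sum_const,
      hcardN, nsmul_eq_mul]
  rw [← hF]
  constructor
  · intro g
    ext x
    rw [cj_coeff]
    have h1 : g⁻¹ * x * g ∈ N ↔ x ∈ N := by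
      constructor
      · intro h
        have h3 := hNn.conj_mem _ h g
        have h4 : g * (g⁻¹ * x * g) * g⁻¹ = x := by group
        rwa [h4] at h3
      · intro h
        have h3 := hNn.conj_mem _ h g⁻¹
        rwa [inv_inv] at h3
    by_cases hx : x ∈ N
    · rw [hconst x hx, hconst _ (h1.2 hx)]
    · rw [hsuppF x hx, hsuppF _ (fun h => hx (h1.1 h))]
  · intro h
    have h3 := congrArg (IsLocalRing.residue O) hcardF
    rw [map_mul, h, mul_zero, map_one] at h3
    exact zero_ne_one h3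

end Pool.Agent.Helper44.S3
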