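import Pool.Agent.Helper44.S3.Defs

set_option autoImplicit false
open scoped BigOperators MonoidAlgebra
open Classical

namespace Pool.Agent.Helper44.S3

open Pool.Agent.Helper36.NB

open Matrix in
private theorem cs_basis {k : Type} [Field k] {a n : ℕ} (z : Fin a) (φ : Mt k a →ₗ[k] Mt k n)
    (hmul : ∀ x y, φ (x * y) = φ x * φ y) (hone : φ 1 = 1) :
    ∃ (b : ℕ) (B : Module.Basis (Fin a × Fin b) k (Fin n → k)),
      ∀ x p q, LinearMap.toMatrix B B (Matrix.toLin' (φ x)) p q =
        if p.2 = q.2 then x p.1 q.1 else 0 := by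
  set F : Mt k a → ((Fin n → k) →ₗ[k] (Fin n → k)) := fun x => Matrix.toLin' (φ x) with hF
  have hFmul : ∀ x y v, F (x * y) v = F x (F y v) := by
    intro x y v
    simp only [hF, hmul, Matrix.toLin'_mul, LinearMap.comp_apply]
  have hFadd : ∀ {ι : Type} (s : Finset ι) (f : ι → Mt k a) v,
      F (∑ i ∈ s, f i) v = ∑ i ∈ s, F (f i) v := by
    intro ι s f v
    simp only [hF, map_sum, LinearMap.sum_apply]
  have hFsmul : ∀ (c : k) x v, F (c • x) v = c • F x v := by
    intro c x v
    simp only [hF, map_smul, LinearMap.smul_apply]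
  have hFone : ∀ v, F 1 v = v := by
    intro v
    simp only [hF, hone, Matrix.toLin'_one, LinearMap.id_apply]
  let W := LinearMap.range (F (single z z 1))
  let w := Module.finBasis k W
  have hw : ∀ j, F (single z z 1) (w j : Fin n → k) = w j := by
    intro j
    obtain ⟨u, hu⟩ := (w j).2
    rw [← hu, ← hFmul]
    simp
  let v : Fin a × Fin (Module.finrank k W) → (Fin n → k) := fun p => F (single p.1 z 1) (w p.2)
  have hli : LinearIndependent k v := by
    rw [Fintype.linearIndependent_iff]
    intro g hg p
    have h1 : F (single z p.1 1) (∑ q, g q • v q) = 0 := by rw [hg, map_zero]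
    rw [map_sum] at h1
    have h2 : ∀ q, F (single z p.1 1) (g q • v q) =
        if p.1 = q.1 then g q • (w q.2 : Fin n → k) else 0 := by
      intro q
      rw [map_smul]
      simp only [v]
      rw [← hFmul]
      by_cases h : p.1 = q.1
      · rw [if_pos h, h, Matrix.single_mul_single_same, one_mul, hw]
      · rw [if_neg h, Matrix.single_mul_single_of_ne _ _ _ _ h]
        simp [hF]
    simp only [h2] at h1
    rw [Fintype.sum_prod_type] at h1
    have h3 : ∑ j, g (p.1, j) • (w j : Fin n → k) = 0 := by
      rw [← h1]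
      rw [Finset.sum_eq_single p.1]
      · simp
      · intro b _ hb
        exact Finset.sum_eq_zero (fun j _ => if_neg (Ne.symm hb))
      · intro h
        exact absurd (Finset.mem_univ _) h
    have h4 : ∑ j, g (p.1, j) • w j = 0 := by
      apply W.injective_subtype
      rw [map_sum, map_zero]
      exact h3
    exact Fintype.linearIndependent_iff.1 w.linearIndependent (fun j => g (p.1, j)) h4 p.2
  have hsp : ⊤ ≤ Submodule.span k (Set.range v) := by
    intro u _
    have h1 : u = ∑ i, F (single i z 1) (F (single z i 1) u) := by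
      have : (∑ i, single i i (1 : k) : Mt k a) = 1 := by
        ext i j
        rw [Matrix.sum_apply]
        by_cases h : i = j
        · subst h
          rw [Finset.sum_eq_single i]
          · simp
          · intro b _ hb
            simp [Matrix.single_apply, hb]
          · intro h
            exact absurd (Finset.mem_univ _) h
        · rw [Matrix.one_apply_ne h]
          refine Finset.sum_eq_zero (fun b _ => ?_)
          rw [Matrix.single_apply, if_neg]
          rintro ⟨rfl, rfl⟩
          exact h rfl
      conv_lhs => rw [← hFone u, ← this, hFadd]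
      refine Finset.sum_congr rfl (fun i _ => ?_)
      rw [← hFmul, Matrix.single_mul_single_same, one_mul]
    rw [h1]
    refine Submodule.sum_mem _ (fun i _ => ?_)
    have h2 : F (single z i 1) u ∈ W := by
      refine ⟨F (single z i 1) u, ?_⟩
      rw [← hFmul, Matrix.single_mul_single_same, one_mul]
    have h3 : F (single z i 1) u =
        ∑ j, (w.repr ⟨_, h2⟩ j) • (w j : Fin n → k) := by
      have := congrArg W.subtype (w.sum_repr ⟨_, h2⟩)
      rw [map_sum] at this
      exact this.symm
    rw [h3, map_sum]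
    refine Submodule.sum_mem _ (fun j _ => ?_)
    rw [map_smul]
    exact Submodule.smul_mem _ _ (Submodule.subset_span ⟨(i, j), rfl⟩)
  refine ⟨_, Module.Basis.mk hli hsp, ?_⟩
  intro x p q
  rw [LinearMap.toMatrix_apply]
  have h1 : Matrix.toLin' (φ x) (Module.Basis.mk hli hsp q) =
      ∑ l, x l q.1 • Module.Basis.mk hli hsp (l, q.2) := by
    simp only [Module.Basis.mk_apply]
    change F x (F (single q.1 z 1) (w q.2)) = ∑ l, x l q.1 • F (single l z 1) (w q.2)
    rw [← hFmul]
    have : x * single q.1 z 1 = ∑ l, x l q.1 • (single l z 1 : Mt k a) := by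
      ext i j
      rw [Matrix.sum_apply, Finset.sum_eq_single i]
      · by_cases h : z = j
        · subst h
          simp
        · rw [Matrix.mul_apply, Finset.sum_eq_zero]
          · simp [h]
          · intro c _
            simp [Matrix.single_apply, h]
      · intro b _ hb
        simp [Matrix.single_apply, hb]
      · intro h
        exact absurd (Finset.mem_univ _) h
    rw [this, hFadd]
    exact Finset.sum_congr rfl (fun l _ => hFsmul _ _ _)
  rw [h1, map_sum, Finsupp.finsetSum_apply]
  simp only [map_smul, Module.Basis.repr_self, Finsupp.smul_apply, smul_eq_mul]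
  rw [Finset.sum_eq_single p.1]
  · by_cases h : p.2 = q.2
    · rw [if_pos h, ← h, Finsupp.single_eq_same, mul_one]
    · rw [if_neg h, Finsupp.single_apply, if_neg, mul_zero]
      intro h'
      exact h (congrArg Prod.snd h').symm
  · intro b _ hb
    rw [Finsupp.single_apply, if_neg, mul_zero]
    intro h'
    exact hb (congrArg Prod.fst h')
  · intro h
    exact absurd (Finset.mem_univ _) h

open Matrix in
/-- CA (hint). Structure of a unital `φ : Mat_a → Mat_n`. `W = range (φ E_00)` has dimension `b`; for a basis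
`w_j` of `W` the vectors `φ(E_i0) w_j` form a basis of `k^n` (`k^n = ⊕ φ(E_ii) k^n`), so `n = a b` and after
conjugation by an invertible matrix `φ x` is the Kronecker product `x ⊗ 1_b`; put `ψ y = 1_a ⊗ y`. (Or
directly with matrix units: `ψ y = ∑_i φ(E_i0) ι(y) φ(E_0i)`, `ι : Mat_b ≃ φ(E_00) Mat_n φ(E_00)`.) The
last two statements follow from: `∑ x_s ⊗ y_s ↦ ∑ (x_s)_00 y_s` is well defined. -/
theorem cs_struct {k : Type} [Field k] {a n : ℕ} (hn : 0 < n) (φ : Mt k a →ₗ[k] Mt k n)
    (hmul : ∀ x y, φ (x * y) = φ x * φ y) (hone : φ 1 = 1) :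
    ∃ (b : ℕ) (ψ : Mt k b →ₗ[k] Mt k n), n = a * b ∧ (∀ x y, ψ (x * y) = ψ x * ψ y) ∧ ψ 1 = 1 ∧
      Function.Injective ψ ∧ (∀ x y, φ x * ψ y = ψ y * φ x) ∧
      (∀ z, (∀ x, φ x * z = z * φ x) → ∃ y, ψ y = z) ∧
      Submodule.span k {z | ∃ x y, z = φ x * ψ y} = ⊤ ∧
      ∀ (I : Submodule k (Mt k b)) (y : Mt k b),
        ψ y ∈ Submodule.span k {z | ∃ x, ∃ y' ∈ I, z = φ x * ψ y'} → y ∈ I := by
  have ha : 0 < a := by
    rcases Nat.eq_zero_or_pos a with h | h
    · exfalso
      subst h
      have h1 : (1 : Mt k 0) = 0 := Subsingleton.elim _ _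
      rw [h1, map_zero] at hone
      have h2 := congrFun (congrFun hone ⟨0, hn⟩) ⟨0, hn⟩
      simp at h2
    · exact h
  let z0 : Fin a := ⟨0, ha⟩
  obtain ⟨b, B, hB⟩ := cs_basis z0 φ hmul hone
  have hcard : n = a * b := by
    have := Module.finrank_eq_card_basis B
    simpa using this
  let Θ : Mt k n ≃ₐ[k] Matrix (Fin a × Fin b) (Fin a × Fin b) k :=
    (Matrix.toLinAlgEquiv').trans (LinearMap.toMatrixAlgEquiv B)
  have hΘ : ∀ x, Θ (φ x) = kronecker x (1 : Matrix (Fin b) (Fin b) k) := by
    intro x
    ext p q
    have := hB x p q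
    change LinearMap.toMatrix B B (Matrix.toLin' (φ x)) p q = _
    rw [this]
    simp only [kronecker, kroneckerMap_apply, Matrix.one_apply]
    by_cases h : p.2 = q.2
    · simp [h]
    · simp [h]
  let ψ : Mt k b →ₗ[k] Mt k n :=
    { toFun := fun y => Θ.symm (kronecker (1 : Matrix (Fin a) (Fin a) k) y)
      map_add' := fun y y' => by
        rw [← map_add]
        congr 1
        exact kronecker_add _ _ _
      map_smul' := fun c y => by
        rw [RingHom.id_apply, ← map_smul]
        congr 1
        exact kronecker_smul _ _ _ }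
  have hψ : ∀ y, Θ (ψ y) = kronecker (1 : Matrix (Fin a) (Fin a) k) y := fun y =>
    Θ.apply_symm_apply _
  have hprod : ∀ x y, Θ (φ x * ψ y) = kronecker x y := by
    intro x y
    rw [map_mul, hΘ, hψ]
    have := Matrix.mul_kronecker_mul x (1 : Matrix (Fin a) (Fin a) k) (1 : Matrix (Fin b) (Fin b) k) y
    rw [mul_one, one_mul] at this
    exact this.symm
  have hprod' : ∀ x y, Θ (ψ y * φ x) = kronecker x y := by
    intro x y
    rw [map_mul, hΘ, hψ]
    have := Matrix.mul_kronecker_mul (1 : Matrix (Fin a) (Fin a) k) x y (1 : Matrix (Fin b) (Fin b) k)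
    rw [mul_one, one_mul] at this
    exact this.symm
  let β : Mt k n →ₗ[k] Mt k b :=
    { toFun := fun M => Matrix.of (fun j j' => Θ M (z0, j) (z0, j'))
      map_add' := fun M M' => by
        ext j j'
        simp
      map_smul' := fun c M => by
        ext j j'
        simp }
  have hβ : ∀ x y, β (φ x * ψ y) = x z0 z0 • y := by
    intro x y
    ext j j'
    change Θ (φ x * ψ y) (z0, j) (z0, j') = _
    rw [hprod]
    simp [kronecker, kroneckerMap_apply]
  have hβψ : ∀ y, β (ψ y) = y := by
    intro y
    have := hβ 1 y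
    rw [hone, one_mul] at this
    simpa using this
  refine ⟨b, ψ, hcard, ?_, ?_, ?_, ?_, ?_, ?_, ?_⟩
  · intro x y
    apply Θ.injective
    rw [map_mul Θ, hψ, hψ, hψ]
    have := Matrix.mul_kronecker_mul (1 : Matrix (Fin a) (Fin a) k) (1 : Matrix (Fin a) (Fin a) k) x y
    rw [mul_one] at this
    exact this
  · apply Θ.injective
    rw [hψ, map_one]
    exact Matrix.one_kronecker_one
  · intro y y' h
    rw [← hβψ y, h, hβψ]
  · intro x y
    apply Θ.injective
    rw [hprod, hprod']
  · intro Z hZ
    refine ⟨β Z, ?_⟩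
    apply Θ.injective
    rw [hψ]
    have h1 : ∀ x, kronecker x (1 : Matrix (Fin b) (Fin b) k) * Θ Z =
        Θ Z * kronecker x (1 : Matrix (Fin b) (Fin b) k) := by
      intro x
      rw [← hΘ, ← map_mul, ← map_mul, hZ]
    have hl : ∀ (x : Matrix (Fin a) (Fin a) k) (M : Matrix (Fin a × Fin b) (Fin a × Fin b) k)
        (p q : Fin a × Fin b),
        (kronecker x (1 : Matrix (Fin b) (Fin b) k) * M) p q = ∑ l, x p.1 l * M (l, p.2) q := by
      intro x M p q
      rw [Matrix.mul_apply, Fintype.sum_prod_type]
      refine Finset.sum_congr rfl (fun l _ => ?_)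
      rw [Finset.sum_eq_single p.2]
      · simp [kronecker, kroneckerMap_apply]
      · intro c _ hc
        simp [kronecker, kroneckerMap_apply, Matrix.one_apply, Ne.symm hc]
      · intro h
        exact absurd (Finset.mem_univ _) h
    have hr : ∀ (x : Matrix (Fin a) (Fin a) k) (M : Matrix (Fin a × Fin b) (Fin a × Fin b) k)
        (p q : Fin a × Fin b),
        (M * kronecker x (1 : Matrix (Fin b) (Fin b) k)) p q = ∑ l, M p (l, q.2) * x l q.1 := by
      intro x M p q
      rw [Matrix.mul_apply, Fintype.sum_prod_type]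
      refine Finset.sum_congr rfl (fun l _ => ?_)
      rw [Finset.sum_eq_single q.2]
      · simp [kronecker, kroneckerMap_apply]
      · intro c _ hc
        simp [kronecker, kroneckerMap_apply, Matrix.one_apply, hc]
      · intro h
        exact absurd (Finset.mem_univ _) h
    ext p q
    have h2 := congrFun (congrFun (h1 (single z0 p.1 1)) (z0, p.2)) q
    rw [hl, hr, Finset.sum_eq_single p.1, Finset.sum_eq_single z0] at h2
    · have h3 : Θ Z p q = Θ Z (z0, p.2) (z0, q.2) * (single z0 p.1 (1 : k) z0 q.1) := by
        rw [← h2]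
        simp
      rw [h3]
      change (1 : Matrix (Fin a) (Fin a) k) p.1 q.1 * (Θ Z (z0, p.2) (z0, q.2)) = _
      rw [mul_comm]
      congr 1
      by_cases h : p.1 = q.1
      · rw [← h]; simp
      · rw [Matrix.one_apply_ne h]
        simp [Matrix.single_apply, h]
    · intro c _ hc
      simp [Matrix.single_apply, Ne.symm hc]
    · intro h
      exact absurd (Finset.mem_univ _) h
    · intro c _ hc
      simp [Matrix.single_apply, Ne.symm hc]
    · intro h
      exact absurd (Finset.mem_univ _) h
  · rw [eq_top_iff]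
    intro Z _
    have h1 : Z = ∑ p, ∑ q, (Θ Z p q) • (φ (single p.1 q.1 1) * ψ (single p.2 q.2 1)) := by
      apply Θ.injective
      simp only [map_sum, map_smul, hprod]
      ext p q
      simp only [Matrix.sum_apply, Matrix.smul_apply, smul_eq_mul]
      rw [Finset.sum_eq_single p, Finset.sum_eq_single q]
      · simp [kronecker, kroneckerMap_apply]
      · intro r _ hr
        have : ¬ (r.1 = q.1 ∧ r.2 = q.2) := fun h => hr (Prod.ext h.1 h.2)
        simp only [kronecker, kroneckerMap_apply, Matrix.single_apply, true_and]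
        by_cases h : r.1 = q.1
        · have h' : r.2 ≠ q.2 := fun h'' => this ⟨h, h''⟩
          simp [h']
        · simp [h]
      · intro h
        exact absurd (Finset.mem_univ _) h
      · intro r _ hr
        refine Finset.sum_eq_zero (fun s _ => ?_)
        have : ¬ (r.1 = p.1 ∧ r.2 = p.2) := fun h => hr (Prod.ext h.1 h.2)
        simp only [kronecker, kroneckerMap_apply, Matrix.single_apply]
        by_cases h : r.1 = p.1
        · have h' : r.2 ≠ p.2 := fun h'' => this ⟨h, h''⟩
          simp [h']
        · simp [h]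
      · intro h
        exact absurd (Finset.mem_univ _) h
    rw [h1]
    refine Submodule.sum_mem _ (fun p _ => Submodule.sum_mem _ (fun q _ => ?_))
    exact Submodule.smul_mem _ _ (Submodule.subset_span ⟨_, _, rfl⟩)
  · intro I y hy
    have h1 : Submodule.span k {z | ∃ x, ∃ y' ∈ I, z = φ x * ψ y'} ≤ I.comap β := by
      rw [Submodule.span_le]
      rintro _ ⟨x, y', hy', rfl⟩
      change β (φ x * ψ y') ∈ I
      rw [hβ]
      exact I.smul_mem _ hy'
    have h2 := h1 hy
    change β (ψ y) ∈ I at h2
    rwa [hβψ] at h2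

end Pool.Agent.Helper44.S3
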