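import Pool.Agent.Helper44.S3.Defs2
import Pool.Agent.Helper44.S3.CA

set_option autoImplicit false
open scoped BigOperators MonoidAlgebra
open Classical

namespace Pool.Agent.Helper44.S3

open Pool.Agent.Helper36.NB

/-- FA (double centraliser; hint). Apply `cs_struct` to `ψ` (`Mt k b → Mt k n`): it gives `b'`, `n = b * b'` and
`ψ'` with range the centraliser of `ψ`. `0 < b` (as `0 < n`), so `b' = a`. `φ (Mt k a)` is contained in the
centraliser of `ψ`, `φ` is injective (its kernel is a two-sided ideal of a simple ring, `φ 1 = 1 ≠ 0`), so both have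
dimension `a²` and are equal. -/
theorem double_cent {k : Type} [Field k] {a b n : ℕ} (hn : 0 < n) (φ : Mt k a →ₗ[k] Mt k n)
    (hmul : ∀ x y, φ (x * y) = φ x * φ y) (hone : φ 1 = 1) (ψ : Mt k b →ₗ[k] Mt k n)
    (hψ : ∀ x y, ψ (x * y) = ψ x * ψ y) (hψ1 : ψ 1 = 1) (hab : n = a * b)
    (hcomm : ∀ x y, φ x * ψ y = ψ y * φ x) (z : Mt k n) (hz : ∀ y, ψ y * z = z * ψ y) :
    ∃ x, φ x = z := by
  obtain ⟨b', ψ', hbb, -, -, hinj, -, hcent, -, -⟩ := cs_struct hn ψ hψ hψ1
  have hb : 0 < b := by
    rcases Nat.eq_zero_or_pos b with h | h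
    · rw [h, mul_zero] at hab; omega
    · exact h
  have ha : 0 < a := by
    rcases Nat.eq_zero_or_pos a with h | h
    · rw [h, zero_mul] at hab; omega
    · exact h
  have hba : b' = a := by
    have h1 : b * b' = b * a := by rw [← hbb, hab, mul_comm]
    exact Nat.eq_of_mul_eq_mul_left hb h1
  subst hba
  haveI : Nonempty (Fin b') := ⟨⟨0, ha⟩⟩
  haveI : Nonempty (Fin n) := ⟨⟨0, hn⟩⟩
  let f : Mt k b' →+* Mt k n :=
    { toFun := φ
      map_one' := hone
      map_mul' := hmul
      map_zero' := map_zero φ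
      map_add' := map_add φ }
  have hφ : Function.Injective φ := f.injective
  have hle : LinearMap.range φ ≤ LinearMap.range ψ' := by
    rintro _ ⟨x, rfl⟩
    obtain ⟨y, hy⟩ := hcent (φ x) (fun y => (hcomm x y).symm)
    exact ⟨y, hy⟩
  have heq : LinearMap.range φ = LinearMap.range ψ' := by
    apply Submodule.eq_of_le_of_finrank_eq hle
    rw [LinearMap.finrank_range_of_inj hφ, LinearMap.finrank_range_of_inj hinj]
  obtain ⟨y, hy⟩ := hcent z hz
  have : z ∈ LinearMap.range φ := by
    rw [heq]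
    exact ⟨y, hy⟩
  exact this

end Pool.Agent.Helper44.S3
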