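import Pool.Agent.Helper44.S3.LA

set_option autoImplicit false
open scoped BigOperators MonoidAlgebra
open Classical

namespace Pool.Agent.Helper44.S3

open Pool.Agent.Helper36.NB

variable {Γ : Type} [Group Γ] [Finite Γ] {T G K H M : Subgroup Γ} {k : Type} [Field k] {n : ℕ}

private lemma ld_sq_one [CharP k 2] {c : k} (h : c * c = 1) : c = 1 := by
  have h2 : (2 : k) = 0 := by exact_mod_cast CharP.cast_eq_zero k 2
  have h3 : (c - 1) * (c - 1) = 0 := by
    have : (c - 1) * (c - 1) = c * c - 2 * c + 1 := by ring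
    rw [this, h, h2]
    have : (1 : k) - 0 * c + 1 = 2 := by ring
    rw [this, h2]
  have h4 : c - 1 = 0 := by
    rcases mul_eq_zero.mp h3 with h | h <;> exact h
  exact sub_eq_zero.mp h4

private lemma ld_smul_one [NeZero n] {c d : k} (h : c • (1 : Mt k n) = d • (1 : Mt k n)) : c = d := by
  have h1 := congrFun (congrFun h 0) 0
  simpa using h1

private lemma ld_conj_sq [NeZero n] [CharP k 2] {u v : Mt k n} {c : k} (hu : u * u = 1) (hv : v * v = 1)
    (h : u * v = c • (v * u)) : u * v = v * u := by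
  have h1 : v * (u * v) = c • u := by
    rw [h, mul_smul_comm, ← mul_assoc, hv, one_mul]
  have h2 : (v * (u * v)) * (v * (u * v)) = 1 := by
    have : (v * (u * v)) * (v * (u * v)) = v * (u * (v * v) * u) * v := by
      simp only [mul_assoc]
    rw [this, hv, mul_one, hu, mul_one, hv]
  rw [h1, smul_mul_smul_comm, hu] at h2
  have h3 : c * c = 1 := by
    apply ld_smul_one (n := n)
    rw [h2, one_smul]
  rw [h, ld_sq_one h3, one_smul]

/-- LD (hint). Let `U = {u | ∃ m ∈ M, A.Impl m u ∧ u * u = 1}`. For every `m ∈ M` there is exactly one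
`u ∈ U` implementing it: `m * m ∈ K` acts trivially, so the square of an implementing matrix is a scalar, which
is a square in `k`; uniqueness from `c² = 1 → c = 1`. Two elements of `U` commute: `u u' = c u' u` because
`m m' m⁻¹ m'⁻¹ ∈ K`, so `u'⁻¹ u u' = c⁻¹ u` has square `1`, so `c = 1`. `I = {a | ∀ u ∈ U, a * u = a}` is a
left ideal, stable under `G ∩ T` (`α_g a * u = α_g (a * α_{g⁻¹} u)` and `α_{g⁻¹} u ∈ U`). It is non-zero if
`n > 0`: the finitely many `u - 1` commute and are nilpotent (`(u - 1)² = u² + 1 = 0`), take a maximal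
non-zero product. By `A.irr` it is everything, so `u = 1` for `u ∈ U`. -/
theorem two_triv_chief [IsAlgClosed k] [CharP k 2] (A : StarAct T G k n)
    (hM : Chief T G K M 2) (hK : ∀ g ∈ K, A.Triv g) : ∀ m ∈ M, A.Triv m := by
  rcases Nat.eq_zero_or_pos n with hn | hn
  · subst hn
    intro m _ a
    ext i
    exact i.elim0
  have : NeZero n := ⟨hn.ne'⟩
  have h2 : (2 : k) = 0 := by exact_mod_cast CharP.cast_eq_zero k 2
  -- the set U
  set U : Set (Mt k n) := {u | ∃ m ∈ M, A.Impl m u ∧ u * u = 1} with hU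
  -- existence
  have hex : ∀ m ∈ M, ∃ u, A.Impl m u ∧ u * u = 1 := by
    intro m hm
    obtain ⟨v, hv⟩ := exists_impl A (hM.MG hm) (hM.MT hm)
    have hvv := impl_mul A (hM.MG hm) (hM.MG hm) hv hv
    have hmm : m * m ∈ K := by
      have := hM.pow m hm
      rwa [pow_two] at this
    obtain ⟨c, hc⟩ := (triv_iff A hvv).mp (hK _ hmm)
    have hc0 : c ≠ 0 := by
      rintro rfl
      rw [zero_smul] at hc
      have := hvv.1
      rw [hc] at this
      exact not_isUnit_zero this
    obtain ⟨d, hd⟩ := IsAlgClosed.exists_pow_nat_eq c (n := 2) (by norm_num)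
    have hd0 : d ≠ 0 := by
      rintro rfl
      apply hc0
      rw [← hd]
      norm_num
    refine ⟨d⁻¹ • v, impl_smul A hv (inv_ne_zero hd0), ?_⟩
    rw [smul_mul_smul_comm, hc, smul_smul, ← hd]
    have : d⁻¹ * d⁻¹ * d ^ 2 = 1 := by
      field_simp
    rw [this, one_smul]
  -- uniqueness
  have huniq : ∀ m ∈ M, ∀ u v, A.Impl m u → u * u = 1 → A.Impl m v → v * v = 1 → u = v := by
    intro m hm u v hu huu hv hvv
    obtain ⟨c, hc0, hc⟩ := impl_unique A hu hv
    rw [hc, smul_mul_smul_comm, huu] at hvv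
    have h3 : c * c = 1 := by
      apply ld_smul_one (n := n)
      rw [hvv, one_smul]
    rw [hc, ld_sq_one h3, one_smul]
  -- commutation
  have hcomm : ∀ u ∈ U, ∀ v ∈ U, u * v = v * u := by
    rintro u ⟨m, hm, hu, huu⟩ v ⟨m', hm', hv, hvv⟩
    have h1 := impl_mul A (hM.MG hm) (hM.MG hm') hu hv
    have h3 := impl_mul A (hM.MG hm') (hM.MG hm) hv hu
    have hk := hM.comm m hm m' hm'
    have h4 : A.Impl (m' * m) (u * v) := by
      refine ⟨h1.1, fun a => ?_⟩
      have h5 := h1.2 a
      have h6 : m * m' = (m * m' * m⁻¹ * m'⁻¹) * (m' * m) := by group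
      have h7 : A.α (m * m') a = A.α (m' * m) a := by
        rw [h6, A.mul _ ((hM.KM.trans hM.MG) hk) _ (G.mul_mem (hM.MG hm') (hM.MG hm))]
        exact hK _ hk _
      rw [← h7]
      exact h5
    obtain ⟨c, hc0, hc⟩ := impl_unique A h3 h4
    exact ld_conj_sq huu hvv hc
  -- finiteness
  have hfin : U.Finite := by
    let f : Γ → Mt k n := fun m => if h : ∃ u, A.Impl m u ∧ u * u = 1 then h.choose else 1
    apply (Set.finite_range f).subset
    rintro u ⟨m, hm, hu, huu⟩
    refine ⟨m, ?_⟩
    have h : ∃ u, A.Impl m u ∧ u * u = 1 := ⟨u, hu, huu⟩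
    have h1 : f m = h.choose := by
      simp only [f]
      rw [dif_pos h]
    rw [h1]
    exact huniq m hm _ _ h.choose_spec.1 h.choose_spec.2 hu huu
  -- a nonzero fixed element
  have hne : ∀ S : Finset (Mt k n), (∀ u ∈ S, u ∈ U) → ∃ a : Mt k n, a ≠ 0 ∧ ∀ u ∈ S, a * u = a := by
    intro S
    induction S using Finset.induction_on with
    | empty =>
      intro _
      exact ⟨1, one_ne_zero, by simp⟩
    | insert v S hvS ih =>
      intro hS
      obtain ⟨a, ha, hau⟩ := ih (fun u hu => hS u (Finset.mem_insert_of_mem hu))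
      by_cases h0 : a * (v - 1) = 0
      · refine ⟨a, ha, fun u hu => ?_⟩
        rcases Finset.mem_insert.mp hu with rfl | hu
        · rw [mul_sub, mul_one] at h0
          exact sub_eq_zero.mp h0
        · exact hau u hu
      · refine ⟨a * (v - 1), h0, fun u hu => ?_⟩
        have hvU := hS v (Finset.mem_insert_self _ _)
        rcases Finset.mem_insert.mp hu with rfl | hu
        · obtain ⟨m, hm, hv, hvv⟩ := hvU
          have h3 : (u - 1) * u = u - 1 := by
            have h4 : (2 : k) • (u - 1) = 0 := by rw [h2, zero_smul]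
            rw [two_smul] at h4
            have h5 : (u - 1) * u = 1 - u := by
              rw [sub_mul, hvv, one_mul]
            rw [h5]
            have h6 : u - 1 = -(u - 1) := eq_neg_of_add_eq_zero_left h4
            rw [h6]
            abel
          rw [mul_assoc, h3]
        · have huU := hS u (Finset.mem_insert_of_mem hu)
          have h3 : (v - 1) * u = u * (v - 1) := by
            rw [sub_mul, mul_sub, one_mul, mul_one, hcomm v hvU u huU]
          rw [mul_assoc, h3, ← mul_assoc, hau u hu]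
  -- the left ideal
  let I : Submodule k (Mt k n) :=
    { carrier := {a | ∀ u ∈ U, a * u = a}
      zero_mem' := fun u _ => zero_mul u
      add_mem' := by
        intro a b ha hb u hu
        rw [add_mul, ha u hu, hb u hu]
      smul_mem' := by
        intro c a ha u hu
        rw [smul_mul_assoc, ha u hu] }
  have hI : ∀ a : Mt k n, a ∈ I ↔ ∀ u ∈ U, a * u = a := fun a => Iff.rfl
  have hIne : I ≠ ⊥ := by
    obtain ⟨a, ha, hau⟩ := hne hfin.toFinset (fun u hu => hfin.mem_toFinset.mp hu)
    intro hbot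
    have : a ∈ I := (hI a).mpr fun u hu => hau u (hfin.mem_toFinset.mpr hu)
    rw [hbot, Submodule.mem_bot] at this
    exact ha this
  have hI1 : ∀ a, ∀ b ∈ I, a * b ∈ I := by
    intro a b hb
    rw [hI] at hb ⊢
    intro u hu
    rw [mul_assoc, hb u hu]
  have hI2 : ∀ g ∈ G, g ∈ T → ∀ b ∈ I, A.α g b ∈ I := by
    intro g hg hgT b hb
    rw [hI] at hb ⊢
    rintro u ⟨m, hm, hu, huu⟩
    have hg' : g⁻¹ ∈ G := G.inv_mem hg
    have hgT' : g⁻¹ ∈ T := T.inv_mem hgT
    have h3 : A.α g⁻¹ u ∈ U := by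
      refine ⟨g⁻¹ * m * g⁻¹⁻¹, hM.norm _ hg' m hm, impl_conj A (hM.MG hm) hg' hgT' hu, ?_⟩
      rw [← A.aut _ hg' hgT', huu]
      exact alpha_one A hg'
    have h4 := hb _ h3
    have h5 : A.α g (b * A.α g⁻¹ u) = A.α g b * u := by
      rw [A.aut g hg hgT, alpha_inv A hg]
    rw [← h5, h4]
  have htop : I = ⊤ := (A.irr I hI1 hI2).resolve_left hIne
  intro m hm a
  obtain ⟨u, hu, huu⟩ := hex m hm
  have h1 : (1 : Mt k n) ∈ I := by rw [htop]; exact Submodule.mem_top
  have h3 := (hI 1).mp h1 u ⟨m, hm, hu, huu⟩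
  rw [one_mul] at h3
  subst h3
  have h4 := hu.2 a
  rwa [mul_one, one_mul] at h4

end Pool.Agent.Helper44.S3
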