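import Pool.Agent.Helper44.S3.GA
import Pool.Agent.Helper44.S3.LD

set_option autoImplicit false
open scoped BigOperators MonoidAlgebra
open Classical

namespace Pool.Agent.Helper44.S3

open Pool.Agent.Helper36.NB

variable {Γ : Type} [Group Γ] [Finite Γ] {T G K H M : Subgroup Γ} {k : Type} [Field k] {n : ℕ}

/-- If `|M| = 2 ^ s |K|`, `K` normal in `M`, and `x ^ r ∈ K` with `r` a prime other than `2`, then
`x ∈ K`. -/
private lemma le_mem_of_pow (hKM : K ≤ M) (hn : ∀ g ∈ M, ∀ x ∈ K, g * x * g⁻¹ ∈ K)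
    (hc : ∃ s : ℕ, Nat.card M = 2 ^ s * Nat.card K) {r : ℕ} (hr : r.Prime) (hr2 : r ≠ 2)
    {x : Γ} (hx : x ∈ M) (hxr : x ^ r ∈ K) : x ∈ K := by
  obtain ⟨s, hs⟩ := hc
  have hN : (K.subgroupOf M).Normal := ⟨fun y hy g => by
    rw [Subgroup.mem_subgroupOf] at hy ⊢
    exact hn g g.2 y hy⟩
  have hcardK : Nat.card (K.subgroupOf M) = Nat.card K :=
    Nat.card_congr (Subgroup.subgroupOfEquivOfLe hKM).toEquiv
  have hcard : Nat.card (M ⧸ K.subgroupOf M) = 2 ^ s := by
    have h1 := Subgroup.card_eq_card_quotient_mul_card_subgroup (K.subgroupOf M)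
    rw [hcardK, hs] at h1
    have h2 : 0 < Nat.card K := Nat.card_pos
    exact (Nat.eq_of_mul_eq_mul_right h2 h1).symm
  set q : M ⧸ K.subgroupOf M := QuotientGroup.mk (⟨x, hx⟩ : M) with hq
  have h1 : q ^ r = 1 := by
    rw [hq, ← QuotientGroup.mk_pow, QuotientGroup.eq_one_iff, Subgroup.mem_subgroupOf]
    exact hxr
  have h2 : q ^ (2 ^ s) = 1 := by
    rw [← hcard]
    exact pow_card_eq_one'
  have h3 : orderOf q ∣ r := orderOf_dvd_of_pow_eq_one h1
  have h4 : orderOf q ∣ 2 ^ s := orderOf_dvd_of_pow_eq_one h2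
  have h5 : Nat.Coprime r (2 ^ s) :=
    Nat.Coprime.pow_right s ((Nat.coprime_primes hr Nat.prime_two).2 hr2)
  have h6 : orderOf q = 1 := Nat.eq_one_of_dvd_coprimes h5 h3 h4
  have h7 : q = 1 := orderOf_eq_one_iff.1 h6
  rw [hq, QuotientGroup.eq_one_iff, Subgroup.mem_subgroupOf] at h7
  exact h7

/-- LE (hint). Strong induction on `Nat.card M - Nat.card K`: if `K ≠ M` take `M1` from `exists_chief`; its
prime `r` is `2` because `|M : K|` is a power of `2`; by `two_triv_chief` `M1` acts trivially, and the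
induction hypothesis applies to `M1 ≤ M` (`|M1| = 2 ^ s₁ |K|`). -/
theorem two_triv [IsAlgClosed k] [CharP k 2] (A : StarAct T G k n) (hKM : K ≤ M) (hMG : M ≤ G)
    (hMT : M ≤ T) (hM : Norm G M) (hKn : Norm G K) (hs : IsSolvable M)
    (hc : ∃ s : ℕ, Nat.card M = 2 ^ s * Nat.card K) (hK : ∀ g ∈ K, A.Triv g) :
    ∀ m ∈ M, A.Triv m := by
  induction hN : Nat.card M - Nat.card K using Nat.strong_induction_on generalizing K with
  | _ N ih =>
    by_cases hne : K = M
    · subst hne
      exact hK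
    · obtain ⟨M1, r, h1M, hch⟩ := exists_chief hKM hne hMG hMT hM hKn hs
      have hr2 : r = 2 := by
        by_contra hr2
        apply hch.ne
        apply le_antisymm hch.KM
        intro x hx
        exact le_mem_of_pow hKM (fun g hg x hx => hKn g (hMG hg) x hx) hc hch.prime hr2 (h1M hx)
          (hch.pow x hx)
      subst hr2
      have h1 := two_triv_chief A hch hK
      have hlt : Nat.card K < Nat.card M1 := by
        have hle : Nat.card K ≤ Nat.card M1 :=
          Nat.card_mono (Set.toFinite (M1 : Set Γ)) hch.KM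
        refine lt_of_le_of_ne hle fun heq => hch.ne ?_
        exact Subgroup.eq_of_le_of_card_ge hch.KM heq.ge
      have hle1 : Nat.card M1 ≤ Nat.card M := Nat.card_mono (Set.toFinite (M : Set Γ)) h1M
      refine ih (Nat.card M - Nat.card M1) ?_ h1M hch.norm ?_ h1 rfl
      · omega
      · obtain ⟨s, hs'⟩ := hc
        obtain ⟨u, hu⟩ := Subgroup.card_dvd_of_le h1M
        obtain ⟨t, ht⟩ := Subgroup.card_dvd_of_le hch.KM
        have h2 : 0 < Nat.card K := Nat.card_pos
        have h3 : t * u = 2 ^ s := by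
          apply Nat.eq_of_mul_eq_mul_left h2
          rw [← mul_assoc, ← ht, ← hu, hs', mul_comm]
        obtain ⟨s', _, hs''⟩ := (Nat.dvd_prime_pow Nat.prime_two).1 (Dvd.intro_left t h3)
        exact ⟨s', by rw [hu, hs'', mul_comm]⟩

end Pool.Agent.Helper44.S3
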