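import Pool.Agent.Helper44.S3.Defs2
import Pool.Agent.Helper44.S3.FA
import Pool.Agent.Helper44.S3.CB
import Pool.Agent.Helper44.S3.LE
import Pool.Agent.Helper44.S3.CJ

set_option autoImplicit false
open scoped BigOperators MonoidAlgebra
open Classical

namespace Pool.Agent.Helper44.S3

open Pool.Agent.Helper36.NB

open Matrix in
private theorem two_sided {k : Type} [Field k] {n : ℕ} (I : Submodule k (Mt k n))
    (hl : ∀ a, ∀ b ∈ I, a * b ∈ I) (hr : ∀ a, ∀ b ∈ I, b * a ∈ I) : I = ⊥ ∨ I = ⊤ := by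
  by_cases h : ∀ b ∈ I, b = 0
  · left
    exact (Submodule.eq_bot_iff I).mpr h
  · right
    push Not at h
    obtain ⟨b, hb, hb0⟩ := h
    have hij : ∃ i j, b i j ≠ 0 := by
      by_contra hcon
      push Not at hcon
      exact hb0 (Matrix.ext hcon)
    obtain ⟨i, j, hij⟩ := hij
    have hs : ∀ (p q : Fin n) (c : k), Matrix.single p q c ∈ I := by
      intro p q c
      have h1 : Matrix.single p i (1 : k) * b * Matrix.single j q ((b i j)⁻¹ * c) =
          Matrix.single p q c := by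
        rw [Matrix.single_mul_mul_single]
        congr 1
        field_simp
      rw [← h1]
      exact hr _ _ (hl _ _ hb)
    rw [eq_top_iff]
    intro X _
    rw [Matrix.matrix_eq_sum_single X]
    exact I.sum_mem fun p _ => I.sum_mem fun q _ => hs p q _

private theorem single_eq {k : Type} [CommRing k] {G : Type} [Group G] (g : G) (r : k) :
    (MonoidAlgebra.single g r : MonoidAlgebra k G) = r • el k g := by
  rw [el, MonoidAlgebra.smul_single, smul_eq_mul, mul_one]

/-- The conjugation action. -/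
private noncomputable def conjAct {k : Type} [Field k] {G : Type} [Group G] [Finite G] {n : ℕ}
    (ρ : MonoidAlgebra k G →ₐ[k] Mt k n) (hρ : Function.Surjective ρ) :
    StarAct (⊤ : Subgroup G) (⊤ : Subgroup G) k n where
  α g := (LinearMap.mulLeft k (ρ (el k g))).comp (LinearMap.mulRight k (ρ (el k g⁻¹)))
  one a := by
    simp [el_one]
  mul g _ h _ a := by
    simp only [LinearMap.comp_apply, LinearMap.mulLeft_apply, LinearMap.mulRight_apply,
      mul_inv_rev, el_mul, map_mul, mul_assoc]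
  aut g _ _ a b := by
    simp only [LinearMap.comp_apply, LinearMap.mulLeft_apply, LinearMap.mulRight_apply]
    have h : ρ (el k g⁻¹) * ρ (el k g) = 1 := by rw [← map_mul, el_inv_mul_el, map_one]
    calc ρ (el k g) * (a * b * ρ (el k g⁻¹))
        = ρ (el k g) * a * 1 * b * ρ (el k g⁻¹) := by simp only [mul_assoc, one_mul]
      _ = ρ (el k g) * a * (ρ (el k g⁻¹) * ρ (el k g)) * b * ρ (el k g⁻¹) := by rw [h]
      _ = ρ (el k g) * (a * ρ (el k g⁻¹)) * (ρ (el k g) * (b * ρ (el k g⁻¹))) := by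
          simp only [mul_assoc]
  anti g _ hg := absurd (Subgroup.mem_top g) hg
  irr I hl hst := by
    apply two_sided I hl
    intro a b hb
    obtain ⟨y, rfl⟩ := hρ a
    induction y using MonoidAlgebra.induction_linear with
    | zero => rw [map_zero, mul_zero]; exact I.zero_mem
    | add x y hx hy => rw [map_add, mul_add]; exact I.add_mem hx hy
    | single g r =>
      rw [single_eq, map_smul, mul_smul_comm]
      refine I.smul_mem r ?_
      have h1 := hl (ρ (el k g)) _ (hst g⁻¹ (Subgroup.mem_top _) (Subgroup.mem_top _) b hb)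
      simp only [LinearMap.comp_apply, LinearMap.mulLeft_apply, LinearMap.mulRight_apply,
        inv_inv] at h1
      have h2 : ρ (el k g) * ρ (el k g⁻¹) = 1 := by rw [← map_mul, el_mul_el_inv, map_one]
      rw [← mul_assoc, h2, one_mul] at h1
      exact h1

private theorem conjAct_apply {k : Type} [Field k] {G : Type} [Group G] [Finite G] {n : ℕ}
    (ρ : MonoidAlgebra k G →ₐ[k] Mt k n) (hρ : Function.Surjective ρ) (g : G) (X : Mt k n) :
    (conjAct ρ hρ).α g X = ρ (el k g) * (X * ρ (el k g⁻¹)) := rfl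

private theorem range_aux {k : Type} [Field k] {G : Type} [Group G] {N : Subgroup G}
    {f : MonoidAlgebra k G} {a : ℕ} (Φ : NBlk N f a) (z : MonoidAlgebra k N) :
    ∃ x, Φ.φ x = incl k N z * f := by
  induction z using MonoidAlgebra.induction_linear with
  | zero => exact ⟨0, by rw [map_zero, map_zero, zero_mul]⟩
  | add x y hx hy =>
    obtain ⟨x', hx'⟩ := hx
    obtain ⟨y', hy'⟩ := hy
    exact ⟨x' + y', by rw [map_add, map_add, add_mul, hx', hy']⟩
  | single h r =>
    obtain ⟨x, hx⟩ := Φ.surj h h.2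
    refine ⟨r • x, ?_⟩
    rw [map_smul, hx, single_eq]
    have h1 : incl k N (r • el k h) = r • el k (h : G) := by
      simp [incl, el]
    rw [h1, smul_mul_assoc]

private theorem range_stab {k : Type} [Field k] {G : Type} [Group G] {N : Subgroup G}
    (hN : N.Normal) {f : MonoidAlgebra k G} {a : ℕ} (Φ : NBlk N f a) (hfix : ∀ g, cj g f = f)
    (g : G) (x : Mt k a) : ∃ x', Φ.φ x' = cj g (Φ.φ x) := by
  have hsupp : ∀ z, z ∉ N → (cj g (Φ.φ x)).coeff z = 0 := by
    intro z hz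
    rw [cj_coeff]
    apply Φ.supp
    intro hcon
    apply hz
    have h1 := hN.conj_mem _ hcon g
    have h2 : g * (g⁻¹ * z * g) * g⁻¹ = z := by group
    rwa [h2] at h1
  obtain ⟨x', hx'⟩ := range_aux Φ (res N (cj g (Φ.φ x)))
  refine ⟨x', ?_⟩
  rw [hx', incl_res N hsupp]
  have h3 : Φ.φ x = Φ.φ x * f := by
    have h4 := Φ.mul x 1
    rw [mul_one, Φ.one] at h4
    exact h4
  conv_rhs => rw [h3, cj_mul, hfix]

/-- FB (hint). `A : StarAct ⊤ ⊤ k n` on `Mat_n` with `A.α g X = ρ(g) X ρ(g)⁻¹` (`Γ = G`, `T = G = ⊤`, no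
anti-automorphisms; `irr`: a left ideal stable under these conjugations is two-sided since `ρ` is surjective, so
`⊥` or `⊤`). `cs_star` for `φ = ρ ∘ Φ.φ` (unital by `hf`; `hst`: `g Φ(x) g⁻¹ ∈ k[N] f = range Φ` because `N` is
normal and `cj g f = f`) gives `B`, `ψ`. `N` acts trivially on `B`: for `h ∈ N`, `ρ(h) = ρ(h f) ∈ φ(Mat_a)`
commutes with `ψ`. By `two_triv` (`T = ⊤`, `G = ⊤`) `M` acts trivially on `B`: `ρ(m)` commutes with `ψ y`; now
`double_cent`. Second statement: `ρ(m) = ρ (Φ.φ x)` is a linear combination of the `ρ(h)`, `h ∈ N` (`Φ.supp`). -/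
theorem ext_M {k : Type} [Field k] [IsAlgClosed k] [CharP k 2] {G : Type} [Group G] [Finite G]
    (hs : IsSolvable G) {N M : Subgroup G} (hN : N.Normal) (hM : M.Normal) (hNM : N ≤ M)
    (hc : ∃ s : ℕ, Nat.card M = 2 ^ s * Nat.card N) {f : MonoidAlgebra k G} {a : ℕ}
    (Φ : NBlk N f a) (hfix : ∀ g, cj g f = f) {n : ℕ} (hn : 0 < n)
    (ρ : MonoidAlgebra k G →ₐ[k] Mt k n) (hρ : Function.Surjective ρ) (hf : ρ f = 1) :
    (∀ m ∈ M, ∃ x, ρ (el k m) = ρ (Φ.φ x)) ∧
      ∀ Z : Mt k n, (∀ h ∈ N, ρ (el k h) * Z = Z * ρ (el k h)) →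
        ∀ m ∈ M, ρ (el k m) * Z = Z * ρ (el k m) := by
  obtain ⟨φ, hφ⟩ : ∃ φ : Mt k a →ₗ[k] Mt k n, ∀ x, φ x = ρ (Φ.φ x) :=
    ⟨ρ.toLinearMap.comp Φ.φ, fun x => rfl⟩
  have hmul : ∀ x y, φ (x * y) = φ x * φ y := by
    intro x y
    rw [hφ, hφ, hφ, Φ.mul, map_mul]
  have hone : φ 1 = 1 := by rw [hφ, Φ.one, hf]
  have hst : ∀ g ∈ (⊤ : Subgroup G), ∀ x, ∃ x', (conjAct ρ hρ).α g (φ x) = φ x' := by
    intro g _ x
    obtain ⟨x', hx'⟩ := range_stab hN Φ hfix g x
    refine ⟨x', ?_⟩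
    rw [conjAct_apply, hφ, hφ, hx', cj, map_mul, map_mul, mul_assoc]
  obtain ⟨b, B, ψ, hab, hψmul, hψ1, hψinj, hcomm, hα⟩ := cs_star (conjAct ρ hρ) hn φ hmul hone hst
  have hNt : ∀ g ∈ N, B.Triv g := by
    intro h hh y
    apply hψinj
    rw [hα h (Subgroup.mem_top _), conjAct_apply]
    obtain ⟨x, hx⟩ := Φ.surj h hh
    have h1 : ρ (el k h) = φ x := by
      rw [hφ, hx, map_mul, hf, mul_one]
    have h2 : ρ (el k h) * ρ (el k h⁻¹) = 1 := by rw [← map_mul, el_mul_el_inv, map_one]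
    rw [← mul_assoc, h1, hcomm, ← h1, mul_assoc, h2, mul_one]
  have hsM : IsSolvable M := by
    have hs' : Group.IsSolvable G := hs
    exact (inferInstance : Group.IsSolvable M)
  have hMt := two_triv B (K := N) (M := M) hNM le_top le_top
    (fun g _ x hx => hM.conj_mem x hx g) (fun g _ x hx => hN.conj_mem x hx g) hsM hc hNt
  have hfirst : ∀ m ∈ M, ∃ x, ρ (el k m) = ρ (Φ.φ x) := by
    intro m hm
    have h2 : ρ (el k m⁻¹) * ρ (el k m) = 1 := by rw [← map_mul, el_inv_mul_el, map_one]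
    obtain ⟨x, hx⟩ := double_cent hn φ hmul hone ψ hψmul hψ1 hab hcomm (ρ (el k m)) (by
      intro y
      have h1 := hα m (Subgroup.mem_top _) y
      rw [hMt m hm y, conjAct_apply] at h1
      calc ψ y * ρ (el k m) = ρ (el k m) * (ψ y * ρ (el k m⁻¹)) * ρ (el k m) := by rw [← h1]
        _ = ρ (el k m) * ψ y * (ρ (el k m⁻¹) * ρ (el k m)) := by simp only [mul_assoc]
        _ = ρ (el k m) * ψ y := by rw [h2, mul_one])
    exact ⟨x, by rw [← hφ, hx]⟩
  refine ⟨hfirst, ?_⟩
  intro Z hZ m hm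
  obtain ⟨x, hx⟩ := hfirst m hm
  rw [hx, ← incl_res N (Φ.supp x)]
  generalize res N (Φ.φ x) = w
  induction w using MonoidAlgebra.induction_linear with
  | zero => rw [map_zero, map_zero, zero_mul, mul_zero]
  | add x y hx hy => rw [map_add, map_add, add_mul, mul_add, hx, hy]
  | single h r =>
    have h1 : incl k N (MonoidAlgebra.single h r) = r • el k (h : G) := by
      simp [incl, el]
    rw [h1, map_smul, smul_mul_assoc, mul_smul_comm, hZ h h.2]

end Pool.Agent.Helper44.S3
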