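import Pool.Agent.Helper44.S3.Defs2
import Pool.Agent.Helper44.S3.CJ
import Pool.Agent.Helper36.NB.G1

set_option autoImplicit false
open scoped BigOperators MonoidAlgebra
open Classical

namespace Pool.Agent.Helper44.S3

open Pool.Agent.Helper36.NB

private theorem fc_expand {k : Type} [CommRing k] {G : Type} [Group G] [Fintype G]
    (a : MonoidAlgebra k G) : a = ∑ g : G, a.coeff g • el k g := by
  ext x
  rw [MonoidAlgebra.coeff_sum, Finsupp.finsetSum_apply]
  have h1 : ∀ g, (a.coeff g • el k g).coeff x = if g = x then a.coeff g else 0 := by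
    intro g
    rw [MonoidAlgebra.coeff_smul, Finsupp.smul_apply, el_coeff, smul_eq_mul]
    split_ifs with h2
    · rw [mul_one]
    · rw [mul_zero]
  rw [Finset.sum_congr rfl (fun g _ => h1 g), Finset.sum_ite_eq', if_pos (Finset.mem_univ _)]

/-- The part of `z` supported on the coset `x`. -/
private noncomputable def fcZ {k : Type} [CommRing k] {G : Type} [Group G] [Fintype G]
    (N : Subgroup G) (z : MonoidAlgebra k G) (x : G ⧸ N) : MonoidAlgebra k G :=
  ∑ g ∈ Finset.univ.filter (fun g : G => (QuotientGroup.mk g : G ⧸ N) = x), z.coeff g • el k g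

private theorem fcZ_cj {k : Type} [CommRing k] {G : Type} [Group G] [Fintype G]
    {N : Subgroup G} [N.Normal] (z : MonoidAlgebra k G) (hz : ∀ y, y * z = z * y) (h : G)
    (x : G ⧸ N) : cj h (fcZ N z x) = fcZ N z ((h : G ⧸ N) * x * (h : G ⧸ N)⁻¹) := by
  unfold fcZ
  rw [cj_sum]
  refine Finset.sum_bij (fun g _ => h * g * h⁻¹) ?_ ?_ ?_ ?_
  · intro g hg
    rw [Finset.mem_filter] at hg ⊢
    refine ⟨Finset.mem_univ _, ?_⟩
    rw [← hg.2]
    rfl
  · intro g _ g' _ hgg
    exact mul_left_cancel (mul_right_cancel hgg)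
  · intro g hg
    rw [Finset.mem_filter] at hg
    refine ⟨h⁻¹ * g * h, ?_, by group⟩
    rw [Finset.mem_filter]
    refine ⟨Finset.mem_univ _, ?_⟩
    have h2 : ((h⁻¹ * g * h : G) : G ⧸ N) = (h : G ⧸ N)⁻¹ * (g : G ⧸ N) * (h : G ⧸ N) := rfl
    rw [h2, hg.2]
    group
  · intro g _
    have h3 : z.coeff (h * g * h⁻¹) = z.coeff g := by
      have h4 := cj_of_central hz h
      have h5 := cj_coeff h z (h * g * h⁻¹)
      rw [h4] at h5
      rw [h5]
      congr 1
      group
    rw [cj_smul, cj_el, h3]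

/-- FC (hint). For a coset `g N` with `g ∉ M` let `z_g = ∑_{x ∈ g N} z(x) x`. `z` is a class function and `N` is
normal, so `z_g` commutes with `N`, hence `ρ(z_g)` commutes with `ρ(M)` (`hcen`); and `m z_g m⁻¹ = z_{m g m⁻¹}`. So
`ρ(z_{m g m⁻¹}) = ρ(z_g)`. The `2`-group `M / N` (or a Sylow `2`-subgroup `P` of `M`, `M = P N`) acts by
conjugation on the set of the cosets `g N`, `g ∉ M`, without fixed points: a fixed coset gives
`m g m⁻¹ g⁻¹ ∈ N` for all `m ∈ M`, so `g ∈ M` by `hHH`. By `sum_fixed` (values in the ring `Mt k n` of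
characteristic 2) the sum of all `ρ(z_g)`, `g ∉ M`, is `0`. -/
theorem restrict_M {k : Type} [Field k] [CharP k 2] {G : Type} [Group G] [Fintype G]
    {N M : Subgroup G} (hN : N.Normal) (hM : M.Normal) (hNM : N ≤ M)
    (hc : ∃ s : ℕ, Nat.card M = 2 ^ s * Nat.card N)
    (hHH : ∀ g : G, (∀ m ∈ M, m * g * m⁻¹ * g⁻¹ ∈ N) → g ∈ M) {n : ℕ} (hn : 0 < n)
    (ρ : MonoidAlgebra k G →ₐ[k] Mt k n)
    (hcen : ∀ Z : Mt k n, (∀ h ∈ N, ρ (el k h) * Z = Z * ρ (el k h)) →
        ∀ m ∈ M, ρ (el k m) * Z = Z * ρ (el k m))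
    (z : MonoidAlgebra k G) (hz : ∀ y, y * z = z * y) :
    ρ z = ρ (∑ m ∈ Finset.univ.filter (fun m : G => m ∈ M), z.coeff m • el k m) := by
  haveI := hN
  haveI := hM
  haveI : Nonempty (Fin n) := ⟨⟨0, hn⟩⟩
  haveI : CharP (Mt k n) 2 := inferInstance
  obtain ⟨s, hs⟩ := hc
  -- the 2-group
  let P : Subgroup (G ⧸ N) := M.map (QuotientGroup.mk' N)
  have hPmem : ∀ g : G, (g : G ⧸ N) ∈ P ↔ g ∈ M := by
    intro g
    constructor
    · rintro ⟨m, hm, hmg⟩
      have h1 : (m : G ⧸ N) = (g : G ⧸ N) := hmg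
      rw [QuotientGroup.eq] at h1
      have h2 : g = m * (m⁻¹ * g) := by group
      rw [h2]
      exact M.mul_mem hm (hNM h1)
    · intro hg
      exact ⟨g, hg, rfl⟩
  have hind : (N.subgroupOf M).index = 2 ^ s := by
    have h1 := Subgroup.card_mul_index (N.subgroupOf M)
    have h2 : Nat.card (N.subgroupOf M) = Nat.card N :=
      Nat.card_congr (Subgroup.subgroupOfEquivOfLe hNM).toEquiv
    rw [h2, hs, mul_comm (2 ^ s)] at h1
    exact Nat.eq_of_mul_eq_mul_left Nat.card_pos h1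
  have hPG : IsPGroup 2 P := by
    rintro ⟨p, hp⟩
    obtain ⟨m, hm, rfl⟩ := hp
    refine ⟨s, ?_⟩
    have h1 := Subgroup.pow_index_mem (N.subgroupOf M) ⟨m, hm⟩
    rw [hind, Subgroup.mem_subgroupOf] at h1
    have h2 : m ^ 2 ^ s ∈ N := h1
    apply Subtype.ext
    change ((m ^ 2 ^ s : G) : G ⧸ N) = 1
    rw [QuotientGroup.eq_one_iff]
    exact h2
  let act : MulAction P (G ⧸ N) :=
    { smul := fun p x => (p : G ⧸ N) * x * (p : G ⧸ N)⁻¹
      one_smul := by
        intro x
        change (1 : G ⧸ N) * x * (1 : G ⧸ N)⁻¹ = x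
        rw [inv_one, mul_one, one_mul]
      mul_smul := by
        intro p q x
        change ((p : G ⧸ N) * q) * x * ((p : G ⧸ N) * q)⁻¹ =
          (p : G ⧸ N) * ((q : G ⧸ N) * x * (q : G ⧸ N)⁻¹) * (p : G ⧸ N)⁻¹
        group }
  have hsm : ∀ (p : P) (x : G ⧸ N), p • x = (p : G ⧸ N) * x * (p : G ⧸ N)⁻¹ := fun _ _ => rfl
  haveI : Fintype (G ⧸ N) := Fintype.ofFinite _
  -- invariance
  have hinv : ∀ m ∈ M, ∀ x : G ⧸ N,
      ρ (fcZ N z ((m : G ⧸ N) * x * (m : G ⧸ N)⁻¹)) = ρ (fcZ N z x) := by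
    intro m hm x
    have h1 : ∀ h ∈ N, ρ (el k h) * ρ (fcZ N z x) = ρ (fcZ N z x) * ρ (el k h) := by
      intro h hh
      have h2 : ((h : G) : G ⧸ N) = 1 := (QuotientGroup.eq_one_iff h).2 hh
      have h3 := fcZ_cj z hz h x
      rw [h2, inv_one, mul_one, one_mul, cj_eq_iff] at h3
      rw [← map_mul, ← map_mul, h3]
    have h4 := hcen _ h1 m hm
    rw [← fcZ_cj z hz m x]
    unfold cj
    rw [map_mul, map_mul, h4, mul_assoc, ← map_mul, el_mul_el_inv, map_one, mul_one]
  have hkey := sum_fixed hPG (fun x : G ⧸ N => if x ∈ P then (0 : Mt k n) else ρ (fcZ N z x)) (by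
    rintro ⟨p, hp⟩ x
    have h1 : ((⟨p, hp⟩ : P) • x ∈ P) ↔ x ∈ P := by
      rw [hsm]
      constructor
      · intro h2
        have h3 : x = p⁻¹ * (p * x * p⁻¹) * p := by group
        rw [h3]
        exact P.mul_mem (P.mul_mem (P.inv_mem hp) h2) hp
      · intro h2
        exact P.mul_mem (P.mul_mem hp h2) (P.inv_mem hp)
    by_cases hx : x ∈ P
    · simp only [h1, hx, if_true]
    · simp only [h1, hx, if_false]
      obtain ⟨m, hm, rfl⟩ := hp
      exact hinv m hm x)
  have hzero : ∑ x : G ⧸ N, (if x ∈ P then (0 : Mt k n) else ρ (fcZ N z x)) = 0 := by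
    rw [hkey]
    refine Finset.sum_eq_zero fun x hx => ?_
    simp only [Finset.mem_filter, Finset.mem_univ, true_and] at hx
    rw [if_pos]
    obtain ⟨g, rfl⟩ := QuotientGroup.mk_surjective x
    rw [hPmem]
    refine hHH g fun m hm => ?_
    have h1 := hx ⟨(m : G ⧸ N), (hPmem m).2 hm⟩
    rw [hsm] at h1
    rw [← QuotientGroup.eq_one_iff]
    change (m : G ⧸ N) * g * (m : G ⧸ N)⁻¹ * (g : G ⧸ N)⁻¹ = 1
    change (m : G ⧸ N) * g * (m : G ⧸ N)⁻¹ = g at h1
    rw [h1, mul_inv_cancel]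
  have hout : ∑ g ∈ Finset.univ.filter (fun g : G => ¬ g ∈ M), z.coeff g • ρ (el k g) = 0 := by
    rw [← hzero, ← Finset.sum_fiberwise (Finset.univ.filter (fun g : G => ¬ g ∈ M))
      (fun g => (QuotientGroup.mk g : G ⧸ N)) (fun g => z.coeff g • ρ (el k g))]
    refine Finset.sum_congr rfl fun x _ => ?_
    by_cases hx : x ∈ P
    · rw [if_pos hx]
      refine Finset.sum_eq_zero fun g hg => ?_
      exfalso
      rw [Finset.mem_filter, Finset.mem_filter] at hg
      apply hg.1.2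
      rw [← hPmem]
      have h5 : (g : G ⧸ N) = x := hg.2
      rw [h5]
      exact hx
    · rw [if_neg hx]
      unfold fcZ
      rw [map_sum]
      have h6 : (Finset.univ.filter (fun g : G => ¬ g ∈ M)).filter
          (fun g => (QuotientGroup.mk g : G ⧸ N) = x) =
          Finset.univ.filter (fun g : G => (QuotientGroup.mk g : G ⧸ N) = x) := by
        ext g
        rw [Finset.mem_filter, Finset.mem_filter, Finset.mem_filter]
        constructor
        · exact fun h => ⟨Finset.mem_univ _, h.2⟩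
        · intro h
          refine ⟨⟨Finset.mem_univ _, ?_⟩, h.2⟩
          intro hg
          apply hx
          have h5 : (g : G ⧸ N) = x := h.2
          rw [← h5, hPmem]
          exact hg
      rw [h6]
      refine Finset.sum_congr rfl fun g _ => ?_
      rw [map_smul]
  have hz1 : ρ z = ∑ g : G, z.coeff g • ρ (el k g) := by
    conv_lhs => rw [fc_expand z]
    rw [map_sum]
    exact Finset.sum_congr rfl fun g _ => map_smul _ _ _
  rw [hz1, ← Finset.sum_filter_add_sum_filter_not Finset.univ (fun g : G => g ∈ M), hout,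
    add_zero, map_sum]
  exact Finset.sum_congr rfl fun g _ => (map_smul _ _ _).symm

end Pool.Agent.Helper44.S3
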