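import Pool.Agent.Helper44.S3.Defs2
import Pool.Agent.Helper44.S3.CJ
import Pool.Agent.Helper44.S3.LA

set_option autoImplicit false
open scoped BigOperators MonoidAlgebra
open Classical

namespace Pool.Agent.Helper44.S3

open Pool.Agent.Helper36.NB

private theorem fd_coeff_sum {k : Type} [Field k] {G : Type} [Group G] {ι : Type} (s : Finset ι)
    (a : ι → MonoidAlgebra k G) (x : G) :
    (∑ i ∈ s, a i).coeff x = ∑ i ∈ s, (a i).coeff x := by
  rw [MonoidAlgebra.coeff_sum, Finsupp.finsetSum_apply]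

/-- Expansion of an element of the group algebra. -/
private theorem fd_expand {k : Type} [Field k] {G : Type} [Group G] (a : MonoidAlgebra k G) :
    a = ∑ g ∈ a.coeff.support, a.coeff g • el k g := by
  ext x
  rw [fd_coeff_sum]
  have h1 : ∀ g, (a.coeff g • el k g).coeff x = if g = x then a.coeff g else 0 := by
    intro g
    rw [MonoidAlgebra.coeff_smul, Finsupp.smul_apply, el_coeff, smul_eq_mul]
    split_ifs with h2
    · rw [mul_one]
    · rw [mul_zero]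
  rw [Finset.sum_congr rfl (fun g _ => h1 g), Finset.sum_ite_eq']
  split_ifs with h2
  · rfl
  · rw [Finsupp.notMem_support_iff] at h2
    exact h2

private theorem fd_el_pow {k : Type} [Field k] {G : Type} [Group G] (g : G) (j : ℕ) :
    el k (g ^ j) = el k g ^ j := by
  induction j with
  | zero => rw [pow_zero, pow_zero, el_one]
  | succ j ih => rw [pow_succ, pow_succ, el_mul, ih]

private theorem fd_phi_pow {k : Type} [Field k] {G : Type} [Group G] {N : Subgroup G}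
    {f : MonoidAlgebra k G} {a : ℕ} (Φ : NBlk N f a) {n : ℕ}
    (ρ : MonoidAlgebra k G →ₐ[k] Mt k n) (hf : ρ f = 1) (v : Mt k a) (j : ℕ) :
    ρ (Φ.φ (v ^ j)) = ρ (Φ.φ v) ^ j := by
  induction j with
  | zero => rw [pow_zero, pow_zero, Φ.one, hf]
  | succ j ih => rw [pow_succ, pow_succ, Φ.mul, map_mul, ih]

/-- `ρ ∘ Φ` is injective and `a ≠ 0`. -/
private theorem fd_inj {k : Type} [Field k] {G : Type} [Group G] {N : Subgroup G}
    {f : MonoidAlgebra k G} {a : ℕ} (Φ : NBlk N f a) {n : ℕ} (hn : 0 < n)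
    (ρ : MonoidAlgebra k G →ₐ[k] Mt k n) (hf : ρ f = 1) :
    0 < a ∧ ∀ x y : Mt k a, ρ (Φ.φ x) = ρ (Φ.φ y) → x = y := by
  have : Nonempty (Fin n) := ⟨⟨0, hn⟩⟩
  have ha : 0 < a := by
    rcases Nat.eq_zero_or_pos a with h | h
    · exfalso
      subst h
      have h1 : (1 : Mt k 0) = 0 := Subsingleton.elim _ _
      have h2 : f = 0 := by rw [← Φ.one, h1, map_zero]
      rw [h2, map_zero] at hf
      exact zero_ne_one hf
    · exact h
  refine ⟨ha, ?_⟩
  have : Nonempty (Fin a) := ⟨⟨0, ha⟩⟩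
  let F : Mt k a →+* Mt k n :=
    { toFun := fun x => ρ (Φ.φ x)
      map_one' := by rw [Φ.one, hf]
      map_mul' := fun x y => by rw [Φ.mul, map_mul]
      map_zero' := by rw [map_zero, map_zero]
      map_add' := fun x y => by rw [map_add, map_add] }
  have hF : Function.Injective F := RingHom.injective F
  intro x y hxy
  exact hF hxy

/-- An element of `k[G]` supported on `N` becomes an element of the matrix block after
multiplication by `f`. -/
private theorem fd_surj {k : Type} [Field k] {G : Type} [Group G] {N : Subgroup G}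
    {f : MonoidAlgebra k G} {a : ℕ} (Φ : NBlk N f a) (y : MonoidAlgebra k G)
    (hy : ∀ g, g ∉ N → y.coeff g = 0) : ∃ x, Φ.φ x = y * f := by
  have h1 : ∀ g : G, ∃ x, g ∈ N → Φ.φ x = el k g * f := by
    intro g
    by_cases hg : g ∈ N
    · obtain ⟨x, hx⟩ := Φ.surj g hg
      exact ⟨x, fun _ => hx⟩
    · exact ⟨0, fun h => absurd h hg⟩
  choose X hX using h1
  refine ⟨∑ g ∈ y.coeff.support, y.coeff g • X g, ?_⟩
  conv_rhs => rw [fd_expand y]
  rw [map_sum, Finset.sum_mul]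
  refine Finset.sum_congr rfl fun g hg => ?_
  have hgN : g ∈ N := by
    by_contra h2
    rw [Finsupp.mem_support_iff] at hg
    exact hg (hy g h2)
  rw [map_smul, hX g hgN, smul_mul_assoc]

private theorem fd_conj {k : Type} [Field k] {G : Type} [Group G] {N : Subgroup G}
    (hN : N.Normal) {f : MonoidAlgebra k G} {a : ℕ} (Φ : NBlk N f a)
    (hfix : ∀ g, cj g f = f) (g : G) (x : Mt k a) :
    ∃ x', el k g * Φ.φ x = Φ.φ x' * el k g := by
  have h1 : Φ.φ x * f = Φ.φ x := by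
    calc Φ.φ x * f = Φ.φ x * Φ.φ 1 := congrArg (fun y => Φ.φ x * y) Φ.one.symm
      _ = Φ.φ x := by rw [← Φ.mul, mul_one]
  have h2 : cj g (Φ.φ x) * f = cj g (Φ.φ x) := by
    calc cj g (Φ.φ x) * f = cj g (Φ.φ x) * cj g f :=
          congrArg (fun y => cj g (Φ.φ x) * y) (hfix g).symm
      _ = cj g (Φ.φ x) := by rw [← cj_mul, h1]
  have h3 : ∀ h, h ∉ N → (cj g (Φ.φ x)).coeff h = 0 := by
    intro h hh
    rw [cj_coeff]
    apply Φ.supp
    intro h4
    apply hh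
    have h5 := hN.conj_mem _ h4 g
    have h6 : g * (g⁻¹ * h * g) * g⁻¹ = h := by group
    rwa [h6] at h5
  obtain ⟨x', hx'⟩ := fd_surj Φ _ h3
  refine ⟨x', ?_⟩
  rw [hx', h2]
  unfold cj
  rw [mul_assoc, el_inv_mul_el, mul_one]

/-- The key step: the two matrices attached to `m` agree. -/
private theorem fd_key {k : Type} [Field k] [CharP k 2] {G : Type} [Group G]
    {N M : Subgroup G} (hN : N.Normal) {f : MonoidAlgebra k G} {a : ℕ}
    (Φ : NBlk N f a) (hfix : ∀ g, cj g f = f) {n n' : ℕ} (hn : 0 < n) (hn' : 0 < n')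
    (ρ : MonoidAlgebra k G →ₐ[k] Mt k n) (ρ' : MonoidAlgebra k G →ₐ[k] Mt k n')
    (hf : ρ f = 1) (hf' : ρ' f = 1) (h1 : ∀ m ∈ M, ∃ x, ρ (el k m) = ρ (Φ.φ x))
    {m : G} (hm : m ∈ M) {s : ℕ} (hms : m ^ (2 ^ s) ∈ N)
    {v v' : Mt k a} (hv : ρ (el k m) = ρ (Φ.φ v)) (hv' : ρ' (el k m) = ρ' (Φ.φ v')) :
    v = v' := by
  obtain ⟨ha, hinj⟩ := fd_inj Φ hn ρ hf
  obtain ⟨-, hinj'⟩ := fd_inj Φ hn' ρ' hf'
  have : Nonempty (Fin a) := ⟨⟨0, ha⟩⟩
  -- `v` is invertible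
  obtain ⟨w, hw⟩ := h1 m⁻¹ (M.inv_mem hm)
  have hvw : v * w = 1 := by
    apply hinj
    rw [Φ.mul, map_mul, ← hv, ← hw, ← map_mul, el_mul_el_inv, map_one, Φ.one, hf]
  have hwv : w * v = 1 := mul_eq_one_comm.mp hvw
  -- `w v'` is central
  have hcomm : ∀ x : Mt k a, Commute x (w * v') := by
    intro x
    obtain ⟨x', hx'⟩ := fd_conj hN Φ hfix m x
    have e1 : v * x = x' * v := by
      apply hinj
      rw [Φ.mul, map_mul, ← hv, ← map_mul, hx', map_mul, hv, ← map_mul, ← Φ.mul]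
    have e2 : v' * x = x' * v' := by
      apply hinj'
      rw [Φ.mul, map_mul, ← hv', ← map_mul, hx', map_mul, hv', ← map_mul, ← Φ.mul]
    show x * (w * v') = w * v' * x
    calc x * (w * v') = (w * v) * x * (w * v') := by rw [hwv, one_mul]
      _ = w * (v * x) * w * v' := by simp only [mul_assoc]
      _ = w * (x' * v) * w * v' := by rw [e1]
      _ = w * x' * (v * w) * v' := by simp only [mul_assoc]
      _ = w * (x' * v') := by rw [hvw, mul_one, mul_assoc]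
      _ = w * (v' * x) := by rw [e2]
      _ = w * v' * x := by rw [mul_assoc]
  have hsc : w * v' ∈ Set.range (Matrix.scalar (Fin a) : k → Mt k a) := by
    rw [Matrix.mem_range_scalar_iff_commute_single']
    intro i j
    exact (hcomm (Matrix.single i j 1))
  obtain ⟨χ, hχ⟩ := hsc
  have hv'v : v' = χ • v := by
    have h3 : v * (w * v') = v' := by rw [← mul_assoc, hvw, one_mul]
    rw [← hχ] at h3
    rw [← h3, Matrix.scalar_apply, ← Matrix.smul_one_eq_diagonal, mul_smul_comm, mul_one]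
  -- the element `m ^ (2 ^ s)` of `N`
  obtain ⟨y, hy⟩ := Φ.surj _ hms
  have p1 : v ^ (2 ^ s) = y := by
    apply hinj
    rw [fd_phi_pow Φ ρ hf, ← hv, ← map_pow, ← fd_el_pow, hy, map_mul, hf, mul_one]
  have p2 : v' ^ (2 ^ s) = y := by
    apply hinj'
    rw [fd_phi_pow Φ ρ' hf', ← hv', ← map_pow, ← fd_el_pow, hy, map_mul, hf', mul_one]
  have hw_pow : v ^ (2 ^ s) * w ^ (2 ^ s) = 1 := by
    have hc : Commute v w := by
      show v * w = w * v
      rw [hvw, hwv]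
    rw [← hc.mul_pow, hvw, one_pow]
  have hχ1 : χ ^ (2 ^ s) = 1 := by
    have h4 : χ ^ (2 ^ s) • v ^ (2 ^ s) = v ^ (2 ^ s) := by
      rw [← smul_pow, ← hv'v, p1, p2]
    have h5 : χ ^ (2 ^ s) • (1 : Mt k a) = 1 := by
      rw [← hw_pow, ← smul_mul_assoc, h4]
    have h6 : χ ^ (2 ^ s) • (1 : Mt k a) = (1 : k) • (1 : Mt k a) := by rw [h5, one_smul]
    have h7 := congrFun (congrFun h6 ⟨0, ha⟩) ⟨0, ha⟩
    simpa using h7
  have hχ2 : χ = 1 := by
    have : ExpChar k 2 := ExpChar.prime Nat.prime_two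
    have h8 : (χ - 1) ^ (2 ^ s) = 0 := by
      rw [sub_pow_expChar_pow, hχ1, one_pow, sub_self]
    have h9 : χ - 1 = 0 := pow_eq_zero_iff (pow_ne_zero s two_ne_zero) |>.mp h8
    exact sub_eq_zero.mp h9
  rw [hv'v, hχ2, one_smul]

private theorem fd_pow_mem {G : Type} [Group G] [Finite G] {N M : Subgroup G} (hN : N.Normal)
    (hNM : N ≤ M) {s : ℕ} (hc : Nat.card M = 2 ^ s * Nat.card N) {m : G} (hm : m ∈ M) :
    m ^ (2 ^ s) ∈ N := by
  have hi : (N.subgroupOf M).index = 2 ^ s := by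
    have h1 := (N.subgroupOf M).card_mul_index
    have h2 : Nat.card (N.subgroupOf M) = Nat.card N :=
      Nat.card_congr (Subgroup.subgroupOfEquivOfLe hNM).toEquiv
    rw [h2, hc, mul_comm] at h1
    exact Nat.eq_of_mul_eq_mul_right Nat.card_pos h1
  have : (N.subgroupOf M).Normal := hN.subgroupOf M
  have h3 := (N.subgroupOf M).pow_index_mem (⟨m, hm⟩ : M)
  rw [hi, Subgroup.mem_subgroupOf] at h3
  exact h3

/-- FD (hint). `ρ ∘ Φ.φ` and `ρ' ∘ Φ.φ` are injective and unital (simple ring). Write `ρ(m) = ρ(Φ v_m)`,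
`ρ'(m) = ρ'(Φ v'_m)` for `m ∈ M`. For `x ∈ Mat_a`, `m (Φ x) m⁻¹ = Φ x'` for some `x'` (it lies in `k[N] f`, `Φ.surj`), so
`v_m x = x' v_m` and `v'_m x = x' v'_m`; the `v_m` are invertible (`v_m v_{m⁻¹} = 1`), so
`v'_m = χ(m) v_m` with `χ(m) ∈ k` non-zero (centre of `Mat_a`). `χ` is multiplicative, and `χ(h) = 1` for `h ∈ N`
(`h f = Φ x_h`, `v_h = x_h = v'_h`). `m ^ (2 ^ s) ∈ N` for `m ∈ M`, so `χ(m) ^ (2 ^ s) = 1` and `χ(m) = 1` in
characteristic 2. So `v'_m = v_m`, `ρ(z) = ρ(Φ v)`, `ρ'(z) = ρ'(Φ v)` with `v = ∑ z(m) v_m`, and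
`v = c • 1`, `v = c' • 1` (`0 < a` because `f ≠ 0`). -/
theorem same_scalar {k : Type} [Field k] [CharP k 2] {G : Type} [Group G] [Finite G]
    {N M : Subgroup G} (hN : N.Normal) (hM : M.Normal) (hNM : N ≤ M)
    (hc : ∃ s : ℕ, Nat.card M = 2 ^ s * Nat.card N) {f : MonoidAlgebra k G} {a : ℕ}
    (Φ : NBlk N f a) (hfix : ∀ g, cj g f = f) {n n' : ℕ} (hn : 0 < n) (hn' : 0 < n')
    (ρ : MonoidAlgebra k G →ₐ[k] Mt k n) (ρ' : MonoidAlgebra k G →ₐ[k] Mt k n')
    (hf : ρ f = 1) (hf' : ρ' f = 1) (h1 : ∀ m ∈ M, ∃ x, ρ (el k m) = ρ (Φ.φ x))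
    (h1' : ∀ m ∈ M, ∃ x, ρ' (el k m) = ρ' (Φ.φ x)) (z : MonoidAlgebra k G)
    (hz : ∀ g, g ∉ M → z.coeff g = 0) {c c' : k} (hρz : ρ z = c • (1 : Mt k n))
    (hρz' : ρ' z = c' • (1 : Mt k n')) : c = c' := by
  obtain ⟨s, hs⟩ := hc
  obtain ⟨ha, hinj⟩ := fd_inj Φ hn ρ hf
  obtain ⟨-, hinj'⟩ := fd_inj Φ hn' ρ' hf'
  have : Nonempty (Fin a) := ⟨⟨0, ha⟩⟩
  have h2 : ∀ g : G, ∃ v : Mt k a, g ∈ M → ρ (el k g) = ρ (Φ.φ v) ∧ ρ' (el k g) = ρ' (Φ.φ v) := by
    intro g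
    by_cases hg : g ∈ M
    · obtain ⟨v, hv⟩ := h1 g hg
      obtain ⟨v', hv'⟩ := h1' g hg
      have e := fd_key hN Φ hfix hn hn' ρ ρ' hf hf' h1 hg (fd_pow_mem hN hNM hs hg) hv hv'
      subst e
      exact ⟨v, fun _ => ⟨hv, hv'⟩⟩
    · exact ⟨0, fun h => absurd h hg⟩
  choose V hV using h2
  have hmem : ∀ g ∈ z.coeff.support, g ∈ M := by
    intro g hg
    by_contra h3
    rw [Finsupp.mem_support_iff] at hg
    exact hg (hz g h3)
  have e1 : ρ z = ρ (Φ.φ (∑ g ∈ z.coeff.support, z.coeff g • V g)) := by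
    conv_lhs => rw [fd_expand z]
    rw [map_sum, map_sum, map_sum]
    refine Finset.sum_congr rfl fun g hg => ?_
    rw [map_smul, map_smul, map_smul, (hV g (hmem g hg)).1]
  have e2 : ρ' z = ρ' (Φ.φ (∑ g ∈ z.coeff.support, z.coeff g • V g)) := by
    conv_lhs => rw [fd_expand z]
    rw [map_sum, map_sum, map_sum]
    refine Finset.sum_congr rfl fun g hg => ?_
    rw [map_smul, map_smul, map_smul, (hV g (hmem g hg)).2]
  have q1 : (∑ g ∈ z.coeff.support, z.coeff g • V g) = c • (1 : Mt k a) := by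
    apply hinj
    rw [← e1, hρz, map_smul, map_smul, Φ.one, hf]
  have q2 : (∑ g ∈ z.coeff.support, z.coeff g • V g) = c' • (1 : Mt k a) := by
    apply hinj'
    rw [← e2, hρz', map_smul, map_smul, Φ.one, hf']
  have q3 : c • (1 : Mt k a) = c' • (1 : Mt k a) := by rw [← q1, q2]
  have q4 := congrFun (congrFun q3 ⟨0, ha⟩) ⟨0, ha⟩
  simpa using q4

end Pool.Agent.Helper44.S3
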