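import Pool.Agent.Helper44.S3.Defs2
import Pool.Agent.Helper36.NB.C2

set_option autoImplicit false
open scoped BigOperators MonoidAlgebra
open Classical

namespace Pool.Agent.Helper44.S3

open Pool.Agent.Helper36.NB

/-- FE (hint). A central idempotent `c ≠ 0` of the finite-dimensional algebra `k[G]` acts as the identity on some
simple module `V` (e.g. a simple quotient of `k[G] c`, or: by `exists_block` and a minimal left ideal), and
`k[G] → End_k V` is surjective (Burnside / density: see how NB/C2 `simpleQuot_of_oneSimple` does it, or use the quotient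
of `k[G]` by the Jacobson radical and `IsSemisimpleRing.exists_algEquiv_pi_matrix_of_isAlgClosed`; the image of `c` in
this product is a non-zero central idempotent (nilpotency of the radical), so it is `1` in some component). -/
theorem exists_rep {k : Type} [Field k] [IsAlgClosed k] {G : Type} [Group G] [Finite G]
    (c : MonoidAlgebra k G) (hc0 : c ≠ 0) (hc : c * c = c) (hcc : ∀ y, y * c = c * y) :
    ∃ (n : ℕ) (ρ : MonoidAlgebra k G →ₐ[k] Mt k n), 0 < n ∧ Function.Surjective ρ ∧ ρ c = 1 := by
  have hfin : Module.Finite k (MonoidAlgebra k G) := by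
    infer_instance
  have hart : IsArtinianRing (MonoidAlgebra k G) := IsArtinianRing.of_finite k _
  have hfq : FiniteDimensional k (MonoidAlgebra k G ⧸ Ring.jacobson (MonoidAlgebra k G)) :=
    Module.Finite.of_surjective
      (Ideal.Quotient.mkₐ k (Ring.jacobson (MonoidAlgebra k G))).toLinearMap
      Ideal.Quotient.mk_surjective
  obtain ⟨m, d, hd, ⟨e⟩⟩ := IsSemisimpleRing.exists_algEquiv_pi_matrix_of_isAlgClosed
    k (MonoidAlgebra k G ⧸ Ring.jacobson (MonoidAlgebra k G))
  let P : MonoidAlgebra k G →ₐ[k] (∀ i, Matrix (Fin (d i)) (Fin (d i)) k) :=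
    e.toAlgHom.comp (Ideal.Quotient.mkₐ k (Ring.jacobson (MonoidAlgebra k G)))
  have hPs : Function.Surjective P := by
    intro x
    obtain ⟨y, hy⟩ := e.surjective x
    obtain ⟨z, hz⟩ := Ideal.Quotient.mk_surjective y
    refine ⟨z, ?_⟩
    change e (Ideal.Quotient.mk _ z) = x
    rw [hz, hy]
  have hPn : ∀ a, P a = 0 → IsNilpotent a := by
    intro a ha
    have h1 : (Ideal.Quotient.mk (Ring.jacobson (MonoidAlgebra k G)) a) = 0 := by
      apply e.injective
      rw [map_zero]
      exact ha
    have h2 : a ∈ Ring.jacobson (MonoidAlgebra k G) := Ideal.Quotient.eq_zero_iff_mem.mp h1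
    obtain ⟨N, hN⟩ := (IsSemiprimaryRing.isNilpotent (R := MonoidAlgebra k G))
    refine ⟨N, ?_⟩
    have h3 : a ^ N ∈ (Ring.jacobson (MonoidAlgebra k G)) ^ N := Ideal.pow_mem_pow h2 N
    rw [hN] at h3
    exact h3
  let R : ∀ i, MonoidAlgebra k G →ₐ[k] Matrix (Fin (d i)) (Fin (d i)) k :=
    fun i => (Pi.evalAlgHom k _ i).comp P
  have hR : ∀ i a, R i a = P a i := fun i a => rfl
  have hRs : ∀ i, Function.Surjective (R i) := by
    intro i x
    obtain ⟨a, ha⟩ := hPs (Function.update 0 i x)
    refine ⟨a, ?_⟩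
    rw [hR, ha, Function.update_self]
  have hpos : ∀ i, 0 < d i := fun i => Nat.pos_of_ne_zero (hd i).out
  have h01 : ∀ i, R i c = 0 ∨ R i c = 1 := by
    intro i
    have hcen : R i c ∈ Set.center (Matrix (Fin (d i)) (Fin (d i)) k) := by
      rw [Semigroup.mem_center_iff]
      intro g
      obtain ⟨a, ha⟩ := hRs i g
      rw [← ha, ← map_mul, ← map_mul, hcc]
    rw [Matrix.center_eq_range] at hcen
    obtain ⟨s, hs⟩ := hcen
    have hid : R i c * R i c = R i c := by rw [← map_mul, hc]
    rw [← hs] at hid ⊢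
    have hne : Nonempty (Fin (d i)) := ⟨⟨0, hpos i⟩⟩
    have hss : s * s = s := by
      rw [← map_mul] at hid
      exact Matrix.scalar_inj.mp hid
    have hs0 : s = 0 ∨ s = 1 := by
      have : s * (s - 1) = 0 := by rw [mul_sub, hss, mul_one, sub_self]
      rcases mul_eq_zero.mp this with h0 | h1
      · exact Or.inl h0
      · exact Or.inr (sub_eq_zero.mp h1)
    rcases hs0 with h0 | h1
    · left; rw [h0, map_zero]
    · right; rw [h1, map_one]
  have hex : ∃ i, R i c = 1 := by
    by_contra hno
    push Not at hno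
    have hP0 : P c = 0 := by
      funext i
      rcases h01 i with h0 | h1
      · exact h0
      · exact absurd h1 (hno i)
    obtain ⟨N, hN⟩ := hPn c hP0
    have hpw : ∀ N, c ^ (N + 1) = c := by
      intro N
      induction N with
      | zero => simp
      | succ N ih => rw [pow_succ, ih, hc]
    apply hc0
    rw [← hpw N, pow_succ, hN, zero_mul]
  obtain ⟨i, hi⟩ := hex
  exact ⟨d i, R i, hpos i, hRs i, hi⟩

end Pool.Agent.Helper44.S3
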