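import Pool.Agent.Helper44.S3.Defs

set_option autoImplicit false
open scoped BigOperators MonoidAlgebra
open Classical

namespace Pool.Agent.Helper44.S3

open Pool.Agent.Helper36.NB

variable {Γ : Type} [Group Γ] [Finite Γ] {T G K H M : Subgroup Γ}

omit [Finite Γ] in
/-- If `⁅M1, M1⁆ ⊔ K = M1` with `K` normalised by the solvable group `M1 ≥ K`, then `K = M1`. -/
private theorem eq_of_comm_sup {M1 : Subgroup Γ} (hK1 : K ≤ M1)
    (hn : ∀ g ∈ M1, ∀ x ∈ K, g * x * g⁻¹ ∈ K) (hs : Group.IsSolvable M1)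
    (hC : ⁅M1, M1⁆ ⊔ K = M1) : K = M1 := by
  by_contra hne
  have hN : (K.subgroupOf M1).Normal := ⟨fun x hx g => by
    rw [Subgroup.mem_subgroupOf] at hx ⊢
    exact hn g g.2 x hx⟩
  have hsq : Group.IsSolvable (M1 ⧸ K.subgroupOf M1) := inferInstance
  have hnt : Nontrivial (M1 ⧸ K.subgroupOf M1) := by
    by_contra hcon
    rw [not_nontrivial_iff_subsingleton] at hcon
    apply hne
    apply le_antisymm hK1
    intro x hx
    have h1 : (QuotientGroup.mk (⟨x, hx⟩ : M1) : M1 ⧸ K.subgroupOf M1) = 1 :=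
      Subsingleton.elim _ _
    rw [QuotientGroup.eq_one_iff, Subgroup.mem_subgroupOf] at h1
    exact h1
  have hlt := Group.IsSolvable.commutator_lt_top_of_nontrivial (M1 ⧸ K.subgroupOf M1)
  have hle : M1 ≤ ((commutator (M1 ⧸ K.subgroupOf M1)).comap
      (QuotientGroup.mk' (K.subgroupOf M1))).map M1.subtype := by
    refine le_trans (le_of_eq hC.symm) ?_
    apply sup_le
    · rw [Subgroup.commutator_le]
      intro x hx y hy
      rw [Subgroup.mem_map]
      refine ⟨(⟨x, hx⟩ : M1) * ⟨y, hy⟩ * (⟨x, hx⟩ : M1)⁻¹ * (⟨y, hy⟩ : M1)⁻¹, ?_, rfl⟩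
      rw [Subgroup.mem_comap, map_mul, map_mul, map_mul, map_inv, map_inv]
      exact Subgroup.commutator_mem_commutator (Subgroup.mem_top _) (Subgroup.mem_top _)
    · intro x hx
      rw [Subgroup.mem_map]
      refine ⟨⟨x, hK1 hx⟩, ?_, rfl⟩
      rw [Subgroup.mem_comap]
      have h1 : (QuotientGroup.mk' (K.subgroupOf M1)) (⟨x, hK1 hx⟩ : M1) = 1 := by
        rw [QuotientGroup.mk'_apply, QuotientGroup.eq_one_iff, Subgroup.mem_subgroupOf]
        exact hx
      rw [h1]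
      exact Subgroup.one_mem _
  apply hlt.ne
  rw [eq_top_iff]
  intro q _
  obtain ⟨x, rfl⟩ := QuotientGroup.mk'_surjective (K.subgroupOf M1) q
  have hx := hle x.2
  rw [Subgroup.mem_map] at hx
  obtain ⟨y, hy, hyx⟩ := hx
  have : y = x := Subtype.ext hyx
  rw [this] at hy
  exact hy

/-- GA (existence of a chief factor; hint). Let `M1` be minimal among the subgroups `L` with `K < L ≤ M`
and `Norm G L`. `⁅M1, M1⁆ ⊔ K` is normalised by `G` and lies between `K` and `M1`; it is not `M1`, since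
otherwise (`K` is normal in `M1`) every term `D` of the derived series of `M1` has `D ⊔ K = M1`, and
`M1 ≤ M` is solvable, so `K = M1`. Hence `comm`. Take a prime `r` dividing `|M1 : K|`; by `comm` the set
`{x ∈ M1 | x ^ r ∈ K}` is a subgroup, normalised by `G`, it is larger than `K` by Cauchy's theorem
(in `M1 ⧸ K.subgroupOf M1`), so it is `M1`. -/
theorem exists_chief (hKM : K ≤ M) (hne : K ≠ M) (hMG : M ≤ G) (hMT : M ≤ T) (hM : Norm G M)
    (hK : Norm G K) (hs : IsSolvable M) :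
    ∃ (M1 : Subgroup Γ) (r : ℕ), M1 ≤ M ∧ Chief T G K M1 r := by
  obtain ⟨M1, hM1⟩ := (Set.toFinite {L : Subgroup Γ | K ≤ L ∧ K ≠ L ∧ L ≤ M ∧ Norm G L}).exists_minimal
    ⟨M, hKM, hne, le_rfl, hM⟩
  obtain ⟨⟨hK1, hne1, h1M, hN1⟩, hmin'⟩ := hM1
  have hmin : ∀ L : Subgroup Γ, K ≤ L → L ≤ M1 → Norm G L → L = K ∨ L = M1 := by
    intro L hKL hL1 hL
    by_cases h : K = L
    · exact Or.inl h.symm
    · right
      exact le_antisymm hL1 (hmin' ⟨hKL, h, hL1.trans h1M, hL⟩ hL1)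
  have h1G : M1 ≤ G := h1M.trans hMG
  have hs1 : Group.IsSolvable M1 := by
    have hs' : Group.IsSolvable M := hs
    exact Group.isSolvable_of_isSolvable_injective (Subgroup.inclusion_injective h1M)
  have hn : ∀ g ∈ M1, ∀ x ∈ K, g * x * g⁻¹ ∈ K := fun g hg x hx => hK g (h1G hg) x hx
  have hN : (K.subgroupOf M1).Normal := ⟨fun x hx g => by
    rw [Subgroup.mem_subgroupOf] at hx ⊢
    exact hn g g.2 x hx⟩
  -- commutators
  have hCle : ⁅M1, M1⁆ ⊔ K ≤ M1 := by
    apply sup_le _ hK1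
    rw [Subgroup.commutator_le]
    intro x hx y hy
    exact M1.mul_mem (M1.mul_mem (M1.mul_mem hx hy) (M1.inv_mem hx)) (M1.inv_mem hy)
  have hmapL : ∀ L : Subgroup Γ, Norm G L → ∀ g ∈ G, L.map (MulAut.conj g).toMonoidHom ≤ L := by
    intro L hL g hg x hx
    rw [Subgroup.mem_map] at hx
    obtain ⟨y, hy, rfl⟩ := hx
    exact hL g hg y hy
  have hCnorm : Norm G (⁅M1, M1⁆ ⊔ K) := by
    intro g hg x hx
    have h1 : (⁅M1, M1⁆ ⊔ K).map (MulAut.conj g).toMonoidHom ≤ ⁅M1, M1⁆ ⊔ K := by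
      rw [Subgroup.map_sup, Subgroup.map_commutator]
      exact sup_le_sup (Subgroup.commutator_mono (hmapL M1 hN1 g hg) (hmapL M1 hN1 g hg))
        (hmapL K hK g hg)
    exact h1 (Subgroup.mem_map.2 ⟨x, hx, rfl⟩)
  have hC : ⁅M1, M1⁆ ⊔ K = K := by
    rcases hmin _ le_sup_right hCle hCnorm with h | h
    · exact h
    · exact absurd (eq_of_comm_sup hK1 hn hs1 h) hne1
  have hcomm : ∀ x ∈ M1, ∀ y ∈ M1, x * y * x⁻¹ * y⁻¹ ∈ K := by
    intro x hx y hy
    rw [← hC]
    exact Subgroup.mem_sup_left (Subgroup.commutator_mem_commutator hx hy)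
  -- the quotient
  have hnt : Nontrivial (M1 ⧸ K.subgroupOf M1) := by
    by_contra hcon
    rw [not_nontrivial_iff_subsingleton] at hcon
    apply hne1
    apply le_antisymm hK1
    intro x hx
    have h1 : (QuotientGroup.mk (⟨x, hx⟩ : M1) : M1 ⧸ K.subgroupOf M1) = 1 :=
      Subsingleton.elim _ _
    rw [QuotientGroup.eq_one_iff, Subgroup.mem_subgroupOf] at h1
    exact h1
  have hcard : Nat.card (M1 ⧸ K.subgroupOf M1) ≠ 1 := by
    have := Finite.one_lt_card_iff_nontrivial.2 hnt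
    omega
  obtain ⟨r, hr, hdvd⟩ := Nat.exists_prime_and_dvd hcard
  have hmk : ∀ x : M1, (QuotientGroup.mk x : M1 ⧸ K.subgroupOf M1) = 1 ↔ (x : Γ) ∈ K := by
    intro x
    rw [QuotientGroup.eq_one_iff, Subgroup.mem_subgroupOf]
  have hcommQ : ∀ x y : M1 ⧸ K.subgroupOf M1, Commute x y := by
    intro x y
    obtain ⟨a, rfl⟩ := QuotientGroup.mk_surjective x
    obtain ⟨b, rfl⟩ := QuotientGroup.mk_surjective y
    have h1 : ((QuotientGroup.mk (a * b * a⁻¹ * b⁻¹) : M1 ⧸ K.subgroupOf M1)) = 1 := by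
      rw [hmk]
      exact hcomm a a.2 b b.2
    rw [QuotientGroup.mk_mul, QuotientGroup.mk_mul, QuotientGroup.mk_mul, QuotientGroup.mk_inv,
      QuotientGroup.mk_inv] at h1
    have h2 := mul_inv_eq_one.1 h1
    have h3 := mul_inv_eq_iff_eq_mul.1 h2
    exact h3
  let R : Subgroup Γ :=
    { carrier := {x | x ∈ M1 ∧ x ^ r ∈ K}
      one_mem' := ⟨M1.one_mem, by rw [one_pow]; exact K.one_mem⟩
      mul_mem' := by
        rintro x y ⟨hx, hxr⟩ ⟨hy, hyr⟩
        refine ⟨M1.mul_mem hx hy, ?_⟩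
        have h1 := (hmk ((⟨x, hx⟩ * ⟨y, hy⟩ : M1) ^ r)).1 (by
          rw [QuotientGroup.mk_pow, QuotientGroup.mk_mul, (hcommQ _ _).mul_pow,
            ← QuotientGroup.mk_pow, ← QuotientGroup.mk_pow,
            (hmk ((⟨x, hx⟩ : M1) ^ r)).2 hxr, (hmk ((⟨y, hy⟩ : M1) ^ r)).2 hyr, one_mul])
        exact h1
      inv_mem' := by
        rintro x ⟨hx, hxr⟩
        refine ⟨M1.inv_mem hx, ?_⟩
        rw [inv_pow]
        exact K.inv_mem hxr }
  have hRmem : ∀ x, x ∈ R ↔ x ∈ M1 ∧ x ^ r ∈ K := fun x => Iff.rfl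
  have hKR : K ≤ R := fun x hx => ⟨hK1 hx, K.pow_mem hx r⟩
  have hR1 : R ≤ M1 := fun x hx => hx.1
  have hRnorm : Norm G R := by
    intro g hg x hx
    refine ⟨hN1 g hg x hx.1, ?_⟩
    rw [conj_pow]
    exact hK g hg _ hx.2
  have hRne : R ≠ K := by
    have := Fact.mk hr
    obtain ⟨q, hq⟩ := exists_prime_orderOf_dvd_card' r hdvd
    obtain ⟨x, rfl⟩ := QuotientGroup.mk_surjective q
    intro hRK
    have h1 : (x : Γ) ∈ R := by
      refine ⟨x.2, ?_⟩
      have h2 := pow_orderOf_eq_one (QuotientGroup.mk x : M1 ⧸ K.subgroupOf M1)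
      rw [hq, ← QuotientGroup.mk_pow] at h2
      exact (hmk _).1 h2
    rw [hRK] at h1
    have h3 := (hmk x).2 h1
    rw [h3, orderOf_one] at hq
    exact hr.one_lt.ne hq
  have hRM : R = M1 := by
    rcases hmin R hKR hR1 hRnorm with h | h
    · exact absurd h hRne
    · exact h
  refine ⟨M1, r, h1M, ?_⟩
  exact
    { KM := hK1
      MG := h1G
      MT := h1M.trans hMT
      ne := hne1
      norm := hN1
      min := hmin
      prime := hr
      comm := hcomm
      pow := fun x hx => by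
        rw [← hRM] at hx
        exact hx.2 }

end Pool.Agent.Helper44.S3
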