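import Pool.Agent.Helper44.S3.Defs2
import Pool.Agent.Helper44.S3.GA

set_option autoImplicit false
open scoped BigOperators MonoidAlgebra
open Classical

namespace Pool.Agent.Helper44.S3

open Pool.Agent.Helper36.NB

/-- In a finite solvable group without non-trivial normal subgroups of odd order, a maximal normal
`2`-subgroup contains its centraliser. -/
private theorem hh_quot {Q : Type} [Group Q] [Finite Q] (hs : IsSolvable Q)
    (hodd : ∀ L : Subgroup Q, L.Normal → Odd (Nat.card L) → L ≤ ⊥)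
    (P : Subgroup Q) (hPn : P.Normal) (hP : IsPGroup 2 P)
    (hmax : ∀ L : Subgroup Q, L.Normal → IsPGroup 2 L → P ≤ L → L ≤ P) :
    ∀ g : Q, (∀ m ∈ P, m * g = g * m) → g ∈ P := by
  have hmax' : ∀ L : Subgroup Q, L.Normal → IsPGroup 2 L → L ≤ P := by
    intro L hLn hL
    exact le_trans le_sup_right (hmax (P ⊔ L) inferInstance (hP.to_sup_of_normal_right hL) le_sup_left)
  let C : Subgroup Q := Subgroup.centralizer (P : Set Q)
  have hCn : C.Normal := Subgroup.normal_centralizer
  by_contra hcon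
  push Not at hcon
  obtain ⟨g, hg, hgP⟩ := hcon
  have hgC : g ∈ C := by
    rw [Subgroup.mem_centralizer_iff]
    intro m hm
    exact hg m hm
  have hne : C ⊓ P ≠ C := by
    intro h
    have h1 : g ∈ C ⊓ P := by
      rw [h]; exact hgC
    exact hgP h1.2
  have hCPn : (C ⊓ P).Normal := inferInstance
  have hsC : IsSolvable C := by
    have : Group.IsSolvable Q := hs
    exact (inferInstance : Group.IsSolvable C)
  obtain ⟨L, r, hLC, hL⟩ := exists_chief (T := (⊤ : Subgroup Q)) (G := (⊤ : Subgroup Q))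
    (K := C ⊓ P) (M := C) inf_le_left hne le_top le_top
    (fun g _ x hx => hCn.conj_mem x hx g) (fun g _ x hx => hCPn.conj_mem x hx g) hsC
  have hLn : L.Normal := ⟨fun x hx g => hL.norm g (Subgroup.mem_top g) x hx⟩
  have hnotle : ¬ L ≤ C ⊓ P := fun h => hL.ne (le_antisymm hL.KM h)
  -- the exponent of P
  obtain ⟨a, ha⟩ := IsPGroup.iff_card.1 hP
  have hexp : ∀ x ∈ P, x ^ (2 ^ a) = 1 := by
    intro x hx
    rw [← ha]
    have h1 := pow_card_eq_one' (x := (⟨x, hx⟩ : P))
    exact congrArg (Subtype.val) h1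
  rcases hL.prime.eq_two_or_odd' with h2 | hr
  · apply hnotle
    apply le_inf hLC
    apply hmax' L hLn
    intro x
    refine ⟨1 + a, ?_⟩
    have h3 : (x : Q) ^ 2 ∈ C ⊓ P := by
      have := hL.pow x x.2
      rwa [h2] at this
    apply Subtype.ext
    rw [pow_add, pow_one, pow_mul]
    have := hexp _ h3.2
    simpa using this
  · have hcop : Nat.Coprime r (2 ^ a) := by
      apply Nat.Coprime.pow_right
      exact Nat.Coprime.symm (Nat.coprime_two_left.2 hr)
    -- an element of order dividing r in P is trivial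
    have htriv : ∀ z ∈ P, z ^ r = 1 → z = 1 := by
      intro z hz hzr
      have h1 := orderOf_dvd_of_pow_eq_one hzr
      have h2 := orderOf_dvd_of_pow_eq_one (hexp z hz)
      have h3 := Nat.dvd_gcd h1 h2
      rw [hcop.gcd_eq_one, Nat.dvd_one] at h3
      exact orderOf_eq_one_iff.1 h3
    have hPcomm : ∀ z ∈ P, ∀ x ∈ L, z * x = x * z := by
      intro z hz x hx
      exact Subgroup.mem_centralizer_iff.1 (hLC hx) z hz
    have hcen : ∀ x ∈ L, x ^ r = 1 → ∀ y ∈ L, x * y = y * x := by
      intro x hx hxr y hy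
      have hz := hL.comm x hx y hy
      have hzx := hPcomm _ hz.2 x hx
      have h1 : y * x * y⁻¹ = (x * y * x⁻¹ * y⁻¹)⁻¹ * x := by group
      have h2 : (y * x * y⁻¹) ^ r = 1 := by
        rw [conj_pow, hxr]; group
      have h3 : Commute (x * y * x⁻¹ * y⁻¹)⁻¹ x := by
        have : Commute (x * y * x⁻¹ * y⁻¹) x := hzx
        exact this.inv_left
      rw [h1, h3.mul_pow, hxr, mul_one, inv_pow, inv_eq_one] at h2
      have h4 := htriv _ hz.2 h2
      have h5 := mul_inv_eq_one.1 h4
      exact mul_inv_eq_iff_eq_mul.1 h5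
    let R : Subgroup Q :=
      { carrier := {x | x ∈ L ∧ x ^ r = 1}
        one_mem' := ⟨L.one_mem, one_pow r⟩
        mul_mem' := by
          rintro x y ⟨hx, hxr⟩ ⟨hy, hyr⟩
          refine ⟨L.mul_mem hx hy, ?_⟩
          have : Commute x y := hcen x hx hxr y hy
          rw [this.mul_pow, hxr, hyr, one_mul]
        inv_mem' := by
          rintro x ⟨hx, hxr⟩
          refine ⟨L.inv_mem hx, ?_⟩
          rw [inv_pow, hxr, inv_one] }
    have hRn : R.Normal := ⟨fun x hx g => by
      refine ⟨hLn.conj_mem x hx.1 g, ?_⟩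
      rw [conj_pow, hx.2]; group⟩
    have hRp : IsPGroup r R := by
      intro x
      refine ⟨1, ?_⟩
      apply Subtype.ext
      rw [pow_one]
      have := x.2.2
      simpa using this
    have hfr : Fact r.Prime := ⟨hL.prime⟩
    obtain ⟨c, hc⟩ := IsPGroup.iff_card.1 hRp
    have hRbot := hodd R hRn (by rw [hc]; exact hr.pow)
    apply hnotle
    intro x hx
    have hxr := hL.pow x hx
    have h1 : x ^ (2 ^ a) ∈ R := by
      refine ⟨L.pow_mem hx _, ?_⟩
      rw [← pow_mul, mul_comm, pow_mul]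
      exact hexp _ hxr.2
    have h2 : x ^ (2 ^ a) = 1 := by
      have := hRbot h1
      rwa [Subgroup.mem_bot] at this
    have h3 : orderOf x ∣ 2 ^ a := orderOf_dvd_of_pow_eq_one h2
    have h4 : Nat.Coprime r (orderOf x) := Nat.Coprime.of_dvd_right h3 hcop
    have h5 : ∃ m : ℕ, (x ^ r) ^ m = x := exists_pow_eq_self_of_coprime h4
    obtain ⟨m, hm⟩ := h5
    rw [← hm]
    exact Subgroup.pow_mem _ hxr m

/-- HB (Hall-Higman lemma 1.2.3 for `p = 2`; hint). `M` = a normal subgroup `≥ N` with `|M : N|` a power of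
`2`, with maximal number of elements (the product of two such is such). `C = {g | ∀ m ∈ M, m g m⁻¹ g⁻¹ ∈ N}`
is a normal subgroup containing `N`. Suppose `C ≰ M`, put `C0 = C ⊓ M` (`≥ N`), `C0 ≠ C`, and let
`L / C0` be a chief factor, `L ≤ C` (`exists_chief` with `T = G = ⊤`, `K = C0`), an elementary abelian
`r`-group. `r = 2`: `|L : N|` is a power of `2`, so `L ≤ M` (`L M` is such a subgroup), `L ≤ C0`,
contradiction. `r` odd: in `L / N` the subgroup `C0 / N` is central (`C0 ≤ M`, `L ≤ C`), a `2`-group, with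
abelian quotient; so `L / N` is nilpotent, its Sylow `r`-subgroup `R / N` is normal in `L / N`
(`isNilpotent_of_finite_tfae`), hence characteristic, `R` is normal in `G` (`R` = the elements of `L` whose image
in `G ⧸ N` has odd order), `|R|` is odd, so `R ≤ N`, but `r` divides `|L : N|`, contradiction. -/
theorem hall_higman {G : Type} [Group G] [Finite G] (hs : IsSolvable G) {N : Subgroup G}
    (hN : IsOddCore N) :
    ∃ M : Subgroup G, M.Normal ∧ N ≤ M ∧ (∃ s : ℕ, Nat.card M = 2 ^ s * Nat.card N) ∧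
      ∀ g : G, (∀ m ∈ M, m * g * m⁻¹ * g⁻¹ ∈ N) → g ∈ M := by
  obtain ⟨hNn, hNo, hNmax⟩ := hN
  have hcard : ∀ L : Subgroup (G ⧸ N),
      Nat.card (L.comap (QuotientGroup.mk' N)) = Nat.card L * Nat.card N := by
    intro L
    have h1 := Subgroup.card_mul_index (L.comap (QuotientGroup.mk' N))
    rw [Subgroup.index_comap_of_surjective _ (QuotientGroup.mk'_surjective N)] at h1
    have h2 := Subgroup.card_mul_index L
    have h3 := Subgroup.card_eq_card_quotient_mul_card_subgroup N
    have h4 : L.index ≠ 0 := Subgroup.index_ne_zero_of_finite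
    apply Nat.eq_of_mul_eq_mul_right (Nat.pos_of_ne_zero h4)
    rw [h1, h3, ← h2]
    ring
  have hsQ : IsSolvable (G ⧸ N) := by
    have : Group.IsSolvable G := hs
    exact (inferInstance : Group.IsSolvable (G ⧸ N))
  have hodd : ∀ L : Subgroup (G ⧸ N), L.Normal → Odd (Nat.card L) → L ≤ ⊥ := by
    intro L hLn hL x hx
    obtain ⟨y, rfl⟩ := QuotientGroup.mk'_surjective N x
    have h1 := hNmax (L.comap (QuotientGroup.mk' N)) inferInstance
      (by rw [hcard]; exact hL.mul hNo)
    have h2 : y ∈ N := h1 hx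
    rw [Subgroup.mem_bot]
    exact (QuotientGroup.eq_one_iff y).2 h2
  obtain ⟨P, hP⟩ := (Set.toFinite {L : Subgroup (G ⧸ N) | L.Normal ∧ IsPGroup 2 L}).exists_maximal
    ⟨⊥, inferInstance, IsPGroup.of_bot⟩
  obtain ⟨⟨hPn, hPp⟩, hPmax⟩ := hP
  have hmain := hh_quot hsQ hodd P hPn hPp (fun L hLn hL hPL => hPmax ⟨hLn, hL⟩ hPL)
  refine ⟨P.comap (QuotientGroup.mk' N), inferInstance, ?_, ?_, ?_⟩
  · intro x hx
    rw [Subgroup.mem_comap]
    have : (QuotientGroup.mk' N) x = 1 := (QuotientGroup.eq_one_iff x).2 hx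
    rw [this]
    exact P.one_mem
  · obtain ⟨s, hs'⟩ := IsPGroup.iff_card.1 hPp
    exact ⟨s, by rw [hcard, hs']⟩
  · intro g hg
    rw [Subgroup.mem_comap]
    apply hmain
    intro m hm
    obtain ⟨y, rfl⟩ := QuotientGroup.mk'_surjective N m
    have h1 := hg y hm
    have h2 : (QuotientGroup.mk' N) (y * g * y⁻¹ * g⁻¹) = 1 := (QuotientGroup.eq_one_iff _).2 h1
    rw [map_mul, map_mul, map_mul, map_inv, map_inv] at h2
    exact mul_inv_eq_iff_eq_mul.1 (mul_inv_eq_one.1 h2)

end Pool.Agent.Helper44.S3
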