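import Pool.Agent.Helper44.S3.Defs2
import Pool.Agent.Helper44.S3.HB
import Pool.Agent.Helper44.S3.FB
import Pool.Agent.Helper44.S3.FC
import Pool.Agent.Helper44.S3.FD
import Pool.Agent.Helper44.S3.FE

set_option autoImplicit false
open scoped BigOperators MonoidAlgebra
open Classical

namespace Pool.Agent.Helper44.S3

open Pool.Agent.Helper36.NB

/-- FF (hint). `f * f = f` (`Φ.one`, `Φ.mul`), `f` is central (`hfix`). Suppose `c ≠ 0` and `f - c ≠ 0`; `exists_rep`
gives `ρ` with `ρ c = 1` (so `ρ f = 1` as `c f = c`) and `ρ'` with `ρ' (f - c) = 1` (so `ρ' f = 1`, `ρ' c = 0`).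
Take `M` from `hall_higman`; `ext_M`, `restrict_M` for `z = c`: `ρ (c_M) = 1`, `ρ' (c_M) = 0` with `c_M` the
restriction of `c` to `M`; `same_scalar` gives `1 = 0`. -/
theorem fong {k : Type} [Field k] [IsAlgClosed k] [CharP k 2] {G : Type} [Group G] [Fintype G]
    (hs : IsSolvable G) {N : Subgroup G} (hN : IsOddCore N) {f : MonoidAlgebra k G} {a : ℕ}
    (Φ : NBlk N f a) (hfix : ∀ g, cj g f = f) (c : MonoidAlgebra k G) (hc : c * c = c)
    (hcc : ∀ y, y * c = c * y) (hcf : c * f = c) : c = 0 ∨ c = f := by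
  have hff : f * f = f := by rw [← Φ.one, ← Φ.mul, mul_one]
  have hfc : ∀ y, y * f = f * y := fun y => central_of_cj hfix y
  have hfc' : f * c = c := by rw [hcc f, hcf]
  by_contra hcon
  rw [not_or] at hcon
  obtain ⟨hc0, hcf'⟩ := hcon
  have hd0 : f - c ≠ 0 := sub_ne_zero.2 (Ne.symm hcf')
  have hd : (f - c) * (f - c) = f - c := by
    rw [mul_sub, sub_mul, sub_mul, hff, hcf, hfc', hc]
    abel
  have hdc : ∀ y, y * (f - c) = (f - c) * y := fun y => by
    rw [mul_sub, sub_mul, hfc, hcc]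
  obtain ⟨n, ρ, hn, hρ, hρc⟩ := exists_rep c hc0 hc hcc
  obtain ⟨n', ρ', hn', hρ', hρd⟩ := exists_rep (f - c) hd0 hd hdc
  have hρf : ρ f = 1 := by
    have h1 := congrArg ρ hcf
    rwa [map_mul, hρc, one_mul] at h1
  have hρf' : ρ' f = 1 := by
    have h1 : (f - c) * f = f - c := by rw [sub_mul, hff, hcf]
    have h3 := congrArg ρ' h1
    rwa [map_mul, hρd, one_mul] at h3
  have hρc' : ρ' c = 0 := by
    have h1 := hρd
    rw [map_sub, hρf'] at h1
    exact sub_eq_self.1 h1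
  obtain ⟨M, hM, hNM, hcard, hHH⟩ := hall_higman hs hN
  obtain ⟨a1, a2⟩ := ext_M hs hN.1 hM hNM hcard Φ hfix hn ρ hρ hρf
  obtain ⟨b1, b2⟩ := ext_M hs hN.1 hM hNM hcard Φ hfix hn' ρ' hρ' hρf'
  have r1 := restrict_M hN.1 hM hNM hcard hHH hn ρ a2 c hcc
  have r2 := restrict_M hN.1 hM hNM hcard hHH hn' ρ' b2 c hcc
  have hz : ∀ g, g ∉ M →
      (∑ m ∈ Finset.univ.filter (fun m : G => m ∈ M), c.coeff m • el k m).coeff g = 0 := by
    intro g hg
    rw [MonoidAlgebra.coeff_sum, Finsupp.finsetSum_apply]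
    refine Finset.sum_eq_zero fun m hm => ?_
    have hm' : m ∈ M := (Finset.mem_filter.1 hm).2
    rw [MonoidAlgebra.coeff_smul, Finsupp.smul_apply, el_coeff, if_neg, smul_zero]
    rintro rfl
    exact hg hm'
  have h := same_scalar hN.1 hM hNM hcard Φ hfix hn hn' ρ ρ' hρf hρf' a1 b1 _ hz (c := 1) (c' := 0)
    (by rw [← r1, hρc, one_smul]) (by rw [← r2, hρc', zero_smul])
  exact one_ne_zero h

end Pool.Agent.Helper44.S3
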