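import Pool.Agent.Helper44.S3.Defs2
import Pool.Agent.Helper44.S3.FF
import Pool.Agent.Helper36.NB.A2

set_option autoImplicit false
open scoped BigOperators MonoidAlgebra
open Classical

namespace Pool.Agent.Helper44.S3

open Pool.Agent.Helper36.NB

private theorem fg_incl_coeff {R : Type} [CommRing R] {G : Type} [Group G] (H : Subgroup G)
    (a : MonoidAlgebra R H) (g : G) :
    (incl R H a).coeff g = if h : g ∈ H then a.coeff ⟨g, h⟩ else 0 := by
  induction a using MonoidAlgebra.induction_linear with
  | zero => simp
  | add x y hx hy =>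
    rw [map_add, MonoidAlgebra.coeff_add, Finsupp.add_apply, hx, hy]
    split_ifs with h <;> simp
  | single u r =>
    simp only [incl, MonoidAlgebra.mapDomainRingHom_apply, MonoidAlgebra.mapDomain_single,
      MonoidAlgebra.coeff_single, Finsupp.single_apply]
    by_cases h : g ∈ H
    · rw [dif_pos h]
      by_cases h2 : (H.subtype u) = g
      · rw [if_pos h2, if_pos (Subtype.ext h2)]
      · rw [if_neg h2, if_neg (fun h3 => h2 (by rw [h3]; rfl))]
    · rw [dif_neg h, if_neg]
      intro h2
      exact h (h2 ▸ u.2)

private theorem fg_incl_res {R : Type} [CommRing R] {G : Type} [Group G] {H : Subgroup G}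
    {a : MonoidAlgebra R G} (ha : ∀ g, g ∉ H → a.coeff g = 0) : incl R H (res H a) = a := by
  ext g
  rw [fg_incl_coeff]
  by_cases h : g ∈ H
  · rw [dif_pos h, res_coeff]
  · rw [dif_neg h, ha g h]

private theorem fg_res_mul {R : Type} [CommRing R] {G : Type} [Group G] {H : Subgroup G}
    {a b : MonoidAlgebra R G} (ha : ∀ g, g ∉ H → a.coeff g = 0)
    (hb : ∀ g, g ∉ H → b.coeff g = 0) : res H (a * b) = res H a * res H b := by
  have h : a * b = incl R H (res H a * res H b) := by
    rw [map_mul, fg_incl_res ha, fg_incl_res hb]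
  rw [h, res_incl]

private theorem fg_res_el {R : Type} [CommRing R] {G : Type} [Group G] {H : Subgroup G}
    (h : H) : res H (el R (h : G)) = el R h := by
  rw [← incl_el, res_incl]

private theorem fg_el_supp {R : Type} [CommRing R] {G : Type} [Group G] {H : Subgroup G}
    (h : H) (g : G) (hg : g ∉ H) : (el R (h : G)).coeff g = 0 := by
  rw [el_coeff, if_neg]
  intro h2
  exact hg (h2 ▸ h.2)

/-- An element commuting with the group elements of `H` commutes with `R[H]`. -/
private theorem fg_comm {R : Type} [CommRing R] {G : Type} [Group G] {H : Subgroup G}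
    {c : MonoidAlgebra R G} (hc : ∀ g ∈ H, cj g c = c) (a : MonoidAlgebra R H) :
    incl R H a * c = c * incl R H a := by
  induction a using MonoidAlgebra.induction_linear with
  | zero => simp
  | add x y hx hy => rw [map_add, add_mul, mul_add, hx, hy]
  | single u r =>
    have h1 : (MonoidAlgebra.single u r : MonoidAlgebra R H) = r • el R u := by
      simp [el]
    have h2 : incl R H (r • el R u) = r • el R (u : G) := by
      ext g
      rw [fg_incl_coeff]
      by_cases h : g ∈ H
      · rw [dif_pos h]
        simp only [MonoidAlgebra.coeff_smul, Finsupp.smul_apply, el_coeff]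
        by_cases h3 : (u : G) = g
        · rw [if_pos h3, if_pos (Subtype.ext h3)]
        · rw [if_neg h3, if_neg (fun h4 => h3 (by rw [h4]))]
      · rw [dif_neg h]
        simp only [MonoidAlgebra.coeff_smul, Finsupp.smul_apply, el_coeff]
        rw [if_neg, smul_zero]
        intro h3
        exact h (h3 ▸ u.2)
    rw [h1, h2, smul_mul_assoc, mul_smul_comm]
    congr 1
    exact (comm_iff_conj (u : G) c).mpr (hc u u.2)

/-- FG (transport of `fong` to a subgroup and lifting to `O`; hint). In the group `T`: `N' = N.subgroupOf T`,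
`f = res T (toK F)`, `NBlk N' f a` from `Φ` (`res T ∘ Φ.φ`; everything is supported on `N ≤ T`). `toK c` restricted to
`T` is a central idempotent below `f`, so it is `0` or `f`; then `c = 0` by `idem_eq_zero`, or `F - c` is an idempotent
(`c F = F c = c`) with `toK (F - c) = 0`, so `c = F`. Use `resK_isAlgClosed`, `resK_charP`. -/
theorem fong_sub (O : ValuationSubring ℂ) (h2 : (2 : O) ∈ IsLocalRing.maximalIdeal O)
    {G : Type} [Group G] [Fintype G] {T N : Subgroup G} (hs : IsSolvable T) (hNT : N ≤ T)
    (hN : IsOddCore (N.subgroupOf T)) {F : MonoidAlgebra O G} {a : ℕ}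
    (Φ : NBlk N (toK O G F) a) (hFF : F * F = F) (hFs : ∀ g, g ∉ N → F.coeff g = 0)
    (hfix : ∀ g ∈ T, cj g F = F)
    (c : MonoidAlgebra O G) (hc : c * c = c) (hcs : ∀ g, g ∉ T → c.coeff g = 0)
    (hcc : ∀ g ∈ T, cj g c = c) (hcF : c * F = c) : c = 0 ∨ c = F := by
  have h2' : CharP (resK O) 2 := resK_charP O h2
  have hac : IsAlgClosed (resK O) := resK_isAlgClosed O
  have hsub : ∀ {R : Type} [CommRing R] {a : MonoidAlgebra R G},
      (∀ g, g ∉ N → a.coeff g = 0) → ∀ g, g ∉ T → a.coeff g = 0 :=
    fun ha g hg => ha g (fun h => hg (hNT h))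
  have hkF : ∀ g, g ∉ T → (toK O G F).coeff g = 0 := by
    intro g hg
    rw [toK_apply, hFs g (fun h => hg (hNT h)), map_zero]
  have hkc : ∀ g, g ∉ T → (toK O G c).coeff g = 0 := by
    intro g hg
    rw [toK_apply, hcs g hg, map_zero]
  have hkcj : ∀ (g : G) (x : MonoidAlgebra O G), toK O G (cj g x) = cj g (toK O G x) := by
    intro g x
    rw [cj, cj, map_mul, map_mul, toK_el, toK_el]
  let Φ' : NBlk (N.subgroupOf T) (res T (toK O G F)) a :=
    { φ := { toFun := fun x => res T (Φ.φ x)
             map_add' := fun x y => by rw [map_add, res_add]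
             map_smul' := fun r x => by
               rw [map_smul]
               ext g
               rw [res_coeff, MonoidAlgebra.coeff_smul, Finsupp.smul_apply, RingHom.id_apply,
                 MonoidAlgebra.coeff_smul, Finsupp.smul_apply, res_coeff] }
      mul := fun x y => by
        change res T (Φ.φ (x * y)) = res T (Φ.φ x) * res T (Φ.φ y)
        rw [Φ.mul, fg_res_mul (hsub (Φ.supp x)) (hsub (Φ.supp y))]
      one := by
        change res T (Φ.φ 1) = _
        rw [Φ.one]
      inj := by
        intro x y hxy
        change res T (Φ.φ x) = res T (Φ.φ y) at hxy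
        apply Φ.inj
        rw [← fg_incl_res (hsub (Φ.supp x)), hxy, fg_incl_res (hsub (Φ.supp y))]
      supp := by
        intro x g hg
        change (res T (Φ.φ x)).coeff g = 0
        rw [res_coeff]
        exact Φ.supp x g (fun h => hg h)
      surj := by
        intro h hh
        obtain ⟨x, hx⟩ := Φ.surj (h : G) hh
        refine ⟨x, ?_⟩
        change res T (Φ.φ x) = _
        rw [hx, fg_res_mul (fg_el_supp h) hkF, fg_res_el] }
  have hfix' : ∀ g : T, cj g (res T (toK O G F)) = res T (toK O G F) := by
    intro g
    apply incl_injective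
    rw [cj, map_mul, map_mul, incl_el, incl_el, fg_incl_res hkF]
    have := congrArg (toK O G) (hfix g g.2)
    rw [hkcj, cj] at this
    exact this
  have hcc' : ∀ y : MonoidAlgebra (resK O) T,
      y * res T (toK O G c) = res T (toK O G c) * y := by
    intro y
    apply incl_injective
    rw [map_mul, map_mul, fg_incl_res hkc]
    apply fg_comm
    intro g hg
    rw [← hkcj, hcc g hg]
  have hidem' : res T (toK O G c) * res T (toK O G c) = res T (toK O G c) := by
    rw [← fg_res_mul hkc hkc, ← map_mul, hc]
  have hcf' : res T (toK O G c) * res T (toK O G F) = res T (toK O G c) := by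
    rw [← fg_res_mul hkc hkF, ← map_mul, hcF]
  have hFc : F * c = c := by
    have h1 := fg_comm hcc (res T F)
    rw [fg_incl_res (hsub hFs)] at h1
    rw [h1, hcF]
  rcases fong hs hN Φ' hfix' _ hidem' hcc' hcf' with h0 | h1
  · left
    apply idem_eq_zero O hc
    rw [← fg_incl_res hkc, h0, map_zero]
  · right
    have h3 : toK O G (F - c) = 0 := by
      rw [map_sub, ← fg_incl_res hkc, h1, fg_incl_res hkF, sub_self]
    have h4 : (F - c) * (F - c) = F - c := by
      rw [sub_mul, mul_sub, mul_sub, hFF, hFc, hcF, hc]
      abel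
    have h5 := idem_eq_zero O h4 h3
    exact (sub_eq_zero.mp h5).symm

end Pool.Agent.Helper44.S3
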