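import Pool.Agent.Helper44.S3.Defs2

set_option autoImplicit false
open scoped BigOperators MonoidAlgebra
open Classical

namespace Pool.Agent.Helper44.S3

open Pool.Agent.Helper36.NB

private theorem HA_sup_odd {G : Type} [Group G] [Finite G] (N L : Subgroup G)
    (hN : N.Normal) (h1 : Odd (Nat.card N)) (h2 : Odd (Nat.card L)) :
    Odd (Nat.card (N ⊔ L : Subgroup G)) := by
  have e1 : N.relIndex (N ⊔ L) = N.relIndex L := Subgroup.relIndex_sup_left L N
  have e2 : N.relIndex L ∣ Nat.card L := Subgroup.relIndex_dvd_card N L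
  have e3 : (⊥ : Subgroup G).relIndex N * N.relIndex (N ⊔ L) =
      (⊥ : Subgroup G).relIndex (N ⊔ L) :=
    Subgroup.relIndex_mul_relIndex _ _ _ bot_le le_sup_left
  rw [Subgroup.relIndex_bot_left, Subgroup.relIndex_bot_left, e1] at e3
  rw [← e3]
  exact h1.mul (h2.of_dvd_nat e2)

/-- HA (hint). The product of two normal subgroups of odd order is normal of odd order
(`|A B| |A ∩ B| = |A| |B|`); take a normal subgroup of odd order with maximal number of elements. -/
theorem exists_oddCore (G : Type) [Group G] [Finite G] : ∃ N : Subgroup G, IsOddCore N := by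
  have hfin : Finite (Subgroup G) := inferInstance
  have hne : ∃ N : {N : Subgroup G // N.Normal ∧ Odd (Nat.card N)}, True :=
    ⟨⟨⊥, inferInstance, by simp⟩, trivial⟩
  obtain ⟨N₀, -⟩ := hne
  have : Nonempty {N : Subgroup G // N.Normal ∧ Odd (Nat.card N)} := ⟨N₀⟩
  obtain ⟨N, hN⟩ := Finite.exists_max
    (fun N : {N : Subgroup G // N.Normal ∧ Odd (Nat.card N)} => Nat.card N.1)
  refine ⟨N.1, N.2.1, N.2.2, ?_⟩
  intro L hL hLo
  have hNn : N.1.Normal := N.2.1
  have hsn : (N.1 ⊔ L : Subgroup G).Normal := Subgroup.sup_normal N.1 L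
  have hso := HA_sup_odd N.1 L N.2.1 N.2.2 hLo
  have hle := hN ⟨N.1 ⊔ L, hsn, hso⟩
  have heq : N.1 = N.1 ⊔ L := Subgroup.eq_of_le_of_card_ge le_sup_left hle
  rw [heq]
  exact le_sup_right

end Pool.Agent.Helper44.S3
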