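import Pool.Agent.Helper44.S3.Defs2
import Pool.Agent.Helper44.S3.HA

set_option autoImplicit false
open scoped BigOperators MonoidAlgebra
open Classical

namespace Pool.Agent.Helper44.S3

open Pool.Agent.Helper36.NB

private theorem odd_mem_index_two {G : Type} [Group G] {T : Subgroup G}
    (hT : T.index = 2) {x : G} (hx : Odd (orderOf x)) : x ∈ T := by
  obtain ⟨m, hm⟩ := hx
  have h1 : x ^ 2 ∈ T := Subgroup.sq_mem_of_index_two hT x
  have h2 : x ^ (2 * m + 1) = 1 := by rw [← hm, pow_orderOf_eq_one]
  have h3 : x = ((x ^ 2) ^ m)⁻¹ := by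
    rw [eq_inv_iff_mul_eq_one, ← pow_mul, ← pow_succ']
    exact h2
  rw [h3]
  exact T.inv_mem (T.pow_mem h1 m)

/-- HC (hint). `N ≤ T`: `g² ∈ T` for all `g` and every element of `N` has odd order. Let `L0` be the odd core of
`T` (`exists_oddCore`); its conjugates by elements of `G` are normal subgroups of `T` of odd order, so the image of
`L0` in `G` is normal and contained in `N`. -/
theorem oddCore_sub {G : Type} [Group G] [Finite G] {N T : Subgroup G} (hN : IsOddCore N)
    (hT : T.index = 2) : N ≤ T ∧ IsOddCore (N.subgroupOf T) := by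
  obtain ⟨hNn, hNo, hNm⟩ := hN
  have hTn : T.Normal := Subgroup.normal_of_index_eq_two hT
  have hNT : N ≤ T := by
    intro x hx
    refine odd_mem_index_two hT ?_
    have h1 : orderOf x ∣ Nat.card N := by
      have := orderOf_dvd_natCard (⟨x, hx⟩ : N)
      rwa [Subgroup.orderOf_mk] at this
    exact Odd.of_dvd_nat hNo h1
  refine ⟨hNT, ?_, ?_, ?_⟩
  · exact hNn.subgroupOf T
  · rw [Nat.card_congr (Subgroup.subgroupOfEquivOfLe hNT).toEquiv]
    exact hNo
  · intro L hL hLo
    obtain ⟨L0, hL0n, hL0o, hL0m⟩ := exists_oddCore T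
    have h1 : L ≤ L0 := hL0m L hL hLo
    have h2 : (L0.map T.subtype).Normal := by
      refine ⟨fun x hx g => ?_⟩
      obtain ⟨y, hy, rfl⟩ := Subgroup.mem_map.1 hx
      have h3 : L0.map (MulAut.conjNormal g : T ≃* T).toMonoidHom ≤ L0 := by
        refine hL0m _ (hL0n.map _ (MulAut.conjNormal g : T ≃* T).surjective) ?_
        have h5 := Nat.card_congr (Subgroup.equivMapOfInjective L0
          (MulAut.conjNormal g : T ≃* T).toMonoidHom (MulAut.conjNormal g : T ≃* T).injective).toEquiv
        exact h5 ▸ hL0o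
      refine Subgroup.mem_map.2 ⟨MulAut.conjNormal g y, h3 (Subgroup.mem_map_of_mem _ hy), ?_⟩
      exact MulAut.conjNormal_apply g y
    have h4 : L0.map T.subtype ≤ N := by
      refine hNm _ h2 ?_
      rw [← Nat.card_congr (Subgroup.equivMapOfInjective L0 _ T.subtype_injective).toEquiv]
      exact hL0o
    intro x hx
    rw [Subgroup.mem_subgroupOf]
    exact h4 (Subgroup.mem_map_of_mem T.subtype (h1 hx))

end Pool.Agent.Helper44.S3
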