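import Pool.Agent.Helper44.S3.Defs2
import Pool.Agent.Helper44.S3.QA
import Pool.Agent.Helper44.S3.QB
import Pool.Agent.Helper44.S3.QE
import Pool.Agent.Helper36.NB.A2

set_option autoImplicit false
open scoped BigOperators MonoidAlgebra
open Classical

namespace Pool.Agent.Helper44.S3

open Pool.Agent.Helper36.NB

/-- QF (hint). `exists_symm_inv` for `w` gives `z`, `e(x) ≠ 0` in `k`, `ud` (with `a = z`, `D`, `E`; `pair_basic`) gives
`c` conjugate to `w` with `PairIn D E c`; conjugate to `w` (`pairIn_conj`) and use `pair_le`. -/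
theorem defect_card (O : ValuationSubring ℂ) {G : Type} [Group G] [Fintype G]
    (h2 : (2 : O) ∈ IsLocalRing.maximalIdeal O) (e : MonoidAlgebra O G) (he : e * e = e)
    (hec : ∀ a, a * e = e * a) (her : inv' e = e) (S : SimpleQuot (toK O G e)) {x w : G}
    (hx : IsDefectClass O e x) (hw : IsDefectClass O e w) (hwr : IsConj w w⁻¹)
    {D E D' E' : Subgroup G} (h : IsDefectPair x D E) (h' : IsDefectPair w D' E') :
    Nat.card D ≤ Nat.card D' ∧ Nat.card E ≤ Nat.card E' := by
  haveI : CharP (resK O) 2 := resK_charP O h2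
  have hkc : ∀ a, a * toK O G e = toK O G e * a := fun a => by
    obtain ⟨y', rfl⟩ := toK_surjective O a
    rw [← map_mul, ← map_mul, hec]
  have hnil : ¬ IsNilpotent (classSum (resK O) w * toK O G e) := by
    have h1 := hw.2.2
    rwa [map_mul, classSum_toK] at h1
  obtain ⟨z, hz, hzi, hzw⟩ := exists_symm_inv (toK O G e) (by rw [← map_mul, he]) hkc
    (by rw [← toK_inv', her]) S w hwr hnil
  obtain ⟨hE, hP, hidx⟩ := pair_basic h
  obtain ⟨c, hc, hPc⟩ := ud z hzi D E hE h.1 hidx (fun t _ => hz _) x w (hz _) hP hwr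
    (by rw [hzw, toK_apply]; exact hx.2.1)
  obtain ⟨g, hg⟩ := isConj_iff.1 hc
  have h3 := pairIn_conj hPc g⁻¹
  have h4 : g⁻¹ * c * g⁻¹⁻¹ = w := by rw [← hg]; group
  rw [h4] at h3
  have hinj : Function.Injective (MulAut.conj g⁻¹).toMonoidHom := (MulAut.conj g⁻¹).injective
  have h5 := pair_le h' (hE.map _) (Subgroup.map_mono h.1) h3
  rw [Nat.card_congr (D.equivMapOfInjective _ hinj).toEquiv,
    Nat.card_congr (E.equivMapOfInjective _ hinj).toEquiv]
  exact h5

end Pool.Agent.Helper44.S3
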