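import Pool.Agent.Helper44.S3.Defs2
import Pool.Agent.Helper44.S3.RA

set_option autoImplicit false
open scoped BigOperators MonoidAlgebra
open Classical

namespace Pool.Agent.Helper44.S3

open Pool.Agent.Helper36.NB

/-- RD (hint). `e.coeff s = ∑_{r ∈ R} (e h)(r⁻¹ s r)`, so `∑_{s ∈ C(u)} e(s) = ∑_r ∑_{s ∈ C(r⁻¹ u r)} (e h)(s)`. The
terms with `r⁻¹ u r ∉ G1` vanish by `hvan`; for `v = r⁻¹ u r ∈ G1` (the support of `e h` is in `G1`) the inner sum is
given by `h1 v`: `|G1| * inner = n1 #{g ∈ G1 | g⁻¹ v g ∈ E1 ∖ D1}`. Summing (`trans_sum`, `g = r s`):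
`|G1| ∑_{s ∈ C(u)} e(s) = n1 #{g ∈ G | g⁻¹ u g ∈ E1 ∖ D1}`, and `g ↦ g g0⁻¹`-type bijection from `hconj`;
multiply by `|G : G1|`. -/
theorem orb_transfer {O : ValuationSubring ℂ} {G : Type} [Group G] [Fintype G]
    {G1 : Subgroup G} {h : MonoidAlgebra O G} (hI : Impr G1 h) {e : MonoidAlgebra O G}
    (hec : ∀ a, a * e = e * a) {R : Finset G} (hR : IsTrans G1 R)
    (hsum : e = ∑ r ∈ R, cj r (e * h)) {n n1 : ℕ} (hn : n = G1.index * n1)
    {D E : Subgroup G} {D1 E1 : Subgroup G1}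
    (hconj : ∃ g : G, (∀ t, t ∈ D ↔ g * t * g⁻¹ ∈ D1.map G1.subtype) ∧
      ∀ t, t ∈ E ↔ g * t * g⁻¹ ∈ E1.map G1.subtype)
    (h1 : ∀ u : G1, u * u = 1 → Orb O (res G1 (e * h)) n1 D1 E1 u) (u : G) (hu : u * u = 1)
    (hvan : ∀ v, v * v = 1 → v ∉ G1 → ∑ s ∈ cset v, ((e * h).coeff s : ℂ) = 0) :
    Orb O e n D E u := by
  obtain ⟨f, hf⟩ : ∃ f, f = e * h := ⟨_, rfl⟩
  have hsupp : ∀ g, g ∉ G1 → f.coeff g = 0 := by
    rw [hf]
    exact fr_supp hI hec
  rw [← hf] at hsum h1 hvan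
  have hcoef : ∀ s, (e.coeff s : ℂ) = ∑ r ∈ R, (f.coeff (r⁻¹ * s * r) : ℂ) := by
    intro s
    have h2 : e.coeff s = ∑ r ∈ R, f.coeff (r⁻¹ * s * r) := by
      have h3 := congrArg (fun x => x.coeff s) hsum
      simp only [MonoidAlgebra.coeff_sum, Finsupp.finsetSum_apply, cj_coeff] at h3
      exact h3
    rw [h2]
    push_cast
    rfl
  have hA : ∑ s ∈ Finset.univ.filter (fun s : G => s * u = u * s), (e.coeff s : ℂ) =
      ∑ r ∈ R, ∑ s ∈ cset (r⁻¹ * u * r), (f.coeff s : ℂ) := by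
    rw [Finset.sum_congr rfl fun s _ => hcoef s, Finset.sum_comm]
    refine Finset.sum_congr rfl fun r _ => ?_
    refine Finset.sum_nbij' (fun s => r⁻¹ * s * r) (fun s => r * s * r⁻¹) ?_ ?_ ?_ ?_ ?_
    · intro s hs
      have hs' : s * u = u * s := (Finset.mem_filter.1 hs).2
      refine Finset.mem_filter.2 ⟨Finset.mem_univ _, ?_⟩
      calc r⁻¹ * s * r * (r⁻¹ * u * r) = r⁻¹ * (s * u) * r := by group
        _ = r⁻¹ * (u * s) * r := by rw [hs']
        _ = r⁻¹ * u * r * (r⁻¹ * s * r) := by group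
    · intro s hs
      have hs' : s * (r⁻¹ * u * r) = r⁻¹ * u * r * s := (Finset.mem_filter.1 hs).2
      refine Finset.mem_filter.2 ⟨Finset.mem_univ _, ?_⟩
      calc r * s * r⁻¹ * u = r * (s * (r⁻¹ * u * r)) * r⁻¹ := by group
        _ = r * (r⁻¹ * u * r * s) * r⁻¹ := by rw [hs']
        _ = u * (r * s * r⁻¹) := by group
    · intro s _
      group
    · intro s _
      group
    · intro s _
      rfl
  have hkey : ∀ r ∈ R, (Nat.card G1 : ℂ) * ∑ s ∈ cset (r⁻¹ * u * r), (f.coeff s : ℂ) =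
      n1 * ∑ s ∈ Finset.univ.filter (fun s : G => s ∈ G1),
        (if ((r * s)⁻¹ * u * (r * s) ∈ E1.map G1.subtype ∧
          (r * s)⁻¹ * u * (r * s) ∉ D1.map G1.subtype) then (1 : ℂ) else 0) := by
    intro r hr
    have hvv : (r⁻¹ * u * r) * (r⁻¹ * u * r) = 1 := by
      calc (r⁻¹ * u * r) * (r⁻¹ * u * r) = r⁻¹ * (u * u) * r := by group
        _ = 1 := by rw [hu]; group
    by_cases hv : r⁻¹ * u * r ∈ G1
    · have h2 := h1 ⟨_, hv⟩ (Subtype.ext hvv)
      unfold Orb at h2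
      have h3 : ∑ s ∈ cset (r⁻¹ * u * r), (f.coeff s : ℂ) =
          ∑ s ∈ Finset.univ.filter (fun s : G1 => s * ⟨_, hv⟩ = ⟨_, hv⟩ * s),
            ((res G1 f).coeff s : ℂ) := by
        have h4 : ∑ s ∈ cset (r⁻¹ * u * r), (f.coeff s : ℂ) =
            ∑ s ∈ (cset (r⁻¹ * u * r)).filter (fun s => s ∈ G1), (f.coeff s : ℂ) := by
          symm
          apply Finset.sum_filter_of_ne
          intro s _ hne
          by_contra hs
          apply hne
          rw [hsupp s hs]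
          rfl
        rw [h4]
        symm
        refine Finset.sum_nbij (fun s : G1 => (s : G)) ?_ ?_ ?_ ?_
        · intro s hs
          have hs' := (Finset.mem_filter.1 hs).2
          refine Finset.mem_filter.2 ⟨Finset.mem_filter.2 ⟨Finset.mem_univ _, ?_⟩, s.2⟩
          exact congrArg Subtype.val hs'
        · intro s _ s' _ hss
          exact Subtype.ext hss
        · intro s hs
          have hs1 := (Finset.mem_filter.1 (Finset.mem_coe.1 hs))
          have hs2 := (Finset.mem_filter.1 hs1.1).2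
          refine ⟨⟨s, hs1.2⟩, ?_, rfl⟩
          refine Finset.mem_coe.2 (Finset.mem_filter.2 ⟨Finset.mem_univ _, ?_⟩)
          exact Subtype.ext hs2
        · intro s _
          rw [res_coeff]
      have h5 : (Nat.card {g : G1 // g⁻¹ * ⟨_, hv⟩ * g ∈ E1 ∧ g⁻¹ * ⟨_, hv⟩ * g ∉ D1} : ℂ) =
          ∑ s ∈ Finset.univ.filter (fun s : G => s ∈ G1),
            (if ((r * s)⁻¹ * u * (r * s) ∈ E1.map G1.subtype ∧
              (r * s)⁻¹ * u * (r * s) ∉ D1.map G1.subtype) then (1 : ℂ) else 0) := by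
        rw [Finset.sum_boole]
        norm_cast
        rw [← Nat.card_eq_finsetCard]
        have hmem : ∀ (K : Subgroup G1) (g : G1),
            (r * (g : G))⁻¹ * u * (r * (g : G)) ∈ K.map G1.subtype ↔
              g⁻¹ * ⟨r⁻¹ * u * r, hv⟩ * g ∈ K := by
          intro K g
          have h6 : (r * (g : G))⁻¹ * u * (r * (g : G)) =
              G1.subtype (g⁻¹ * ⟨r⁻¹ * u * r, hv⟩ * g) := by
            change _ = (g : G)⁻¹ * (r⁻¹ * u * r) * (g : G)
            group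
          rw [h6, Subgroup.mem_map_iff_mem Subtype.val_injective]
        refine Nat.card_congr
          { toFun := fun g => ⟨(g.1 : G), ?_⟩
            invFun := fun s => ⟨⟨s.1, ?_⟩, ?_⟩
            left_inv := fun g => rfl
            right_inv := fun s => rfl }
        · refine Finset.mem_filter.2 ⟨Finset.mem_filter.2 ⟨Finset.mem_univ _, g.1.2⟩, ?_⟩
          rw [hmem, hmem]
          exact g.2
        · exact (Finset.mem_filter.1 (Finset.mem_filter.1 s.2).1).2
        · have h7 := (Finset.mem_filter.1 s.2).2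
          have h8 := (Finset.mem_filter.1 (Finset.mem_filter.1 s.2).1).2
          have h9 := hmem E1 ⟨s.1, h8⟩
          have h10 := hmem D1 ⟨s.1, h8⟩
          exact ⟨h9.1 h7.1, fun h11 => h7.2 (h10.2 h11)⟩
      rw [h3, ← h5]
      convert h2
    · rw [hvan _ hvv hv, mul_zero]
      symm
      rw [Finset.sum_eq_zero, mul_zero]
      intro s hs
      have hs' : s ∈ G1 := (Finset.mem_filter.1 hs).2
      rw [if_neg]
      rintro ⟨h2, _⟩
      apply hv
      obtain ⟨y, _, hy⟩ := Subgroup.mem_map.1 h2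
      have h3 : (r * s)⁻¹ * u * (r * s) ∈ G1 := by
        rw [← hy]
        exact y.2
      have h4 := G1.mul_mem (G1.mul_mem hs' h3) (G1.inv_mem hs')
      have h5 : s * ((r * s)⁻¹ * u * (r * s)) * s⁻¹ = r⁻¹ * u * r := by group
      rwa [h5] at h4
  have hcount : (Nat.card {g : G // g⁻¹ * u * g ∈ E ∧ g⁻¹ * u * g ∉ D} : ℂ) =
      ∑ g : G, (if (g⁻¹ * u * g ∈ E1.map G1.subtype ∧ g⁻¹ * u * g ∉ D1.map G1.subtype)
        then (1 : ℂ) else 0) := by
    obtain ⟨g0, hD, hE⟩ := hconj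
    rw [Finset.sum_boole]
    norm_cast
    rw [← Nat.card_eq_finsetCard]
    have hEq : ∀ g : G, g0 * (g⁻¹ * u * g) * g0⁻¹ = (g * g0⁻¹)⁻¹ * u * (g * g0⁻¹) := by
      intro g
      group
    refine Nat.card_congr (Equiv.subtypeEquiv (Equiv.mulRight g0⁻¹) ?_)
    intro g
    rw [Finset.mem_filter, Equiv.coe_mulRight, hD, hE, hEq]
    simp
  have hG : (Nat.card G : ℂ) = (G1.index : ℂ) * (Nat.card G1 : ℂ) := by
    have h2 := G1.index_mul_card
    rw [← h2]
    push_cast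
    rfl
  unfold Orb
  rw [hA, hcount, trans_sum hR, hG, mul_assoc, Finset.mul_sum, Finset.sum_congr rfl hkey,
    ← Finset.mul_sum, hn]
  push_cast
  ring

end Pool.Agent.Helper44.S3
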