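import Pool.Agent.Helper44.S3.Defs2
import Pool.Agent.Helper44.S3.NA
import Pool.Agent.Helper36.NB.A2
import Pool.Agent.Helper36.NB.C1
import Pool.Agent.Helper36.NB.F2

set_option autoImplicit false
open scoped BigOperators MonoidAlgebra
open Classical

namespace Pool.Agent.Helper44.S3

open Pool.Agent.Helper36.NB

namespace NCaux

section
variable {O : ValuationSubring ℂ} {H : Type} [Group H]

theorem toK_smul (c : O) (x : MonoidAlgebra O H) :
    toK O H (c • x) = IsLocalRing.residue O c • toK O H x := by
  ext g
  simp [toK]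

/-- Lifts of linearly independent elements are linearly independent. -/
theorem li_lift {ι : Type} [Fintype ι] (v : ι → MonoidAlgebra O H)
    (h : LinearIndependent (resK O) (fun j => toK O H (v j))) :
    LinearIndependent ℂ (fun j => toC O H (v j)) := by
  rw [Fintype.linearIndependent_iff] at h ⊢
  intro g hg
  by_contra hcon
  push Not at hcon
  obtain ⟨j1, hj1⟩ := hcon
  obtain ⟨j0, -, hj0⟩ := Finset.exists_max_image Finset.univ (fun j => O.valuation (g j))
    ⟨j1, Finset.mem_univ _⟩
  have h0 : g j0 ≠ 0 := by
    intro h0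
    have h3 := hj0 j1 (Finset.mem_univ _)
    rw [h0, map_zero] at h3
    have h4 := le_antisymm h3 zero_le
    rw [map_eq_zero] at h4
    exact hj1 h4
  have hmem : ∀ j, g j / g j0 ∈ O := by
    intro j
    rw [← O.valuation_le_one_iff, map_div₀]
    exact div_le_one_of_le₀ (hj0 j (Finset.mem_univ _)) zero_le
  let c : ι → O := fun j => ⟨g j / g j0, hmem j⟩
  have hc : ∑ j, c j • v j = 0 := by
    apply toC_injective O
    rw [map_sum, map_zero]
    simp only [toC_smul]
    have h5 : ∑ j, ((c j : O) : ℂ) • toC O H (v j) =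
        (g j0)⁻¹ • ∑ j, g j • toC O H (v j) := by
      rw [Finset.smul_sum]
      refine Finset.sum_congr rfl fun j _ => ?_
      rw [smul_smul]
      congr 1
      change g j / g j0 = _
      rw [div_eq_mul_inv, mul_comm]
    rw [h5, hg, smul_zero]
  have hk := congrArg (toK O H) hc
  rw [map_sum, map_zero] at hk
  simp only [toK_smul] at hk
  have h6 := h (fun j => IsLocalRing.residue O (c j)) hk j0
  have h7 : c j0 = 1 := by
    apply Subtype.ext
    change g j0 / g j0 = 1
    exact div_self h0
  rw [h7, map_one] at h6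
  exact one_ne_zero h6

/-- Central elements lift. -/
theorem central_lift [Finite H] (z : MonoidAlgebra (resK O) H) (hz : ∀ y, y * z = z * y) :
    ∃ w : MonoidAlgebra O H, toK O H w = z ∧ ∀ h, el O h * w = w * el O h := by
  have hs : Function.Surjective (IsLocalRing.residue O) := IsLocalRing.residue_surjective
  refine ⟨MonoidAlgebra.ofCoeff (Finsupp.equivFunOnFinite.symm
    (fun g => Function.surjInv hs (z.coeff g))), ?_, ?_⟩
  · ext g
    rw [toK_apply]
    exact Function.surjInv_eq hs (z.coeff g)
  · intro h
    ext g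
    rw [el_mul_coeff, mul_el_coeff]
    have h1 : z.coeff (h⁻¹ * g) = z.coeff (g * h⁻¹) := by
      rw [← el_mul_coeff, ← mul_el_coeff, hz]
    change ((Function.surjInv hs (z.coeff (h⁻¹ * g)) : O) : ℂ) =
      ((Function.surjInv hs (z.coeff (g * h⁻¹)) : O) : ℂ)
    rw [h1]

theorem scal {K : Type} [Field K] {n : ℕ} (X : Matrix (Fin n) (Fin n) K)
    (hc : ∀ M, M * X = X * M) (hX : X * X = X) (h0 : X ≠ 0) : X = 1 := by
  have hcom : ∀ i j, Commute (Matrix.single i j (1 : K)) X := fun i j => hc _
  obtain ⟨c, hc'⟩ := Matrix.mem_range_scalar_iff_commute_single'.mpr hcom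
  have h1 : X = c • (1 : Matrix (Fin n) (Fin n) K) := by
    rw [← hc']
    ext i j
    simp [Matrix.scalar_apply, Matrix.one_apply, Matrix.diagonal_apply]
  have h2 : (c * c - c) • (1 : Matrix (Fin n) (Fin n) K) = 0 := by
    have h3 := hX
    rw [h1, smul_mul_smul_comm, mul_one] at h3
    rw [sub_smul, h3, sub_self]
  have h1n : (1 : Matrix (Fin n) (Fin n) K) ≠ 0 := by
    intro h4
    rw [h4, smul_zero] at h1
    exact h0 h1
  rcases smul_eq_zero.mp h2 with h3 | h3
  · have h4 : c * (c - 1) = 0 := by rw [← h3]; ring
    rcases mul_eq_zero.mp h4 with h5 | h5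
    · rw [h5, zero_smul] at h1
      exact absurd h1 h0
    · rw [sub_eq_zero.mp h5, one_smul] at h1
      exact h1
  · exact absurd h3 h1n

theorem dims [Finite H] {K : Type} [Field K] {n : ℕ} (m : Fin n → ℕ)
    (E : MonoidAlgebra K H ≃ₐ[K] (∀ i, Matrix (Fin (m i)) (Fin (m i)) K)) :
    ∑ i, m i * m i = Nat.card H := by
  have := Fintype.ofFinite H
  have h1 := E.toLinearEquiv.finrank_eq
  rw [Module.finrank_eq_card_basis (MonoidAlgebra.basis H K), Module.finrank_pi_fintype] at h1
  rw [Nat.card_eq_fintype_card, h1]
  refine Finset.sum_congr rfl fun i _ => ?_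
  rw [Module.finrank_matrix]
  simp

theorem core [Finite H] (h2 : (2 : O) ∈ IsLocalRing.maximalIdeal O) (hodd : Odd (Nat.card H))
    (I : IrrData H) (F : Fin I.r → MonoidAlgebra O H) (hF : ∀ b, toC O H (F b) = E0aux.e I b)
    (hcen : ∀ b z, (∀ h, el O h * z = z * el O h) → ∃ c : O, z * F b = c • F b)
    (b : Fin I.r) : ∃ φ : Mt (resK O) (I.d b) →ₗ[resK O] MonoidAlgebra (resK O) H,
      (∀ x y, φ (x * y) = φ x * φ y) ∧ φ 1 = toK O H (F b) ∧ Function.Injective φ ∧
        ∀ y, ∃ x, φ x = y * toK O H (F b) := by
  have := Fintype.ofFinite H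
  have hchar := resK_charP O h2
  have hac := resK_isAlgClosed O
  have hne : NeZero (Nat.card H : resK O) := ⟨by
    rw [Ne, CharP.cast_eq_zero_iff (resK O) 2, ← even_iff_two_dvd, Nat.not_even_iff_odd]
    exact hodd⟩
  have hss : IsSemisimpleRing (MonoidAlgebra (resK O) H) := inferInstance
  have hfd : FiniteDimensional (resK O) (MonoidAlgebra (resK O) H) :=
    Module.Finite.of_basis (MonoidAlgebra.basis H (resK O))
  obtain ⟨n, m, hm, ⟨E⟩⟩ :=
    IsSemisimpleRing.exists_algEquiv_pi_matrix_of_isAlgClosed (resK O) (MonoidAlgebra (resK O) H)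
  -- properties of F
  have hFF : ∀ b, F b * F b = F b := by
    intro b
    apply toC_injective O
    rw [map_mul, hF, E0aux.e_mul_e]
  have hFo : ∀ b b', b ≠ b' → F b * F b' = 0 := by
    intro b b' hbb
    apply toC_injective O
    rw [map_mul, hF, hF, map_zero]
    apply I.equiv.injective
    rw [map_mul, E0aux.equiv_e, E0aux.equiv_e, map_zero]
    funext c
    rw [Pi.mul_apply, Pi.zero_apply]
    by_cases hc : c = b
    · have hc' : c ≠ b' := fun h => hbb (hc.symm.trans h)
      rw [Pi.single_eq_of_ne hc', mul_zero]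
    · rw [Pi.single_eq_of_ne hc, zero_mul]
  have hFs : ∑ b, F b = 1 := by
    apply toC_injective O
    rw [map_sum, map_one]
    apply I.equiv.injective
    rw [map_sum, map_one]
    simp only [hF, E0aux.equiv_e]
    funext c
    rw [Finset.sum_apply, Finset.sum_eq_single c]
    · rw [Pi.single_eq_same, Pi.one_apply]
    · intro b _ hb
      rw [Pi.single_eq_of_ne hb.symm]
    · intro h
      exact absurd (Finset.mem_univ _) h
  have hF0 : ∀ b, F b ≠ 0 := by
    intro b h0
    have h1 := hF b
    rw [h0, map_zero] at h1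
    have h3 := congrArg (fun z => I.equiv z b) h1
    simp only [E0aux.equiv_e, Pi.single_eq_same, map_zero, Pi.zero_apply] at h3
    have : NeZero (I.d b) := ⟨(I.pos b).ne'⟩
    exact one_ne_zero h3.symm
  have hFc : ∀ b a, a * F b = F b * a := by
    intro b a
    apply toC_injective O
    rw [map_mul, map_mul, hF, E0aux.e_central]
  -- properties of f
  have hff : ∀ b, toK O H (F b) * toK O H (F b) = toK O H (F b) := by
    intro b
    rw [← map_mul, hFF]
  have hf0 : ∀ b, toK O H (F b) ≠ 0 := fun b h => hF0 b (idem_eq_zero O (hFF b) h)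
  have hfc : ∀ b a, a * toK O H (F b) = toK O H (F b) * a := fun b a =>
    C1aux.central_toK O (hFc b) a
  have hfs : ∑ b, toK O H (F b) = 1 := by rw [← map_sum, hFs, map_one]
  -- the components
  have key : ∀ b i, ∃ c : resK O,
      (Pi.single i 1 : ∀ i, Matrix (Fin (m i)) (Fin (m i)) (resK O)) * E (toK O H (F b)) =
        c • E (toK O H (F b)) := by
    intro b i
    obtain ⟨w, hw, hwc⟩ := central_lift (O := O) (E.symm (Pi.single i 1)) (by
      intro y
      apply E.injective
      rw [map_mul, map_mul, AlgEquiv.apply_symm_apply]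
      funext j
      rw [Pi.mul_apply, Pi.mul_apply]
      by_cases hj : j = i
      · subst hj
        rw [Pi.single_eq_same, one_mul, mul_one]
      · rw [Pi.single_eq_of_ne hj, zero_mul, mul_zero])
    obtain ⟨c, hc⟩ := hcen b w hwc
    refine ⟨IsLocalRing.residue O c, ?_⟩
    have h3 := congrArg (fun z => E (toK O H z)) hc
    simp only [toK_smul, map_mul, map_smul, hw, AlgEquiv.apply_symm_apply] at h3
    exact h3
  have hsig : ∀ b, ∃ i, E (toK O H (F b)) = Pi.single i 1 := by
    intro b
    have hE0 : E (toK O H (F b)) ≠ 0 := by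
      rw [Ne, EmbeddingLike.map_eq_zero_iff]
      exact hf0 b
    obtain ⟨i, hi⟩ := Function.ne_iff.mp hE0
    rw [Pi.zero_apply] at hi
    obtain ⟨c, hc⟩ := key b i
    have hci := congrFun hc i
    rw [Pi.mul_apply, Pi.single_eq_same, one_mul, Pi.smul_apply] at hci
    have hc1 : c = 1 := by
      have h5 : (1 - c) • E (toK O H (F b)) i = 0 := by
        rw [sub_smul, one_smul, ← hci, sub_self]
      rcases smul_eq_zero.mp h5 with h | h
      · exact (sub_eq_zero.mp h).symm
      · exact absurd h hi
    refine ⟨i, ?_⟩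
    have hone : E (toK O H (F b)) i = 1 := by
      apply scal _ _ _ hi
      · intro M
        have h6 := congrFun (congrArg E (hfc b (E.symm (Pi.single i M)))) i
        rw [map_mul, map_mul, AlgEquiv.apply_symm_apply, Pi.mul_apply, Pi.mul_apply,
          Pi.single_eq_same] at h6
        exact h6
      · rw [← Pi.mul_apply, ← map_mul, hff]
    rw [hc1, one_smul] at hc
    rw [← hc]
    funext j
    rw [Pi.mul_apply]
    by_cases hj : j = i
    · subst hj
      rw [Pi.single_eq_same, one_mul, hone]
    · rw [Pi.single_eq_of_ne hj, zero_mul]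
  choose σ hσ using hsig
  have hinj : Function.Injective σ := by
    intro b b' hbb
    by_contra hne'
    have h3 : toK O H (F b) = toK O H (F b') := E.injective (by rw [hσ, hσ, hbb])
    apply hf0 b
    rw [← hff b]
    conv_lhs => rw [h3]
    rw [← h3]
    conv_lhs => arg 2; rw [h3]
    rw [← map_mul, hFo b b' hne', map_zero]
  have hsurj : Function.Surjective σ := by
    intro i
    by_contra hcon
    push Not at hcon
    have h3 := congrFun (congrArg E hfs) i
    rw [map_sum, map_one, Finset.sum_apply, Pi.one_apply, Finset.sum_eq_zero] at h3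
    · have := hm i
      exact one_ne_zero h3.symm
    · intro b _
      rw [hσ, Pi.single_eq_of_ne (hcon b).symm]
  have hle : ∀ b, m (σ b) * m (σ b) ≤ I.d b * I.d b := by
    intro b
    let M := Matrix.stdBasis (resK O) (Fin (m (σ b))) (Fin (m (σ b)))
    let L : Matrix (Fin (m (σ b))) (Fin (m (σ b))) (resK O) →ₗ[resK O] MonoidAlgebra (resK O) H :=
      E.symm.toLinearMap ∘ₗ LinearMap.single (resK O)
        (fun i => Matrix (Fin (m i)) (Fin (m i)) (resK O)) (σ b)
    have hLinj : Function.Injective L := by
      intro x y hxy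
      have h3 : E.symm (Pi.single (σ b) x) = E.symm (Pi.single (σ b) y) := hxy
      have h4 := congrFun (E.symm.injective h3) (σ b)
      rw [Pi.single_eq_same, Pi.single_eq_same] at h4
      exact h4
    have hli : LinearIndependent (resK O) (fun p => L (M p)) :=
      M.linearIndependent.map' L (LinearMap.ker_eq_bot.mpr hLinj)
    have hex : ∀ p, ∃ v : MonoidAlgebra O H, toK O H v = L (M p) ∧ v * F b = v := by
      intro p
      obtain ⟨v, hv⟩ := toK_surjective O (L (M p))
      refine ⟨v * F b, ?_, ?_⟩
      · rw [map_mul, hv]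
        apply E.injective
        rw [map_mul, hσ]
        change E (E.symm (Pi.single (σ b) (M p))) * _ = E (E.symm (Pi.single (σ b) (M p)))
        rw [AlgEquiv.apply_symm_apply]
        funext j
        rw [Pi.mul_apply]
        by_cases hj : j = σ b
        · subst hj
          rw [Pi.single_eq_same, Pi.single_eq_same, mul_one]
        · rw [Pi.single_eq_of_ne hj, zero_mul]
      · rw [mul_assoc, hFF]
    choose v hv hvF using hex
    have hliC : LinearIndependent ℂ (fun p => toC O H (v p)) := by
      apply li_lift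
      simp only [hv]
      exact hli
    let P : MonoidAlgebra ℂ H →ₗ[ℂ] Matrix (Fin (I.d b)) (Fin (I.d b)) ℂ :=
      LinearMap.proj b ∘ₗ I.equiv.toLinearMap
    have hspan : ∀ x ∈ Submodule.span ℂ (Set.range fun p => toC O H (v p)),
        x * E0aux.e I b = x := by
      intro x hx
      induction hx using Submodule.span_induction with
      | mem x hx =>
        obtain ⟨p, rfl⟩ := hx
        change toC O H (v p) * E0aux.e I b = toC O H (v p)
        rw [← hF, ← map_mul, hvF]
      | zero => rw [zero_mul]
      | add x y _ _ hx hy => rw [add_mul, hx, hy]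
      | smul c x _ hx => rw [smul_mul_assoc, hx]
    have hliP : LinearIndependent ℂ (P ∘ fun p => toC O H (v p)) := by
      apply hliC.map
      rw [Submodule.disjoint_def]
      intro x hx hxk
      have h3 : I.equiv x b = 0 := hxk
      apply I.equiv.injective
      rw [map_zero, ← hspan x hx, map_mul, E0aux.equiv_e]
      funext c
      rw [Pi.mul_apply, Pi.zero_apply]
      by_cases hc : c = b
      · subst hc
        rw [h3, zero_mul]
      · rw [Pi.single_eq_of_ne hc, mul_zero]
    have h4 := hliP.fintype_card_le_finrank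
    rw [Module.finrank_matrix] at h4
    simpa using h4
  have hsum : ∑ b, m (σ b) * m (σ b) = ∑ b, I.d b * I.d b := by
    rw [dims I.d I.equiv, ← dims m E]
    exact (Equiv.ofBijective σ ⟨hinj, hsurj⟩).sum_comp (fun i => m i * m i)
  have heq : ∀ b, m (σ b) = I.d b := by
    intro b
    have h3 := (Finset.sum_eq_sum_iff_of_le (fun b _ => hle b)).mp hsum b (Finset.mem_univ b)
    exact Nat.mul_self_inj.mp h3
  rw [← heq b]
  refine ⟨E.symm.toLinearMap ∘ₗ LinearMap.single (resK O)
        (fun i => Matrix (Fin (m i)) (Fin (m i)) (resK O)) (σ b), ?_, ?_, ?_, ?_⟩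
  · intro x y
    change E.symm (Pi.single (σ b) (x * y)) = E.symm (Pi.single (σ b) x) * E.symm (Pi.single (σ b) y)
    rw [Pi.single_mul, map_mul]
  · change E.symm (Pi.single (σ b) 1) = _
    rw [← hσ, AlgEquiv.symm_apply_apply]
  · intro x y hxy
    have h3 : E.symm (Pi.single (σ b) x) = E.symm (Pi.single (σ b) y) := hxy
    have h4 := congrFun (E.symm.injective h3) (σ b)
    rw [Pi.single_eq_same, Pi.single_eq_same] at h4
    exact h4
  · intro y
    refine ⟨E y (σ b), ?_⟩
    change E.symm (Pi.single (σ b) (E y (σ b))) = _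
    apply E.injective
    rw [AlgEquiv.apply_symm_apply, map_mul, hσ]
    funext j
    rw [Pi.mul_apply]
    by_cases hj : j = σ b
    · subst hj
      rw [Pi.single_eq_same, Pi.single_eq_same, mul_one]
    · rw [Pi.single_eq_of_ne hj, Pi.single_eq_of_ne hj, mul_zero]

end

end NCaux

variable {O : ValuationSubring ℂ} {G : Type} [Group G] [Finite G] {N : Subgroup G}
  (B : OddBlocks O N)

/-- NC (hint). Let `k = resK O` (algebraically closed of characteristic 2: `resK_isAlgClosed`, `resK_charP`). The
algebra `k[N]` is semisimple (`|N|` is odd, Maschke). `A_b = k[N] f_b`, `f_b = toK (F b)`, has centre `k f_b`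
(central elements of `k[N]` lift to central elements of `O[N]`: they are combinations of class sums; `F_central`), so
it is a full matrix algebra of some size `m_b` (`m_b > 0`: `f_b ≠ 0` by `idem_eq_zero`;
`IsSimpleRing.exists_algEquiv_matrix_of_isAlgClosed`, or first decompose `k[N]` with
`IsSemisimpleRing.exists_algEquiv_pi_matrix_of_isAlgClosed`). Dimensions: linearly independent elements of `A_b`
lift to linearly independent elements of `O[N] F_b`, so `m_b² ≤ d_b²`; and `∑ m_b² = |N| = ∑ d_b²`. -/
theorem exists_nblk (h2 : (2 : O) ∈ IsLocalRing.maximalIdeal O) (hN : Odd (Nat.card N))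
    (b : Fin B.I.r) : Nonempty (NBlk N (toK O G (B.F b)) (B.I.d b)) := by
  have hir : ∀ b, incl O N (res N (B.F b)) = B.F b := fun b =>
    incl_res N (fun g hg => F_supp B b hg)
  obtain ⟨φ, hmul, hone, hinj, hsurj⟩ := NCaux.core h2 hN B.I (fun b => res N (B.F b)) (by
      intro b
      apply incl_injective (R := ℂ) N
      rw [← toC_incl, hir, B.toC_F]) (by
      intro b z hz
      obtain ⟨c, hc⟩ := F_central B b (incl O N z) (fun g hg => incl_supp N z hg) (by
        intro h hh
        have h3 := congrArg (incl O N) (hz ⟨h, hh⟩)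
        rw [map_mul, map_mul, incl_el] at h3
        exact h3)
      refine ⟨c, ?_⟩
      apply incl_injective (R := O) N
      rw [map_mul, hir, hc]
      conv_lhs => rw [← hir b]
      ext g
      by_cases hg : g ∈ N
      · rw [MonoidAlgebra.coeff_smul_apply]
        have h4 := incl_coeff N (res N (B.F b)) ⟨g, hg⟩
        have h5 := incl_coeff N (c • res N (B.F b)) ⟨g, hg⟩
        rw [h4, h5, MonoidAlgebra.coeff_smul_apply]
      · rw [MonoidAlgebra.coeff_smul_apply, incl_supp N _ hg, incl_supp N _ hg, smul_zero]) b
  refine ⟨{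
    φ := { toFun := fun x => incl (resK O) N (φ x)
           map_add' := fun x y => by rw [map_add, map_add]
           map_smul' := fun c x => by
            rw [map_smul]
            ext g
            rw [RingHom.id_apply, MonoidAlgebra.coeff_smul_apply]
            by_cases hg : g ∈ N
            · have h4 := incl_coeff N (φ x) ⟨g, hg⟩
              have h5 := incl_coeff N (c • φ x) ⟨g, hg⟩
              rw [h4, h5, MonoidAlgebra.coeff_smul_apply]
            · rw [incl_supp N _ hg, incl_supp N _ hg, smul_zero] }
    mul := fun x y => by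
      change incl (resK O) N (φ (x * y)) = incl (resK O) N (φ x) * incl (resK O) N (φ y)
      rw [hmul, map_mul]
    one := by
      change incl (resK O) N (φ 1) = _
      rw [hone, ← toK_incl, hir]
    inj := fun x y hxy => hinj (incl_injective (R := resK O) N hxy)
    supp := fun x g hg => incl_supp N (φ x) hg
    surj := fun h hh => by
      obtain ⟨x, hx⟩ := hsurj (el (resK O) ⟨h, hh⟩)
      refine ⟨x, ?_⟩
      change incl (resK O) N (φ x) = _
      rw [hx, map_mul, incl_el, ← toK_incl, hir] }⟩

end Pool.Agent.Helper44.S3
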