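import Pool.Agent.Helper44.S3.LA

set_option autoImplicit false
open scoped BigOperators MonoidAlgebra
open Classical

namespace Pool.Agent.Helper44.S3

open Pool.Agent.Helper36.NB

/-- Dedekind's independence of characters, in a form relative to a subspace. -/
private theorem ccDedekind {k V N Q : Type} [Field k] [AddCommGroup V] [Module k V] [Group N]
    [Fintype Q] (W : Submodule k V) (χ : Q → (N →* k)) (hχ : Function.Injective χ) (v : Q → V)
    (h : ∀ m : N, ∑ q, χ q m • v q ∈ W) (q : Q) : v q ∈ W := by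
  by_contra hv
  obtain ⟨f, hf, hW⟩ := Submodule.exists_le_ker_of_notMem hv
  have hli : LinearIndependent k (fun q : Q => ((χ q : N →* k) : N → k)) :=
    (linearIndependent_monoidHom N k).comp χ hχ
  have h2 : ∑ q, f (v q) • ((χ q : N →* k) : N → k) = 0 := by
    funext m
    have h3 : f (∑ q, χ q m • v q) = 0 := hW (h m)
    rw [map_sum] at h3
    simp only [Finset.sum_apply, Pi.smul_apply, smul_eq_mul, Pi.zero_apply]
    rw [← h3]
    refine Finset.sum_congr rfl fun q _ => ?_
    rw [map_smul, smul_eq_mul, mul_comm]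
  exact hf (Fintype.linearIndependent_iff.mp hli (fun q => f (v q)) h2 q)

variable {Γ : Type} [Group Γ] [Finite Γ] {T G K H M : Subgroup Γ} {k : Type} [Field k] {n : ℕ}

omit [Finite Γ] in
private theorem ccImplLeft (A : StarAct T G k n) (hK : ∀ g ∈ K, A.Triv g) (hKG : K ≤ G)
    {c g : Γ} (hc : c ∈ K) (hg : g ∈ G) {u : Mt k n} (hu : A.Impl g u) : A.Impl (c * g) u := by
  refine ⟨hu.1, fun a => ?_⟩
  rw [A.mul c (hKG hc) g hg, hK c hc]
  exact hu.2 a

omit [Finite Γ] in
private theorem ccImplRight (A : StarAct T G k n) (hK : ∀ g ∈ K, A.Triv g) (hKG : K ≤ G)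
    {c g : Γ} (hc : c ∈ K) (hg : g ∈ G) {u : Mt k n} (hu : A.Impl g u) : A.Impl (g * c) u := by
  refine ⟨hu.1, fun a => ?_⟩
  rw [A.mul g hg c (hKG hc), hK c hc]
  exact hu.2 a

/-- CC (hint). `A.Z M` is closed under multiplication and contains `1` (`impl_mul`, `impl_one`). For
`m, m' ∈ M` with implementing `u, u'`: `u u' = β u' u`, `β ∈ k` (`m m' m⁻¹ m'⁻¹ ∈ K` is trivial). Choose
representatives `m_i` of the cosets `M / K` (`|M : K|` many) and `u_i`; they span `A.Z M`, and they are
eigenvectors of the conjugations by all `u_j` with pairwise different eigenvalue systems by `Nondeg`, so linearly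
independent: `finrank (A.Z M) * |K| = |M|`. A non-zero two-sided ideal of the algebra `A.Z M` is stable under
these conjugations (finitely many commuting diagonalisable maps; or: take an element with a minimal number of
non-zero coordinates), so contains some `u_i`, a unit. So the algebra is simple,
`IsSimpleRing.exists_algEquiv_matrix_of_isAlgClosed`. -/
theorem nondeg_struct [IsAlgClosed k] (A : StarAct T G k n) {r : ℕ} (hM : Chief T G K M r)
    (hK : ∀ g ∈ K, A.Triv g) (hN : A.Nondeg M K) (hn : 0 < n) :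
    ∃ (a : ℕ) (φ : Mt k a →ₗ[k] Mt k n), (∀ x y, φ (x * y) = φ x * φ y) ∧ φ 1 = 1 ∧
      Function.Injective φ ∧ (∀ z, z ∈ A.Z M ↔ ∃ x, φ x = z) ∧
      a ^ 2 * Nat.card K = Nat.card M := by
  have : NeZero n := ⟨hn.ne'⟩
  have : Nonempty (Fin n) := ⟨0⟩
  have : Nontrivial (Mt k n) := inferInstance
  have hKG : K ≤ G := hM.KM.trans hM.MG
  -- the implementing matrices
  have hex : ∀ m : M, ∃ u : Mt k n, A.Impl (m : Γ) u := fun m =>
    exists_impl A (hM.MG m.2) (hM.MT m.2)
  choose U hU using hex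
  have hUne : ∀ m : M, U m ≠ 0 := fun m h => by
    have := (hU m).1
    rw [h] at this
    exact not_isUnit_zero this
  have hUU : ∀ m m' : M, ∃ c : k, c ≠ 0 ∧ U m * U m' = c • (U m' * U m) := by
    intro m m'
    have h1 : A.Impl ((m : Γ) * m') (U m * U m') := impl_mul A (hM.MG m.2) (hM.MG m'.2) (hU m) (hU m')
    have h2 : A.Impl ((m' : Γ) * m) (U m' * U m) := impl_mul A (hM.MG m'.2) (hM.MG m.2) (hU m') (hU m)
    have h3 : (m : Γ) * m' = ((m : Γ) * m' * (m : Γ)⁻¹ * (m' : Γ)⁻¹) * ((m' : Γ) * m) := by group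
    have h4 : A.Impl ((m : Γ) * m') (U m' * U m) := by
      rw [h3]
      exact ccImplLeft A hK hKG (hM.comm _ m.2 _ m'.2) (G.mul_mem (hM.MG m'.2) (hM.MG m.2)) h2
    obtain ⟨c, hc, hcc⟩ := impl_unique A h4 h1
    exact ⟨c, hc, hcc⟩
  choose β hβ0 hβ using hUU
  -- multiplicativity
  have hβmul : ∀ x m m' : M, β (m * m') x = β m x * β m' x := by
    intro x m m'
    have h1 : A.Impl ((m : Γ) * m') (U m * U m') := impl_mul A (hM.MG m.2) (hM.MG m'.2) (hU m) (hU m')
    obtain ⟨c, hc, hcc⟩ := impl_unique A h1 (hU (m * m'))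
    have h2 := hβ (m * m') x
    rw [hcc] at h2
    have h3 : U m * U m' * U x = (β m x * β m' x) • (U x * (U m * U m')) := by
      rw [mul_assoc, hβ m' x, mul_smul_comm, ← mul_assoc, hβ m x, smul_mul_assoc, smul_smul, mul_comm,
        mul_assoc]
    rw [smul_mul_assoc, h3, mul_smul_comm, smul_smul, smul_smul] at h2
    have hne : U x * (U m * U m') ≠ 0 := by
      have hu : IsUnit (U x * (U m * U m')) := (hU x).1.mul ((hU m).1.mul (hU m').1)
      intro h
      rw [h] at hu
      exact not_isUnit_zero hu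
    have h4 := smul_left_injective k hne h2
    have h5 : c * (β m x * β m' x) = c * β (m * m') x := by rw [h4, mul_comm]
    exact (mul_left_cancel₀ hc h5).symm
  have hβone : ∀ x : M, β 1 x = 1 := by
    intro x
    have h := hβmul x 1 1
    rw [mul_one] at h
    have h0 := hβ0 1 x
    field_simp at h
    exact h.symm
  -- the coset space and representatives
  let L : Subgroup M := K.subgroupOf M
  let Q : Type := M ⧸ L
  let _ : Fintype Q := Fintype.ofFinite Q
  let rep : Q → M := Quotient.out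
  let χ : Q → (M →* k) := fun q =>
    { toFun := fun m => β m (rep q)
      map_one' := hβone _
      map_mul' := fun m m' => hβmul _ m m' }
  have hχ : ∀ (q : Q) (m : M), χ q m = β m (rep q) := fun _ _ => rfl
  have hχinj : Function.Injective χ := by
    intro q q' hqq
    have hb : ∀ m : M, β m (rep q) = β m (rep q') := fun m => by
      rw [← hχ, ← hχ, hqq]
    -- the inverse of U (rep q)
    obtain ⟨w, hw⟩ := (hU (rep q)).1
    have hwi : A.Impl ((rep q : Γ)⁻¹) ((w⁻¹ : (Mt k n)ˣ) : Mt k n) :=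
      impl_inv A (hM.MG (rep q).2) (hU (rep q)) (by rw [← hw, Units.mul_inv])
    have hpi : A.Impl ((rep q : Γ)⁻¹ * (rep q' : Γ)) (((w⁻¹ : (Mt k n)ˣ) : Mt k n) * U (rep q')) :=
      impl_mul A (G.inv_mem (hM.MG (rep q).2)) (hM.MG (rep q').2) hwi (hU (rep q'))
    have hmem : ((rep q : Γ)⁻¹ * (rep q' : Γ)) ∈ M := M.mul_mem (M.inv_mem (rep q).2) (rep q').2
    have hcomm' : ∀ m' ∈ M, ∀ u', A.Impl m' u' →
        (((w⁻¹ : (Mt k n)ˣ) : Mt k n) * U (rep q')) * u' =
          u' * (((w⁻¹ : (Mt k n)ˣ) : Mt k n) * U (rep q')) := by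
      intro m' hm' u' hu'
      obtain ⟨c, hc, hcc⟩ := impl_unique A (hU ⟨m', hm'⟩) hu'
      have e1 := hβ ⟨m', hm'⟩ (rep q)
      have e2 := hβ ⟨m', hm'⟩ (rep q')
      rw [← hb] at e2
      have hb0 := hβ0 ⟨m', hm'⟩ (rep q)
      set b := β ⟨m', hm'⟩ (rep q)
      set u := U ⟨m', hm'⟩
      rw [← hw] at e1
      -- u w = b w u
      have e3 : ((w⁻¹ : (Mt k n)ˣ) : Mt k n) * u = b • (u * ((w⁻¹ : (Mt k n)ˣ) : Mt k n)) := by
        have : ((w⁻¹ : (Mt k n)ˣ) : Mt k n) * (u * (w : Mt k n)) * ((w⁻¹ : (Mt k n)ˣ) : Mt k n) =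
            ((w⁻¹ : (Mt k n)ˣ) : Mt k n) * (b • ((w : Mt k n) * u)) *
              ((w⁻¹ : (Mt k n)ˣ) : Mt k n) := by rw [e1]
        rw [mul_smul_comm, smul_mul_assoc] at this
        calc ((w⁻¹ : (Mt k n)ˣ) : Mt k n) * u
            = ((w⁻¹ : (Mt k n)ˣ) : Mt k n) * (u * (w : Mt k n)) *
                ((w⁻¹ : (Mt k n)ˣ) : Mt k n) := by
              rw [mul_assoc, mul_assoc, Units.mul_inv, mul_one]
          _ = _ := this
          _ = b • (u * ((w⁻¹ : (Mt k n)ˣ) : Mt k n)) := by
              rw [← mul_assoc, Units.inv_mul, one_mul]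
      rw [hcc, mul_smul_comm, smul_mul_assoc]
      congr 1
      have e4 : U (rep q') * u = b⁻¹ • (u * U (rep q')) := by
        rw [e2, smul_smul, inv_mul_cancel₀ hb0, one_smul]
      rw [mul_assoc, e4, mul_smul_comm, ← mul_assoc, e3, smul_mul_assoc, smul_smul,
        inv_mul_cancel₀ hb0, one_smul, mul_assoc]
    have hin := hN _ hmem _ hpi hcomm'
    have h5 : (rep q)⁻¹ * rep q' ∈ L := by
      rw [Subgroup.mem_subgroupOf]
      exact hin
    have h6 : (QuotientGroup.mk (rep q) : Q) = QuotientGroup.mk (rep q') :=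
      QuotientGroup.eq.mpr h5
    rw [show (QuotientGroup.mk (rep q) : Q) = q from QuotientGroup.out_eq' q,
      show (QuotientGroup.mk (rep q') : Q) = q' from QuotientGroup.out_eq' q'] at h6
    exact h6
  -- the inverses
  have hinv : ∀ m : M, ∃ v : Mt k n, U m * v = 1 ∧ v * U m = 1 ∧ A.Impl ((m : Γ)⁻¹) v := by
    intro m
    obtain ⟨w, hw⟩ := (hU m).1
    refine ⟨((w⁻¹ : (Mt k n)ˣ) : Mt k n), by rw [← hw, Units.mul_inv], by rw [← hw, Units.inv_mul],
      impl_inv A (hM.MG m.2) (hU m) (by rw [← hw, Units.mul_inv])⟩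
  choose V hUV hVU hV using hinv
  -- conjugation of a linear combination
  have hconj : ∀ (c : Q → k) (m : M), U m * (∑ q, c q • U (rep q)) * V m =
      ∑ q, χ q m • (c q • U (rep q)) := by
    intro c m
    rw [Finset.mul_sum, Finset.sum_mul]
    refine Finset.sum_congr rfl fun q _ => ?_
    rw [mul_smul_comm, hβ m (rep q), smul_mul_assoc, smul_mul_assoc, mul_assoc, hUV, mul_one,
      hχ, smul_comm]
  -- linear independence
  have hli : LinearIndependent k (fun q : Q => U (rep q)) := by
    rw [Fintype.linearIndependent_iff]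
    intro c hc q
    have h1 : c q • U (rep q) ∈ (⊥ : Submodule k (Mt k n)) := by
      refine ccDedekind (⊥ : Submodule k (Mt k n)) χ hχinj (fun q => c q • U (rep q)) ?_ q
      intro m
      rw [← hconj c m, hc, mul_zero, zero_mul]
      exact Submodule.zero_mem _
    rw [Submodule.mem_bot, smul_eq_zero] at h1
    exact h1.resolve_right (hUne _)
  -- span
  have hspan : A.Z M = Submodule.span k (Set.range fun q : Q => U (rep q)) := by
    apply le_antisymm
    · unfold StarAct.Z
      rw [Submodule.span_le]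
      rintro u ⟨m, hm, hu⟩
      let q : Q := QuotientGroup.mk (⟨m, hm⟩ : M)
      have h1 : (QuotientGroup.mk (rep q) : Q) = QuotientGroup.mk (⟨m, hm⟩ : M) :=
        QuotientGroup.out_eq' q
      have h2 : (rep q)⁻¹ * (⟨m, hm⟩ : M) ∈ L := QuotientGroup.eq.mp h1
      rw [Subgroup.mem_subgroupOf] at h2
      have h3 : ((rep q : Γ)⁻¹ * m)⁻¹ ∈ K := K.inv_mem h2
      have h4 : (rep q : Γ) = m * ((rep q : Γ)⁻¹ * m)⁻¹ := by group
      have h5 : A.Impl (rep q : Γ) u := by
        rw [h4]
        exact ccImplRight A hK hKG h3 (hM.MG hm) hu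
      obtain ⟨c, hc, hcc⟩ := impl_unique A (hU (rep q)) h5
      rw [hcc]
      exact Submodule.smul_mem _ _ (Submodule.subset_span ⟨q, rfl⟩)
    · rw [Submodule.span_le]
      rintro _ ⟨q, rfl⟩
      exact Submodule.subset_span ⟨_, (rep q).2, hU _⟩
  -- the subalgebra
  have hZmul : ∀ x ∈ A.Z M, ∀ y ∈ A.Z M, x * y ∈ A.Z M := by
    intro x hx y hy
    unfold StarAct.Z at hx hy ⊢
    have h1 : x * y ∈ Submodule.span k {u | ∃ m ∈ M, A.Impl m u} *
        Submodule.span k {u | ∃ m ∈ M, A.Impl m u} := Submodule.mul_mem_mul hx hy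
    rw [Submodule.span_mul_span] at h1
    refine Submodule.span_mono ?_ h1
    rintro _ ⟨u, ⟨m, hm, hu⟩, v, ⟨m', hm', hv⟩, rfl⟩
    exact ⟨m * m', M.mul_mem hm hm', impl_mul A (hM.MG hm) (hM.MG hm') hu hv⟩
  have hZone : (1 : Mt k n) ∈ A.Z M := Submodule.subset_span ⟨1, M.one_mem, impl_one A⟩
  let S : Subalgebra k (Mt k n) :=
    { carrier := A.Z M
      mul_mem' := fun {x y} hx hy => hZmul x hx y hy
      one_mem' := hZone
      add_mem' := fun {x y} hx hy => (A.Z M).add_mem hx hy
      zero_mem' := (A.Z M).zero_mem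
      algebraMap_mem' := fun c => by
        show algebraMap k (Mt k n) c ∈ A.Z M
        rw [Algebra.algebraMap_eq_smul_one]
        exact (A.Z M).smul_mem _ hZone }
  have hSmem : ∀ x, x ∈ S ↔ x ∈ A.Z M := fun _ => Iff.rfl
  have hUS : ∀ m : M, U m ∈ S := fun m => Submodule.subset_span ⟨_, m.2, hU m⟩
  have hVS : ∀ m : M, V m ∈ S := fun m => Submodule.subset_span ⟨_, M.inv_mem m.2, hV m⟩
  have : Nontrivial S := inferInstance
  -- simplicity
  have hsimple : IsSimpleRing S := by
    refine ⟨{ exists_pair_ne := ⟨⊥, ⊤, ?_⟩, eq_bot_or_eq_top := ?_ }⟩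
    · intro h
      have h1 : (1 : S) ∈ (⊤ : TwoSidedIdeal S) := trivial
      rw [← h] at h1
      exact one_ne_zero ((TwoSidedIdeal.mem_bot S).mp h1)
    · intro I
      by_cases hI : I = ⊥
      · exact Or.inl hI
      refine Or.inr ?_
      -- a nonzero element
      have : ∃ x ∈ I, x ≠ 0 := by
        by_contra hcon
        push Not at hcon
        apply hI
        rw [eq_bot_iff]
        intro x hx
        rw [TwoSidedIdeal.mem_bot]
        exact hcon x hx
      obtain ⟨x, hxI, hx0⟩ := this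
      -- the subspace
      let W : Submodule k (Mt k n) :=
        { carrier := {z | ∃ h : z ∈ S, (⟨z, h⟩ : S) ∈ I}
          add_mem' := by
            rintro a b ⟨ha, ha'⟩ ⟨hb, hb'⟩
            exact ⟨S.add_mem ha hb, I.add_mem ha' hb'⟩
          zero_mem' := ⟨S.zero_mem, I.zero_mem⟩
          smul_mem' := by
            rintro c a ⟨ha, ha'⟩
            refine ⟨S.smul_mem ha c, ?_⟩
            have h1 : (⟨c • a, S.smul_mem ha c⟩ : S) = algebraMap k S c * ⟨a, ha⟩ := by
              rw [← Algebra.smul_def]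
              rfl
            rw [h1]
            exact I.mul_mem_left _ _ ha' }
      have hxS : (x : Mt k n) ∈ Submodule.span k (Set.range fun q : Q => U (rep q)) := by
        rw [← hspan]
        exact x.2
      obtain ⟨c, hc⟩ := (Submodule.mem_span_range_iff_exists_fun k).mp hxS
      have hq : ∃ q, c q ≠ 0 := by
        by_contra hcon
        push Not at hcon
        apply hx0
        apply Subtype.ext
        rw [← hc]
        simp [hcon]
      obtain ⟨q, hq⟩ := hq
      have hW : c q • U (rep q) ∈ W := by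
        refine ccDedekind W χ hχinj (fun q => c q • U (rep q)) ?_ q
        intro m
        rw [← hconj c m, hc]
        refine ⟨S.mul_mem (S.mul_mem (hUS m) x.2) (hVS m), ?_⟩
        have h1 : (⟨U m * x * V m, S.mul_mem (S.mul_mem (hUS m) x.2) (hVS m)⟩ : S) =
            (⟨U m, hUS m⟩ : S) * x * ⟨V m, hVS m⟩ := rfl
        rw [h1]
        exact I.mul_mem_right _ _ (I.mul_mem_left _ _ hxI)
      have hW2 : U (rep q) ∈ W := by
        have := W.smul_mem (c q)⁻¹ hW
        rwa [smul_smul, inv_mul_cancel₀ hq, one_smul] at this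
      obtain ⟨h1, h2⟩ := hW2
      rw [eq_top_iff]
      intro y _
      have h3 : (1 : S) ∈ I := by
        have h4 : (1 : S) = ⟨V (rep q), hVS _⟩ * ⟨U (rep q), h1⟩ := by
          apply Subtype.ext
          exact (hVU (rep q)).symm
        rw [h4]
        exact I.mul_mem_left _ _ h2
      have h5 := I.mul_mem_left y 1 h3
      rwa [mul_one] at h5
  have := hsimple
  obtain ⟨a, _, ⟨e⟩⟩ := IsSimpleRing.exists_algEquiv_matrix_of_isAlgClosed k S
  refine ⟨a, (S.val.comp e.symm.toAlgHom).toLinearMap, ?_, ?_, ?_, ?_, ?_⟩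
  · intro x y
    exact map_mul (S.val.comp e.symm.toAlgHom) x y
  · exact map_one (S.val.comp e.symm.toAlgHom)
  · intro x y hxy
    have h1 : e.symm x = e.symm y := Subtype.ext hxy
    exact e.symm.injective h1
  · intro z
    constructor
    · intro hz
      refine ⟨e ⟨z, hz⟩, ?_⟩
      show ((e.symm (e ⟨z, hz⟩) : S) : Mt k n) = z
      rw [AlgEquiv.symm_apply_apply]
    · rintro ⟨x, rfl⟩
      exact (e.symm x).2
  · have h1 : Module.finrank k S = a ^ 2 := by
      rw [e.toLinearEquiv.finrank_eq, Module.finrank_matrix]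
      simp [sq]
    have h2 : Module.finrank k S = Fintype.card Q := by
      have h3 : Subalgebra.toSubmodule S = A.Z M := rfl
      rw [← Subalgebra.finrank_toSubmodule, h3, hspan]
      exact finrank_span_eq_card hli
    have h4 : Nat.card L = Nat.card K :=
      Nat.card_congr (Subgroup.subgroupOfEquivOfLe hM.KM).toEquiv
    have h5 : Nat.card M = Nat.card Q * Nat.card L := Subgroup.card_eq_card_quotient_mul_card_subgroup L
    have h6 : Nat.card Q = Fintype.card Q := Nat.card_eq_fintype_card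
    rw [← h1, h2, h5, h4, h6]

end Pool.Agent.Helper44.S3
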