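import Pool.Agent.Helper44.S3.LA

set_option autoImplicit false
open scoped BigOperators MonoidAlgebra
open Classical

namespace Pool.Agent.Helper44.S3

open Pool.Agent.Helper36.NB

/-- Symmetric matrix with zero diagonal attached to a function on the pairs `i < j`. -/
private noncomputable def symL (k : Type) [Field k] (n : ℕ) :
    ({p : Fin n × Fin n // p.1 < p.2} → k) →ₗ[k] Mt k n where
  toFun c := Matrix.of fun i j =>
    if h : i < j then c ⟨(i, j), h⟩ else if h : j < i then c ⟨(j, i), h⟩ else 0
  map_add' c d := by
    ext i j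
    simp only [Matrix.of_apply, Matrix.add_apply, Pi.add_apply]
    split_ifs <;> simp
  map_smul' r c := by
    ext i j
    simp only [Matrix.of_apply, Matrix.smul_apply, Pi.smul_apply, RingHom.id_apply]
    split_ifs <;> simp

private theorem symL_apply {k : Type} [Field k] {n : ℕ}
    (c : {p : Fin n × Fin n // p.1 < p.2} → k) (i j : Fin n) :
    symL k n c i j =
      if h : i < j then c ⟨(i, j), h⟩ else if h : j < i then c ⟨(j, i), h⟩ else 0 := rfl

private theorem symL_inj (k : Type) [Field k] (n : ℕ) : Function.Injective (symL k n) := by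
  intro c d h
  funext p
  obtain ⟨⟨i, j⟩, hp⟩ := p
  have h1 := congrFun (congrFun h i) j
  rw [symL_apply, symL_apply] at h1
  have hp' : i < j := hp
  rw [dif_pos hp', dif_pos hp'] at h1
  exact h1

private theorem range_symL (k : Type) [Field k] [CharP k 2] (n : ℕ) :
    LinearMap.range (symL k n) =
      LinearMap.range ((Matrix.transposeLinearEquiv (Fin n) (Fin n) k k).toLinearMap
        + LinearMap.id) := by
  apply le_antisymm
  · rintro x ⟨c, rfl⟩
    refine ⟨Matrix.of fun i j => if h : i < j then c ⟨(i, j), h⟩ else 0, ?_⟩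
    ext i j
    rw [symL_apply]
    simp only [LinearMap.add_apply, LinearEquiv.coe_coe, Matrix.transposeLinearEquiv_apply,
      LinearMap.id_coe, id_eq, Matrix.add_apply, Matrix.of_apply]
    by_cases h1 : i < j
    · have h2 : ¬ j < i := not_lt.mpr h1.le
      simp [h1, h2]
    · by_cases h2 : j < i
      · simp [h1, h2]
      · simp [h1, h2]
  · rintro x ⟨a, rfl⟩
    refine ⟨fun p => a p.1.2 p.1.1 + a p.1.1 p.1.2, ?_⟩
    ext i j
    rw [symL_apply]
    simp only [LinearMap.add_apply, LinearEquiv.coe_coe, Matrix.transposeLinearEquiv_apply,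
      LinearMap.id_coe, id_eq, Matrix.add_apply]
    by_cases h1 : i < j
    · simp [h1]
    · by_cases h2 : j < i
      · simp [h1, h2, add_comm]
      · have h3 : i = j := le_antisymm (not_lt.mp h2) (not_lt.mp h1)
        subst h3
        simp [CharTwo.add_self_eq_zero]

private theorem card_lt (n : ℕ) :
    2 * Fintype.card {p : Fin n × Fin n // p.1 < p.2} + n = n * n := by
  have e1 : Fintype.card {p : Fin n × Fin n // p.1 < p.2}
      = Fintype.card {p : Fin n × Fin n // p.2 < p.1} := by
    refine Fintype.card_congr ⟨fun p => ⟨(p.1.2, p.1.1), p.2⟩, fun p => ⟨(p.1.2, p.1.1), p.2⟩,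
      fun p => rfl, fun p => rfl⟩
  have e2 : Fintype.card {p : Fin n × Fin n // p.1 = p.2} = n := by
    have : Fintype.card {p : Fin n × Fin n // p.1 = p.2} = Fintype.card (Fin n) := by
      refine Fintype.card_congr ⟨fun p => p.1.1, fun i => ⟨(i, i), rfl⟩, ?_, fun i => rfl⟩
      rintro ⟨⟨i, j⟩, h⟩
      have h' : i = j := h
      subst h'
      rfl
    rw [this, Fintype.card_fin]
  have e3 : Fintype.card (Fin n × Fin n) = Fintype.card {p : Fin n × Fin n // p.1 < p.2}
      + (Fintype.card {p : Fin n × Fin n // p.1 = p.2}
        + Fintype.card {p : Fin n × Fin n // p.2 < p.1}) := by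
    rw [← Fintype.card_sum, ← Fintype.card_sum]
    refine Fintype.card_congr ⟨fun p => if h : p.1 < p.2 then Sum.inl ⟨p, h⟩ else
        if h' : p.1 = p.2 then Sum.inr (Sum.inl ⟨p, h'⟩) else
          Sum.inr (Sum.inr ⟨p, lt_of_le_of_ne (not_lt.mp h) (Ne.symm h')⟩),
      fun s => match s with
        | Sum.inl p => p.1
        | Sum.inr (Sum.inl p) => p.1
        | Sum.inr (Sum.inr p) => p.1, ?_, ?_⟩
    · intro p
      dsimp only
      by_cases h : p.1 < p.2
      · rw [dif_pos h]
      · rw [dif_neg h]
        by_cases h' : p.1 = p.2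
        · rw [dif_pos h']
        · rw [dif_neg h']
    · rintro (p | p | p)
      · dsimp only
        rw [dif_pos p.2]
      · dsimp only
        have h1 : ¬ (p.1.1 < p.1.2) := by rw [p.2]; exact lt_irrefl _
        rw [dif_neg h1, dif_pos p.2]
      · dsimp only
        have h1 : ¬ (p.1.1 < p.1.2) := not_lt.mpr p.2.le
        have h2 : ¬ (p.1.1 = p.1.2) := fun h => absurd p.2 (by rw [h]; exact lt_irrefl _)
        rw [dif_neg h1, dif_neg h2]
  rw [Fintype.card_prod, Fintype.card_fin] at e3
  rw [e2, ← e1] at e3
  omega

/-- LB (hint). `a ↦ σ (aᵀ)` is an automorphism, so (`inner_of_aut`) `σ a = g aᵀ g⁻¹`. `σ σ = id` gives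
`gᵀ = c g` with `c² = 1`, so `c = 1` (characteristic 2) and `g` is symmetric. Substituting `a = s g⁻¹`
the map becomes `s ↦ sᵀ`, and the image of `s ↦ s + sᵀ` has the basis `E_ij + E_ji`, `i < j`, of
`n (n - 1) / 2` elements. -/
theorem anti_rank {k : Type} [Field k] [CharP k 2] {n : ℕ} (σ : Mt k n →ₗ[k] Mt k n)
    (hσ : ∀ a b, σ (a * b) = σ b * σ a) (h2 : ∀ a, σ (σ a) = a) :
    2 * Module.finrank k (LinearMap.range (σ + LinearMap.id)) + n = n * n := by
  obtain ⟨u, hu, huf⟩ := inner_of_aut
    (σ ∘ₗ (Matrix.transposeLinearEquiv (Fin n) (Fin n) k k).toLinearMap)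
    (fun a b => by
      change σ (a * b).transpose = σ a.transpose * σ b.transpose
      rw [Matrix.transpose_mul]
      exact hσ _ _)
    (by
      intro a b hab
      have hab' : σ a.transpose = σ b.transpose := hab
      have := congrArg σ hab'
      rw [h2, h2] at this
      exact Matrix.transpose_injective this)
  have hs : ∀ a, σ a * u = u * a.transpose := by
    intro a
    exact huf a.transpose
  obtain ⟨U, rfl⟩ := hu
  set u : Mt k n := (U : Mt k n) with hu_def
  set v : Mt k n := ((U⁻¹ : (Mt k n)ˣ) : Mt k n) with hv_def
  have huv : u * v = 1 := U.mul_inv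
  have hvu : v * u = 1 := U.inv_mul
  -- `u = c uᵀ`
  have hcentral : ∀ a : Mt k n, a * (u * v.transpose) = (u * v.transpose) * a := by
    intro a
    have h1 := hs (σ a)
    rw [h2] at h1
    -- a u = u (σ a)ᵀ
    have h3 : (σ a).transpose = v.transpose * a * u.transpose := by
      have h4 : σ a = u * a.transpose * v := by
        rw [← hs a, Matrix.mul_assoc, huv, Matrix.mul_one]
      rw [h4, Matrix.transpose_mul, Matrix.transpose_mul, Matrix.transpose_transpose,
        Matrix.mul_assoc]
    rw [h3] at h1
    have h5 : u.transpose * v.transpose = 1 := by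
      rw [← Matrix.transpose_mul, hvu, Matrix.transpose_one]
    calc a * (u * v.transpose) = (a * u) * v.transpose := by rw [Matrix.mul_assoc]
      _ = (u * (v.transpose * a * u.transpose)) * v.transpose := by rw [h1]
      _ = u * v.transpose * a * (u.transpose * v.transpose) := by
          simp only [Matrix.mul_assoc]
      _ = (u * v.transpose) * a := by rw [h5, Matrix.mul_one]
  have hsym : u.transpose = u := by
    have hmem : (u * v.transpose) ∈ Set.range (Matrix.scalar (Fin n) : k →+* Mt k n) := by
      rw [Matrix.mem_range_scalar_iff_commute_single']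
      intro i j
      exact (hcentral _)
    obtain ⟨c, hc⟩ := hmem
    have hvu' : v.transpose * u.transpose = 1 := by
      rw [← Matrix.transpose_mul, huv, Matrix.transpose_one]
    have h6 : u = c • u.transpose := by
      have : u * v.transpose * u.transpose = Matrix.scalar (Fin n) c * u.transpose := by
        rw [hc]
      rw [Matrix.mul_assoc, hvu', Matrix.mul_one] at this
      calc u = Matrix.scalar (Fin n) c * u.transpose := this
        _ = c • u.transpose := by rw [Matrix.scalar_apply, Matrix.smul_eq_diagonal_mul]
    have h7 : u.transpose = c • u := by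
      have h8 := congrArg Matrix.transpose h6
      rw [Matrix.transpose_smul, Matrix.transpose_transpose] at h8
      exact h8
    by_cases hn : n = 0
    · subst hn
      ext i
      exact i.elim0
    · have h8 : u = (c * c) • u := by
        conv_lhs => rw [h6, h7, smul_smul]
      have h9 : ((c * c) - 1) • u = 0 := by
        rw [sub_smul, one_smul, ← h8, sub_self]
      have h10 : c * c - 1 = 0 := by
        rcases smul_eq_zero.mp h9 with h | h
        · exact h
        · exfalso
          rw [h, Matrix.zero_mul] at huv
          have hne : Nonempty (Fin n) := ⟨⟨0, Nat.pos_of_ne_zero hn⟩⟩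
          exact zero_ne_one huv
      have h11 : (c - 1) * (c - 1) = 0 := by
        have h12 : (2 : k) = 0 := CharP.cast_eq_zero k 2
        linear_combination h10 + (1 - c) * h12
      have h13 : c = 1 := by
        have := mul_self_eq_zero.mp h11
        exact sub_eq_zero.mp this
      rw [h7, h13, one_smul]
  -- right multiplication by `u`
  let R : Mt k n ≃ₗ[k] Mt k n :=
    { toFun := fun a => a * u
      invFun := fun a => a * v
      left_inv := fun a => by
        show a * u * v = a
        rw [Matrix.mul_assoc, huv, Matrix.mul_one]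
      right_inv := fun a => by
        show a * v * u = a
        rw [Matrix.mul_assoc, hvu, Matrix.mul_one]
      map_add' := fun a b => Matrix.add_mul a b u
      map_smul' := fun r a => by simp }
  have hconj : R.toLinearMap ∘ₗ (σ + LinearMap.id) =
      ((Matrix.transposeLinearEquiv (Fin n) (Fin n) k k).toLinearMap + LinearMap.id)
        ∘ₗ R.toLinearMap := by
    apply LinearMap.ext
    intro a
    show (σ a + a) * u = (a * u).transpose + a * u
    rw [Matrix.transpose_mul, hsym, Matrix.add_mul, hs a]
  have hr1 : Module.finrank k (LinearMap.range (σ + LinearMap.id)) =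
      Module.finrank k (LinearMap.range (R.toLinearMap ∘ₗ (σ + LinearMap.id))) := by
    rw [LinearMap.range_comp]
    exact (LinearEquiv.finrank_map_eq R _).symm
  have hr2 : LinearMap.range (((Matrix.transposeLinearEquiv (Fin n) (Fin n) k k).toLinearMap
      + LinearMap.id) ∘ₗ R.toLinearMap) =
      LinearMap.range ((Matrix.transposeLinearEquiv (Fin n) (Fin n) k k).toLinearMap
        + LinearMap.id) := by
    rw [LinearMap.range_comp, LinearEquiv.range, Submodule.map_top]
  rw [hr1, hconj, hr2, ← range_symL, LinearMap.finrank_range_of_inj (symL_inj k n),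
    Module.finrank_fintype_fun_eq_card]
  exact card_lt n

end Pool.Agent.Helper44.S3
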