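import Pool.Agent.Helper44.S3.CX
import Pool.Agent.Helper44.S3.LB

set_option autoImplicit false
open scoped BigOperators MonoidAlgebra
open Classical

namespace Pool.Agent.Helper44.S3

open Pool.Agent.Helper36.NB

variable {Γ : Type} [Group Γ] [Finite Γ] {T G K H M : Subgroup Γ} {k : Type} [Field k] {n : ℕ}

/-- CD (hint). `α_y` restricts to `A.Z M = range φ ≅ Mat_a` (`impl_conj_anti`); there it is an
anti-automorphism of square `1`, so `anti_rank` gives `2 ρ + a = a²` with
`ρ = finrank (map (α_y + id) (A.Z M))`. `finrank (A.Z M) = a²`. Compare with `mono_Z`. -/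
theorem nondeg_cneg [CharP k 2] (A : StarAct T G k n) {r : ℕ}
    (hM : Chief T G K M r) (hKn : Norm G K) (hK : ∀ g ∈ K, A.Triv g) {a : ℕ}
    (φ : Mt k a →ₗ[k] Mt k n) (hmul : ∀ x y, φ (x * y) = φ x * φ y)
    (hinj : Function.Injective φ) (hφ : ∀ z, z ∈ A.Z M ↔ ∃ x, φ x = z)
    (ha : a ^ 2 * Nat.card K = Nat.card M) {y : Γ} (hy : y ∈ G) (hyT : y ∉ T)
    (hy2 : y * y = 1) : cneg M K y = a * Nat.card K := by
  have hZr : A.Z M = LinearMap.range φ := by
    ext z
    rw [hφ, LinearMap.mem_range]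
  have hfin : Module.finrank k (A.Z M) = a * a := by
    rw [hZr, LinearMap.finrank_range_of_inj hinj, Module.finrank_matrix, Module.finrank_self,
      Fintype.card_fin, mul_one]
  have h1 := mono_Z A hM hKn hK (by rw [hfin, ← pow_two]; exact ha) hy hyT hy2
  -- `α_y` preserves `A.Z M`
  have hst : ∀ z ∈ A.Z M, A.α y z ∈ A.Z M := by
    intro z hz
    unfold StarAct.Z at hz ⊢
    induction hz using Submodule.span_induction with
    | mem u hu =>
      obtain ⟨m, hm, hmu⟩ := hu
      exact Submodule.subset_span ⟨y * m⁻¹ * y⁻¹, hM.norm y hy _ (M.inv_mem hm),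
        impl_conj_anti A (hM.MG hm) hy hyT hmu⟩
    | zero => rw [map_zero]; exact Submodule.zero_mem _
    | add u v _ _ hu hv => rw [map_add]; exact Submodule.add_mem _ hu hv
    | smul c u _ hu => rw [map_smul]; exact Submodule.smul_mem _ c hu
  have hinv : ∀ z, A.α y (A.α y z) = z := by
    intro z
    rw [← A.mul y hy y hy, hy2, A.one]
  let e : Mt k a ≃ₗ[k] LinearMap.range φ := LinearEquiv.ofInjective φ hinj
  have he : ∀ x, ((e x : LinearMap.range φ) : Mt k n) = φ x := fun x => rfl
  have hmem : ∀ x, A.α y (φ x) ∈ LinearMap.range φ := by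
    intro x
    rw [← hZr]
    exact hst _ (by rw [hZr]; exact ⟨x, rfl⟩)
  let σ : Mt k a →ₗ[k] Mt k a :=
    e.symm.toLinearMap ∘ₗ (((A.α y) ∘ₗ φ).codRestrict (LinearMap.range φ) hmem)
  have hσ : ∀ x, φ (σ x) = A.α y (φ x) := by
    intro x
    rw [← he]
    change ((e (e.symm _) : LinearMap.range φ) : Mt k n) = _
    rw [LinearEquiv.apply_symm_apply]
    rfl
  have hanti : ∀ u v, σ (u * v) = σ v * σ u := by
    intro u v
    apply hinj
    rw [hσ, hmul, hmul, hσ, hσ, A.anti y hy hyT]
  have hσ2 : ∀ u, σ (σ u) = u := by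
    intro u
    apply hinj
    rw [hσ, hσ, hinv]
  have h2 := anti_rank σ hanti hσ2
  have h3 : Submodule.map (A.α y + LinearMap.id) (A.Z M) =
      Submodule.map φ (LinearMap.range (σ + LinearMap.id)) := by
    rw [hZr, ← LinearMap.range_comp, ← LinearMap.range_comp]
    congr 1
    apply LinearMap.ext
    intro x
    change A.α y (φ x) + φ x = φ (σ x + x)
    rw [map_add, hσ]
  have h4 : Module.finrank k (Submodule.map (A.α y + LinearMap.id) (A.Z M)) =
      Module.finrank k (LinearMap.range (σ + LinearMap.id)) := by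
    rw [h3]
    exact (Submodule.equivMapOfInjective φ hinj _).finrank_eq.symm
  rw [h4, ← ha] at h1
  set ρ := Module.finrank k (LinearMap.range (σ + LinearMap.id)) with hρ
  have h5 : a ^ 2 * Nat.card K = 2 * ρ * Nat.card K + a * Nat.card K := by
    rw [← add_mul, h2, pow_two]
  omega

end Pool.Agent.Helper44.S3
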