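import Pool.Agent.Helper44.S3.CB
import Pool.Agent.Helper44.S3.CC
import Pool.Agent.Helper44.S3.CD

set_option autoImplicit false
open scoped BigOperators MonoidAlgebra
open Classical

namespace Pool.Agent.Helper44.S3

open Pool.Agent.Helper36.NB

variable {Γ : Type} [Group Γ] [Finite Γ] {T G K H M : Subgroup Γ} {k : Type} [Field k] {n : ℕ}

omit [Finite Γ] in
private theorem ceStable (A : StarAct T G k n) (hMG : M ≤ G) (hnorm : Norm G M) {g : Γ} (hg : g ∈ G)
    {z : Mt k n} (hz : z ∈ A.Z M) : A.α g z ∈ A.Z M := by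
  unfold StarAct.Z at hz ⊢
  induction hz using Submodule.span_induction with
  | mem u hu =>
    obtain ⟨m, hm, hu⟩ := hu
    by_cases hgT : g ∈ T
    · exact Submodule.subset_span ⟨g * m * g⁻¹, hnorm g hg m hm, impl_conj A (hMG hm) hg hgT hu⟩
    · exact Submodule.subset_span ⟨g * m⁻¹ * g⁻¹, hnorm g hg m⁻¹ (M.inv_mem hm),
        impl_conj_anti A (hMG hm) hg hgT hu⟩
  | zero =>
    rw [map_zero]
    exact Submodule.zero_mem _
  | add x y _ _ hx hy =>
    rw [map_add]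
    exact Submodule.add_mem _ hx hy
  | smul c x _ hx =>
    rw [map_smul]
    exact Submodule.smul_mem _ c hx

/-- CE (assembly of `nondeg_struct`, `cs_star`, `nondeg_cneg`; hint). `α_g` maps `A.Z M` to itself by
`impl_conj`, `impl_conj_anti`. For `m ∈ M` with implementing matrix `u ∈ A.Z M`, `u = φ x`:
`ψ (B.α m y) u = α_m (ψ y) u = u ψ y = ψ y u`. -/
theorem step_nondeg [IsAlgClosed k] [CharP k 2] (A : StarAct T G k n) {r : ℕ}
    (hM : Chief T G K M r) (hKn : Norm G K) (hK : ∀ g ∈ K, A.Triv g)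
    (hN : A.Nondeg M K) (hn : 0 < n) :
    ∃ (a b : ℕ) (B : StarAct T G k b), n = a * b ∧ a ^ 2 * Nat.card K = Nat.card M ∧
      (∀ m ∈ M, B.Triv m) ∧
      ∀ y ∈ G, y ∉ T → y * y = 1 → cneg M K y = a * Nat.card K := by
  obtain ⟨a, φ, hmul, hone, hinj, hφ, hcard⟩ := nondeg_struct A hM hK hN hn
  have hst : ∀ g ∈ G, ∀ x, ∃ x', A.α g (φ x) = φ x' := by
    intro g hg x
    have h1 : A.α g (φ x) ∈ A.Z M := ceStable A hM.MG hM.norm hg ((hφ _).mpr ⟨x, rfl⟩)
    obtain ⟨x', hx'⟩ := (hφ _).mp h1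
    exact ⟨x', hx'.symm⟩
  obtain ⟨b, B, ψ, hab, -, -, hψinj, hcomm, hψα⟩ := cs_star A hn φ hmul hone hst
  refine ⟨a, b, B, hab, hcard, ?_, ?_⟩
  · intro m hm y
    apply hψinj
    rw [hψα m (hM.MG hm) y]
    obtain ⟨u, hu⟩ := exists_impl A (hM.MG hm) (hM.MT hm)
    have huZ : u ∈ A.Z M := Submodule.subset_span ⟨m, hm, hu⟩
    obtain ⟨x, rfl⟩ := (hφ u).mp huZ
    have h1 := hu.2 (ψ y)
    rw [hcomm x y] at h1
    exact hu.1.mul_right_cancel h1
  · intro y hy hyT hy2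
    exact nondeg_cneg A hM hKn hK φ hmul hinj hφ hcard hy hyT hy2

end Pool.Agent.Helper44.S3
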