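import Pool.Agent.Helper44.S3.LA
import Pool.Agent.Helper36.NB.C1

set_option autoImplicit false
open scoped BigOperators MonoidAlgebra
open Classical

namespace Pool.Agent.Helper44.S3

open Pool.Agent.Helper36.NB

variable {Γ : Type} [Group Γ] [Finite Γ] {T G K H M : Subgroup Γ} {k : Type} [Field k] {n : ℕ}

omit [Finite Γ] in
/-- `α_g` maps `A.Z M` to itself. -/
private theorem db_Z_stable (A : StarAct T G k n) (hM : Norm G M) (hMG : M ≤ G) {g : Γ}
    (hg : g ∈ G) {a : Mt k n} (ha : a ∈ A.Z M) : A.α g a ∈ A.Z M := by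
  unfold StarAct.Z at ha ⊢
  induction ha using Submodule.span_induction with
  | mem u hu =>
    obtain ⟨m, hm, hmu⟩ := hu
    apply Submodule.subset_span
    by_cases hgT : g ∈ T
    · exact ⟨g * m * g⁻¹, hM g hg m hm, impl_conj A (hMG hm) hg hgT hmu⟩
    · exact ⟨g * m⁻¹ * g⁻¹, hM g hg m⁻¹ (M.inv_mem hm), impl_conj_anti A (hMG hm) hg hgT hmu⟩
  | zero => rw [map_zero]; exact Submodule.zero_mem _
  | add x y _ _ hx hy => rw [map_add]; exact Submodule.add_mem _ hx hy
  | smul c x _ hx => rw [map_smul]; exact Submodule.smul_mem _ c hx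

/-- An idempotent in the span of orthogonal idempotents. -/
private theorem db_mul_idem {ℓ : ℕ} (p : Fin ℓ → Mt k n)
    (hpp : ∀ i j, p i * p j = if i = j then p i else 0) (hp0 : ∀ i, p i ≠ 0)
    {a : Mt k n} (ha : a ∈ Submodule.span k (Set.range p)) (haa : a * a = a) (j : Fin ℓ) :
    a * p j = 0 ∨ a * p j = p j := by
  have key : ∀ x ∈ Submodule.span k (Set.range p), ∃ c : k, x * p j = c • p j := by
    intro x hx
    induction hx using Submodule.span_induction with
    | mem u hu =>
      obtain ⟨i, rfl⟩ := hu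
      rw [hpp]
      by_cases hij : i = j
      · exact ⟨1, by rw [if_pos hij, hij, one_smul]⟩
      · exact ⟨0, by rw [if_neg hij, zero_smul]⟩
    | zero => exact ⟨0, by rw [zero_mul, zero_smul]⟩
    | add x y _ _ hx hy =>
      obtain ⟨c, hc⟩ := hx
      obtain ⟨d, hd⟩ := hy
      exact ⟨c + d, by rw [add_mul, hc, hd, add_smul]⟩
    | smul c x _ hx =>
      obtain ⟨d, hd⟩ := hx
      exact ⟨c * d, by rw [smul_mul_assoc, hd, smul_smul]⟩
  obtain ⟨c, hc⟩ := key a ha
  have h1 : a * (a * p j) = (c * c) • p j := by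
    rw [hc, mul_smul_comm, hc, smul_smul]
  rw [← mul_assoc, haa, hc] at h1
  have h2 : (c - c * c) • p j = 0 := by rw [sub_smul, h1, sub_self]
  rcases smul_eq_zero.mp h2 with h | h
  · have h3 : c * (1 - c) = 0 := by rw [mul_sub, mul_one]; exact h
    rcases mul_eq_zero.mp h3 with h4 | h4
    · left; rw [hc, h4, zero_smul]
    · right
      have : c = 1 := (sub_eq_zero.mp h4).symm
      rw [hc, this, one_smul]
  · exact absurd h (hp0 j)

/-- Each `α_g` permutes the idempotents. -/
private theorem db_perm (A : StarAct T G k n) (hM : Norm G M) (hMG : M ≤ G) {ℓ : ℕ}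
    (p : Fin ℓ → Mt k n) (hpp : ∀ i j, p i * p j = if i = j then p i else 0)
    (hp0 : ∀ i, p i ≠ 0) (hp1 : ∑ i, p i = 1) (hpZ : A.Z M = Submodule.span k (Set.range p))
    {g : Γ} (hg : g ∈ G) :
    ∃ f : Fin ℓ → Fin ℓ, Function.Injective f ∧ ∀ i, A.α g (p i) = p (f i) := by
  have hidem : ∀ i, A.α g (p i) * A.α g (p i) = A.α g (p i) := by
    intro i
    have h1 : p i * p i = p i := by rw [hpp, if_pos rfl]
    by_cases hgT : g ∈ T
    · rw [← A.aut g hg hgT, h1]
    · rw [← A.anti g hg hgT, h1]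
  have horth : ∀ i j, i ≠ j → A.α g (p i) * A.α g (p j) = 0 := by
    intro i j hij
    by_cases hgT : g ∈ T
    · rw [← A.aut g hg hgT, hpp, if_neg hij, map_zero]
    · rw [← A.anti g hg hgT, hpp, if_neg (Ne.symm hij), map_zero]
  have hmem : ∀ i, A.α g (p i) ∈ Submodule.span k (Set.range p) := by
    intro i
    rw [← hpZ]
    apply db_Z_stable A hM hMG hg
    rw [hpZ]
    exact Submodule.subset_span ⟨i, rfl⟩
  have hne : ∀ i, A.α g (p i) ≠ 0 := by
    intro i h
    apply hp0 i
    apply alpha_inj A hg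
    rw [h, map_zero]
  have hsum : ∀ a : Mt k n, a = ∑ j, a * p j := by
    intro a
    rw [← Finset.mul_sum, hp1, mul_one]
  have hex : ∀ i, ∃ j, A.α g (p i) * p j = p j := by
    intro i
    by_contra hcon
    push Not at hcon
    apply hne i
    rw [hsum (A.α g (p i))]
    apply Finset.sum_eq_zero
    intro j _
    rcases db_mul_idem p hpp hp0 (hmem i) (hidem i) j with h | h
    · exact h
    · exact absurd h (hcon j)
  choose f hf using hex
  have hinj : Function.Injective f := by
    intro i i' hii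
    by_contra hne'
    apply hp0 (f i)
    calc p (f i) = A.α g (p i) * p (f i) := (hf i).symm
      _ = A.α g (p i) * (A.α g (p i') * p (f i')) := by rw [hf i', hii]
      _ = 0 := by rw [← mul_assoc, horth i i' hne', zero_mul]
  refine ⟨f, hinj, ?_⟩
  have hsurj : Function.Surjective f := Finite.surjective_of_injective hinj
  intro i
  rw [hsum (A.α g (p i)), Finset.sum_eq_single (f i)]
  · exact hf i
  · intro j _ hj
    obtain ⟨i', rfl⟩ := hsurj j
    have hii : i ≠ i' := fun h => hj (by rw [h])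
    rw [← hf i', ← mul_assoc, horth i i' hii, zero_mul]
  · intro h
    exact absurd (Finset.mem_univ _) h

/-- The ranks of orthogonal idempotents add up. -/
private theorem db_rank_sum {ℓ : ℕ} (p : Fin ℓ → Mt k n)
    (hpp : ∀ i j, p i * p j = if i = j then p i else 0) (s : Finset (Fin ℓ)) :
    (∑ i ∈ s, p i) * (∑ i ∈ s, p i) = ∑ i ∈ s, p i ∧
    (∑ i ∈ s, p i).rank = ∑ i ∈ s, (p i).rank := by
  induction s using Finset.induction_on with
  | empty => simp
  | insert a s ha ih =>
    have h1 : p a * ∑ i ∈ s, p i = 0 := by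
      rw [Finset.mul_sum]
      apply Finset.sum_eq_zero
      intro i hi
      rw [hpp, if_neg]
      rintro rfl
      exact ha hi
    have h2 : (∑ i ∈ s, p i) * p a = 0 := by
      rw [Finset.sum_mul]
      apply Finset.sum_eq_zero
      intro i hi
      rw [hpp, if_neg]
      rintro rfl
      exact ha hi
    have h3 : p a * p a = p a := by rw [hpp, if_pos rfl]
    rw [Finset.sum_insert ha, Finset.sum_insert ha]
    constructor
    · rw [add_mul, mul_add, mul_add, h1, h2, h3, ih.1, add_zero, zero_add]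
    · rw [C1aux.rank_add_orth _ _ h3 ih.1 h1 h2, ih.2]

/-- DB (hint). `α_g`, `g ∈ G`, maps `A.Z M = ⊕ k p_i` onto itself (`impl_conj`, `impl_conj_anti`,
`impl_inv`) and is multiplicative there (commutative), so it permutes the idempotents `p_i`. Transitivity: the
sum `e` over an orbit of `G ∩ T` is fixed by `G ∩ T`, `{a | a * e = a}` is a stable left ideal, so `e = 1` by
`A.irr`. For `g ∈ T` `α_g p = u p u⁻¹` has the same rank as `p`; the ranks of orthogonal idempotents add up
(see `rank_add_orth` in Helper36/NB/C1, or use traces of a basis adapted to `k^n = ⊕ p_i k^n`). -/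
theorem idem_action (A : StarAct T G k n) (hM : Norm G M) (hMG : M ≤ G) (hn : 0 < n) {ℓ : ℕ}
    (p : Fin ℓ → Mt k n) (hpp : ∀ i j, p i * p j = if i = j then p i else 0)
    (hp0 : ∀ i, p i ≠ 0) (hp1 : ∑ i, p i = 1) (hpZ : A.Z M = Submodule.span k (Set.range p)) :
    ∃ π : Γ → Fin ℓ → Fin ℓ, (∀ g ∈ G, ∀ i, A.α g (p i) = p (π g i)) ∧
      (∀ i j, ∃ g ∈ G, g ∈ T ∧ π g i = j) ∧ ∃ b, (∀ i, (p i).rank = b) ∧ n = ℓ * b := by
  have hex : ∀ g : Γ, ∃ f : Fin ℓ → Fin ℓ, g ∈ G →
      (Function.Injective f ∧ ∀ i, A.α g (p i) = p (f i)) := by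
    intro g
    by_cases hg : g ∈ G
    · obtain ⟨f, hf⟩ := db_perm A hM hMG p hpp hp0 hp1 hpZ hg
      exact ⟨f, fun _ => hf⟩
    · exact ⟨id, fun h => absurd h hg⟩
  choose π hπ using hex
  have hpinj : Function.Injective p := by
    intro i j hij
    by_contra hne
    apply hp0 i
    have h1 : p i * p j = 0 := by rw [hpp, if_neg hne]
    have h2 : p i * p i = p i := by rw [hpp, if_pos rfl]
    rw [← hij, h2] at h1
    exact h1
  have htrans : ∀ i j, ∃ g ∈ G, g ∈ T ∧ π g i = j := by
    intro i
    let S : Set (Fin ℓ) := {j | ∃ g ∈ G, g ∈ T ∧ π g i = j}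
    let I : Submodule k (Mt k n) :=
      { carrier := {a | ∀ j, j ∉ S → a * p j = 0}
        add_mem' := by
          intro a b ha hb j hj
          rw [add_mul, ha j hj, hb j hj, add_zero]
        zero_mem' := by
          intro j _
          rw [zero_mul]
        smul_mem' := by
          intro c a ha j hj
          rw [smul_mul_assoc, ha j hj, smul_zero] }
    have hI : ∀ a, a ∈ I ↔ ∀ j, j ∉ S → a * p j = 0 := fun a => Iff.rfl
    have h1 : I = ⊥ ∨ I = ⊤ := by
      apply A.irr
      · intro a b hb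
        rw [hI] at hb ⊢
        intro j hj
        rw [mul_assoc, hb j hj, mul_zero]
      · intro h hh hhT b hb
        rw [hI] at hb ⊢
        intro j hj
        obtain ⟨hinj, hact⟩ := hπ h hh
        obtain ⟨j', rfl⟩ := Finite.surjective_of_injective hinj j
        rw [← hact, ← A.aut h hh hhT, hb, map_zero]
        intro hj'
        obtain ⟨g, hg, hgT, hgi⟩ := hj'
        apply hj
        refine ⟨h * g, G.mul_mem hh hg, T.mul_mem hhT hgT, ?_⟩
        apply hpinj
        rw [← (hπ (h * g) (G.mul_mem hh hg)).2, A.mul h hh g hg, (hπ g hg).2, hgi, hact]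
    have hiS : i ∈ S := by
      refine ⟨1, G.one_mem, T.one_mem, ?_⟩
      apply hpinj
      rw [← (hπ 1 G.one_mem).2, A.one]
    have hiI : p i ∈ I := by
      rw [hI]
      intro j hj
      rw [hpp, if_neg]
      rintro rfl
      exact hj hiS
    have h2 : I = ⊤ := by
      rcases h1 with h | h
      · exfalso
        rw [h] at hiI
        exact hp0 i ((Submodule.mem_bot k).mp hiI)
      · exact h
    intro j
    by_contra hj
    have h3 : (1 : Mt k n) ∈ I := by rw [h2]; exact Submodule.mem_top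
    rw [hI] at h3
    have h4 := h3 j hj
    rw [one_mul] at h4
    exact hp0 j h4
  refine ⟨π, fun g hg => (hπ g hg).2, htrans, ?_⟩
  have hrank : ∀ i j, (p i).rank = (p j).rank := by
    intro i j
    obtain ⟨g, hg, hgT, hgi⟩ := htrans i j
    obtain ⟨u, huu, hu⟩ := exists_impl A hg hgT
    have hdet : IsUnit u.det := (Matrix.isUnit_iff_isUnit_det u).mp huu
    have h1 := hu (p i)
    rw [(hπ g hg).2, hgi] at h1
    have h2 : (p j * u).rank = (p j).rank := Matrix.rank_mul_eq_left_of_isUnit_det u (p j) hdet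
    have h3 : (u * p i).rank = (p i).rank := Matrix.rank_mul_eq_right_of_isUnit_det u (p i) hdet
    rw [← h2, ← h3, h1]
  have hl : 0 < ℓ := by
    rcases Nat.eq_zero_or_pos ℓ with h | h
    · subst h
      exfalso
      rw [Finset.univ_eq_empty, Finset.sum_empty] at hp1
      have h0 := congrFun (congrFun hp1 ⟨0, hn⟩) ⟨0, hn⟩
      rw [Matrix.one_apply_eq, Matrix.zero_apply] at h0
      exact zero_ne_one h0
    · exact h
  refine ⟨(p ⟨0, hl⟩).rank, fun i => hrank i _, ?_⟩
  have h5 := (db_rank_sum p hpp Finset.univ).2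
  rw [hp1, Matrix.rank_one, Fintype.card_fin, Finset.sum_congr rfl (fun i _ => hrank i ⟨0, hl⟩),
    Finset.sum_const, Finset.card_univ, Fintype.card_fin, smul_eq_mul] at h5
  exact h5

end Pool.Agent.Helper44.S3
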