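import Pool.Agent.Helper44.S3.LA

set_option autoImplicit false
open scoped BigOperators MonoidAlgebra
open Classical

namespace Pool.Agent.Helper44.S3

open Pool.Agent.Helper36.NB

variable {Γ : Type} [Group Γ] [Finite Γ] {T G K H M : Subgroup Γ} {k : Type} [Field k] {n : ℕ}

/-- Factorisation of an idempotent matrix. -/
private theorem exists_factor (p : Mt k n) (hp : p * p = p) {b : ℕ} (hb : p.rank = b) :
    ∃ (X : Matrix (Fin n) (Fin b) k) (Y : Matrix (Fin b) (Fin n) k), Y * X = 1 ∧ X * Y = p := by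
  set P : (Fin n → k) →ₗ[k] (Fin n → k) := Matrix.toLin' p with hP
  have hPP : ∀ x, P (P x) = P x := by
    intro x
    simp only [hP, Matrix.toLin'_apply, Matrix.mulVec_mulVec, hp]
  have hfr : Module.finrank k (LinearMap.range P) = b := by
    rw [← hb]; rfl
  let e : (Fin b → k) ≃ₗ[k] LinearMap.range P :=
    LinearEquiv.ofFinrankEq _ _ (by rw [hfr]; simp)
  let fX : (Fin b → k) →ₗ[k] (Fin n → k) := (LinearMap.range P).subtype ∘ₗ e.toLinearMap
  let fY : (Fin n → k) →ₗ[k] (Fin b → k) := e.symm.toLinearMap ∘ₗ P.rangeRestrict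
  have h1 : fY ∘ₗ fX = LinearMap.id := by
    apply LinearMap.ext
    intro x
    have hx : P.rangeRestrict (e x : Fin n → k) = e x := by
      apply Subtype.ext
      obtain ⟨z, hz⟩ := (e x).2
      show P (e x : Fin n → k) = e x
      rw [← hz, hPP]
    show e.symm (P.rangeRestrict (e x : Fin n → k)) = x
    rw [hx, LinearEquiv.symm_apply_apply]
  have h2 : fX ∘ₗ fY = P := by
    apply LinearMap.ext
    intro x
    show ((e (e.symm (P.rangeRestrict x)) : LinearMap.range P) : Fin n → k) = P x
    rw [LinearEquiv.apply_symm_apply]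
    rfl
  refine ⟨LinearMap.toMatrix' fX, LinearMap.toMatrix' fY, ?_, ?_⟩
  · rw [← LinearMap.toMatrix'_comp, h1, LinearMap.toMatrix'_id]
  · rw [← LinearMap.toMatrix'_comp, h2, hP, LinearMap.toMatrix'_toLin']

/-- DC (corner; hint). `p` has rank `b`, so there are `X : n × b`, `Y : b × n` with `Y X = 1`, `X Y = p`; put
`ψ y = X y Y`, `B.α g y = Y (α_g (ψ y)) X` for `g ∈ G1` (and `id` outside). `irr`: let `I` be a
left ideal of `Mat_b`, stable under `G1 ∩ T`, `I ≠ ⊥`. The left ideal of `Mat_n` generated by the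
`α_g (ψ y)`, `g ∈ G ∩ T`, `y ∈ I`, is stable and non-zero, so it is everything and contains `p`:
`p = ∑ a_j α_{g_j}(ψ y_j)`. Multiply by `p` on both sides: `α_g (ψ y) p = α_g (ψ y) α_g(p) p = 0` for
`g ∉ G1`, and `p a ψ(y') = ψ(z) ψ(y')`; so `p = ψ 1 ∈ ψ(I)`, `1 ∈ I`. -/
theorem corner_star (A : StarAct T G k n) {G1 : Subgroup Γ} (p : Mt k n) (hp : p * p = p)
    (hG1 : ∀ g, g ∈ G1 ↔ g ∈ G ∧ A.α g p = p)
    (horth : ∀ g ∈ G, g ∈ T → g ∉ G1 → A.α g p * p = 0) {b : ℕ} (hb : p.rank = b) (hb0 : 0 < b) :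
    ∃ (B : StarAct T G1 k b) (ψ : Mt k b →ₗ[k] Mt k n), Function.Injective ψ ∧
      (∀ x y, ψ (x * y) = ψ x * ψ y) ∧ ψ 1 = p ∧ (∀ a, p * a * p = a → ∃ y, ψ y = a) ∧
      ∀ g ∈ G1, ∀ y, ψ (B.α g y) = A.α g (ψ y) := by
  obtain ⟨X, Y, hYX, hXY⟩ := exists_factor p hp hb
  let ψ : Mt k b →ₗ[k] Mt k n :=
    { toFun := fun y => X * y * Y
      map_add' := fun x y => by rw [Matrix.mul_add, Matrix.add_mul]
      map_smul' := fun c x => by simp }
  let θ : Mt k n →ₗ[k] Mt k b :=
    { toFun := fun y => Y * y * X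
      map_add' := fun x y => by rw [Matrix.mul_add, Matrix.add_mul]
      map_smul' := fun c x => by simp }
  have hψ : ∀ y, ψ y = X * y * Y := fun y => rfl
  have hθ : ∀ y, θ y = Y * y * X := fun y => rfl
  have hθψ : ∀ y, θ (ψ y) = y := by
    intro y
    rw [hθ, hψ]
    calc Y * (X * y * Y) * X = (Y * X) * y * (Y * X) := by simp only [Matrix.mul_assoc]
      _ = y := by rw [hYX, Matrix.one_mul, Matrix.mul_one]
  have hψθ : ∀ a, ψ (θ a) = p * a * p := by
    intro a
    rw [hθ, hψ, ← hXY]
    simp only [Matrix.mul_assoc]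
  have hψinj : Function.Injective ψ := fun x y hxy => by rw [← hθψ x, ← hθψ y, hxy]
  have hψmul : ∀ x y, ψ (x * y) = ψ x * ψ y := by
    intro x y
    rw [hψ, hψ, hψ]
    calc X * (x * y) * Y = X * x * (1 : Mt k b) * (y * Y) := by
          rw [Matrix.mul_one]; simp only [Matrix.mul_assoc]
      _ = X * x * (Y * X) * (y * Y) := by rw [hYX]
      _ = X * x * Y * (X * y * Y) := by simp only [Matrix.mul_assoc]
  have hψ1 : ψ 1 = p := by rw [hψ, Matrix.mul_one, hXY]
  have hpψ : ∀ y, p * ψ y = ψ y := by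
    intro y
    rw [← hψ1, ← hψmul, one_mul]
  have hψp : ∀ y, ψ y * p = ψ y := by
    intro y
    rw [← hψ1, ← hψmul, mul_one]
  have hsand : ∀ g ∈ G1, ∀ y, ψ (θ (A.α g (ψ y))) = A.α g (ψ y) := by
    intro g hg y
    obtain ⟨hgG, hgp⟩ := (hG1 g).1 hg
    rw [hψθ]
    by_cases hT : g ∈ T
    · have e1 : p * A.α g (ψ y) = A.α g (ψ y) := by
        conv_lhs => rw [← hgp]
        rw [← A.aut g hgG hT, hpψ]
      have e2 : A.α g (ψ y) * p = A.α g (ψ y) := by
        conv_lhs => rw [← hgp]
        rw [← A.aut g hgG hT, hψp]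
      rw [e1, e2]
    · have e1 : p * A.α g (ψ y) = A.α g (ψ y) := by
        conv_lhs => rw [← hgp]
        rw [← A.anti g hgG hT, hψp]
      have e2 : A.α g (ψ y) * p = A.α g (ψ y) := by
        conv_lhs => rw [← hgp]
        rw [← A.anti g hgG hT, hpψ]
      rw [e1, e2]
  have hG1G : ∀ g ∈ G1, g ∈ G := fun g hg => ((hG1 g).1 hg).1
  let β : Γ → (Mt k b →ₗ[k] Mt k b) := fun g => θ ∘ₗ (A.α g) ∘ₗ ψ
  have hβ : ∀ g y, β g y = θ (A.α g (ψ y)) := fun g y => rfl
  have hψβ : ∀ g ∈ G1, ∀ y, ψ (β g y) = A.α g (ψ y) := fun g hg y => by rw [hβ, hsand g hg]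
  let B : StarAct T G1 k b :=
    { α := β
      one := by
        intro a
        rw [hβ, A.one, hθψ]
      mul := by
        intro g hg h hh a
        apply hψinj
        rw [hψβ _ (G1.mul_mem hg hh), hψβ _ hg, hψβ _ hh, A.mul g (hG1G g hg) h (hG1G h hh)]
      aut := by
        intro g hg hT x y
        apply hψinj
        rw [hψβ _ hg, hψmul, A.aut g (hG1G g hg) hT, hψmul, hψβ _ hg, hψβ _ hg]
      anti := by
        intro g hg hT x y
        apply hψinj
        rw [hψβ _ hg, hψmul, A.anti g (hG1G g hg) hT, hψmul, hψβ _ hg, hψβ _ hg]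
      irr := by
        intro I hI hst
        by_cases hbot : I = ⊥
        · exact Or.inl hbot
        right
        obtain ⟨y0, hy0, hy0n⟩ := (Submodule.ne_bot_iff I).1 hbot
        let S : Set (Mt k n) := {x | ∃ a : Mt k n, ∃ g ∈ G, g ∈ T ∧ ∃ y ∈ I, x = a * A.α g (ψ y)}
        let J : Submodule k (Mt k n) := Submodule.span k S
        have hJ1 : ∀ a, ∀ x ∈ J, a * x ∈ J := by
          intro a x hx
          induction hx using Submodule.span_induction with
          | mem x hx =>
            obtain ⟨a', g, hg, hT, y, hy, rfl⟩ := hx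
            exact Submodule.subset_span ⟨a * a', g, hg, hT, y, hy, by rw [Matrix.mul_assoc]⟩
          | zero => rw [Matrix.mul_zero]; exact J.zero_mem
          | add x y _ _ hx hy => rw [Matrix.mul_add]; exact J.add_mem hx hy
          | smul c x _ hx => rw [Matrix.mul_smul]; exact J.smul_mem c hx
        have hJ2 : ∀ g ∈ G, g ∈ T → ∀ x ∈ J, A.α g x ∈ J := by
          intro g hg hT x hx
          induction hx using Submodule.span_induction with
          | mem x hx =>
            obtain ⟨a', g', hg', hT', y, hy, rfl⟩ := hx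
            refine Submodule.subset_span ⟨A.α g a', g * g', G.mul_mem hg hg', T.mul_mem hT hT',
              y, hy, ?_⟩
            rw [A.aut g hg hT, A.mul g hg g' hg']
          | zero => rw [map_zero]; exact J.zero_mem
          | add x y _ _ hx hy => rw [map_add]; exact J.add_mem hx hy
          | smul c x _ hx => rw [map_smul]; exact J.smul_mem c hx
        have hJne : J ≠ ⊥ := by
          intro hJ
          have hmem : ψ y0 ∈ J := by
            refine Submodule.subset_span ⟨1, 1, G.one_mem, T.one_mem, y0, hy0, ?_⟩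
            rw [A.one, Matrix.one_mul]
          rw [hJ, Submodule.mem_bot] at hmem
          exact hy0n (hψinj (by rw [hmem, map_zero]))
        have hJtop : J = ⊤ := (A.irr J hJ1 hJ2).resolve_left hJne
        have key : ∀ x ∈ J, ∃ z ∈ I, p * x * p = ψ z := by
          intro x hx
          induction hx using Submodule.span_induction with
          | mem x hx =>
            obtain ⟨a, g, hg, hT, y, hy, rfl⟩ := hx
            by_cases hgG1 : g ∈ G1
            · refine ⟨θ a * β g y, hI _ _ (hst g hgG1 hT y hy), ?_⟩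
              have e1 : A.α g (ψ y) = ψ (β g y) := (hψβ g hgG1 y).symm
              rw [e1, hψmul, hψθ]
              calc p * (a * ψ (β g y)) * p = p * a * (ψ (β g y) * p) := by
                    simp only [Matrix.mul_assoc]
                _ = p * a * ψ (β g y) := by rw [hψp]
                _ = p * a * (p * ψ (β g y)) := by rw [hpψ]
                _ = p * a * p * ψ (β g y) := by simp only [Matrix.mul_assoc]
            · refine ⟨0, I.zero_mem, ?_⟩
              have e1 : A.α g (ψ y) * p = 0 := by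
                rw [← hψp y, A.aut g hg hT, Matrix.mul_assoc, horth g hg hT hgG1, Matrix.mul_zero]
              rw [map_zero]
              calc p * (a * A.α g (ψ y)) * p = p * a * (A.α g (ψ y) * p) := by
                    simp only [Matrix.mul_assoc]
                _ = 0 := by rw [e1, Matrix.mul_zero]
          | zero => exact ⟨0, I.zero_mem, by simp⟩
          | add x y _ _ hx hy =>
            obtain ⟨z, hz, hz'⟩ := hx
            obtain ⟨w, hw, hw'⟩ := hy
            exact ⟨z + w, I.add_mem hz hw, by rw [map_add, ← hz', ← hw', mul_add, add_mul]⟩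
          | smul c x _ hx =>
            obtain ⟨z, hz, hz'⟩ := hx
            exact ⟨c • z, I.smul_mem c hz, by rw [map_smul, ← hz']; simp⟩
        obtain ⟨z, hz, hz'⟩ := key p (by rw [hJtop]; trivial)
        have hz1 : z = 1 := by
          apply hψinj
          rw [← hz', hψ1, hp, hp]
        rw [hz1] at hz
        rw [Submodule.eq_top_iff']
        intro a
        have := hI a 1 hz
        rwa [mul_one] at this }
  refine ⟨B, ψ, hψinj, hψmul, hψ1, ?_, ?_⟩
  · intro a ha
    exact ⟨θ a, by rw [hψθ, ha]⟩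
  · intro g hg y
    exact hψβ g hg y

end Pool.Agent.Helper44.S3
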