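import Pool.Agent.Helper44.S3.CX

set_option autoImplicit false
open scoped BigOperators MonoidAlgebra
open Classical

namespace Pool.Agent.Helper44.S3

open Pool.Agent.Helper36.NB

variable {Γ : Type} [Group Γ] [Finite Γ] {T G K H M : Subgroup Γ} {k : Type} [Field k] {n : ℕ}

/-- Orthogonal non-zero idempotents are linearly independent. -/
private theorem dd_li {ℓ : ℕ} (p : Fin ℓ → Mt k n)
    (hpp : ∀ i j, p i * p j = if i = j then p i else 0) (hp0 : ∀ i, p i ≠ 0) :
    LinearIndependent k p := by
  rw [Fintype.linearIndependent_iff]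
  intro c hc j
  have h1 : (∑ i, c i • p i) * p j = c j • p j := by
    rw [Finset.sum_mul]
    rw [Finset.sum_eq_single j]
    · rw [smul_mul_assoc, hpp, if_pos rfl]
    · intro i _ hij
      rw [smul_mul_assoc, hpp, if_neg hij, smul_zero]
    · intro h
      exact absurd (Finset.mem_univ j) h
  rw [hc, zero_mul] at h1
  rcases smul_eq_zero.mp h1.symm with h | h
  · exact h
  · exact absurd h (hp0 j)

/-- DD (hint). The `p i` form a basis of `A.Z M` (orthogonal non-zero idempotents), so
`finrank (A.Z M) = ℓ`; `α_y` permutes them by `π y`. Compare `mono_rank` for this basis with `mono_Z`. -/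
theorem idem_cneg [CharP k 2] (A : StarAct T G k n) {r : ℕ}
    (hM : Chief T G K M r) (hKn : Norm G K) (hK : ∀ g ∈ K, A.Triv g) {ℓ : ℕ}
    (p : Fin ℓ → Mt k n) (hpp : ∀ i j, p i * p j = if i = j then p i else 0)
    (hp0 : ∀ i, p i ≠ 0) (hpZ : A.Z M = Submodule.span k (Set.range p))
    (hℓ : ℓ * Nat.card K = Nat.card M) (π : Γ → Fin ℓ → Fin ℓ)
    (hπ : ∀ g ∈ G, ∀ i, A.α g (p i) = p (π g i)) {y : Γ} (hy : y ∈ G) (hyT : y ∉ T)
    (hy2 : y * y = 1) :
    Nat.card {i : Fin ℓ // π y i = i} * Nat.card K = cneg M K y := by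
  have hli := dd_li p hpp hp0
  have hfr : Module.finrank k (A.Z M) = ℓ := by
    rw [hpZ, finrank_span_eq_card hli, Fintype.card_fin]
  have hZ : Module.finrank k (A.Z M) * Nat.card K = Nat.card M := by rw [hfr, hℓ]
  have key := mono_Z A hM hKn hK hZ hy hyT hy2
  rw [hpZ] at key
  have hst : ∀ x ∈ Submodule.span k (Set.range p), A.α y x ∈ Submodule.span k (Set.range p) := by
    intro x hx
    induction hx using Submodule.span_induction with
    | mem x hx =>
      obtain ⟨i, rfl⟩ := hx
      rw [hπ y hy]
      exact Submodule.subset_span ⟨_, rfl⟩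
    | zero => rw [map_zero]; exact Submodule.zero_mem _
    | add a b _ _ ha hb => rw [map_add]; exact Submodule.add_mem _ ha hb
    | smul c a _ ha => rw [map_smul]; exact Submodule.smul_mem _ _ ha
  have hinv : ∀ a, A.α y (A.α y a) = a := by
    intro a
    rw [← A.mul y hy y hy, hy2, A.one]
  have hr := mono_rank ((A.α y).restrict hst) (Module.Basis.span hli) (π y) (fun _ => (1 : k))
    (by
      intro i
      apply Subtype.ext
      rw [LinearMap.restrict_apply, one_smul]
      simp only [Module.Basis.span_apply]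
      exact hπ y hy i)
    (by
      intro v
      apply Subtype.ext
      simp only [LinearMap.restrict_apply]
      exact hinv v)
  have hmap : Submodule.map (Submodule.span k (Set.range p)).subtype
      (LinearMap.range ((A.α y).restrict hst + LinearMap.id)) =
      Submodule.map (A.α y + LinearMap.id) (Submodule.span k (Set.range p)) := by
    ext x
    constructor
    · rintro ⟨z, ⟨w, rfl⟩, rfl⟩
      exact ⟨w, w.2, rfl⟩
    · rintro ⟨w, hw, rfl⟩
      exact ⟨_, ⟨⟨w, hw⟩, rfl⟩, rfl⟩
  have hfin : Module.finrank k (LinearMap.range ((A.α y).restrict hst + LinearMap.id)) =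
      Module.finrank k (Submodule.map (A.α y + LinearMap.id) (Submodule.span k (Set.range p))) := by
    rw [← hmap, Submodule.finrank_map_subtype_eq]
  rw [hfin, Fintype.card_fin] at hr
  have h3 := congrArg (fun t => t * Nat.card K) hr
  simp only [add_mul] at h3
  rw [hℓ] at h3
  omega

end Pool.Agent.Helper44.S3
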