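import Pool.Agent.Helper44.S3.DA
import Pool.Agent.Helper44.S3.DB
import Pool.Agent.Helper44.S3.DC
import Pool.Agent.Helper44.S3.DD

set_option autoImplicit false
open scoped BigOperators MonoidAlgebra
open Classical

namespace Pool.Agent.Helper44.S3

open Pool.Agent.Helper36.NB

variable {Γ : Type} [Group Γ] [Finite Γ] {T G K H M : Subgroup Γ} {k : Type} [Field k] {n : ℕ}

omit [Finite Γ] in
/-- Counting elements of `G` by the image of the point `i₀`. -/
private theorem count_aux {G G1 : Subgroup Γ} {ℓ : ℕ} (π : Γ → Fin ℓ → Fin ℓ) (i₀ : Fin ℓ)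
    (hmul : ∀ g ∈ G, ∀ h ∈ G, ∀ i, π (g * h) i = π g (π h i))
    (hone : ∀ i, π 1 i = i) (htr : ∀ j, ∃ g ∈ G, π g i₀ = j)
    (hG1 : ∀ g, g ∈ G1 ↔ g ∈ G ∧ π g i₀ = i₀) (P : Fin ℓ → Prop) :
    Nat.card {g : Γ // g ∈ G ∧ P (π g i₀)} = Nat.card {i : Fin ℓ // P i} * Nat.card G1 := by
  choose s hs hsi using htr
  rw [← Nat.card_prod]
  refine Nat.card_congr
    { toFun := fun g => (⟨π g.1 i₀, g.2.2⟩, ⟨(s (π g.1 i₀))⁻¹ * g.1, ?_⟩)
      invFun := fun x => ⟨s x.1.1 * x.2.1, ?_, ?_⟩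
      left_inv := ?_
      right_inv := ?_ }
  · rw [hG1]
    refine ⟨G.mul_mem (G.inv_mem (hs _)) g.2.1, ?_⟩
    rw [hmul _ (G.inv_mem (hs _)) _ g.2.1]
    have h1 : π (s (π g.1 i₀))⁻¹ (π (s (π g.1 i₀)) i₀) = i₀ := by
      rw [← hmul _ (G.inv_mem (hs _)) _ (hs _), inv_mul_cancel, hone]
    rw [hsi] at h1
    exact h1
  · exact G.mul_mem (hs _) ((hG1 _).1 x.2.2).1
  · rw [hmul _ (hs _) _ ((hG1 _).1 x.2.2).1, ((hG1 _).1 x.2.2).2, hsi]
    exact x.1.2
  · rintro ⟨g, hg⟩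
    simp
  · rintro ⟨⟨i, hi⟩, ⟨x, hx⟩⟩
    have h1 : π (s i * x) i₀ = i := by
      rw [hmul _ (hs _) _ ((hG1 _).1 hx).1, ((hG1 _).1 hx).2, hsi]
    ext
    · simp [h1]
    · simp [h1]

/-- A group acting through a `2`-group on an odd number of points fixes one of them. -/
private theorem fix_aux {G H K : Subgroup Γ} {ℓ : ℕ} (π : Γ → Fin ℓ → Fin ℓ)
    (hmul : ∀ g ∈ G, ∀ h ∈ G, ∀ i, π (g * h) i = π g (π h i))
    (hone : ∀ i, π 1 i = i) (hHG : H ≤ G) (hKH : K ≤ H)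
    (hK : ∀ g ∈ K, ∀ i, π g i = i) (hc : ∃ s : ℕ, Nat.card H = 2 ^ s * Nat.card K)
    (hℓ : Odd ℓ) : ∃ i, ∀ g ∈ H, π g i = i := by
  obtain ⟨s, hs⟩ := hc
  let f : H →* Equiv.Perm (Fin ℓ) :=
    { toFun := fun g =>
        { toFun := π g.1
          invFun := π (g.1)⁻¹
          left_inv := fun i => by
            rw [← hmul _ (G.inv_mem (hHG g.2)) _ (hHG g.2), inv_mul_cancel, hone]
          right_inv := fun i => by
            rw [← hmul _ (hHG g.2) _ (G.inv_mem (hHG g.2)), mul_inv_cancel, hone] }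
      map_one' := by
        ext i
        simp [hone]
      map_mul' := fun g h => by
        ext i
        simp [hmul _ (hHG g.2) _ (hHG h.2)] }
  have hf : ∀ g : H, ∀ i, f g i = π g.1 i := fun g i => rfl
  have hker : K.subgroupOf H ≤ f.ker := by
    intro g hg
    rw [MonoidHom.mem_ker]
    ext i
    rw [hf, hK _ (Subgroup.mem_subgroupOf.1 hg)]
    rfl
  have hdvd : Nat.card K ∣ Nat.card f.ker := by
    have h1 : Nat.card (K.subgroupOf H) = Nat.card K :=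
      Nat.card_congr (Subgroup.subgroupOfEquivOfLe hKH).toEquiv
    rw [← h1]
    exact Subgroup.card_dvd_of_le hker
  have hcard : Nat.card f.ker * Nat.card f.range = Nat.card H := by
    have h1 := Subgroup.card_mul_index f.ker
    rwa [Subgroup.index_ker] at h1
  have hpg : IsPGroup 2 f.range := by
    obtain ⟨t, ht⟩ := hdvd
    have hKpos : 0 < Nat.card K := Nat.card_pos
    have h2 : t * Nat.card f.range = 2 ^ s := by
      have h3 : Nat.card K * (t * Nat.card f.range) = Nat.card K * 2 ^ s := by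
        rw [← mul_assoc, ← ht, hcard, hs, mul_comm]
      exact Nat.eq_of_mul_eq_mul_left hKpos h3
    have h3 : Nat.card f.range ∣ 2 ^ s := Dvd.intro_left t h2
    obtain ⟨j, -, hj⟩ := (Nat.dvd_prime_pow Nat.prime_two).1 h3
    exact IsPGroup.of_card hj
  have : Fact (Nat.Prime 2) := ⟨Nat.prime_two⟩
  have hne : (MulAction.fixedPoints f.range (Fin ℓ)).Nonempty := by
    apply hpg.nonempty_fixed_point_of_prime_not_dvd_card
    rw [Nat.card_eq_fintype_card, Fintype.card_fin]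
    intro h2
    exact (Nat.not_even_iff_odd.2 hℓ) (even_iff_two_dvd.2 h2)
  obtain ⟨i, hi⟩ := hne
  refine ⟨i, fun g hg => ?_⟩
  have h1 := hi ⟨f ⟨g, hg⟩, ⟨_, rfl⟩⟩
  exact h1

/-- DE (assembly; hint). Take `p`, `π`, `b` from `exists_idems`, `idem_action`; `n = ℓ b` is odd, so `ℓ` is odd.
`π` defines an action of `G` on `Fin ℓ` (the `p i` are different; `A.mul`), `K` acts trivially, every `H`-orbit
has size `|H : H_i|`, a divisor of `|H : K| = 2 ^ s`, so `H` fixes some `i₀`. `G1` = stabiliser of `i₀` in `G`,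
`|G| = ℓ |G1|`. `M ≤ G1`: `p i₀ ∈ A.Z M` commutes with the implementing matrices of `M`
(`A.Comm`). `B` from `corner_star`; `M` acts trivially on it because `u p = c p`, `p u = u p`. Last
statement: `#{i | π y i = i} * |G1| = cnt G G1 y` by counting `g ∈ G` with `π y (π g i₀) = π g i₀`, then
`idem_cneg`. -/
theorem step_comm [IsAlgClosed k] [CharP k 2] (A : StarAct T G k n) {r : ℕ}
    (h : Sit T G K H) (hM : Chief T G K M r) (hr : r ≠ 2) (hK : ∀ g ∈ K, A.Triv g)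
    (hC : A.Comm M) (hn : Odd n) :
    ∃ (ℓ b : ℕ) (G1 : Subgroup Γ) (B : StarAct T G1 k b), n = ℓ * b ∧ H ≤ G1 ∧ M ≤ G1 ∧
      G1 ≤ G ∧ Nat.card G = ℓ * Nat.card G1 ∧ (∀ m ∈ M, B.Triv m) ∧
      ℓ * Nat.card K ≤ Nat.card M ∧
      (ℓ * Nat.card K = Nat.card M → ∀ y ∈ G, y ∉ T → y * y = 1 →
        cnt G G1 y * Nat.card K = cneg M K y * Nat.card G1) := by
  have hn0 : 0 < n := hn.pos
  obtain ⟨ℓ, p, hpp, hp0, hp1, hpZ, hsc, hle⟩ := exists_idems A hM hr hK hC hn0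
  obtain ⟨π, hπ, htr, b, hrk, hnb⟩ := idem_action A hM.norm hM.MG hn0 p hpp hp0 hp1 hpZ
  have hpinj : ∀ i j, p i = p j → i = j := by
    intro i j hij
    by_contra hne
    have h1 := hpp i j
    rw [if_neg hne, ← hij, hpp i i, if_pos rfl] at h1
    exact hp0 i h1
  have hmul : ∀ g ∈ G, ∀ h ∈ G, ∀ i, π (g * h) i = π g (π h i) := by
    intro g hg g' hg' i
    apply hpinj
    rw [← hπ _ (G.mul_mem hg hg'), A.mul g hg g' hg', hπ _ hg', hπ _ hg]
  have hone : ∀ i, π 1 i = i := by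
    intro i
    apply hpinj
    rw [← hπ _ G.one_mem, A.one]
  have hoddℓ : Odd ℓ := by
    rw [hnb, Nat.odd_mul] at hn
    exact hn.1
  have hb0 : 0 < b := by
    rw [hnb, Nat.odd_mul] at hn
    exact hn.2.pos
  have hKπ : ∀ g ∈ K, ∀ i, π g i = i := by
    intro g hg i
    apply hpinj
    rw [← hπ _ (h.HG (h.KH hg)), hK g hg]
  obtain ⟨i₀, hi₀⟩ := fix_aux π hmul hone h.HG h.KH hKπ h.Hcard hoddℓ
  let G1 : Subgroup Γ :=
    { carrier := {g | g ∈ G ∧ π g i₀ = i₀}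
      mul_mem' := by
        rintro a c ⟨ha, ha'⟩ ⟨hc, hc'⟩
        exact ⟨G.mul_mem ha hc, by rw [hmul _ ha _ hc, hc', ha']⟩
      one_mem' := ⟨G.one_mem, hone _⟩
      inv_mem' := by
        rintro a ⟨ha, ha'⟩
        refine ⟨G.inv_mem ha, ?_⟩
        have h1 : π a⁻¹ (π a i₀) = i₀ := by
          rw [← hmul _ (G.inv_mem ha) _ ha, inv_mul_cancel, hone]
        rwa [ha'] at h1 }
  have hG1 : ∀ g, g ∈ G1 ↔ g ∈ G ∧ π g i₀ = i₀ := fun g => Iff.rfl
  have hG1p : ∀ g, g ∈ G1 ↔ g ∈ G ∧ A.α g (p i₀) = p i₀ := by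
    intro g
    rw [hG1]
    constructor
    · rintro ⟨hg, hg'⟩
      exact ⟨hg, by rw [hπ _ hg, hg']⟩
    · rintro ⟨hg, hg'⟩
      exact ⟨hg, hpinj _ _ (by rw [← hπ _ hg, hg'])⟩
  have hpi : p i₀ * p i₀ = p i₀ := by rw [hpp, if_pos rfl]
  obtain ⟨B, ψ, hψi, hψm, hψ1, -, hψB⟩ := corner_star A (G1 := G1) (p i₀) hpi hG1p
    (fun g hg hgT hgG => by
      rw [hπ _ hg, hpp, if_neg]
      intro hh
      exact hgG ((hG1 g).2 ⟨hg, hh⟩)) (hrk i₀) hb0
  -- the implementing matrices of `M` commute with `p i₀`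
  have hcomm : ∀ m ∈ M, ∀ u, A.Impl m u → u * p i₀ = p i₀ * u := by
    intro m hm u hu
    have h1 : p i₀ ∈ A.Z M := by
      rw [hpZ]
      exact Submodule.subset_span ⟨i₀, rfl⟩
    unfold StarAct.Z at h1
    refine Submodule.span_induction (p := fun x _ => u * x = x * u) ?_ ?_ ?_ ?_ h1
    · rintro x ⟨m', hm', hx⟩
      exact hC m hm m' hm' u x hu hx
    · simp
    · intro x y _ _ hx hy
      rw [mul_add, add_mul, hx, hy]
    · intro c x _ hx
      rw [mul_smul_comm, smul_mul_assoc, hx]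
  have hMG1 : M ≤ G1 := by
    intro m hm
    rw [hG1p]
    refine ⟨hM.MG hm, ?_⟩
    obtain ⟨u, hu⟩ := exists_impl A (hM.MG hm) (hM.MT hm)
    have h1 := hu.2 (p i₀)
    rw [hcomm m hm u hu] at h1
    exact hu.1.mul_left_injective h1
  have hcount := count_aux (G := G) (G1 := G1) π i₀ hmul hone
    (fun j => by
      obtain ⟨g, hg, -, hgj⟩ := htr i₀ j
      exact ⟨g, hg, hgj⟩) hG1
  refine ⟨ℓ, b, G1, B, hnb, ?_, hMG1, ?_, ?_, ?_, hle, ?_⟩
  · intro g hg
    exact ⟨h.HG hg, hi₀ g hg⟩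
  · intro g hg
    exact hg.1
  · have h1 := hcount (fun _ => True)
    have h2 : Nat.card {i : Fin ℓ // True} = ℓ := by
      rw [Nat.card_congr (Equiv.subtypeUnivEquiv (fun _ => trivial)), Nat.card_eq_fintype_card,
        Fintype.card_fin]
    have h3 : Nat.card {g : Γ // g ∈ G ∧ True} = Nat.card G :=
      Nat.card_congr (Equiv.subtypeEquivRight (fun g => by simp))
    rw [h2, h3] at h1
    exact h1
  · intro m hm y
    apply hψi
    rw [hψB m (hMG1 hm)]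
    obtain ⟨u, hu⟩ := exists_impl A (hM.MG hm) (hM.MT hm)
    obtain ⟨c, hc⟩ := hsc m hm u hu i₀
    have hl : p i₀ * ψ y = ψ y := by rw [← hψ1, ← hψm, one_mul]
    have hr' : ψ y * p i₀ = ψ y := by rw [← hψ1, ← hψm, mul_one]
    have h1 := hu.2 (ψ y)
    have h2 : u * ψ y = c • ψ y := by
      conv_lhs => rw [← hl]
      rw [← mul_assoc, hc, smul_mul_assoc, hl]
    have h3 : ψ y * u = c • ψ y := by
      conv_lhs => rw [← hr']
      rw [mul_assoc, ← hcomm m hm u hu, hc, mul_smul_comm, hr']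
    rw [h2, ← h3] at h1
    exact hu.1.mul_left_injective h1
  · intro hℓ y hy hyT hy2
    have h1 := idem_cneg A hM h.norm hK p hpp hp0 hpZ hℓ π hπ hy hyT hy2
    have h2 : cnt G G1 y = Nat.card {i : Fin ℓ // π y i = i} * Nat.card G1 := by
      rw [← hcount (fun i => π y i = i)]
      unfold cnt
      refine Nat.card_congr (Equiv.subtypeEquivRight (fun g => ?_))
      constructor
      · rintro ⟨hg, hg'⟩
        refine ⟨hg, ?_⟩
        have h3 := ((hG1 _).1 hg').2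
        rw [hmul _ (G.mul_mem (G.inv_mem hg) hy) _ hg, hmul _ (G.inv_mem hg) _ hy] at h3
        have h4 : π g (π g⁻¹ (π y (π g i₀))) = π g i₀ := by rw [h3]
        rwa [← hmul _ hg _ (G.inv_mem hg), mul_inv_cancel, hone] at h4
      · rintro ⟨hg, hg'⟩
        refine ⟨hg, (hG1 _).2 ⟨G.mul_mem (G.mul_mem (G.inv_mem hg) hy) hg, ?_⟩⟩
        rw [hmul _ (G.mul_mem (G.inv_mem hg) hy) _ hg, hmul _ (G.inv_mem hg) _ hy, hg',
          ← hmul _ (G.inv_mem hg) _ hg, inv_mul_cancel, hone]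
    rw [h2, ← h1]
    ring

end Pool.Agent.Helper44.S3
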