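import Pool.Agent.Helper44.S3.Defs

set_option autoImplicit false
open scoped BigOperators MonoidAlgebra
open Classical

namespace Pool.Agent.Helper44.S3

open Pool.Agent.Helper36.NB

variable {Γ : Type} [Group Γ] [Finite Γ] {T G K H M : Subgroup Γ}

omit [Finite Γ] in
private theorem card_rel {A B : Subgroup Γ} (h : A ≤ B) :
    Nat.card B = A.relIndex B * Nat.card A := by
  have h1 := Subgroup.card_mul_index (A.subgroupOf B)
  have h2 : Nat.card (A.subgroupOf B) = Nat.card A :=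
    Nat.card_congr (Subgroup.subgroupOfEquivOfLe h).toEquiv
  rw [h2] at h1
  unfold Subgroup.relIndex
  rw [← h1, mul_comm]

omit [Finite Γ] in
private theorem mem_prod {G H M : Subgroup Γ} (hH : H ≤ G) (hN : Norm G M) (x : Γ) :
    x ∈ H ⊔ M ↔ ∃ h ∈ H, ∃ m ∈ M, x = h * m := by
  constructor
  · intro hx
    let P : Subgroup Γ :=
      { carrier := {x | ∃ h ∈ H, ∃ m ∈ M, x = h * m}
        one_mem' := ⟨1, H.one_mem, 1, M.one_mem, by simp⟩
        mul_mem' := by
          rintro a b ⟨h, hh, m, hm, rfl⟩ ⟨h', hh', m', hm', rfl⟩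
          refine ⟨h * h', H.mul_mem hh hh', (h'⁻¹ * m * h') * m', ?_, ?_⟩
          · refine M.mul_mem ?_ hm'
            have := hN h'⁻¹ (G.inv_mem (hH hh')) m hm
            simpa using this
          · group
        inv_mem' := by
          rintro a ⟨h, hh, m, hm, rfl⟩
          refine ⟨h⁻¹, H.inv_mem hh, h * m⁻¹ * h⁻¹, ?_, ?_⟩
          · exact hN h (hH hh) m⁻¹ (M.inv_mem hm)
          · group }
    have hle : H ⊔ M ≤ P := by
      refine sup_le ?_ ?_
      · intro h hh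
        exact ⟨h, hh, 1, M.one_mem, by simp⟩
      · intro m hm
        exact ⟨1, H.one_mem, m, hm, by simp⟩
    exact hle hx
  · rintro ⟨h, hh, m, hm, rfl⟩
    exact (H ⊔ M).mul_mem (le_sup_left (a := H) hh) (le_sup_right (a := H) hm)

omit [Finite Γ] in
private theorem card_sof {A B : Subgroup Γ} (h : A ≤ B) :
    Nat.card (A.subgroupOf B) = Nat.card A :=
  Nat.card_congr (Subgroup.subgroupOfEquivOfLe h).toEquiv

omit [Finite Γ] in
private theorem card_sup_mul {G H M : Subgroup Γ} (hH : H ≤ G) (hM : M ≤ G) (hN : Norm G M) :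
    Nat.card (H ⊔ M : Subgroup Γ) * Nat.card (M ⊓ H : Subgroup Γ) = Nat.card H * Nat.card M := by
  have hn : (M.subgroupOf G).Normal := by
    constructor
    intro n hn g
    rw [Subgroup.mem_subgroupOf] at hn ⊢
    simpa using hN g g.2 n hn
  have h1 : Nat.card (H ⊔ M : Subgroup Γ) =
      Nat.card (H.subgroupOf G ⊔ M.subgroupOf G : Subgroup G) := by
    rw [← Subgroup.subgroupOf_sup hH hM, card_sof (sup_le hH hM)]
  have h2 : Nat.card (M ⊓ H : Subgroup Γ) =
      Nat.card (M.subgroupOf G ⊓ H.subgroupOf G : Subgroup G) := by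
    rw [← card_sof (inf_le_of_left_le hM : M ⊓ H ≤ G)]
    rfl
  have h3 := card_rel (A := M.subgroupOf G) (B := H.subgroupOf G ⊔ M.subgroupOf G) le_sup_right
  have h4 := card_rel (A := M.subgroupOf G ⊓ H.subgroupOf G) (B := H.subgroupOf G) inf_le_right
  rw [Subgroup.inf_relIndex_right] at h4
  rw [Subgroup.relIndex_sup_right] at h3
  rw [h1, h2, h3, ← card_sof hH, ← card_sof hM, h4]
  ring

private theorem index_pow {r : ℕ} (hM : Chief T G K M r) :
    ∃ t : ℕ, K.relIndex M = r ^ t := by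
  have hn : (K.subgroupOf M).Normal := by
    constructor
    intro n hn g
    rw [Subgroup.mem_subgroupOf] at hn ⊢
    have h1 := hM.comm g g.2 n n.2
    have h2 := K.mul_mem h1 hn
    simpa using h2
  have : Fact r.Prime := ⟨hM.prime⟩
  have hp : IsPGroup r (M ⧸ K.subgroupOf M) := by
    intro x
    refine ⟨1, ?_⟩
    induction x using QuotientGroup.induction_on with
    | H z =>
      rw [← QuotientGroup.mk_pow, QuotientGroup.eq_one_iff, Subgroup.mem_subgroupOf]
      simpa using hM.pow z z.2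
  obtain ⟨t, ht⟩ := IsPGroup.iff_card.1 hp
  exact ⟨t, ht⟩

/-- GB (hint). Every element of `M / K` has order dividing the prime `r`, so `|M : K|` is a power of `r`.
For `r = 2`: `H M` is a subgroup (`M` is normalised by `G ≥ H`), `|H M : H| = |M : M ∩ H|` divides
`|M : K|` and the odd number `|G : H|`, so `M ≤ H`. -/
theorem chief_two_le (h : Sit T G K H) (hM : Chief T G K M 2) : M ≤ H := by
  obtain ⟨t, ht⟩ := index_pow hM
  obtain ⟨q, hq, hG⟩ := h.Gcard
  have hKi : K ≤ M ⊓ H := le_inf hM.KM h.KH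
  have hpos : ∀ A : Subgroup Γ, 0 < Nat.card A := fun A => Nat.card_pos
  -- |M : M ∩ H| divides 2 ^ t
  have e1 := card_rel hKi
  have e2 := card_rel (inf_le_left : M ⊓ H ≤ M)
  have e3 := card_rel hM.KM
  have d1 : (M ⊓ H).relIndex M ∣ 2 ^ t := by
    rw [← ht, ← Subgroup.relIndex_mul_relIndex K (M ⊓ H) M hKi inf_le_left]
    exact Dvd.intro_left _ rfl
  -- |HM : H| = |M : M ∩ H|
  have e4 := card_rel (le_sup_left : H ≤ H ⊔ M)
  have e5 := card_sup_mul h.HG hM.MG hM.norm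
  have e6 := card_rel (sup_le h.HG hM.MG : H ⊔ M ≤ G)
  have e7 : H.relIndex (H ⊔ M) = (M ⊓ H).relIndex M := by
    rw [e4, e2] at e5
    have h5 : H.relIndex (H ⊔ M) * (Nat.card H * Nat.card (M ⊓ H : Subgroup Γ)) =
        (M ⊓ H).relIndex M * (Nat.card H * Nat.card (M ⊓ H : Subgroup Γ)) := by
      calc _ = H.relIndex (H ⊔ M) * Nat.card H * Nat.card (M ⊓ H : Subgroup Γ) := by ring
        _ = _ := by rw [e5]; ring
    exact Nat.eq_of_mul_eq_mul_right (Nat.mul_pos (hpos _) (hpos _)) h5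
  have e8 : (H ⊔ M).relIndex G * H.relIndex (H ⊔ M) = q := by
    rw [e4, hG] at e6
    have h6 : (H ⊔ M).relIndex G * H.relIndex (H ⊔ M) * Nat.card H = q * Nat.card H := by
      rw [e6]; ring
    exact Nat.eq_of_mul_eq_mul_right (hpos _) h6
  have d2 : (M ⊓ H).relIndex M ∣ q := by
    rw [← e7, ← e8]
    exact Dvd.intro_left _ rfl
  have hco : Nat.Coprime (2 ^ t) q := Nat.Coprime.pow_left t (Nat.coprime_two_left.2 hq)
  have h1 : (M ⊓ H).relIndex M = 1 := Nat.eq_one_of_dvd_coprimes hco d1 d2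
  have h2 : M ≤ M ⊓ H := Subgroup.relIndex_eq_one.1 h1
  exact h2.trans inf_le_right

/-- For `r ≠ 2`: `|M ∩ H : K|` is a power of `2` and of `r`. -/
theorem chief_odd {r : ℕ} (h : Sit T G K H) (hM : Chief T G K M r) (hr : r ≠ 2) :
    M ⊓ H = K ∧ (∃ s : ℕ, Odd s ∧ Nat.card M = s * Nat.card K) ∧
      Nat.card (H ⊔ M : Subgroup Γ) * Nat.card K = Nat.card H * Nat.card M ∧
      (∀ x, x ∈ H ⊔ M ↔ ∃ h ∈ H, ∃ m ∈ M, x = h * m) ∧ Sit T G M (H ⊔ M) := by
  obtain ⟨t, ht⟩ := index_pow hM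
  obtain ⟨q, hq, hG⟩ := h.Gcard
  obtain ⟨s, hs⟩ := h.Hcard
  have hKi : K ≤ M ⊓ H := le_inf hM.KM h.KH
  have hpos : ∀ A : Subgroup Γ, 0 < Nat.card A := fun A => Nat.card_pos
  have hodd : Odd (r ^ t) := (hM.prime.odd_of_ne_two hr).pow
  have d1 : K.relIndex (M ⊓ H) ∣ r ^ t := by
    rw [← ht, ← Subgroup.relIndex_mul_relIndex K (M ⊓ H) M hKi inf_le_left]
    exact Dvd.intro _ rfl
  have e0 : K.relIndex H = 2 ^ s := by
    have := card_rel h.KH
    rw [hs] at this
    exact (Nat.eq_of_mul_eq_mul_right (hpos _) this).symm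
  have d2 : K.relIndex (M ⊓ H) ∣ 2 ^ s := by
    rw [← e0, ← Subgroup.relIndex_mul_relIndex K (M ⊓ H) H hKi inf_le_right]
    exact Dvd.intro _ rfl
  have hco : Nat.Coprime (r ^ t) (2 ^ s) :=
    (Nat.Coprime.pow_left s (Nat.coprime_two_left.2 hodd)).symm
  have h1 : K.relIndex (M ⊓ H) = 1 := Nat.eq_one_of_dvd_coprimes hco d1 d2
  have h2 : M ⊓ H = K := le_antisymm (Subgroup.relIndex_eq_one.1 h1) hKi
  have e3 := card_rel hM.KM
  have e5 := card_sup_mul h.HG hM.MG hM.norm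
  rw [h2] at e5
  have e4 := card_rel (le_sup_left : H ≤ H ⊔ M)
  have e6 := card_rel (sup_le h.HG hM.MG : H ⊔ M ≤ G)
  refine ⟨h2, ⟨r ^ t, hodd, by rw [e3, ht]⟩, e5, mem_prod h.HG hM.norm, ?_⟩
  refine ⟨le_sup_right, sup_le h.HG hM.MG, hM.MT, hM.norm, ⟨s, ?_⟩, ?_⟩
  · rw [hs] at e5
    refine Nat.eq_of_mul_eq_mul_right (hpos K) ?_
    rw [e5]; ring
  · refine ⟨(H ⊔ M).relIndex G, ?_, e6⟩
    have e8 : (H ⊔ M).relIndex G * H.relIndex (H ⊔ M) = q := by
      rw [e4, hG] at e6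
      have h6 : (H ⊔ M).relIndex G * H.relIndex (H ⊔ M) * Nat.card H = q * Nat.card H := by
        rw [e6]; ring
      exact Nat.eq_of_mul_eq_mul_right (hpos _) h6
    rw [← e8] at hq
    exact (Nat.odd_mul.1 hq).1

end Pool.Agent.Helper44.S3
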