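import Pool.Agent.Helper44.S3.GB

set_option autoImplicit false
open scoped BigOperators MonoidAlgebra
open Classical

namespace Pool.Agent.Helper44.S3

open Pool.Agent.Helper36.NB

variable {Γ : Type} [Group Γ] [Finite Γ] {T G K H M : Subgroup Γ}

omit [Finite Γ] in
/-- The quotient map of `G` modulo `K`. -/
private theorem gc_quot (hK : Norm G K) :
    ∃ (Q : Type) (_ : Group Q) (q : G →* Q), ∀ x : G, q x = 1 ↔ (x : Γ) ∈ K := by
  have hN : (K.subgroupOf G).Normal := ⟨fun x hx g => by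
    rw [Subgroup.mem_subgroupOf] at hx ⊢
    exact hK g g.2 x hx⟩
  refine ⟨G ⧸ K.subgroupOf G, inferInstance, QuotientGroup.mk' (K.subgroupOf G), fun x => ?_⟩
  rw [QuotientGroup.mk'_apply, QuotientGroup.eq_one_iff, Subgroup.mem_subgroupOf]

private theorem gc_alg {Q : Type} [Group Q] {α β : Q} {s r : ℕ} (hs : r = 2 * s + 1)
    (hα : α * α = 1) (hβ : β ^ r = 1) (h : α * β * (α * β) = 1) :
    (β ^ s)⁻¹ * (α * β) * β ^ s = α := by
  have hinv : α⁻¹ = α := inv_eq_of_mul_eq_one_left hα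
  have h1 : α * β * α⁻¹ = β⁻¹ := by
    rw [hinv]
    apply eq_inv_of_mul_eq_one_left
    rw [← h]
    group
  have h2 : α * β ^ s * α⁻¹ = (β ^ s)⁻¹ := by
    rw [← conj_pow, h1, inv_pow]
  have h3 : (β ^ s)⁻¹ * α = α * β ^ s := by
    rw [← h2]
    group
  calc (β ^ s)⁻¹ * (α * β) * β ^ s = ((β ^ s)⁻¹ * α) * β * β ^ s := by group
    _ = α * (β ^ s * β * β ^ s) := by rw [h3]; group
    _ = α * β ^ r := by
        rw [hs, ← pow_succ, ← pow_add]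
        congr 2
        ring
    _ = α := by rw [hβ, mul_one]

private theorem gc_exists {r : ℕ} (h : Sit T G K H) (hM : Chief T G K M r) (hr : r ≠ 2) {y' : Γ}
    (hy : y' ∈ H ⊔ M) (hy2 : y' * y' = 1) : ∃ m ∈ M, m⁻¹ * y' * m ∈ H := by
  obtain ⟨hinf, -, -, hmem, -⟩ := chief_odd h hM hr
  obtain ⟨a, ha, m1, hm1, rfl⟩ := (hmem y').1 hy
  obtain ⟨s, hs⟩ := hM.prime.odd_of_ne_two hr
  have haG : a ∈ G := h.HG ha
  have hmG : m1 ∈ G := hM.MG hm1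
  have hconj : a * m1 * a⁻¹ ∈ M := hM.norm a haG m1 hm1
  have haa : a * a ∈ K := by
    rw [← hinf]
    refine ⟨?_, H.mul_mem ha ha⟩
    have h1 : a * a = (a * m1 * a⁻¹)⁻¹ * m1⁻¹ := by
      have h2 : (a * m1 * a⁻¹) * (a * a) * m1 = 1 := by
        rw [← hy2]
        group
      have h3 : (a * m1 * a⁻¹) * (a * a) = m1⁻¹ := eq_inv_of_mul_eq_one_left h2
      rw [← h3]
      group
    rw [h1]
    exact M.mul_mem (M.inv_mem hconj) (M.inv_mem hm1)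
  obtain ⟨Q, hQ, q, hq⟩ := gc_quot (G := G) (K := K) h.norm
  set A : G := ⟨a, haG⟩ with hA
  set B : G := ⟨m1, hmG⟩ with hB
  have h1 : q A * q A = 1 := by
    rw [← map_mul, hq]
    exact haa
  have h2 : q B ^ r = 1 := by
    rw [← map_pow, hq]
    exact hM.pow m1 hm1
  have h3 : q A * q B * (q A * q B) = 1 := by
    rw [← map_mul, ← map_mul]
    have : A * B * (A * B) = 1 := Subtype.ext hy2
    rw [this, map_one]
  have h4 := gc_alg hs h1 h2 h3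
  have h5 : q (A⁻¹ * ((B ^ s)⁻¹ * (A * B) * B ^ s)) = 1 := by
    rw [map_mul, map_inv, map_mul, map_mul, map_inv, map_mul, map_pow, h4, inv_mul_cancel]
  have h6 := (hq _).1 h5
  have h7 : a⁻¹ * ((m1 ^ s)⁻¹ * (a * m1) * m1 ^ s) ∈ K := h6
  refine ⟨m1 ^ s, M.pow_mem hm1 s, ?_⟩
  have h8 := H.mul_mem ha (h.KH h7)
  rwa [mul_inv_cancel_left] at h8

private theorem gc_fib {r : ℕ} (h : Sit T G K H) (hM : Chief T G K M r) (hr : r ≠ 2) {y' : Γ}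
    (hy : y' ∈ H ⊔ M) (hy2 : y' * y' = 1) :
    Nat.card {m : Γ // m ∈ M ∧ m⁻¹ * y' * m ∈ H} = cpos M K y' := by
  obtain ⟨hinf, -, -, -, -⟩ := chief_odd h hM hr
  obtain ⟨m0, hm0, hh0⟩ := gc_exists h hM hr hy hy2
  obtain ⟨Q, hQ, q, hq⟩ := gc_quot (G := G) (K := K) h.norm
  have key : ∀ n ∈ M, ((m0 * n)⁻¹ * y' * (m0 * n) ∈ H ↔ y' * n * y'⁻¹ * n⁻¹ ∈ K) := by
    intro n hn
    set a : Γ := m0⁻¹ * y' * m0 with ha
    have haG : a ∈ G := h.HG hh0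
    have hnG : n ∈ G := hM.MG hn
    have hm0G : m0 ∈ G := hM.MG hm0
    have hy' : y' = m0 * a * m0⁻¹ := by
      rw [ha]
      group
    have hc : a * n * a⁻¹ ∈ M := hM.norm a haG n hn
    have e1 : (m0 * n)⁻¹ * y' * (m0 * n) = n⁻¹ * (a * n * a⁻¹) * a := by
      rw [ha]
      group
    have e2 : (m0 * n)⁻¹ * y' * (m0 * n) ∈ H ↔ n⁻¹ * (a * n * a⁻¹) ∈ K := by
      rw [e1, H.mul_mem_cancel_right hh0]
      constructor
      · intro hx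
        rw [← hinf]
        exact ⟨M.mul_mem (M.inv_mem hn) hc, hx⟩
      · intro hx
        exact h.KH hx
    rw [e2]
    have f1 : n⁻¹ * (a * n * a⁻¹) ∈ K ↔
        q ((⟨n, hnG⟩ : G)⁻¹ * ((⟨a, haG⟩ : G) * ⟨n, hnG⟩ * (⟨a, haG⟩ : G)⁻¹)) = 1 := by
      rw [hq]
      rfl
    have f2 : y' * n * y'⁻¹ * n⁻¹ ∈ K ↔
        q ((⟨m0, hm0G⟩ * ⟨a, haG⟩ * (⟨m0, hm0G⟩ : G)⁻¹) * ⟨n, hnG⟩ *
          (⟨m0, hm0G⟩ * ⟨a, haG⟩ * (⟨m0, hm0G⟩ : G)⁻¹)⁻¹ * (⟨n, hnG⟩ : G)⁻¹) = 1 := by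
      rw [hq, hy']
      rfl
    rw [f1, f2]
    simp only [map_mul, map_inv]
    set μ := q ⟨m0, hm0G⟩
    set η := q ⟨a, haG⟩
    set ν := q ⟨n, hnG⟩
    have hcomm : ∀ x y : G, (x : Γ) ∈ M → (y : Γ) ∈ M → q x * q y = q y * q x := by
      intro x y hx hy
      have h1 : q (x * y * x⁻¹ * y⁻¹) = 1 := by
        rw [hq]
        exact hM.comm x hx y hy
      rw [map_mul, map_mul, map_mul, map_inv, map_inv] at h1
      exact mul_inv_eq_iff_eq_mul.1 (mul_inv_eq_one.1 h1)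
    have c1 : μ * ν = ν * μ := hcomm _ _ hm0 hn
    have c2 : μ * (η * ν * η⁻¹) = (η * ν * η⁻¹) * μ := by
      have := hcomm ⟨m0, hm0G⟩ (⟨a, haG⟩ * ⟨n, hnG⟩ * (⟨a, haG⟩ : G)⁻¹) hm0 hc
      simpa only [map_mul, map_inv] using this
    have c3 : μ * η * μ⁻¹ * ν * (μ * η * μ⁻¹)⁻¹ = η * ν * η⁻¹ := by
      calc μ * η * μ⁻¹ * ν * (μ * η * μ⁻¹)⁻¹
          = μ * η * μ⁻¹ * (ν * μ) * η⁻¹ * μ⁻¹ := by group
        _ = μ * (η * ν * η⁻¹) * μ⁻¹ := by rw [← c1]; group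
        _ = η * ν * η⁻¹ := by rw [c2]; group
    rw [c3, inv_mul_eq_one, mul_inv_eq_one, eq_comm]
  unfold cpos
  apply Nat.card_congr
  refine
    { toFun := fun m => ⟨m0⁻¹ * m.1, M.mul_mem (M.inv_mem hm0) m.2.1, ?_⟩
      invFun := fun n => ⟨m0 * n.1, M.mul_mem hm0 n.2.1, (key n.1 n.2.1).2 n.2.2⟩
      left_inv := fun m => Subtype.ext (by simp)
      right_inv := fun n => Subtype.ext (by simp) }
  apply (key _ (M.mul_mem (M.inv_mem hm0) m.2.1)).1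
  rw [mul_inv_cancel_left]
  exact m.2.2

omit [Finite Γ] in
private theorem gc_conj {r : ℕ} (h : Sit T G K H) (hM : Chief T G K M r) {y g : Γ}
    (hg : g ∈ G) : cpos M K (g⁻¹ * y * g) = cpos M K y := by
  unfold cpos
  apply Nat.card_congr
  refine
    { toFun := fun m => ⟨g * m.1 * g⁻¹, hM.norm g hg _ m.2.1, ?_⟩
      invFun := fun m => ⟨g⁻¹ * m.1 * g, ?_, ?_⟩
      left_inv := fun m => Subtype.ext (by
        change g⁻¹ * (g * m.1 * g⁻¹) * g = m.1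
        group)
      right_inv := fun m => Subtype.ext (by
        change g * (g⁻¹ * m.1 * g) * g⁻¹ = m.1
        group) }
  · have h1 := h.norm g hg _ m.2.2
    have h2 : y * (g * m.1 * g⁻¹) * y⁻¹ * (g * m.1 * g⁻¹)⁻¹ =
        g * (g⁻¹ * y * g * m.1 * (g⁻¹ * y * g)⁻¹ * (m.1)⁻¹) * g⁻¹ := by group
    rw [h2]
    exact h1
  · have h1 := hM.norm g⁻¹ (G.inv_mem hg) _ m.2.1
    rwa [inv_inv] at h1
  · have h1 := h.norm g⁻¹ (G.inv_mem hg) _ m.2.2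
    rw [inv_inv] at h1
    have h2 : g⁻¹ * y * g * (g⁻¹ * m.1 * g) * (g⁻¹ * y * g)⁻¹ * (g⁻¹ * m.1 * g)⁻¹ =
        g⁻¹ * (y * m.1 * y⁻¹ * (m.1)⁻¹) * g := by group
    rw [h2]
    exact h1

/-- GC (hint). Double counting of the pairs `(g, m)`, `g ∈ G`, `m ∈ M`, `(g m)⁻¹ y (g m) ∈ H`: on one hand
`(g, m) ↦ (g m, m)` gives `cnt G H y * |M|`. On the other hand such a `g` has `y' := g⁻¹ y g ∈ H ⊔ M`,
and for an involution (or `1`) `y' ∈ H ⊔ M` the number of `m ∈ M` with `m⁻¹ y' m ∈ H` is `cpos M K y'`,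
which is `cpos M K y` (conjugate by `g`). Proof of the last claim: `y' = h m₁`; `m⁻¹ y' m = h (h⁻¹ m⁻¹ h) m₁ m`
is in `H` iff `(h⁻¹ m⁻¹ h) m₁ m ∈ H ⊓ M = K`. Write `M / K` additively (`Chief.comm`), `τ(m) = h⁻¹ m h`
(= `y'⁻¹ m y'` mod `K`): the condition is `τ(m) - m = m₁`. From `y' y' = 1`: `h h ∈ K`, `τ τ = 1`,
`τ(m₁) = - m₁`; `|M : K|` is odd, so `m = - m₁ / 2` is a solution, and the solutions form a coset of
`{m | τ(m) = m}`, whose number of elements is `cpos M K y'`. -/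
theorem cnt_mul {r : ℕ} (h : Sit T G K H) (hM : Chief T G K M r) (hr : r ≠ 2) {y : Γ}
    (hy : y ∈ G) (hy2 : y * y = 1) :
    cnt G H y * Nat.card M = cnt G (H ⊔ M) y * cpos M K y := by
  have hfib : ∀ g : {g : Γ // g ∈ G ∧ g⁻¹ * y * g ∈ H ⊔ M},
      Nat.card {m : Γ // m ∈ M ∧ m⁻¹ * (g.1⁻¹ * y * g.1) * m ∈ H} = cpos M K y := by
    intro g
    have h2 : (g.1⁻¹ * y * g.1) * (g.1⁻¹ * y * g.1) = 1 := by
      calc (g.1⁻¹ * y * g.1) * (g.1⁻¹ * y * g.1) = g.1⁻¹ * (y * y) * g.1 := by group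
        _ = 1 := by rw [hy2]; group
    rw [gc_fib h hM hr g.2.2 h2, gc_conj h hM g.2.1]
  have e : ({g : Γ // g ∈ G ∧ g⁻¹ * y * g ∈ H} × M) ≃
      (Σ g : {g : Γ // g ∈ G ∧ g⁻¹ * y * g ∈ H ⊔ M},
        {m : Γ // m ∈ M ∧ m⁻¹ * (g.1⁻¹ * y * g.1) * m ∈ H}) :=
    { toFun := fun p => ⟨⟨p.1.1 * (p.2 : Γ)⁻¹,
          G.mul_mem p.1.2.1 (G.inv_mem (hM.MG p.2.2)), by
            have h1 : (p.1.1 * (p.2 : Γ)⁻¹)⁻¹ * y * (p.1.1 * (p.2 : Γ)⁻¹) =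
                (p.2 : Γ) * (p.1.1⁻¹ * y * p.1.1) * (p.2 : Γ)⁻¹ := by group
            rw [h1]
            have h2 : (p.2 : Γ) ∈ H ⊔ M := Subgroup.mem_sup_right p.2.2
            exact (H ⊔ M).mul_mem ((H ⊔ M).mul_mem h2 (Subgroup.mem_sup_left p.1.2.2))
              ((H ⊔ M).inv_mem h2)⟩,
          ⟨p.2, p.2.2, by
            have h1 : (p.2 : Γ)⁻¹ * ((p.1.1 * (p.2 : Γ)⁻¹)⁻¹ * y * (p.1.1 * (p.2 : Γ)⁻¹)) * (p.2 : Γ) =
                p.1.1⁻¹ * y * p.1.1 := by group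
            rw [h1]
            exact p.1.2.2⟩⟩
      invFun := fun p => ⟨⟨p.1.1 * p.2.1, G.mul_mem p.1.2.1 (hM.MG p.2.2.1), by
            have h1 : (p.1.1 * p.2.1)⁻¹ * y * (p.1.1 * p.2.1) =
                p.2.1⁻¹ * (p.1.1⁻¹ * y * p.1.1) * p.2.1 := by group
            rw [h1]
            exact p.2.2.2⟩, ⟨p.2.1, p.2.2.1⟩⟩
      left_inv := by
        rintro ⟨⟨x, hx⟩, ⟨m, hm⟩⟩
        simp
      right_inv := by
        rintro ⟨⟨g, hg⟩, ⟨m, hm⟩⟩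
        refine Sigma.subtype_ext (Subtype.ext ?_) rfl
        change g * m * m⁻¹ = g
        group }
  unfold cnt
  have : Fintype {g : Γ // g ∈ G ∧ g⁻¹ * y * g ∈ H ⊔ M} := Fintype.ofFinite _
  rw [← Nat.card_prod, Nat.card_congr e, Nat.card_sigma, Finset.sum_congr rfl (fun g _ => hfib g),
    Finset.sum_const, Finset.card_univ, smul_eq_mul, ← Nat.card_eq_fintype_card]

end Pool.Agent.Helper44.S3
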