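import Pool.Agent.Helper44.S3.Defs

set_option autoImplicit false
open scoped BigOperators MonoidAlgebra
open Classical

namespace Pool.Agent.Helper44.S3

open Pool.Agent.Helper36.NB

variable {Γ : Type} [Group Γ] [Finite Γ] {T G K H M : Subgroup Γ}

/-- An involutory automorphism of an abelian group of odd exponent. -/
private theorem gd_inv (A : Type) [Group A] (hcomm : ∀ a b : A, a * b = b * a) (r : ℕ) (hr : Odd r)
    (hpow : ∀ a : A, a ^ r = 1) (σ : A →* A) (hσ : ∀ a, σ (σ a) = a) :
    Nat.card {a : A // σ a = a} * Nat.card {a : A // σ a = a⁻¹} = Nat.card A := by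
  let _ : CommGroup A := { (inferInstance : Group A) with mul_comm := hcomm }
  obtain ⟨s, hs⟩ := hr
  have key : ∀ a : A, (a * a) ^ (s + 1) = a := by
    intro a
    have h1 : (a * a) ^ (s + 1) = a ^ r * a := by
      rw [← pow_two, ← pow_mul, hs, ← pow_succ]
      congr 1
    rw [h1, hpow, one_mul]
  have e : A ≃ {a : A // σ a = a} × {a : A // σ a = a⁻¹} :=
    { toFun := fun a => (⟨(a * σ a) ^ (s + 1), by
          rw [map_pow, map_mul, hσ, mul_comm]⟩,
        ⟨(a * (σ a)⁻¹) ^ (s + 1), by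
          rw [map_pow, map_mul, map_inv, hσ, ← inv_pow, mul_inv, inv_inv, mul_comm]⟩)
      invFun := fun p => p.1.1 * p.2.1
      left_inv := by
        intro a
        change (a * σ a) ^ (s + 1) * (a * (σ a)⁻¹) ^ (s + 1) = a
        rw [← mul_pow]
        have : a * σ a * (a * (σ a)⁻¹) = a * a := by
          rw [mul_mul_mul_comm, mul_inv_cancel, mul_one]
        rw [this, key]
      right_inv := by
        rintro ⟨⟨p, hp⟩, ⟨n, hn⟩⟩
        ext
        · change (p * n * σ (p * n)) ^ (s + 1) = p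
          have : p * n * σ (p * n) = p * p := by
            rw [map_mul, hp, hn, mul_mul_mul_comm, mul_inv_cancel, mul_one]
          rw [this, key]
        · change (p * n * (σ (p * n))⁻¹) ^ (s + 1) = n
          have : p * n * (σ (p * n))⁻¹ = n * n := by
            rw [map_mul, hp, hn, mul_inv, inv_inv, mul_mul_mul_comm, mul_inv_cancel, one_mul]
          rw [this, key] }
  rw [← Nat.card_prod]
  exact (Nat.card_congr e).symm

/-- GD (hint). `A = M / K` is abelian (`Chief.comm`) of odd order and `y` acts on it with `y y = 1`: `A` is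
the direct product of the fixed points and of the inverted elements (`a² = (a a^y)(a (a^y)⁻¹)` and squaring
is bijective). `cpos M K y = |K| |A⁺|`, `cneg M K y = |K| |A⁻|`. Alternatively count the fibres of
`m ↦ y m y⁻¹ m⁻¹ K`. -/
theorem cpos_mul_cneg {r : ℕ} (hM : Chief T G K M r) (hr : r ≠ 2) (hK : Norm G K) {y : Γ}
    (hy : y ∈ G) (hy2 : y * y = 1) :
    cpos M K y * cneg M K y = Nat.card M * Nat.card K := by
  have hodd : Odd r := hM.prime.odd_of_ne_two hr
  have hcM : ∀ m ∈ M, y * m * y⁻¹ ∈ M := fun m hm => hM.norm y hy m hm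
  let c : M →* M :=
    { toFun := fun m => ⟨y * m * y⁻¹, hcM m m.2⟩
      map_one' := by ext; simp
      map_mul' := by
        intro a b
        ext
        change y * ((a : Γ) * (b : Γ)) * y⁻¹ = y * a * y⁻¹ * (y * b * y⁻¹)
        group }
  have hc : ∀ m : M, ((c m : M) : Γ) = y * m * y⁻¹ := fun _ => rfl
  have hN : (K.subgroupOf M).Normal := by
    refine ⟨fun k hk m => ?_⟩
    rw [Subgroup.mem_subgroupOf] at hk ⊢
    exact hK m (hM.MG m.2) _ hk
  have := hN
  have hcomm : ∀ a b : M ⧸ K.subgroupOf M, a * b = b * a := by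
    intro a b
    induction a using QuotientGroup.induction_on with
    | H a =>
      induction b using QuotientGroup.induction_on with
      | H b =>
        rw [← mul_inv_eq_one, mul_inv_rev, ← mul_assoc]
        change (((a * b * a⁻¹ * b⁻¹ : M) : M ⧸ K.subgroupOf M)) = 1
        rw [QuotientGroup.eq_one_iff, Subgroup.mem_subgroupOf]
        exact hM.comm a a.2 b b.2
  have hpow : ∀ a : M ⧸ K.subgroupOf M, a ^ r = 1 := by
    intro a
    induction a using QuotientGroup.induction_on with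
    | H a =>
      change (((a ^ r : M) : M ⧸ K.subgroupOf M)) = 1
      rw [QuotientGroup.eq_one_iff, Subgroup.mem_subgroupOf]
      exact hM.pow a a.2
  let σ : M ⧸ K.subgroupOf M →* M ⧸ K.subgroupOf M :=
    QuotientGroup.map (K.subgroupOf M) (K.subgroupOf M) c (by
      intro k hk
      rw [Subgroup.mem_subgroupOf] at hk
      rw [Subgroup.mem_comap, Subgroup.mem_subgroupOf, hc]
      exact hK y hy _ hk)
  have hσmk : ∀ m : M, σ (m : M ⧸ K.subgroupOf M) = ((c m : M) : M ⧸ K.subgroupOf M) :=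
    fun _ => rfl
  have hyinv : y⁻¹ = y := inv_eq_of_mul_eq_one_left hy2
  have hσ2 : ∀ a, σ (σ a) = a := by
    intro a
    induction a using QuotientGroup.induction_on with
    | H a =>
      rw [hσmk, hσmk]
      congr 1
      ext
      rw [hc, hc, hyinv]
      calc y * (y * (a : Γ) * y) * y = (y * y) * a * (y * y) := by group
        _ = a := by rw [hy2]; group
  have hmain := gd_inv _ hcomm r hodd hpow σ hσ2
  have hcardK : Nat.card (K.subgroupOf M) = Nat.card K :=
    Nat.card_congr (Subgroup.subgroupOfEquivOfLe hM.KM).toEquiv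
  have hcardM : Nat.card M = Nat.card (M ⧸ K.subgroupOf M) * Nat.card K := by
    rw [← hcardK]
    exact Subgroup.card_eq_card_quotient_mul_card_subgroup _
  have hP : cpos M K y = Nat.card K * Nat.card {a : M ⧸ K.subgroupOf M // σ a = a} := by
    rw [← hcardK]
    have h1 := Nat.card_congr (QuotientGroup.preimageMkEquivSubgroupProdSet (K.subgroupOf M)
      {a : M ⧸ K.subgroupOf M | σ a = a})
    rw [Nat.card_prod] at h1
    refine Eq.trans ?_ h1
    unfold cpos
    refine Nat.card_congr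
      { toFun := fun m => ⟨⟨m.1, m.2.1⟩, ?_⟩
        invFun := fun m => ⟨m.1.1, m.1.2, ?_⟩
        left_inv := fun _ => rfl
        right_inv := fun _ => rfl }
    · change σ ((⟨m.1, m.2.1⟩ : M) : M ⧸ K.subgroupOf M) = ((⟨m.1, m.2.1⟩ : M) : M ⧸ K.subgroupOf M)
      rw [hσmk, ← mul_inv_eq_one]
      change ((c ⟨m.1, m.2.1⟩ * (⟨m.1, m.2.1⟩ : M)⁻¹ : M) : M ⧸ K.subgroupOf M) = 1
      rw [QuotientGroup.eq_one_iff, Subgroup.mem_subgroupOf]
      exact m.2.2
    · have h2 : σ ((m.1 : M) : M ⧸ K.subgroupOf M) = ((m.1 : M) : M ⧸ K.subgroupOf M) := m.2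
      rw [hσmk, ← mul_inv_eq_one] at h2
      change ((c m.1 * (m.1 : M)⁻¹ : M) : M ⧸ K.subgroupOf M) = 1 at h2
      rw [QuotientGroup.eq_one_iff, Subgroup.mem_subgroupOf] at h2
      exact h2
  have hQ : cneg M K y = Nat.card K * Nat.card {a : M ⧸ K.subgroupOf M // σ a = a⁻¹} := by
    rw [← hcardK]
    have h1 := Nat.card_congr (QuotientGroup.preimageMkEquivSubgroupProdSet (K.subgroupOf M)
      {a : M ⧸ K.subgroupOf M | σ a = a⁻¹})
    rw [Nat.card_prod] at h1
    refine Eq.trans ?_ h1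
    unfold cneg
    refine Nat.card_congr
      { toFun := fun m => ⟨⟨m.1, m.2.1⟩, ?_⟩
        invFun := fun m => ⟨m.1.1, m.1.2, ?_⟩
        left_inv := fun _ => rfl
        right_inv := fun _ => rfl }
    · change σ ((⟨m.1, m.2.1⟩ : M) : M ⧸ K.subgroupOf M) =
        ((⟨m.1, m.2.1⟩ : M) : M ⧸ K.subgroupOf M)⁻¹
      rw [hσmk, ← mul_eq_one_iff_eq_inv]
      change ((c ⟨m.1, m.2.1⟩ * (⟨m.1, m.2.1⟩ : M) : M) : M ⧸ K.subgroupOf M) = 1
      rw [QuotientGroup.eq_one_iff, Subgroup.mem_subgroupOf]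
      exact m.2.2
    · have h2 : σ ((m.1 : M) : M ⧸ K.subgroupOf M) = ((m.1 : M) : M ⧸ K.subgroupOf M)⁻¹ := m.2
      rw [hσmk, ← mul_eq_one_iff_eq_inv] at h2
      change ((c m.1 * (m.1 : M) : M) : M ⧸ K.subgroupOf M) = 1 at h2
      rw [QuotientGroup.eq_one_iff, Subgroup.mem_subgroupOf] at h2
      exact h2
  rw [hP, hQ, hcardM, ← hmain]
  ring

end Pool.Agent.Helper44.S3
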