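import Pool.Agent.Helper44.S3.Defs

set_option autoImplicit false
open scoped BigOperators MonoidAlgebra
open Classical

namespace Pool.Agent.Helper44.S3

open Pool.Agent.Helper36.NB

variable {Γ : Type} [Group Γ] [Finite Γ] {T G K H M : Subgroup Γ}

/-- GE (hint). Double counting of the pairs `(g, h)`, `g ∈ G`, `h ∈ G1`, `(g h)⁻¹ y (g h) ∈ H1`. -/
theorem cnt_tower {G1 H1 : Subgroup Γ} (h1 : H1 ≤ G1) (h2 : G1 ≤ G) {y : Γ} {c : ℕ}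
    (hc : ∀ g ∈ G, g⁻¹ * y * g ∈ G1 → cnt G1 H1 (g⁻¹ * y * g) = c) :
    Nat.card G1 * cnt G H1 y = cnt G G1 y * c := by
  have e1 : {p : Γ × Γ // p.1 ∈ G ∧ p.2 ∈ G1 ∧ (p.1 * p.2)⁻¹ * y * (p.1 * p.2) ∈ H1} ≃
      (G1 × {g : Γ // g ∈ G ∧ g⁻¹ * y * g ∈ H1}) :=
    { toFun := fun p => (⟨p.1.2, p.2.2.1⟩, ⟨p.1.1 * p.1.2,
        G.mul_mem p.2.1 (h2 p.2.2.1), p.2.2.2⟩)
      invFun := fun q => ⟨(q.2.1 * (q.1 : Γ)⁻¹, (q.1 : Γ)),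
        G.mul_mem q.2.2.1 (G.inv_mem (h2 q.1.2)), q.1.2, by
          have := q.2.2.2
          simpa using this⟩
      left_inv := by
        rintro ⟨⟨a, b⟩, h⟩
        simp
      right_inv := by
        rintro ⟨⟨a, ha⟩, ⟨b, hb⟩⟩
        simp }
  have e2 : {p : Γ × Γ // p.1 ∈ G ∧ p.2 ∈ G1 ∧ (p.1 * p.2)⁻¹ * y * (p.1 * p.2) ∈ H1} ≃
      (Σ g : {g : Γ // g ∈ G ∧ g⁻¹ * y * g ∈ G1},
        {h : Γ // h ∈ G1 ∧ h⁻¹ * ((g : Γ)⁻¹ * y * (g : Γ)) * h ∈ H1}) :=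
    { toFun := fun p => ⟨⟨p.1.1, p.2.1, by
          have h3 := h1 p.2.2.2
          have h4 := G1.mul_mem (G1.mul_mem p.2.2.1 h3) (G1.inv_mem p.2.2.1)
          have h5 : p.1.2 * ((p.1.1 * p.1.2)⁻¹ * y * (p.1.1 * p.1.2)) * (p.1.2)⁻¹ =
              p.1.1⁻¹ * y * p.1.1 := by group
          rwa [h5] at h4⟩, ⟨p.1.2, p.2.2.1, by
          have h5 : (p.1.1 * p.1.2)⁻¹ * y * (p.1.1 * p.1.2) =
              p.1.2⁻¹ * (p.1.1⁻¹ * y * p.1.1) * p.1.2 := by group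
          have h3 := p.2.2.2
          rwa [h5] at h3⟩⟩
      invFun := fun q => ⟨(q.1.1, q.2.1), q.1.2.1, q.2.2.1, by
          have h5 : (q.1.1 * q.2.1)⁻¹ * y * (q.1.1 * q.2.1) =
              q.2.1⁻¹ * (q.1.1⁻¹ * y * q.1.1) * q.2.1 := by group
          have h3 := q.2.2.2
          rwa [← h5] at h3⟩
      left_inv := by
        rintro ⟨⟨a, b⟩, h⟩
        rfl
      right_inv := by
        rintro ⟨⟨a, ha⟩, ⟨b, hb⟩⟩
        rfl }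
  have : Fintype Γ := Fintype.ofFinite Γ
  have : Fintype {g : Γ // g ∈ G ∧ g⁻¹ * y * g ∈ G1} := Fintype.ofFinite _
  have k1 := Nat.card_congr e1
  have k2 := Nat.card_congr e2
  rw [Nat.card_prod] at k1
  rw [Nat.card_sigma] at k2
  have k3 : ∀ g : {g : Γ // g ∈ G ∧ g⁻¹ * y * g ∈ G1},
      Nat.card {h : Γ // h ∈ G1 ∧ h⁻¹ * ((g : Γ)⁻¹ * y * (g : Γ)) * h ∈ H1} = c := by
    intro g
    exact hc g.1 g.2.1 g.2.2
  rw [Finset.sum_congr rfl (fun g _ => k3 g), Finset.sum_const, Finset.card_univ,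
    smul_eq_mul] at k2
  unfold cnt
  rw [← k1, k2, Nat.card_eq_fintype_card]

end Pool.Agent.Helper44.S3
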