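import Pool.Agent.Helper44.S3.LA

set_option autoImplicit false
open scoped BigOperators MonoidAlgebra
open Classical

namespace Pool.Agent.Helper44.S3

open Pool.Agent.Helper36.NB

variable {Γ : Type} [Group Γ] [Finite Γ] {T G K H M : Subgroup Γ} {k : Type} [Field k] {n : ℕ}

/-- LF (hint). `L1 = {m ∈ M | A.Triv m}` and `L2 = {m ∈ M | ∀ u, A.Impl m u → ∀ m' ∈ M, ∀ u', A.Impl m' u' →
u * u' = u' * u}` are subgroups between `K` and `M` normalised by `G` (`impl_conj`, `impl_conj_anti`: `α_g` is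
bijective and (anti)multiplicative, so it preserves commutation; `L2` is closed under inverses). Use
`Chief.min`. -/
theorem trichotomy (hT : T.index = 2) (A : StarAct T G k n) {r : ℕ} (hM : Chief T G K M r)
    (hKn : Norm G K) (hK : ∀ g ∈ K, A.Triv g) :
    (∀ m ∈ M, A.Triv m) ∨ ((∀ m ∈ M, A.Triv m → m ∈ K) ∧ A.Comm M) ∨ A.Nondeg M K := by
  have hMG : ∀ {x : Γ}, x ∈ M → x ∈ G := fun hx => hM.MG hx
  have hMT : ∀ {x : Γ}, x ∈ M → x ∈ T := fun hx => hM.MT hx
  -- the kernel of the action on `M`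
  let L1 : Subgroup Γ :=
    { carrier := {m | m ∈ M ∧ A.Triv m}
      one_mem' := ⟨M.one_mem, A.one⟩
      mul_mem' := by
        rintro x y ⟨hx, hx'⟩ ⟨hy, hy'⟩
        refine ⟨M.mul_mem hx hy, fun a => ?_⟩
        rw [A.mul x (hMG hx) y (hMG hy), hy' a, hx' a]
      inv_mem' := by
        rintro x ⟨hx, hx'⟩
        refine ⟨M.inv_mem hx, fun a => ?_⟩
        have h := A.mul x⁻¹ (G.inv_mem (hMG hx)) x (hMG hx) a
        rw [inv_mul_cancel, A.one, hx' a] at h
        exact h.symm }
  have hL1K : K ≤ L1 := fun x hx => ⟨hM.KM hx, hK x hx⟩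
  have hL1M : L1 ≤ M := fun x hx => hx.1
  have hL1n : Norm G L1 := by
    rintro g hg x ⟨hx, hx'⟩
    refine ⟨hM.norm g hg x hx, fun a => ?_⟩
    rw [A.mul (g * x) (G.mul_mem hg (hMG hx)) g⁻¹ (G.inv_mem hg), A.mul g hg x (hMG hx), hx',
      alpha_inv A hg]
  -- the radical of the commutator form
  let L2 : Subgroup Γ :=
    { carrier := {m | m ∈ M ∧ ∀ u, A.Impl m u → ∀ m' ∈ M, ∀ u', A.Impl m' u' → u * u' = u' * u}
      one_mem' := by
        refine ⟨M.one_mem, fun u hu m' _ u' _ => ?_⟩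
        have := hu.2 u'
        rw [A.one] at this
        exact this.symm
      mul_mem' := by
        rintro x y ⟨hx, hx'⟩ ⟨hy, hy'⟩
        refine ⟨M.mul_mem hx hy, fun u hu m' hm' u' hu' => ?_⟩
        obtain ⟨ux, hux⟩ := exists_impl A (hMG hx) (hMT hx)
        obtain ⟨uy, huy⟩ := exists_impl A (hMG hy) (hMT hy)
        obtain ⟨c, _, rfl⟩ := impl_unique A (impl_mul A (hMG hx) (hMG hy) hux huy) hu
        have h1 := hx' ux hux m' hm' u' hu'
        have h2 := hy' uy huy m' hm' u' hu'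
        rw [smul_mul_assoc, mul_smul_comm, mul_assoc, h2, ← mul_assoc, h1, mul_assoc]
      inv_mem' := by
        rintro x ⟨hx, hx'⟩
        refine ⟨M.inv_mem hx, fun u hu m' hm' u' hu' => ?_⟩
        obtain ⟨ux, hux⟩ := exists_impl A (hMG hx) (hMT hx)
        obtain ⟨v, hv⟩ := hux.1.exists_right_inv
        have hv' : v * ux = 1 := mul_eq_one_comm.1 hv
        obtain ⟨c, _, rfl⟩ := impl_unique A (impl_inv A (hMG hx) hux hv) hu
        have h1 := hx' ux hux m' hm' u' hu'
        have h2 : v * u' = u' * v := by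
          calc v * u' = v * u' * (ux * v) := by rw [hv, mul_one]
            _ = v * (u' * ux) * v := by simp only [mul_assoc]
            _ = v * (ux * u') * v := by rw [h1]
            _ = (v * ux) * u' * v := by simp only [mul_assoc]
            _ = u' * v := by rw [hv', one_mul]
        rw [smul_mul_assoc, mul_smul_comm, h2] }
  have hL2K : K ≤ L2 := by
    intro x hx
    refine ⟨hM.KM hx, fun u hu m' _ u' _ => ?_⟩
    have := hu.2 u'
    rw [hK x hx] at this
    exact this.symm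
  have hL2M : L2 ≤ M := fun x hx => hx.1
  have hL2n : Norm G L2 := by
    intro g hg x hx
    refine ⟨hM.norm g hg x hx.1, fun u hu m' hm' u' hu' => ?_⟩
    have hgi : g⁻¹ ∈ G := G.inv_mem hg
    by_cases hgT : g ∈ T
    · obtain ⟨ux, hux⟩ := exists_impl A (hMG hx.1) (hMT hx.1)
      obtain ⟨c, _, rfl⟩ := impl_unique A (impl_conj A (hMG hx.1) hg hgT hux) hu
      have hm'' : g⁻¹ * m' * g⁻¹⁻¹ ∈ M := hM.norm g⁻¹ hgi m' hm'
      have hu'' := impl_conj A (hMG hm') hgi (T.inv_mem hgT) hu'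
      have h1 := hx.2 ux hux _ hm'' _ hu''
      have h2 := congrArg (A.α g) h1
      rw [A.aut g hg hgT, A.aut g hg hgT, alpha_inv A hg] at h2
      rw [smul_mul_assoc, mul_smul_comm, h2]
    · have hxi : x⁻¹ ∈ L2 := L2.inv_mem hx
      obtain ⟨v, hv⟩ := exists_impl A (hMG hxi.1) (hMT hxi.1)
      have hgT' : g⁻¹ ∉ T := fun h => hgT (by simpa using T.inv_mem h)
      have hvc := impl_conj_anti A (hMG hxi.1) hg hgT hv
      rw [inv_inv] at hvc
      obtain ⟨c, _, rfl⟩ := impl_unique A hvc hu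
      have hm'' : g⁻¹ * m'⁻¹ * g⁻¹⁻¹ ∈ M := hM.norm g⁻¹ hgi _ (M.inv_mem hm')
      have hu'' := impl_conj_anti A (hMG hm') hgi hgT' hu'
      have h1 := hxi.2 v hv _ hm'' _ hu''
      have h2 := congrArg (A.α g) h1
      rw [A.anti g hg hgT, A.anti g hg hgT, alpha_inv A hg] at h2
      rw [smul_mul_assoc, mul_smul_comm, h2]
  rcases hM.min L1 hL1K hL1M hL1n with h1 | h1
  · rcases hM.min L2 hL2K hL2M hL2n with h2 | h2
    · right; right
      intro m hm u hu h
      have : m ∈ L2 := by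
        refine ⟨hm, fun v hv m' hm' u' hu' => ?_⟩
        obtain ⟨c, _, rfl⟩ := impl_unique A hu hv
        rw [smul_mul_assoc, mul_smul_comm, h m' hm' u' hu']
      rw [h2] at this
      exact this
    · right; left
      refine ⟨fun m hm hmt => ?_, ?_⟩
      · have : m ∈ L1 := ⟨hm, hmt⟩
        rw [h1] at this
        exact this
      · intro m hm m' hm' u u' hu hu'
        have : m ∈ L2 := by rw [h2]; exact hm
        exact this.2 u hu m' hm' u' hu'
  · left
    intro m hm
    have : m ∈ L1 := by rw [h1]; exact hm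
    exact this.2

end Pool.Agent.Helper44.S3
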