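import Pool.Agent.Helper44.S3.GA
import Pool.Agent.Helper44.S3.GB
import Pool.Agent.Helper44.S3.GC
import Pool.Agent.Helper44.S3.GD
import Pool.Agent.Helper44.S3.GE
import Pool.Agent.Helper44.S3.LD
import Pool.Agent.Helper44.S3.LF
import Pool.Agent.Helper44.S3.CE
import Pool.Agent.Helper44.S3.DE

set_option autoImplicit false
open scoped BigOperators MonoidAlgebra
open Classical

namespace Pool.Agent.Helper44.S3

open Pool.Agent.Helper36.NB

variable {Γ : Type} [Group Γ] [Finite Γ] {T : Subgroup Γ} {k : Type} [Field k]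

private theorem card_mul_rel {A B : Subgroup Γ} (h : A ≤ B) :
    Nat.card A * A.relIndex B = Nat.card B := by
  have h1 := Subgroup.relIndex_mul_relIndex (⊥ : Subgroup Γ) A B bot_le h
  rwa [Subgroup.relIndex_bot_left, Subgroup.relIndex_bot_left] at h1

private theorem card_inf_two (hT : T.index = 2) (G : Subgroup Γ) :
    Nat.card G = Nat.card (T ⊓ G : Subgroup Γ) ∨ Nat.card G = 2 * Nat.card (T ⊓ G : Subgroup Γ) := by
  haveI : T.Normal := Subgroup.normal_of_index_eq_two hT
  have h1 : Nat.card (T ⊓ G : Subgroup Γ) * (T ⊓ G).relIndex G = Nat.card G :=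
    card_mul_rel inf_le_right
  rw [Subgroup.inf_relIndex_right] at h1
  have h2 : T.relIndex G ∣ 2 := hT ▸ Subgroup.relIndex_dvd_index_of_normal (H := T) (K := G)
  rcases (Nat.dvd_prime Nat.prime_two).1 h2 with h3 | h3
  · left; rw [← h1, h3, mul_one]
  · right; rw [← h1, h3, mul_comm]

/-- The irreducible star action of a group acting trivially. -/
private theorem base_n {G K : Subgroup Γ} {n : ℕ} (A : StarAct T G k n) (hb : T ⊓ G = K)
    (hK : ∀ g ∈ K, A.Triv g) (hodd : Odd n) : n = 1 := by
  by_contra hn1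
  have hpos : 0 < n := hodd.pos
  have h2 : 1 < n := by omega
  let I : Submodule k (Mt k n) :=
    { carrier := {a | ∀ i, a i ⟨0, hpos⟩ = 0}
      add_mem' := by
        intro a b ha hb i
        rw [Matrix.add_apply, ha i, hb i, add_zero]
      zero_mem' := fun i => rfl
      smul_mem' := by
        intro c a ha i
        rw [Matrix.smul_apply, ha i, smul_zero] }
  have hI : ∀ a : Mt k n, a ∈ I ↔ ∀ i, a i ⟨0, hpos⟩ = 0 := fun a => Iff.rfl
  rcases A.irr I (by
      intro a b hb
      rw [hI] at hb ⊢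
      intro i
      rw [Matrix.mul_apply]
      exact Finset.sum_eq_zero fun j _ => by rw [hb j, mul_zero])
    (by
      intro g hg hgT b hb'
      have : g ∈ K := hb ▸ ⟨hgT, hg⟩
      rw [hK g this b]
      exact hb') with h | h
  · have h3 : Matrix.single (⟨1, h2⟩ : Fin n) (⟨1, h2⟩ : Fin n) (1 : k) ∈ I := by
      rw [hI]
      intro i
      rw [Matrix.single_apply_of_col_ne]
      intro h4
      exact absurd (congrArg Fin.val h4) (by norm_num)
    rw [h, Submodule.mem_bot] at h3
    have h4 := congrFun (congrFun h3 ⟨1, h2⟩) ⟨1, h2⟩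
    rw [Matrix.single_apply_same] at h4
    exact one_ne_zero h4
  · have h3 : (1 : Mt k n) ∈ I := h ▸ Submodule.mem_top
    rw [hI] at h3
    have h4 := h3 ⟨0, hpos⟩
    rw [Matrix.one_apply_eq] at h4
    exact one_ne_zero h4

private theorem cnt_self {G : Subgroup Γ} {y : Γ} (hy : y ∈ G) : cnt G G y = Nat.card G := by
  unfold cnt
  refine Nat.card_congr ⟨fun g => ⟨g.1, g.2.1⟩, fun g => ⟨g.1, g.2, ?_⟩, fun _ => rfl, fun _ => rfl⟩
  exact G.mul_mem (G.mul_mem (G.inv_mem g.2) hy) g.2

private theorem solv_of_le {A B : Subgroup Γ} (h : A ≤ B) (hs : IsSolvable B) : IsSolvable A := by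
  have hs' : Group.IsSolvable B := hs
  exact Group.isSolvable_of_isSolvable_injective (Subgroup.inclusion_injective h)

private def Goal (T G H : Subgroup Γ) (n : ℕ) : Prop :=
  n ^ 2 * Nat.card H ≤ Nat.card G ∧
    (n ^ 2 * Nat.card H = Nat.card G → ∀ y ∈ G, y ∉ T → y * y = 1 →
      cnt G H y = n * Nat.card H)

private theorem base_case (hT : T.index = 2) {G K H : Subgroup Γ} {n : ℕ} (A : StarAct T G k n)
    (hS : Sit T G K H) (hK : ∀ g ∈ K, A.Triv g) (hodd : Odd n) (hb : T ⊓ G = K) :
    Goal T G H n := by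
  have hn := base_n A hb hK hodd
  subst hn
  have hc := card_inf_two hT G
  rw [hb] at hc
  obtain ⟨s, hs⟩ := hS.Hcard
  obtain ⟨r, hr, hrG⟩ := hS.Gcard
  have hkpos : 0 < Nat.card K := Nat.card_pos
  have hHG : Nat.card H = Nat.card G := by
    rcases hc with h | h
    · -- `|G| = |K|`
      have h1 := Subgroup.card_le_of_le hS.KH
      have h2 := Subgroup.card_le_of_le hS.HG
      omega
    · have h1 : r * 2 ^ s = 2 := by
        have h3 : r * 2 ^ s * Nat.card K = 2 * Nat.card K := by
          rw [mul_assoc, ← hs, ← hrG, h]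
        exact Nat.eq_of_mul_eq_mul_right hkpos h3
      have h2 : r ∣ 2 := ⟨2 ^ s, h1.symm⟩
      have h3 : r = 1 := by
        rcases (Nat.dvd_prime Nat.prime_two).1 h2 with h4 | h4
        · exact h4
        · rw [h4] at hr
          exact absurd hr (by decide)
      rw [hrG, h3, one_mul]
  have hHG' : H = G := Subgroup.eq_of_le_of_card_ge hS.HG hHG.ge
  subst hHG'
  refine ⟨by rw [one_pow, one_mul], fun _ y hy _ _ => ?_⟩
  rw [cnt_self hy, one_mul]

private theorem step [IsAlgClosed k] [CharP k 2] (hT : T.index = 2) {G K H : Subgroup Γ} {n : ℕ}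
    (A : StarAct T G k n) (hs : IsSolvable G) (hS : Sit T G K H) (hK : ∀ g ∈ K, A.Triv g)
    (hodd : Odd n)
    (ih : ∀ (G' K' H' : Subgroup Γ) (n' : ℕ) (_ : StarAct T G' k n'),
      Nat.card G' - Nat.card K' < Nat.card G - Nat.card K → IsSolvable G' → Sit T G' K' H' →
      (∀ (A' : StarAct T G' k n'), (∀ g ∈ K', A'.Triv g) → Odd n' → Goal T G' H' n')) :
    Goal T G H n := by
  haveI hTn : T.Normal := Subgroup.normal_of_index_eq_two hT
  by_cases hb : T ⊓ G = K
  · exact base_case hT A hS hK hodd hb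
  have hKM0 : K ≤ T ⊓ G := le_inf hS.KT (hS.KH.trans hS.HG)
  obtain ⟨M, r, -, hM⟩ := exists_chief (T := T) (G := G) hKM0 (Ne.symm hb) inf_le_right inf_le_left
    (fun g hg x hx => ⟨hTn.conj_mem x hx.1 g, G.mul_mem (G.mul_mem hg hx.2) (G.inv_mem hg)⟩)
    hS.norm (solv_of_le inf_le_right hs)
  have hkpos : 0 < Nat.card K := Nat.card_pos
  have hhpos : 0 < Nat.card H := Nat.card_pos
  have hgpos : 0 < Nat.card G := Nat.card_pos
  have hnpos : 0 < n := hodd.pos
  have hKM : Nat.card K < Nat.card M := by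
    refine lt_of_le_of_ne (Subgroup.card_le_of_le hM.KM) fun h => hM.ne ?_
    exact Subgroup.eq_of_le_of_card_ge hM.KM h.ge
  have hMG : Nat.card M ≤ Nat.card G := Subgroup.card_le_of_le hM.MG
  by_cases hr : r = 2
  · subst hr
    have hMH : M ≤ H := chief_two_le hS hM
    have hMt : ∀ m ∈ M, A.Triv m := two_triv_chief A hM hK
    have hS' : Sit T G M H := by
      refine ⟨hMH, hS.HG, hM.MT, hM.norm, ?_, hS.Gcard⟩
      obtain ⟨s, hs'⟩ := hS.Hcard
      have h1 := card_mul_rel hMH
      have h2 := card_mul_rel hM.KM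
      have h3 : K.relIndex M * M.relIndex H = 2 ^ s := by
        have h4 : Nat.card K * (K.relIndex M * M.relIndex H) = Nat.card K * 2 ^ s := by
          rw [← mul_assoc, h2, h1, hs', mul_comm]
        exact Nat.eq_of_mul_eq_mul_left hkpos h4
      obtain ⟨j, -, hj⟩ := (Nat.dvd_prime_pow Nat.prime_two).1 ⟨_, (mul_comm _ _).trans h3 |>.symm⟩
      exact ⟨j, by rw [← h1, hj, mul_comm]⟩
    exact ih G M H n A (by omega) hs hS' A hMt hodd
  · obtain ⟨hMH, ⟨s, hsodd, hscard⟩, hcard, -, hS'⟩ := chief_odd hS hM hr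
    have hsm : Nat.card (H ⊔ M : Subgroup Γ) = s * Nat.card H := by
      have h1 : Nat.card (H ⊔ M : Subgroup Γ) * Nat.card K = s * Nat.card H * Nat.card K := by
        rw [hcard, hscard]; ring
      exact Nat.eq_of_mul_eq_mul_right hkpos h1
    have hs1 : 1 < s := by
      by_contra h
      have h1 : s * Nat.card K ≤ 1 * Nat.card K := Nat.mul_le_mul_right _ (by omega)
      omega
    have hlt : Nat.card G - Nat.card M < Nat.card G - Nat.card K := by omega
    rcases trichotomy hT A hM hS.norm hK with h | ⟨-, h⟩ | h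
    · -- `M` acts trivially
      have h1 := (ih G M (H ⊔ M) n A hlt hs hS' A h hodd).1
      rw [hsm] at h1
      have h2 : n ^ 2 * Nat.card H < n ^ 2 * (s * Nat.card H) := by
        have h3 : 0 < n ^ 2 := by positivity
        have h4 : Nat.card H < s * Nat.card H := by nlinarith
        exact Nat.mul_lt_mul_of_pos_left h4 h3
      exact ⟨by omega, fun h3 => absurd h3 (by omega)⟩
    · -- `M` commutes
      obtain ⟨l, b, G1, B, hnl, hHG1, hMG1, hG1G, hGl, hBt, hle, hfin⟩ :=
        step_comm A hS hM hr hK h hodd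
      have hlodd : Odd l := by
        rw [hnl] at hodd
        exact (Nat.odd_mul.1 hodd).1
      have hbodd : Odd b := by
        rw [hnl] at hodd
        exact (Nat.odd_mul.1 hodd).2
      have hg1pos : 0 < Nat.card G1 := Nat.card_pos
      have hSG1 : Sit T G1 M (H ⊔ M) := by
        refine ⟨le_sup_right, sup_le hHG1 hMG1, hM.MT, fun g hg => hM.norm g (hG1G hg), hS'.Hcard, ?_⟩
        obtain ⟨q, hq, hqG⟩ := hS'.Gcard
        have h1 := card_mul_rel (sup_le hHG1 hMG1 : H ⊔ M ≤ G1)
        refine ⟨(H ⊔ M).relIndex G1, ?_, by rw [← h1, mul_comm]⟩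
        have h2 : l * (H ⊔ M).relIndex G1 = q := by
          have h3 : l * (H ⊔ M).relIndex G1 * Nat.card (H ⊔ M : Subgroup Γ) =
              q * Nat.card (H ⊔ M : Subgroup Γ) := by
            rw [← hqG, hGl, ← h1]; ring
          exact Nat.eq_of_mul_eq_mul_right Nat.card_pos h3
        rw [← h2] at hq
        exact (Nat.odd_mul.1 hq).2
      have hlt' : Nat.card G1 - Nat.card M < Nat.card G - Nat.card K := by
        have h1 := Subgroup.card_le_of_le hG1G
        omega
      obtain ⟨ih1, ih2⟩ := ih G1 M (H ⊔ M) b B hlt' (solv_of_le hG1G hs) hSG1 B hBt hbodd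
      have hls : l ≤ s := by
        rw [hscard] at hle
        exact Nat.le_of_mul_le_mul_right hle hkpos
      have hbpos : 0 < b := hbodd.pos
      have hlpos : 0 < l := hlodd.pos
      rw [hsm] at ih1
      have key1 : n ^ 2 * Nat.card H ≤ Nat.card G := by
        calc n ^ 2 * Nat.card H = l * (b ^ 2 * (l * Nat.card H)) := by rw [hnl]; ring
          _ ≤ l * (b ^ 2 * (s * Nat.card H)) := by gcongr
          _ ≤ l * Nat.card G1 := by gcongr
          _ = Nat.card G := hGl.symm
      refine ⟨key1, fun heq y hy hyT hy2 => ?_⟩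
      have h1 : b ^ 2 * (l * Nat.card H) = Nat.card G1 := by
        have h2 : l * (b ^ 2 * (l * Nat.card H)) = l * Nat.card G1 := by
          rw [← hGl, ← heq, hnl]; ring
        exact Nat.eq_of_mul_eq_mul_left hlpos h2
      have hls' : l = s := by
        refine le_antisymm hls ?_
        have h2 : b ^ 2 * (s * Nat.card H) ≤ b ^ 2 * (l * Nat.card H) := by rw [h1]; exact ih1
        exact Nat.le_of_mul_le_mul_right (Nat.le_of_mul_le_mul_left h2 (by positivity)) hhpos
      have hlk : l * Nat.card K = Nat.card M := by rw [hls', hscard]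
      have e1 := hfin hlk y hy hyT hy2
      have hih : ∀ z ∈ G1, z ∉ T → z * z = 1 →
          cnt G1 (H ⊔ M) z = b * Nat.card (H ⊔ M : Subgroup Γ) := by
        refine ih2 ?_
        rw [hsm, ← hls', h1]
      have e2 := cnt_tower (G := G) (G1 := G1) (H1 := H ⊔ M) (sup_le hHG1 hMG1) hG1G (y := y)
        (c := b * Nat.card (H ⊔ M : Subgroup Γ)) (by
          intro g hg hgy
          refine hih _ hgy ?_ ?_
          · intro h3
            apply hyT
            have h4 := hTn.conj_mem _ h3 g
            have h5 : g * (g⁻¹ * y * g) * g⁻¹ = y := by group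
            rwa [h5] at h4
          · calc g⁻¹ * y * g * (g⁻¹ * y * g) = g⁻¹ * (y * y) * g := by group
              _ = 1 := by rw [hy2]; group)
      have e3 := cnt_mul hS hM hr hy hy2
      have e4 := cpos_mul_cneg (T := T) hM hr hS.norm hy hy2
      have hmpos : 0 < Nat.card M := Nat.card_pos
      -- `Y k = Q b |HM|`
      have e5 : cnt G (H ⊔ M) y * Nat.card K =
          cneg M K y * (b * Nat.card (H ⊔ M : Subgroup Γ)) := by
        have h2 : Nat.card G1 * (cnt G (H ⊔ M) y * Nat.card K) =
            Nat.card G1 * (cneg M K y * (b * Nat.card (H ⊔ M : Subgroup Γ))) := by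
          calc Nat.card G1 * (cnt G (H ⊔ M) y * Nat.card K)
              = (Nat.card G1 * cnt G (H ⊔ M) y) * Nat.card K := by ring
            _ = (cnt G G1 y * (b * Nat.card (H ⊔ M : Subgroup Γ))) * Nat.card K := by rw [e2]
            _ = (cnt G G1 y * Nat.card K) * (b * Nat.card (H ⊔ M : Subgroup Γ)) := by ring
            _ = (cneg M K y * Nat.card G1) * (b * Nat.card (H ⊔ M : Subgroup Γ)) := by rw [e1]
            _ = Nat.card G1 * (cneg M K y * (b * Nat.card (H ⊔ M : Subgroup Γ))) := by ring
        exact Nat.eq_of_mul_eq_mul_left hg1pos h2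
      have e6 : cnt G H y * (Nat.card M * Nat.card K) =
          (n * Nat.card H) * (Nat.card M * Nat.card K) := by
        calc cnt G H y * (Nat.card M * Nat.card K)
            = (cnt G H y * Nat.card M) * Nat.card K := by ring
          _ = (cnt G (H ⊔ M) y * cpos M K y) * Nat.card K := by rw [e3]
          _ = (cnt G (H ⊔ M) y * Nat.card K) * cpos M K y := by ring
          _ = (cneg M K y * (b * Nat.card (H ⊔ M : Subgroup Γ))) * cpos M K y := by rw [e5]
          _ = (cpos M K y * cneg M K y) * (b * Nat.card (H ⊔ M : Subgroup Γ)) := by ring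
          _ = (Nat.card M * Nat.card K) * (b * (s * Nat.card H)) := by rw [e4, hsm]
          _ = (n * Nat.card H) * (Nat.card M * Nat.card K) := by rw [hnl, hls']; ring
      exact Nat.eq_of_mul_eq_mul_right (Nat.mul_pos hmpos hkpos) e6
    · -- non-degenerate
      obtain ⟨a, b, B, hnab, hak, hBt, hcneg⟩ := step_nondeg A hM hS.norm hK h hnpos
      have haodd : Odd a := by
        rw [hnab] at hodd
        exact (Nat.odd_mul.1 hodd).1
      have hbodd : Odd b := by
        rw [hnab] at hodd
        exact (Nat.odd_mul.1 hodd).2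
      have hapos : 0 < a := haodd.pos
      have hsa : s = a ^ 2 := by
        have h1 : s * Nat.card K = a ^ 2 * Nat.card K := by rw [hak, hscard]
        exact Nat.eq_of_mul_eq_mul_right hkpos h1
      obtain ⟨ih1, ih2⟩ := ih G M (H ⊔ M) b B hlt hs hS' B hBt hbodd
      rw [hsm, hsa] at ih1
      have hcomp : n ^ 2 * Nat.card H = b ^ 2 * (a ^ 2 * Nat.card H) := by rw [hnab]; ring
      refine ⟨by rw [hcomp]; exact ih1, fun heq y hy hyT hy2 => ?_⟩
      have e1 : cnt G (H ⊔ M) y = b * Nat.card (H ⊔ M : Subgroup Γ) := by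
        refine ih2 ?_ y hy hyT hy2
        rw [hsm, hsa, ← hcomp, heq]
      have e2 := hcneg y hy hyT hy2
      have e3 := cnt_mul hS hM hr hy hy2
      have e4 := cpos_mul_cneg (T := T) hM hr hS.norm hy hy2
      have hmpos : 0 < Nat.card M := Nat.card_pos
      have e5 : cpos M K y * a = Nat.card M := by
        have h1 : (cpos M K y * a) * Nat.card K = Nat.card M * Nat.card K := by
          rw [← e4, e2]; ring
        exact Nat.eq_of_mul_eq_mul_right hkpos h1
      have e6 : cnt G H y * (Nat.card M * a) = (n * Nat.card H) * (Nat.card M * a) := by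
        calc cnt G H y * (Nat.card M * a) = (cnt G H y * Nat.card M) * a := by ring
          _ = (cnt G (H ⊔ M) y * cpos M K y) * a := by rw [e3]
          _ = cnt G (H ⊔ M) y * (cpos M K y * a) := by ring
          _ = (b * (a ^ 2 * Nat.card H)) * Nat.card M := by rw [e5, e1, hsm, hsa]
          _ = (n * Nat.card H) * (Nat.card M * a) := by rw [hnab]; ring
      exact Nat.eq_of_mul_eq_mul_right (Nat.mul_pos hmpos hapos) e6

/-- The key theorem. -/
theorem PT [IsAlgClosed k] [CharP k 2] (hT : T.index = 2) (N : ℕ) :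
    ∀ (G K H : Subgroup Γ) (n : ℕ) (A : StarAct T G k n), Nat.card G - Nat.card K ≤ N →
      IsSolvable G → Sit T G K H → (∀ g ∈ K, A.Triv g) → Odd n →
      n ^ 2 * Nat.card H ≤ Nat.card G ∧
        (n ^ 2 * Nat.card H = Nat.card G → ∀ y ∈ G, y ∉ T → y * y = 1 →
          cnt G H y = n * Nat.card H) := by
  induction N with
  | zero =>
    intro G K H n A hN hs hS hK hodd
    exact step hT A hs hS hK hodd (fun G' K' H' n' A' hlt _ _ _ _ _ => absurd hlt (by omega))
  | succ N ih =>
    intro G K H n A hN hs hS hK hodd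
    exact step hT A hs hS hK hodd (fun G' K' H' n' _ hlt hs' hS' A'' hK' hodd' =>
      ih G' K' H' n' A'' (by omega) hs' hS' hK' hodd')

end Pool.Agent.Helper44.S3
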