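import Pool.Agent.Helper44.S3.Defs2
import Pool.Agent.Helper44.S3.UB
import Pool.Agent.Helper44.S3.CB

set_option autoImplicit false
open scoped BigOperators MonoidAlgebra
open Classical

namespace Pool.Agent.Helper44.S3

open Pool.Agent.Helper36.NB

/-- Elements of `k[N] f` are in the range of the matrix block. -/
private theorem uc_range {k : Type} [Field k] {G : Type} [Group G] {N : Subgroup G}
    {f : MonoidAlgebra k G} {a : ℕ} (Φ : NBlk N f a) (c : MonoidAlgebra k G)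
    (hc : ∀ g, g ∉ N → c.coeff g = 0) : ∃ x, Φ.φ x = c * f := by
  have h1 : ∀ h ∈ N, ∀ r : k, ∃ x, Φ.φ x = (MonoidAlgebra.single h r : MonoidAlgebra k G) * f := by
    intro h hh r
    obtain ⟨x, hx⟩ := Φ.surj h hh
    refine ⟨r • x, ?_⟩
    rw [map_smul, hx]
    have : (MonoidAlgebra.single h r : MonoidAlgebra k G) = r • el k h := by
      simp [el]
    rw [this, smul_mul_assoc]
  have h2 : c = ∑ g ∈ c.coeff.support, MonoidAlgebra.single g (c.coeff g) := by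
    ext x
    rw [MonoidAlgebra.coeff_sum, Finsupp.finsetSum_apply]
    simp only [MonoidAlgebra.coeff_single, Finsupp.single_apply]
    rw [Finset.sum_ite_eq']
    by_cases hx : x ∈ c.coeff.support
    · rw [if_pos hx]
    · rw [if_neg hx]
      simpa using hx
  have h3 : ∀ s : Finset G, (∀ g ∈ s, c.coeff g ≠ 0) →
      ∃ x, Φ.φ x = (∑ g ∈ s, (MonoidAlgebra.single g (c.coeff g) : MonoidAlgebra k G)) * f := by
    intro s
    induction s using Finset.induction_on with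
    | empty =>
      intro _
      exact ⟨0, by rw [map_zero, Finset.sum_empty, zero_mul]⟩
    | insert g s hg ih =>
      intro hs
      obtain ⟨x, hx⟩ := ih (fun g' hg' => hs g' (Finset.mem_insert_of_mem hg'))
      have hgN : g ∈ N := by
        by_contra hcon
        exact hs g (Finset.mem_insert_self _ _) (hc g hcon)
      obtain ⟨y, hy⟩ := h1 g hgN (c.coeff g)
      refine ⟨y + x, ?_⟩
      rw [map_add, hx, hy, Finset.sum_insert hg, add_mul]
  obtain ⟨x, hx⟩ := h3 c.coeff.support (fun g hg => by simpa using hg)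
  exact ⟨x, by rw [hx, ← h2]⟩

/-- UC (hint). `star_corner` gives `m`, `A`, `ψ`. `Φ.φ x = f (Φ.φ x) f`, so `S.ρ (Φ.φ x) = ψ (φ x)` for a unital
multiplicative linear `φ : Mat_a → Mat_m`. `A.α g` maps the range of `φ` to itself: `cj g (Φ.φ x)`,
`cj g (inv' (Φ.φ x))` lie in `k[N] f = range Φ` (`N` normal; `Φ.surj`). `cs_star` gives `B`, `m = a n1`. `N` acts
trivially: for `h ∈ N`, `h f = Φ.φ x`, and `ψ (A.α h (ψ' y))= ρ(h) ... ρ(h⁻¹)` with `ρ(h f) = ψ (φ x)` commuting with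
the `ψ (ψ' y)`. -/
theorem terminal_star {k : Type} [Field k] {G : Type} [Group G] [Finite G]
    {e f : MonoidAlgebra k G} (her : inv' e = e) (S : SimpleQuot e) (hf : f * f = f)
    (hef : e = f + inv' f) (hff : f * inv' f = 0) {T : Subgroup G} (hT : T.index = 2)
    (h1 : ∀ g ∈ T, cj g f = f) (h2 : ∀ g, g ∉ T → cj g f = inv' f) {N : Subgroup G}
    (hN : N.Normal) (hNT : N ≤ T) {a : ℕ} (Φ : NBlk N f a) :
    ∃ (n1 : ℕ) (B : StarAct T ⊤ k n1), S.n = 2 * (a * n1) ∧ ∀ m ∈ N, B.Triv m := by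
  obtain ⟨m, A, ψ, hn, hψinj, hψmul, hψone, hrange, hα1, hα2⟩ :=
    star_corner her S hf hef hff hT h1 h2
  have hm : 0 < m := by
    have := S.pos
    omega
  have hfφ : ∀ x, f * Φ.φ x = Φ.φ x := by
    intro x
    have h3 := Φ.mul 1 x
    rw [one_mul, Φ.one] at h3
    exact h3.symm
  have hφf : ∀ x, Φ.φ x * f = Φ.φ x := by
    intro x
    have h3 := Φ.mul x 1
    rw [mul_one, Φ.one] at h3
    exact h3.symm
  have hex : ∀ x, ∃ y, ψ y = S.ρ (Φ.φ x) := by
    intro x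
    obtain ⟨y, hy⟩ := hrange (Φ.φ x)
    exact ⟨y, by rw [hy, hfφ, hφf]⟩
  let E := LinearEquiv.ofInjective ψ hψinj
  have hr : ∀ x, (S.ρ.toLinearMap.comp Φ.φ) x ∈ LinearMap.range ψ := by
    intro x
    obtain ⟨y, hy⟩ := hex x
    exact ⟨y, hy⟩
  let φ : Mt k a →ₗ[k] Mt k m :=
    (E.symm : LinearMap.range ψ →ₗ[k] Mt k m).comp
      (LinearMap.codRestrict (LinearMap.range ψ) (S.ρ.toLinearMap.comp Φ.φ) hr)
  have hφ : ∀ x, ψ (φ x) = S.ρ (Φ.φ x) := by
    intro x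
    have h3 : φ x = E.symm ⟨S.ρ (Φ.φ x), hr x⟩ := rfl
    rw [h3]
    have h4 := LinearEquiv.ofInjective_apply ψ (h := hψinj) (E.symm ⟨S.ρ (Φ.φ x), hr x⟩)
    rw [← h4]
    change ((E (E.symm ⟨S.ρ (Φ.φ x), hr x⟩) : LinearMap.range ψ) : Mt k S.n) = _
    rw [LinearEquiv.apply_symm_apply]
  have hφmul : ∀ x y, φ (x * y) = φ x * φ y := by
    intro x y
    apply hψinj
    rw [hψmul, hφ, hφ, hφ, Φ.mul, map_mul]
  have hφone : φ 1 = 1 := by
    apply hψinj
    rw [hφ, hψone, Φ.one]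
  have hgi : ∀ g, g ∉ T → g⁻¹ ∉ T := fun g hg h => hg (by simpa using T.inv_mem h)
  have hst : ∀ g ∈ (⊤ : Subgroup G), ∀ x, ∃ x', A.α g (φ x) = φ x' := by
    intro g _ x
    by_cases hg : g ∈ T
    · obtain ⟨x', hx'⟩ := uc_range Φ (cj g (Φ.φ x)) (by
        intro y hy
        rw [cj_coeff]
        apply Φ.supp
        intro hcon
        apply hy
        have := hN.conj_mem _ hcon g
        have h3 : g * (g⁻¹ * y * g) * g⁻¹ = y := by group
        rwa [h3] at this)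
      refine ⟨x', ?_⟩
      apply hψinj
      rw [hα1 g hg (φ x) _ (hφ x), hφ, hx']
      have h3 : cj g (Φ.φ x) * f = cj g (Φ.φ x) := by
        have h4 := cj_mul g (Φ.φ x) f
        rw [hφf, h1 g hg] at h4
        exact h4.symm
      rw [h3]
    · obtain ⟨x', hx'⟩ := uc_range Φ (cj g (inv' (Φ.φ x))) (by
        intro y hy
        rw [cj_coeff, inv'_coeff]
        apply Φ.supp
        intro hcon
        apply hy
        have := hN.conj_mem _ (N.inv_mem hcon) g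
        have h3 : g * (g⁻¹ * y * g)⁻¹⁻¹ * g⁻¹ = y := by group
        rwa [h3] at this)
      refine ⟨x', ?_⟩
      apply hψinj
      rw [hα2 g hg (φ x) _ (hφ x), hφ, hx']
      have h3 : cj g (inv' f) = f := by
        rw [← cj_inv', h2 g hg, inv'_inv']
      have h4 : cj g (inv' (Φ.φ x)) * f = cj g (inv' (Φ.φ x)) := by
        have h5 := cj_mul g (inv' (Φ.φ x)) (inv' f)
        rw [h3, ← inv'_mul, hfφ] at h5
        exact h5.symm
      rw [h4]
  obtain ⟨b, B, ψ2, hab, ψ2mul, ψ2one, ψ2inj, hcomm, hB⟩ :=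
    cs_star A hm φ hφmul hφone hst
  refine ⟨b, B, by rw [hn, hab], ?_⟩
  intro h hh y
  apply ψ2inj
  rw [hB h (Subgroup.mem_top _)]
  apply hψinj
  obtain ⟨c, hc⟩ := S.surj (ψ (ψ2 y))
  rw [hα1 h (hNT hh) (ψ2 y) c hc.symm]
  obtain ⟨x, hx⟩ := Φ.surj h hh
  have h3 : S.ρ f * ψ (ψ2 y) = ψ (ψ2 y) := by rw [← hψone, ← hψmul, one_mul]
  have h3' : ψ (ψ2 y) * S.ρ f = ψ (ψ2 y) := by rw [← hψone, ← hψmul, mul_one]
  have h4 : el k h * f = f * el k h := (cj_eq_iff h f).1 (h1 h (hNT hh))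
  have h5 : S.ρ (el k h) * ψ (ψ2 y) = ψ (ψ2 y) * S.ρ (el k h) := by
    calc S.ρ (el k h) * ψ (ψ2 y) = S.ρ (el k h) * (S.ρ f * ψ (ψ2 y)) := by rw [h3]
      _ = ψ (φ x) * ψ (ψ2 y) := by rw [← mul_assoc, ← map_mul, ← hx, hφ]
      _ = ψ (ψ2 y) * ψ (φ x) := by rw [← hψmul, hcomm, hψmul]
      _ = ψ (ψ2 y) * S.ρ f * S.ρ (el k h) := by rw [hφ, hx, h4, map_mul, mul_assoc]
      _ = _ := by rw [h3']
  rw [cj, map_mul, map_mul, hc, h5, mul_assoc, ← map_mul, el_mul_el_inv, map_one, mul_one]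

end Pool.Agent.Helper44.S3
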