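import Pool.Agent.Helper44.S3.Defs2
import Pool.Agent.Helper44.S3.NA

set_option autoImplicit false
open scoped BigOperators MonoidAlgebra
open Classical

namespace Pool.Agent.Helper44.S3

open Pool.Agent.Helper36.NB

namespace NBaux

/-- A complex number which is integral and has a nonzero integer multiple which is an integer is
an integer. -/
theorem int_of_integral {v : ℂ} (hv : IsIntegral ℤ v) (p q : ℤ) (hp : p ≠ 0)
    (h : (p : ℂ) * v = q) : ∃ n : ℤ, v = n := by
  have hpC : (p : ℂ) ≠ 0 := by exact_mod_cast hp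
  have h1 : v = algebraMap ℚ ℂ ((q : ℚ) / p) := by
    simp only [map_div₀, map_intCast]
    rw [eq_div_iff hpC, mul_comm]
    exact h
  rw [h1] at hv
  have h2 : IsIntegral ℤ ((q : ℚ) / p) :=
    (isIntegral_algebraMap_iff (algebraMap ℚ ℂ).injective).mp hv
  obtain ⟨n, hn⟩ := IsIntegrallyClosed.isIntegral_iff.mp h2
  refine ⟨n, ?_⟩
  rw [h1, ← hn]
  simp

/-- A character value is an algebraic integer. -/
theorem ch_integral {H : Type} [Group H] [Fintype H] (I : IrrData H) (b : Fin I.r) (g : H) :
    IsIntegral ℤ (I.ch b g) := by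
  have hroots : ∀ x ∈ (Matrix.charpoly (I.equiv (el ℂ g) b)).roots, IsIntegral ℤ x := by
    intro x hx
    set A := I.equiv (el ℂ g) b with hA
    have hel : ∀ k : ℕ, (el ℂ g) ^ k = el ℂ (g ^ k) := by
      intro k
      induction k with
      | zero => rw [pow_zero, pow_zero, el_one]
      | succ k ih => rw [pow_succ, ih, pow_succ, el_mul]
    have hAo : A ^ (orderOf g) = 1 := by
      calc A ^ (orderOf g) = (I.equiv (el ℂ g) ^ (orderOf g)) b := rfl
        _ = I.equiv ((el ℂ g) ^ (orderOf g)) b := by rw [map_pow]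
        _ = 1 := by rw [hel, pow_orderOf_eq_one, el_one, map_one, Pi.one_apply]
    have hroot : (Matrix.charpoly A).eval x = 0 := (Polynomial.mem_roots'.1 hx).2
    rw [Matrix.eval_charpoly] at hroot
    obtain ⟨v, hv0, hv⟩ := Matrix.exists_mulVec_eq_zero_iff.2 hroot
    have hAv : A.mulVec v = x • v := by
      rw [Matrix.sub_mulVec, sub_eq_zero] at hv
      rw [← hv]
      ext i
      simp [Matrix.mulVec_diagonal]
    have hpow : ∀ k : ℕ, (A ^ k).mulVec v = x ^ k • v := by
      intro k
      induction k with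
      | zero => simp
      | succ k ih =>
        rw [pow_succ, ← Matrix.mulVec_mulVec, hAv, Matrix.mulVec_smul, ih, smul_smul, pow_succ,
          mul_comm]
    have h1 : x ^ (orderOf g) = 1 := by
      have h2 := hpow (orderOf g)
      rw [hAo, Matrix.one_mulVec] at h2
      obtain ⟨i, hi⟩ : ∃ i, v i ≠ 0 := by
        by_contra hcon
        push Not at hcon
        exact hv0 (funext hcon)
      have h3 := congrFun h2 i
      rw [Pi.smul_apply, smul_eq_mul] at h3
      have h4 : (x ^ (orderOf g) - 1) * v i = 0 := by linear_combination -h3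
      exact sub_eq_zero.mp ((mul_eq_zero.mp h4).resolve_right hi)
    refine ⟨Polynomial.X ^ (orderOf g) - 1, Polynomial.monic_X_pow_sub_C 1 (orderOf_pos g).ne', ?_⟩
    simp [h1]
  show IsIntegral ℤ (Matrix.trace (I.equiv (el ℂ g) b))
  rw [Matrix.trace_eq_sum_roots_charpoly]
  exact IsIntegral.multiset_sum hroots

/-- The degree of an irreducible character divides the order of the group. -/
theorem d_dvd {H : Type} [Group H] [Fintype H] (I : IrrData H) (b : Fin I.r) :
    I.d b ∣ Nat.card H := by
  have hd : (I.d b : ℂ) ≠ 0 := by exact_mod_cast (I.pos b).ne'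
  obtain ⟨c, hc⟩ : ∃ c : ℂ, c = (Nat.card H : ℂ) / I.d b := ⟨_, rfl⟩
  have hc0 : c ≠ 0 := by
    rw [hc]
    exact div_ne_zero (E0aux.card_ne (G := H)) hd
  obtain ⟨z, hz⟩ : ∃ z : MonoidAlgebra ℂ H, z = c • E0aux.e I b := ⟨_, rfl⟩
  have hzc : ∀ g, z.coeff g = I.ch b g⁻¹ := by
    intro g
    rw [hz, MonoidAlgebra.coeff_smul_apply, smul_eq_mul, hc, div_mul_eq_mul_div, E0aux.e_coeff,
      mul_div_cancel_left₀ _ hd]
  have hzz : c • z = z * z := by
    rw [hz, smul_mul_smul_comm, E0aux.e_mul_e, smul_smul]
  have hz0 : z ≠ 0 := by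
    intro h
    have h1 := congrArg (I.chi b) h
    rw [hz, chi_smul, E0aux.chi_e, if_pos rfl] at h1
    have h2 : I.chi b (0 : MonoidAlgebra ℂ H) = 0 := by simp [IrrData.chi]
    rw [h2] at h1
    exact (mul_ne_zero hc0 hd) h1
  have hint : IsIntegral (integralClosure ℤ ℂ) c := by
    refine isIntegral_of_smul_mem_submodule (M := MonoidAlgebra ℂ H)
      (Submodule.span (integralClosure ℤ ℂ) (Set.range fun g : H => z * el ℂ g)) ?_ ?_ c ?_
    · intro h
      have h1 : z * el ℂ (1 : H) ∈
          Submodule.span (integralClosure ℤ ℂ) (Set.range fun g : H => z * el ℂ g) :=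
        Submodule.subset_span ⟨1, rfl⟩
      rw [h, Submodule.mem_bot, el_one, mul_one] at h1
      exact hz0 h1
    · exact Submodule.fg_span (Set.finite_range _)
    · intro y hy
      induction hy using Submodule.span_induction with
      | mem y hy =>
        obtain ⟨g, rfl⟩ := hy
        have h1 : c • (z * el ℂ g) = ∑ h : H, z.coeff h • (z * el ℂ (h * g)) := by
          have h3 : z * el ℂ g = ∑ h : H, z.coeff h • el ℂ (h * g) := by
            conv_lhs => rw [E0aux.expand z]
            rw [Finset.sum_mul]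
            refine Finset.sum_congr rfl fun h _ => ?_
            rw [smul_mul_assoc, ← el_mul]
          rw [← smul_mul_assoc, hzz, mul_assoc, h3, Finset.mul_sum]
          refine Finset.sum_congr rfl fun h _ => ?_
          rw [mul_smul_comm]
        show c • (z * el ℂ g) ∈ _
        rw [h1]
        refine Submodule.sum_mem _ fun h _ => ?_
        have h2 : z.coeff h • (z * el ℂ (h * g)) =
            (⟨z.coeff h, by rw [hzc]; exact ch_integral I b h⁻¹⟩ : integralClosure ℤ ℂ) •
              (z * el ℂ (h * g)) := rfl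
        rw [h2]
        exact Submodule.smul_mem _ _ (Submodule.subset_span ⟨h * g, rfl⟩)
      | zero => rw [smul_zero]; exact Submodule.zero_mem _
      | add x y _ _ hx hy => rw [smul_add]; exact Submodule.add_mem _ hx hy
      | smul a x _ hx => rw [smul_comm]; exact Submodule.smul_mem _ _ hx
  have hint2 : IsIntegral ℤ c := isIntegral_trans c hint
  obtain ⟨m, hm⟩ := int_of_integral hint2 (I.d b : ℤ) (Nat.card H : ℤ)
    (by exact_mod_cast (I.pos b).ne') (by
      rw [hc]
      push_cast
      rw [mul_div_cancel₀ _ hd])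
  have h3 : (Nat.card H : ℤ) = (I.d b : ℤ) * m := by
    have h4 : (Nat.card H : ℂ) = (I.d b : ℂ) * m := by
      rw [← hm, hc, mul_div_cancel₀ _ hd]
    exact_mod_cast h4
  exact Int.natCast_dvd_natCast.mp ⟨m, h3⟩

end NBaux

variable {O : ValuationSubring ℂ} {G : Type} [Group G] [Finite G] {N : Subgroup G}
  (B : OddBlocks O N)

/-- NB1 (the degree of a character divides the order of the group; hint). `χ(g⁻¹) ∈ ℤ-integral`, and for the class
sum `K` of `g` the number `χ(K) / d` is an algebraic integer (it is an eigenvalue of an integral matrix, or: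
`ℤ[N]` is a finitely generated `ℤ`-module and the scalar by which `K` acts is a root of a monic integral
polynomial). `|N| / d = ∑_K (χ(K) / d) χ(g_K⁻¹)` is rational, so an integer. -/
theorem d_odd (hN : Odd (Nat.card N)) (b : Fin B.I.r) : Odd (B.I.d b) := by
  haveI : Fintype N := Fintype.ofFinite N
  exact hN.of_dvd_nat (NBaux.d_dvd B.I b)

end Pool.Agent.Helper44.S3
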