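import Pool.Agent.Helper44.S3.Defs2
import Pool.Agent.Helper44.S3.NA
import Pool.Agent.Helper44.S3.NB
import Pool.Agent.Helper44.S3.QE
import Pool.Agent.Helper36.NB.Asm7

set_option autoImplicit false
open scoped BigOperators MonoidAlgebra
open Classical

namespace Pool.Agent.Helper44.S3

open Pool.Agent.Helper36.NB

/-- The index of `D` in `E`. -/
private theorem card_pair {G : Type} [Group G] [Fintype G] {x : G} {D E : Subgroup G}
    (h : IsDefectPair x D E) (hne : D ≠ E) : Nat.card E = 2 * Nat.card D := by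
  obtain ⟨t, htE, htD⟩ := exists_t h hne
  have h1 : (D.subgroupOf E).index = 2 := by
    rw [Subgroup.index_eq_two_iff]
    refine ⟨⟨t, htE⟩, ?_⟩
    rintro ⟨b, hb⟩
    rw [Subgroup.mem_subgroupOf, Subgroup.mem_subgroupOf]
    simp only [Subgroup.coe_mul]
    by_cases hbD : b ∈ D
    · right
      refine ⟨hbD, fun hbt => htD ?_⟩
      have := D.mul_mem (D.inv_mem hbD) hbt
      rwa [inv_mul_cancel_left] at this
    · left
      refine ⟨?_, hbD⟩
      have hbi : b⁻¹ ∉ D := fun hh => hbD (by simpa using D.inv_mem hh)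
      have := t_mul_mem h (E.inv_mem hb) hbi htE htD
      rwa [inv_inv] at this
  have h2 := Subgroup.card_mul_index (D.subgroupOf E)
  rw [h1, Nat.card_congr (Subgroup.subgroupOfEquivOfLe h.1).toEquiv] at h2
  rw [← h2, mul_comm]

/-- UD (numerics; hint). Write `a = B.I.d b`, `n = S.n = 2 a n1`. (1) With a rank-one idempotent `j` of `e`
(`exists_rank_one`) and `I : IrrData G` (`exists_irrData`), `m_χ = χ(j)`: `χ(e) = n m_χ` (`trace_rank`), `χ(e)` is
`0` or `d_χ` (`chi_central`), `|G| e(1) = ∑ d_χ χ(e) = n² ∑ m_χ² = n² |D|` (`E0aux.coeff_formula`, `defect_data`; `x` is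
real by `pair_real`), and `e(1) = 2 F(1) = 2 a² / |N|` (`F_coeff`). So `2 n1² |D| |N| = |G|` . (2) `defect_data`:
`v₂(n) + v₂|D| = v₂|G|`; `a` is odd (`d_odd`), `|N|` is odd; comparing, `n1` is odd, and `|D|` is half of the
`2`-part of `|G|`. (3) `|E : D| = 2` (`D ≠ E`, `pair_basic`), so `n1² |E| |N| = |G|`. (4) `D ≤ T`: if `d ∈ cent x`,
`d ∉ T` then `F(x⁻¹) = (inv' F)(x) = (cj d F)(x) = F(x)`, so `e(x) = 2 F(x)` is not a unit, contradiction. `E ⊓ T` is a
`2`-subgroup of `T` containing `D`, and `|T|₂ = |D|`, so `E ⊓ T = D`. -/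
theorem numerics (O : ValuationSubring ℂ) (h2 : (2 : O) ∈ IsLocalRing.maximalIdeal O)
    {G : Type} [Group G] [Fintype G] {e : MonoidAlgebra O G} (he : e * e = e)
    (hec : ∀ a, a * e = e * a) (S : SimpleQuot (toK O G e)) {x : G}
    (hx : IsDefectClass O e x) {D E : Subgroup G} (hDE : IsDefectPair x D E) (hne : D ≠ E)
    {N : Subgroup G} (hNn : N.Normal) (hN : Odd (Nat.card N)) (B : OddBlocks O N)
    (b : Fin B.I.r) (heq : e = B.F b + inv' (B.F b)) {T : Subgroup G} (hT : T.index = 2)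
    (hT1 : ∀ g ∈ T, cj g (B.F b) = B.F b) (hT2 : ∀ g, g ∉ T → cj g (B.F b) = inv' (B.F b))
    {n1 : ℕ} (hn : S.n = 2 * (B.I.d b * n1)) :
    Odd n1 ∧ n1 ^ 2 * (Nat.card E * Nat.card N) = Nat.card G ∧ ∀ t ∈ E, (t ∈ D ↔ t ∈ T) := by
  obtain ⟨hxo, hex, hK⟩ := hx
  set F := B.F b with hF
  have hxr := pair_real hDE hne
  obtain ⟨I⟩ := exists_irrData G
  obtain ⟨j, hj, hje, hj1⟩ := exists_rank_one O e he hec S
  have hjj : toC O G j * toC O G j = toC O G j := by rw [← map_mul, hj]
  have hee : toC O G e * toC O G e = toC O G e := by rw [← map_mul, he]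
  obtain ⟨hsum, -, hval⟩ := defect_data O h2 I e he hec S j hj hje hj1 x hxo hxr hex hK D
    hDE.2.2.2.1
  have hrank : (S.ρ (toK O G e)).rank = S.n := by
    rw [S.one, Matrix.rank_one, Fintype.card_fin]
  have hce : ∀ a, I.chi a (toC O G e) = (S.n : ℂ) * I.chi a (toC O G j) := by
    intro a
    have h := trace_rank O e he hec S j hj hje hj1 e he he (TraceFun.ofChi O I a)
    rw [TraceFun.ofChi_apply, TraceFun.ofChi_apply, hrank] at h
    exact h
  have hdd : ∀ a, (I.d a : ℂ) * I.chi a (toC O G e) = I.chi a (toC O G e) ^ 2 := by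
    intro a
    rcases chi_central I a (toC O G e) hee (F2aux.toC_central O e hec) with h | h
    · have h0 : I.chi a (toC O G e) = 0 := by rw [IrrData.chi, h, Matrix.trace_zero]
      rw [h0]; ring
    · have h0 : I.chi a (toC O G e) = I.d a := by
        rw [IrrData.chi, h, Matrix.trace_one, Fintype.card_fin]
      rw [h0]; ring
  have hreg := E0aux.regular I (toC O G e)
  have hF1 : (Nat.card N : ℂ) * ((F.coeff 1 : O) : ℂ) = (B.I.d b : ℂ) * B.I.d b := by
    have h := F_coeff B b 1
    rw [inv_one] at h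
    have h3 : B.I.ch b 1 = B.I.d b := by
      rw [IrrData.ch, el_one, chi_one]
    rw [h3] at h
    exact h
  have hcoef : ∀ y : G, e.coeff y = F.coeff y + F.coeff y⁻¹ := by
    intro y
    rw [heq, MonoidAlgebra.coeff_add, Finsupp.add_apply, inv'_coeff]
  have he1 : (toC O G e).coeff 1 = 2 * ((F.coeff 1 : O) : ℂ) := by
    rw [toC_apply, hcoef, inv_one]
    push_cast
    ring
  have hkey : (S.n : ℂ) ^ 2 * Nat.card D = Nat.card G * (2 * ((F.coeff 1 : O) : ℂ)) := by
    rw [← he1, ← hreg, ← hsum, Finset.mul_sum]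
    refine Finset.sum_congr rfl fun a _ => ?_
    rw [hdd, hce]
    ring
  have hdpos : 0 < B.I.d b := B.I.pos b
  have hnat : S.n ^ 2 * Nat.card D * Nat.card N = Nat.card G * (2 * (B.I.d b * B.I.d b)) := by
    have h : ((S.n ^ 2 * Nat.card D * Nat.card N : ℕ) : ℂ) =
        ((Nat.card G * (2 * (B.I.d b * B.I.d b)) : ℕ) : ℂ) := by
      push_cast
      rw [hkey, ← hF1]
      ring
    exact_mod_cast h
  have hmain : Nat.card G = 2 * (n1 ^ 2 * (Nat.card D * Nat.card N)) := by
    rw [hn] at hnat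
    have h3 : (2 * (B.I.d b * B.I.d b)) * (2 * (n1 ^ 2 * (Nat.card D * Nat.card N))) =
        (2 * (B.I.d b * B.I.d b)) * Nat.card G := by
      calc (2 * (B.I.d b * B.I.d b)) * (2 * (n1 ^ 2 * (Nat.card D * Nat.card N)))
          = (2 * (B.I.d b * n1)) ^ 2 * Nat.card D * Nat.card N := by ring
        _ = (2 * (B.I.d b * B.I.d b)) * Nat.card G := by rw [hnat]; ring
    exact (Nat.eq_of_mul_eq_mul_left (by positivity) h3).symm
  have hdo : Odd (B.I.d b) := d_odd B hN b
  have hn1 : n1 ≠ 0 := by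
    rintro rfl
    have := S.pos
    rw [hn] at this
    simp at this
  have hD0 : Nat.card D ≠ 0 := Nat.card_pos.ne'
  have hN0 : Nat.card N ≠ 0 := Nat.card_pos.ne'
  have hfd : (B.I.d b).factorization 2 = 0 :=
    Nat.factorization_eq_zero_of_not_dvd (by rw [← even_iff_two_dvd, Nat.not_even_iff_odd]; exact hdo)
  have hfN : (Nat.card N).factorization 2 = 0 :=
    Nat.factorization_eq_zero_of_not_dvd (by rw [← even_iff_two_dvd, Nat.not_even_iff_odd]; exact hN)
  have hf2 : (2 : ℕ).factorization 2 = 1 := by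
    rw [Nat.prime_two.factorization_self]
  have hn1o : Odd n1 := by
    rw [hmain, hn, Nat.factorization_mul two_ne_zero (by positivity),
      Nat.factorization_mul hdpos.ne' hn1,
      Nat.factorization_mul two_ne_zero (by positivity),
      Nat.factorization_mul (by positivity) (by positivity),
      Nat.factorization_mul hD0 hN0, Nat.factorization_pow] at hval
    simp only [Finsupp.coe_add, Pi.add_apply, Finsupp.coe_smul, Pi.smul_apply, smul_eq_mul, hfd,
      hfN, hf2] at hval
    have h0 : n1.factorization 2 = 0 := by omega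
    rw [← Nat.not_even_iff_odd, even_iff_two_dvd]
    intro hdvd
    have := (Nat.prime_two.dvd_iff_one_le_factorization hn1).1 hdvd
    omega
  have hE2 := card_pair hDE hne
  have hG2 : n1 ^ 2 * (Nat.card E * Nat.card N) = Nat.card G := by
    rw [hE2, hmain]
    ring
  refine ⟨hn1o, hG2, ?_⟩
  have hDT : ∀ d ∈ D, d ∈ T := by
    intro d hd
    by_contra hdT
    apply hex
    have h3 := hT2 d hdT
    have h4 := congrArg (fun z => z.coeff x) h3
    simp only [cj_coeff, inv'_coeff] at h4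
    have h5 : d⁻¹ * x * d = x := by
      have := mem_cent_iff.mp (hDE.2.1 (D.inv_mem hd))
      rwa [inv_inv] at this
    rw [h5] at h4
    rw [hcoef, ← h4, ← two_mul, map_mul]
    have h6 : IsLocalRing.residue O 2 = 0 := (IsLocalRing.residue_eq_zero_iff _).2 h2
    rw [h6, zero_mul]
  intro t ht
  refine ⟨hDT t, fun htT => ?_⟩
  by_contra htD
  have hET : E ≤ T := by
    intro y hy
    by_cases hyD : y ∈ D
    · exact hDT y hyD
    · have h3 := T.mul_mem htT (hDT _ (t_mul_mem hDE ht htD hy hyD))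
      rwa [mul_inv_cancel_left] at h3
  have h3 := Subgroup.card_dvd_of_le hET
  have h4 := Subgroup.card_mul_index T
  rw [hT] at h4
  have h5 : Nat.card T = Nat.card D * (n1 ^ 2 * Nat.card N) := by
    have : Nat.card T * 2 = Nat.card D * (n1 ^ 2 * Nat.card N) * 2 := by
      rw [h4, hmain]; ring
    exact Nat.eq_of_mul_eq_mul_right (by norm_num) this
  rw [h5, hE2, mul_comm 2] at h3
  have h6 : 2 ∣ n1 ^ 2 * Nat.card N := Nat.dvd_of_mul_dvd_mul_left (Nat.pos_of_ne_zero hD0) h3
  have h7 : Odd (n1 ^ 2 * Nat.card N) := (hn1o.pow).mul hN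
  rw [← Nat.not_even_iff_odd, even_iff_two_dvd] at h7
  exact h7 h6

end Pool.Agent.Helper44.S3
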