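import Pool.Agent.Helper44.S3.Defs2

set_option autoImplicit false
open scoped BigOperators MonoidAlgebra
open Classical

namespace Pool.Agent.Helper44.S3

open Pool.Agent.Helper36.NB

private theorem ue_alg {Q : Type} [Group Q] {α β : Q} {s r : ℕ} (hs : r = 2 * s + 1)
    (hα : α * α = 1) (hβ : β ^ r = 1) (h : α * β * (α * β) = 1) :
    (β ^ s)⁻¹ * (α * β) * β ^ s = α := by
  have hinv : α⁻¹ = α := inv_eq_of_mul_eq_one_left hα
  have h1 : α * β * α⁻¹ = β⁻¹ := by
    rw [hinv]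
    apply eq_inv_of_mul_eq_one_left
    rw [← h]
    group
  have h2 : α * β ^ s * α⁻¹ = (β ^ s)⁻¹ := by
    rw [← conj_pow, h1, inv_pow]
  have h3 : (β ^ s)⁻¹ * α = α * β ^ s := by
    rw [← h2]
    group
  calc (β ^ s)⁻¹ * (α * β) * β ^ s = ((β ^ s)⁻¹ * α) * β * β ^ s := by group
    _ = α * (β ^ s * β * β ^ s) := by rw [h3]; group
    _ = α * β ^ r := by
        rw [hs, ← pow_succ, ← pow_add]
        congr 2
        ring
    _ = α := by rw [hβ, mul_one]

private theorem ue_inf {G : Type} [Group G] [Fintype G] {N E : Subgroup G}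
    (hN : Odd (Nat.card N)) (hE : IsPGroup 2 E) {x : G} (hxE : x ∈ E) (hxN : x ∈ N) : x = 1 := by
  obtain ⟨k, hk⟩ := hE ⟨x, hxE⟩
  have h1 : x ^ (2 ^ k) = 1 := by
    have := congrArg Subtype.val hk
    simpa using this
  have h2 : x ^ (Nat.card N) = 1 := by
    exact congrArg Subtype.val (pow_card_eq_one' (x := (⟨x, hxN⟩ : N)))
  have h3 : Nat.Coprime (2 ^ k) (Nat.card N) := (Nat.coprime_two_left.mpr hN).pow_left k
  have h4 : orderOf x ∣ 1 := by
    have h5 : Nat.gcd (2 ^ k) (Nat.card N) = 1 := h3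
    rw [← h5]
    exact Nat.dvd_gcd (orderOf_dvd_of_pow_eq_one h1) (orderOf_dvd_of_pow_eq_one h2)
  exact orderOf_eq_one_iff.mp (Nat.dvd_one.mp h4)

private theorem ue_exists {G : Type} [Group G] [Fintype G] {N E : Subgroup G} (hNn : N.Normal)
    (hN : Odd (Nat.card N)) (hE : IsPGroup 2 E) {y : G} (hy : y * y = 1) (hyE : y ∈ E ⊔ N) :
    ∃ m ∈ N, m⁻¹ * y * m ∈ E := by
  obtain ⟨h, hh, n, hn, rfl⟩ := Subgroup.mem_sup_of_normal_right.mp hyE
  obtain ⟨s, hs⟩ := hN
  have hhh : h * h = 1 := by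
    apply ue_inf ⟨s, hs⟩ hE (E.mul_mem hh hh)
    have h1 : h * h = (h * n * h⁻¹)⁻¹ * n⁻¹ := by
      have h2 : (h * n * h⁻¹) * (h * h) * n = 1 := by
        rw [← hy]
        group
      have h3 : (h * n * h⁻¹) * (h * h) = n⁻¹ := eq_inv_of_mul_eq_one_left h2
      rw [← h3]
      group
    rw [h1]
    exact N.mul_mem (N.inv_mem (hNn.conj_mem n hn h)) (N.inv_mem hn)
  have hnr : n ^ (Nat.card N) = 1 := by
    exact congrArg Subtype.val (pow_card_eq_one' (x := (⟨n, hn⟩ : N)))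
  refine ⟨n ^ s, N.pow_mem hn s, ?_⟩
  rw [ue_alg hs hhh hnr hy]
  exact hh

private theorem ue_fib {G : Type} [Group G] [Fintype G] {N E : Subgroup G} (hNn : N.Normal)
    (hN : Odd (Nat.card N)) (hE : IsPGroup 2 E) {y : G} (hy : y * y = 1) (g : G) :
    (Finset.univ.filter (fun m : G => m ∈ N ∧ (g * m)⁻¹ * y * (g * m) ∈ E)).card =
      if g⁻¹ * y * g ∈ E ⊔ N then (csetN N y).card else 0 := by
  have hre : ∀ m : G, (g * m)⁻¹ * y * (g * m) = m⁻¹ * (g⁻¹ * y * g) * m := by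
    intro m
    group
  split_ifs with hB
  · have hy' : (g⁻¹ * y * g) * (g⁻¹ * y * g) = 1 := by
      have : (g⁻¹ * y * g) * (g⁻¹ * y * g) = g⁻¹ * (y * y) * g := by group
      rw [this, hy]
      group
    obtain ⟨m0, hm0, hm0E⟩ := ue_exists hNn hN hE hy' hB
    have key : ∀ m ∈ N, m⁻¹ * (g⁻¹ * y * g) * m ∈ E →
        m⁻¹ * (g⁻¹ * y * g) * m = m0⁻¹ * (g⁻¹ * y * g) * m0 := by
      intro m hm hmE
      have h1 : (m⁻¹ * (g⁻¹ * y * g) * m) * (m0⁻¹ * (g⁻¹ * y * g) * m0)⁻¹ ∈ N := by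
        have h2 : (m⁻¹ * (g⁻¹ * y * g) * m) * (m0⁻¹ * (g⁻¹ * y * g) * m0)⁻¹ =
            m⁻¹ * ((g⁻¹ * y * g) * (m * m0⁻¹) * (g⁻¹ * y * g)⁻¹) * m0 := by group
        rw [h2]
        exact N.mul_mem (N.mul_mem (N.inv_mem hm)
          (hNn.conj_mem _ (N.mul_mem hm (N.inv_mem hm0)) _)) hm0
      exact mul_inv_eq_one.mp (ue_inf hN hE (E.mul_mem hmE (E.inv_mem hm0E)) h1)
    refine Finset.card_nbij' (fun m => g * (m * m0⁻¹) * g⁻¹) (fun s => g⁻¹ * s * g * m0) ?_ ?_ ?_ ?_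
    · intro m hm
      simp only [Finset.coe_filter, Finset.mem_univ, true_and, Set.mem_ofPred_eq] at hm
      obtain ⟨hmN, hmE⟩ := hm
      rw [hre] at hmE
      have h1 := key m hmN hmE
      simp only [csetN, Finset.coe_filter, Finset.mem_univ, true_and, Set.mem_ofPred_eq]
      refine ⟨hNn.conj_mem _ (N.mul_mem hmN (N.inv_mem hm0)) _, ?_⟩
      have h2 : y * (g * (m * m0⁻¹) * g⁻¹) =
          g * m * (m⁻¹ * (g⁻¹ * y * g) * m) * m0⁻¹ * g⁻¹ := by group
      rw [h2, h1]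
      group
    · intro s hs
      simp only [csetN, Finset.coe_filter, Finset.mem_univ, true_and, Set.mem_ofPred_eq] at hs
      obtain ⟨hsN, hsy⟩ := hs
      simp only [Finset.coe_filter, Finset.mem_univ, true_and, Set.mem_ofPred_eq]
      refine ⟨N.mul_mem ?_ hm0, ?_⟩
      · have := hNn.conj_mem _ hsN g⁻¹
        rwa [inv_inv] at this
      · have h2 : (g * (g⁻¹ * s * g * m0))⁻¹ * y * (g * (g⁻¹ * s * g * m0)) =
            m0⁻¹ * g⁻¹ * s⁻¹ * (y * s) * g * m0 := by group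
        have h3 : m0⁻¹ * g⁻¹ * s⁻¹ * (s * y) * g * m0 = m0⁻¹ * (g⁻¹ * y * g) * m0 := by group
        rw [h2, ← hsy, h3]
        exact hm0E
    · intro m _
      change g⁻¹ * (g * (m * m0⁻¹) * g⁻¹) * g * m0 = m
      group
    · intro s _
      change g * (g⁻¹ * s * g * m0 * m0⁻¹) * g⁻¹ = s
      group
  · rw [Finset.card_eq_zero, Finset.filter_eq_empty_iff]
    rintro m - ⟨hm, hmE⟩
    apply hB
    rw [hre] at hmE
    have h1 : g⁻¹ * y * g = m * (m⁻¹ * (g⁻¹ * y * g) * m) * m⁻¹ := by group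
    rw [h1]
    exact (E ⊔ N).mul_mem ((E ⊔ N).mul_mem ((le_sup_right : N ≤ E ⊔ N) hm)
      ((le_sup_left : E ≤ E ⊔ N) hmE)) ((E ⊔ N).inv_mem ((le_sup_right : N ≤ E ⊔ N) hm))

/-- UE (hint). Count the pairs `(g, m)`, `m ∈ N`, `(g m)⁻¹ y (g m) ∈ E`: their number is
`#{g | g⁻¹ y g ∈ E} * |N|` (`(g, m) ↦ (g m, m)`); for such a pair `y' = g⁻¹ y g ∈ E ⊔ N`, and conversely for
`y' = g⁻¹ y g ∈ E ⊔ N = E N` (`y' y' = 1`) the number of `m ∈ N` with `m⁻¹ y' m ∈ E` is `|C_N(y')| = |C_N(y)|`: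
`y' = h n` with `h ∈ E` unique (`E ⊓ N = 1`), `h h = 1`, `m⁻¹ y' m ∈ E` iff `m⁻¹ y' m = h`, and there is such an `m`:
`z = y' h ∈ N` (`y' = h n`, `N` normal), `h z h⁻¹ = h y' = z⁻¹`, `r = z ^ ((|N| + 1) / 2)`, `r² = z`,
`h r h⁻¹ = r⁻¹`, `r h r⁻¹ = r² h = y'`; so `m = r` works. -/
theorem count_N {G : Type} [Group G] [Fintype G] {N E : Subgroup G} (hNn : N.Normal)
    (hN : Odd (Nat.card N)) (hE : IsPGroup 2 E) {y : G} (hy : y * y = 1) :
    Nat.card {g : G // g⁻¹ * y * g ∈ E} * Nat.card N =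
      cnt ⊤ (E ⊔ N) y * (csetN N y).card := by
  have hA : Nat.card {g : G // g⁻¹ * y * g ∈ E} =
      (Finset.univ.filter (fun g : G => g⁻¹ * y * g ∈ E)).card := by
    rw [Nat.card_eq_fintype_card, Fintype.card_subtype]
  have hB : cnt ⊤ (E ⊔ N) y =
      (Finset.univ.filter (fun g : G => g⁻¹ * y * g ∈ E ⊔ N)).card := by
    rw [cnt, Nat.card_eq_fintype_card, Fintype.card_subtype]
    congr 1
    ext g
    simp
  have hNc : Nat.card N = (Finset.univ.filter (fun m : G => m ∈ N)).card := by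
    rw [Nat.card_eq_fintype_card]
    exact Fintype.card_subtype _
  have h1 : ∑ g : G, (Finset.univ.filter (fun m : G => m ∈ N ∧ (g * m)⁻¹ * y * (g * m) ∈ E)).card =
      (Finset.univ.filter (fun g : G => g⁻¹ * y * g ∈ E ⊔ N)).card * (csetN N y).card := by
    rw [Finset.sum_congr rfl (fun g _ => ue_fib hNn hN hE hy g), ← Finset.sum_filter,
      Finset.sum_const, smul_eq_mul]
  have h2 : ∑ g : G, (Finset.univ.filter (fun m : G => m ∈ N ∧ (g * m)⁻¹ * y * (g * m) ∈ E)).card =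
      (Finset.univ.filter (fun m : G => m ∈ N)).card *
        (Finset.univ.filter (fun g : G => g⁻¹ * y * g ∈ E)).card := by
    have h3 : ∀ g : G,
        (Finset.univ.filter (fun m : G => m ∈ N ∧ (g * m)⁻¹ * y * (g * m) ∈ E)).card =
        ∑ m : G, if m ∈ N ∧ (g * m)⁻¹ * y * (g * m) ∈ E then 1 else 0 := by
      intro g
      rw [Finset.card_filter]
    rw [Finset.sum_congr rfl (fun g _ => h3 g), Finset.sum_comm]
    have h4 : ∀ m : G, (∑ g : G, if m ∈ N ∧ (g * m)⁻¹ * y * (g * m) ∈ E then 1 else 0) =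
        if m ∈ N then (Finset.univ.filter (fun g : G => g⁻¹ * y * g ∈ E)).card else 0 := by
      intro m
      by_cases hm : m ∈ N
      · rw [if_pos hm, ← Finset.card_filter]
        refine Finset.card_nbij' (fun g => g * m) (fun g => g * m⁻¹) ?_ ?_ ?_ ?_
        · intro g hg
          simp only [Finset.coe_filter, Finset.mem_univ, true_and, Set.mem_ofPred_eq] at hg ⊢
          exact hg.2
        · intro g hg
          simp only [Finset.coe_filter, Finset.mem_univ, true_and, Set.mem_ofPred_eq] at hg ⊢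
          refine ⟨hm, ?_⟩
          rw [inv_mul_cancel_right]
          exact hg
        · intro g _
          change g * m * m⁻¹ = g
          group
        · intro g _
          change g * m⁻¹ * m = g
          group
      · rw [if_neg hm]
        apply Finset.sum_eq_zero
        intro g _
        rw [if_neg (fun h => hm h.1)]
    rw [Finset.sum_congr rfl (fun m _ => h4 m), ← Finset.sum_filter, Finset.sum_const,
      smul_eq_mul]
  rw [hA, hB, hNc, mul_comm, ← h2, h1]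

end Pool.Agent.Helper44.S3
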