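import Pool.Agent.Helper44.S3.Defs2
import Pool.Agent.Helper44.S3.PT
import Pool.Agent.Helper44.S3.OC
import Pool.Agent.Helper44.S3.NC
import Pool.Agent.Helper44.S3.UC
import Pool.Agent.Helper44.S3.UD
import Pool.Agent.Helper44.S3.UE

set_option autoImplicit false
open scoped BigOperators MonoidAlgebra
open Classical

namespace Pool.Agent.Helper44.S3

open Pool.Agent.Helper36.NB

private theorem uf_card_sup {G : Type} [Group G] [Finite G] {N E : Subgroup G} (hNn : N.Normal)
    (hN : Odd (Nat.card N)) (hE : IsPGroup 2 E) :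
    Nat.card (E ⊔ N : Subgroup G) = Nat.card E * Nat.card N := by
  have h1 := Subgroup.relIndex_mul_relIndex (⊥ : Subgroup G) N (E ⊔ N) bot_le le_sup_right
  rw [Subgroup.relIndex_bot_left, Subgroup.relIndex_bot_left] at h1
  obtain ⟨s, hs⟩ := IsPGroup.iff_card.1 hE
  have hcop : Nat.Coprime (Nat.card N) (Nat.card E) := by
    rw [hs]
    exact Nat.Coprime.pow_right _ (Nat.Coprime.symm (Nat.coprime_two_left.2 hN))
  have h2 : N ⊓ E = ⊥ := by
    have := Subgroup.inf_eq_bot_of_coprime hcop
    exact this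
  have h3 : N.relIndex (E ⊔ N) = Nat.card E := by
    rw [Subgroup.relIndex_sup_right, ← Subgroup.inf_relIndex_right, h2,
      Subgroup.relIndex_bot_left]
  rw [← h1, h3, mul_comm]

/-- UF (terminal case, assembly; hint). `k = resK O`. `exists_nblk` for `b`; `terminal_star` for `e`, `f = toK (F b)`
(`toK_inv'`, `toK_cj`; `F b * inv' (F b) = 0` by `F_inv`, `F_mul`, `hne'`) gives `n1`, `B'`; `numerics`. For `u ∈ T`: the
right side of `Orb` is zero (`E ∖ D` is outside `T`, `T` is normal); the left side is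
`2 ∑_{c ∈ csetN N u} F(c)` (`cset u` and the support `N`; `c ↦ c⁻¹`), and it is the coefficient at `1` of
`(∑ el c) * F b`, zero by `gow` (`cj u (inv' F) = inv' F ≠ F`). For `u ∉ T`: `gow` gives
`|N| ∑_{csetN N u} F(c) = a |C_N(u)|`, so `|N| * (left side) = 2 a |G| |C_N(u)|`; `PT` for `K = N`, `H = E ⊔ N`, `G = ⊤`
(`Sit`: `|E ⊔ N| = |E| |N|`; `n1² |E| |N| = |G|`) gives `cnt ⊤ (E ⊔ N) u = n1 |E| |N|`, and `count_N`:
`#{g | g⁻¹ u g ∈ E} = n1 |E| |C_N(u)|`; none of these `g⁻¹ u g` is in `D ≤ T`. -/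
theorem terminal_orb (O : ValuationSubring ℂ) (h2 : (2 : O) ∈ IsLocalRing.maximalIdeal O)
    {G : Type} [Group G] [Fintype G] (hs : IsSolvable G) {e : MonoidAlgebra O G}
    (he : e * e = e) (hec : ∀ a, a * e = e * a) (her : inv' e = e)
    (S : SimpleQuot (toK O G e)) {x : G} (hx : IsDefectClass O e x) {D E : Subgroup G}
    (hDE : IsDefectPair x D E) (hne : D ≠ E) {N : Subgroup G} (hNn : N.Normal)
    (hN : Odd (Nat.card N)) (B : OddBlocks O N) (b : Fin B.I.r)
    (hne' : inv' (B.F b) ≠ B.F b) (heq : e = B.F b + inv' (B.F b)) {T : Subgroup G}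
    (hT : T.index = 2) (hNT : N ≤ T) (hT1 : ∀ g ∈ T, cj g (B.F b) = B.F b)
    (hT2 : ∀ g, g ∉ T → cj g (B.F b) = inv' (B.F b)) (u : G) (hu : u * u = 1) :
    Orb O e S.n D E u := by
  haveI : CharP (resK O) 2 := resK_charP O h2
  haveI : IsAlgClosed (resK O) := resK_isAlgClosed O
  haveI hTn : T.Normal := Subgroup.normal_of_index_eq_two hT
  obtain ⟨Φ⟩ := exists_nblk B h2 hN b
  have hFF : B.F b * B.F b = B.F b := by rw [F_mul, if_pos rfl]
  have hFinv : B.F b * inv' (B.F b) = 0 := by
    obtain ⟨b', hb'⟩ := F_inv B b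
    rw [hb', F_mul, if_neg]
    intro h
    apply hne'
    rw [hb', ← h]
  have hf : toK O G (B.F b) * toK O G (B.F b) = toK O G (B.F b) := by rw [← map_mul, hFF]
  have hef : toK O G e = toK O G (B.F b) + inv' (toK O G (B.F b)) := by
    rw [← toK_inv', ← map_add, ← heq]
  have hff : toK O G (B.F b) * inv' (toK O G (B.F b)) = 0 := by
    rw [← toK_inv', ← map_mul, hFinv, map_zero]
  have her' : inv' (toK O G e) = toK O G e := by rw [← toK_inv', her]
  obtain ⟨n1, B', hn, hBN⟩ := terminal_star her' S hf hef hff hT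
    (fun g hg => by rw [← toK_cj, hT1 g hg])
    (fun g hg => by rw [← toK_cj, hT2 g hg, toK_inv']) hNn hNT Φ
  obtain ⟨hodd1, hcardG, hDT⟩ := numerics O h2 he hec S hx hDE hne hNn hN B b heq hT hT1 hT2 hn
  have hE2 : IsPGroup 2 E := (pair_basic hDE).1
  -- the left side
  have hcs : ∀ s : G, s ∈ csetN N u ↔ s ∈ N ∧ s * u = u * s := by
    intro s
    simp [csetN]
  have hinvmem : ∀ s, s * u = u * s → s⁻¹ * u = u * s⁻¹ := by
    intro s h
    rw [inv_mul_eq_iff_eq_mul, ← mul_assoc, h, mul_assoc, mul_inv_cancel, mul_one]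
  have hsumN : ∑ s ∈ Finset.univ.filter (fun s : G => s * u = u * s), ((B.F b).coeff s : ℂ) =
      ∑ c ∈ csetN N u, ((B.F b).coeff c : ℂ) := by
    symm
    apply Finset.sum_subset
    · intro s hs'
      rw [hcs] at hs'
      simp [hs'.2]
    · intro s hs' hs''
      rw [hcs] at hs''
      simp only [Finset.mem_filter, Finset.mem_univ, true_and] at hs'
      have h3 : s ∉ N := fun h => hs'' ⟨h, hs'⟩
      rw [F_supp B b h3]
      simp
  have hsuminv : ∑ s ∈ Finset.univ.filter (fun s : G => s * u = u * s),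
      ((inv' (B.F b)).coeff s : ℂ) =
      ∑ s ∈ Finset.univ.filter (fun s : G => s * u = u * s), ((B.F b).coeff s : ℂ) := by
    refine Finset.sum_bij' (fun c _ => c⁻¹) (fun c _ => c⁻¹) ?_ ?_ ?_ ?_ ?_
    · intro c hc
      simp only [Finset.mem_filter, Finset.mem_univ, true_and] at hc ⊢
      exact hinvmem c hc
    · intro c hc
      simp only [Finset.mem_filter, Finset.mem_univ, true_and] at hc ⊢
      exact hinvmem c hc
    · intro c _
      exact inv_inv c
    · intro c _
      exact inv_inv c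
    · intro c _
      rw [inv'_coeff]
  have hleft : ∑ s ∈ Finset.univ.filter (fun s : G => s * u = u * s), (e.coeff s : ℂ) =
      2 * ∑ c ∈ csetN N u, ((B.F b).coeff c : ℂ) := by
    have h3 : ∀ s, (e.coeff s : ℂ) = ((B.F b).coeff s : ℂ) + ((inv' (B.F b)).coeff s : ℂ) := by
      intro s
      rw [heq]
      simp
    rw [Finset.sum_congr rfl (fun s _ => h3 s), Finset.sum_add_distrib, hsuminv, hsumN]
    ring
  unfold Orb
  rw [hleft]
  by_cases huT : u ∈ T
  · -- both sides vanish
    have hcard : Nat.card {g : G // g⁻¹ * u * g ∈ E ∧ g⁻¹ * u * g ∉ D} = 0 := by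
      rw [Nat.card_eq_zero]
      left
      refine ⟨?_⟩
      rintro ⟨g, hg1, hg2⟩
      apply hg2
      rw [hDT _ hg1]
      have := hTn.conj_mem u huT g⁻¹
      rwa [inv_inv] at this
    have h3 : cj u (inv' (B.F b)) ≠ B.F b := by
      rw [← cj_inv', hT1 u huT]
      exact hne'
    have h4 := (gow hNn hN B b hu).1 h3
    have h5 : ∑ c ∈ csetN N u, (B.F b).coeff c⁻¹ = 0 := by
      have h6 := congrArg (fun z : MonoidAlgebra O G => z.coeff 1) h4
      simp only [Finset.sum_mul] at h6
      rw [MonoidAlgebra.coeff_sum, Finsupp.finsetSum_apply] at h6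
      simp only [el_mul_coeff, mul_one] at h6
      exact h6
    have h6 : ∑ c ∈ csetN N u, (B.F b).coeff c = 0 := by
      rw [← h5]
      refine Finset.sum_bij' (fun c _ => c⁻¹) (fun c _ => c⁻¹) ?_ ?_ ?_ ?_ ?_
      · intro c hc
        rw [hcs] at hc ⊢
        exact ⟨N.inv_mem hc.1, hinvmem c hc.2⟩
      · intro c hc
        rw [hcs] at hc ⊢
        exact ⟨N.inv_mem hc.1, hinvmem c hc.2⟩
      · intro c _
        exact inv_inv c
      · intro c _
        exact inv_inv c
      · intro c _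
        rw [inv_inv]
    have h7 : ∑ c ∈ csetN N u, ((B.F b).coeff c : ℂ) = 0 := by
      have h8 := congrArg (fun z : O => (z : ℂ)) h6
      simp only [ZeroMemClass.coe_zero] at h8
      rw [← h8]
      push_cast
      rfl
    rw [h7, hcard]
    simp
  · have h3 : cj u (inv' (B.F b)) = B.F b := by
      rw [← cj_inv', hT2 u huT, inv'_inv']
    have h4 := (gow hNn hN B b hu).2 h3
    have hsup := uf_card_sup hNn hN hE2
    have hsolv : IsSolvable (⊤ : Subgroup G) := by
      have : Group.IsSolvable G := hs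
      exact (inferInstance : Group.IsSolvable (⊤ : Subgroup G))
    have hSit : Sit T ⊤ N (E ⊔ N) :=
      { KH := le_sup_right
        HG := le_top
        KT := hNT
        norm := fun g _ y hy => hNn.conj_mem y hy g
        Hcard := by
          obtain ⟨s, hs'⟩ := IsPGroup.iff_card.1 hE2
          exact ⟨s, by rw [hsup, hs']⟩
        Gcard := ⟨n1 ^ 2, hodd1.pow, by
          rw [hsup, hcardG, Subgroup.card_top]⟩ }
    have hPT := (PT (Γ := G) (k := resK O) hT _ ⊤ N (E ⊔ N) n1 B' le_rfl hsolv hSit hBN hodd1).2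
      (by rw [hsup, hcardG, Subgroup.card_top]) u (Subgroup.mem_top _) huT hu
    have hcount := count_N hNn hN hE2 hu
    rw [hPT, hsup] at hcount
    have hcard : Nat.card {g : G // g⁻¹ * u * g ∈ E ∧ g⁻¹ * u * g ∉ D} =
        Nat.card {g : G // g⁻¹ * u * g ∈ E} := by
      apply Nat.card_congr
      refine Equiv.subtypeEquivRight ?_
      intro g
      constructor
      · exact fun h => h.1
      · intro h
        refine ⟨h, ?_⟩
        intro hD
        rw [hDT _ h] at hD
        apply huT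
        have := hTn.conj_mem _ hD g
        have h5 : g * (g⁻¹ * u * g) * g⁻¹ = u := by group
        rwa [h5] at this
    have hNpos : 0 < Nat.card N := Nat.card_pos
    have hcount' : Nat.card {g : G // g⁻¹ * u * g ∈ E} = n1 * Nat.card E * (csetN N u).card := by
      apply Nat.eq_of_mul_eq_mul_right hNpos
      rw [hcount]
      ring
    rw [hcard, hcount', hn]
    have hNC : (Nat.card N : ℂ) ≠ 0 := by exact_mod_cast hNpos.ne'
    apply mul_left_cancel₀ hNC
    have hG : (Nat.card G : ℂ) = (n1 : ℂ) ^ 2 * (Nat.card E * Nat.card N) := by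
      rw [← hcardG]; push_cast; ring
    calc (Nat.card N : ℂ) * ((Nat.card G : ℂ) * (2 * ∑ c ∈ csetN N u, ((B.F b).coeff c : ℂ)))
        = 2 * (Nat.card G : ℂ) * ((Nat.card N : ℂ) * ∑ c ∈ csetN N u, ((B.F b).coeff c : ℂ)) := by
          ring
      _ = 2 * ((n1 : ℂ) ^ 2 * (Nat.card E * Nat.card N)) * (B.I.d b * (csetN N u).card) := by
          rw [h4, hG]
      _ = _ := by
          push_cast
          ring

end Pool.Agent.Helper44.S3
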