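import Pool.Agent.Helper44.S3.Defs2
import Pool.Agent.Helper44.S3.OC

set_option autoImplicit false
open scoped BigOperators MonoidAlgebra
open Classical

namespace Pool.Agent.Helper44.S3

open Pool.Agent.Helper36.NB

/-- VA (hint). Let `C = csetN N v`, `c₀ = ∑_{c ∈ C} el c`; `c₀ * F b = 0` by `gow`, so `c₀ * (e * F b) = 0` (`e` is
central). `|C| ∑_{s ∈ cset v} a(s) = ∑_{s ∈ cset v} ∑_{c ∈ C} a(c⁻¹ s) = ∑_{s ∈ cset v} (c₀ * a)(s) = 0` for
`a = e * F b`. -/
theorem gow_vanish {O : ValuationSubring ℂ} {G : Type} [Group G] [Fintype G] {N : Subgroup G}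
    (hNn : N.Normal) (hN : Odd (Nat.card N)) (B : OddBlocks O N) (b : Fin B.I.r)
    {e : MonoidAlgebra O G} (hec : ∀ a, a * e = e * a) {v : G} (hv : v * v = 1)
    (h1 : cj v (inv' (B.F b)) ≠ B.F b) :
    ∑ s ∈ cset v, ((e * B.F b).coeff s : ℂ) = 0 := by
  have h0 : (∑ c ∈ csetN N v, el O c) * (e * B.F b) = 0 := by
    rw [← mul_assoc, hec, mul_assoc, (gow hNn hN B b hv).1 h1, mul_zero]
  have hcoef : ∀ s, ∑ c ∈ csetN N v, (e * B.F b).coeff (c⁻¹ * s) = 0 := by
    intro s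
    have h3 : ((∑ c ∈ csetN N v, el O c) * (e * B.F b)).coeff s =
        ∑ c ∈ csetN N v, (e * B.F b).coeff (c⁻¹ * s) := by
      rw [Finset.sum_mul, MonoidAlgebra.coeff_sum, Finsupp.finsetSum_apply]
      exact Finset.sum_congr rfl fun c _ => el_mul_coeff c _ s
    rw [← h3, h0]
    rfl
  have hsum : ∑ s ∈ cset v, ∑ c ∈ csetN N v, ((e * B.F b).coeff (c⁻¹ * s) : ℂ) = 0 := by
    refine Finset.sum_eq_zero fun s _ => ?_
    have h3 := congrArg (algebraMap O ℂ) (hcoef s)
    rw [map_sum, map_zero] at h3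
    exact h3
  rw [Finset.sum_comm] at hsum
  have hin : ∀ c ∈ csetN N v, ∑ s ∈ cset v, ((e * B.F b).coeff (c⁻¹ * s) : ℂ) =
      ∑ s ∈ cset v, ((e * B.F b).coeff s : ℂ) := by
    intro c hc
    obtain ⟨-, -, hcv⟩ := Finset.mem_filter.1 hc
    refine Finset.sum_bij' (fun s _ => c⁻¹ * s) (fun s _ => c * s) ?_ ?_ ?_ ?_ ?_
    · intro s hs
      obtain ⟨-, hs⟩ := Finset.mem_filter.1 hs
      refine Finset.mem_filter.2 ⟨Finset.mem_univ _, ?_⟩
      have h4 : c⁻¹ * v = v * c⁻¹ := by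
        rw [inv_mul_eq_iff_eq_mul, ← mul_assoc, hcv, mul_assoc, mul_inv_cancel, mul_one]
      calc c⁻¹ * s * v = c⁻¹ * (s * v) := mul_assoc _ _ _
        _ = c⁻¹ * (v * s) := by rw [hs]
        _ = c⁻¹ * v * s := (mul_assoc _ _ _).symm
        _ = v * c⁻¹ * s := by rw [h4]
        _ = v * (c⁻¹ * s) := mul_assoc _ _ _
    · intro s hs
      obtain ⟨-, hs⟩ := Finset.mem_filter.1 hs
      refine Finset.mem_filter.2 ⟨Finset.mem_univ _, ?_⟩
      calc c * s * v = c * (s * v) := mul_assoc _ _ _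
        _ = c * (v * s) := by rw [hs]
        _ = c * v * s := (mul_assoc _ _ _).symm
        _ = v * c * s := by rw [hcv]
        _ = v * (c * s) := mul_assoc _ _ _
    · intro s _
      exact mul_inv_cancel_left c s
    · intro s _
      exact inv_mul_cancel_left c s
    · intro s _
      rfl
  rw [Finset.sum_congr rfl hin, Finset.sum_const, nsmul_eq_mul] at hsum
  rcases mul_eq_zero.1 hsum with h3 | h3
  · exfalso
    have h4 : (csetN N v).card = 0 := by exact_mod_cast h3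
    rw [Finset.card_eq_zero] at h4
    have h5 : (1 : G) ∈ csetN N v :=
      Finset.mem_filter.2 ⟨Finset.mem_univ _, N.one_mem, by rw [one_mul, mul_one]⟩
    rw [h4] at h5
    exact absurd h5 (Finset.notMem_empty _)
  · exact h3

/-- The same for `F b + inv' (F b)` (`inv' (F b) = F b'` by `F_inv`). -/
theorem gow_vanish' {O : ValuationSubring ℂ} {G : Type} [Group G] [Fintype G] {N : Subgroup G}
    (hNn : N.Normal) (hN : Odd (Nat.card N)) (B : OddBlocks O N) (b : Fin B.I.r)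
    {e : MonoidAlgebra O G} (hec : ∀ a, a * e = e * a) {v : G} (hv : v * v = 1)
    (h1 : cj v (inv' (B.F b)) ≠ B.F b) :
    ∑ s ∈ cset v, ((e * (B.F b + inv' (B.F b))).coeff s : ℂ) = 0 := by
  obtain ⟨b', hb'⟩ := F_inv B b
  have h3 : cj v (inv' (B.F b')) ≠ B.F b' := by
    rw [← hb', inv'_inv']
    intro h4
    apply h1
    rw [← h4, cj_cj, hv, cj_one]
  have e1 := gow_vanish hNn hN B b hec hv h1
  have e2 := gow_vanish hNn hN B b' hec hv h3
  rw [hb']
  calc ∑ s ∈ cset v, ((e * (B.F b + B.F b')).coeff s : ℂ)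
      = ∑ s ∈ cset v, (((e * B.F b).coeff s : ℂ) + ((e * B.F b').coeff s : ℂ)) := by
        refine Finset.sum_congr rfl fun s _ => ?_
        rw [mul_add, MonoidAlgebra.coeff_add, Finsupp.add_apply]
        push_cast
        rfl
    _ = 0 := by rw [Finset.sum_add_distrib, e1, e2, add_zero]

end Pool.Agent.Helper44.S3
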