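import Pool.Agent.Helper44.S3.Defs2
import Pool.Agent.Helper44.S3.HA
import Pool.Agent.Helper44.S3.HC
import Pool.Agent.Helper44.S3.UF
import Pool.Agent.Helper44.S3.FG
import Pool.Agent.Helper44.S3.FF
import Pool.Agent.Helper44.S3.CLa
import Pool.Agent.Helper44.S3.CLb
import Pool.Agent.Helper44.S3.VA
import Pool.Agent.Helper44.S3.RB
import Pool.Agent.Helper44.S3.RC
import Pool.Agent.Helper44.S3.RD
import Pool.Agent.Helper44.S3.QD
import Pool.Agent.Helper44.S3.QF
import Pool.Agent.Helper44.S3.QG
import Pool.Agent.Helper44.S3.PC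

set_option autoImplicit false
open scoped BigOperators MonoidAlgebra
open Classical

namespace Pool.Agent.Helper44.S3

open Pool.Agent.Helper36.NB

private theorem impr_toK {O : ValuationSubring ℂ} {G : Type} [Group G] {G1 : Subgroup G}
    {h : MonoidAlgebra O G} (hI : Impr G1 h) : Impr G1 (toK O G h) where
  idem := by rw [← map_mul, hI.idem]
  inv := by rw [← toK_inv', hI.inv]
  fix := fun g hg => by rw [← toK_cj, hI.fix g hg]
  orth := fun g hg => by rw [← toK_cj, ← map_mul, hI.orth g hg, map_zero]
  supp := fun g hg => by rw [toK_apply, hI.supp g hg, map_zero]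

/-- If `F (el g) F = 0` for `g ∉ T` then `e F` is supported on `T`. -/
private theorem supp_T {R : Type} [CommRing R] {G : Type} [Group G] [Finite G] {T : Subgroup G}
    {F e : MonoidAlgebra R G} (hF : F * F = F) (hFs : ∀ g, g ∉ T → F.coeff g = 0)
    (horth : ∀ g, g ∉ T → F * cj g F = 0) (hec : ∀ a, a * e = e * a) :
    ∀ g, g ∉ T → (e * F).coeff g = 0 := by
  haveI := Fintype.ofFinite G
  -- split `e`
  set a : MonoidAlgebra R G := incl R T (res T e) with ha
  have has : ∀ g, g ∉ T → a.coeff g = 0 := fun g hg => incl_supp T _ hg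
  have hbs : ∀ g, g ∈ T → (e - a).coeff g = 0 := by
    intro g hg
    have h1 : a.coeff g = e.coeff g := by
      have h2 := incl_coeff T (res T e) ⟨g, hg⟩
      have h3 := res_coeff T e ⟨g, hg⟩
      rw [ha]
      exact h2.trans h3
    rw [MonoidAlgebra.coeff_sub, Finsupp.sub_apply, h1, sub_self]
  have hz : ∀ g, g ∉ T → F * el R g * F = 0 := by
    intro g hg
    have h1 : el R g * F = cj g F * el R g := by
      unfold cj
      rw [mul_assoc, mul_assoc, el_inv_mul_el, mul_one]
    rw [mul_assoc, h1, ← mul_assoc, horth g hg, zero_mul]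
  have hexp : e - a = ∑ g : G, (e - a).coeff g • el R g := by
    ext x
    rw [MonoidAlgebra.coeff_sum, Finsupp.finset_sum_apply, Finset.sum_eq_single x]
    · rw [MonoidAlgebra.coeff_smul, Finsupp.smul_apply, el_coeff, if_pos rfl, smul_eq_mul, mul_one]
    · intro y _ hy
      rw [MonoidAlgebra.coeff_smul, Finsupp.smul_apply, el_coeff, if_neg hy, smul_eq_mul, mul_zero]
    · intro h
      exact absurd (Finset.mem_univ x) h
  have hzero : F * (e - a) * F = 0 := by
    rw [hexp, Finset.mul_sum, Finset.sum_mul]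
    refine Finset.sum_eq_zero fun g _ => ?_
    by_cases hg : g ∈ T
    · rw [hbs g hg, zero_smul, mul_zero, zero_mul]
    · rw [mul_smul_comm, smul_mul_assoc, hz g hg, smul_zero]
  have h1 : e * F = F * a * F := by
    have h2 : F * e * F = e * F := by rw [hec F, mul_assoc, hF]
    have h3 : F * (e - a) * F = F * e * F - F * a * F := by rw [mul_sub, sub_mul]
    rw [hzero, h2] at h3
    exact (sub_eq_zero.1 h3.symm)
  rw [h1]
  exact supp_mul T (supp_mul T hFs has) hFs

private theorem princ_case (O : ValuationSubring ℂ) (h2 : (2 : O) ∈ IsLocalRing.maximalIdeal O)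
    {G : Type} [Group G] [Fintype G] (hs : IsSolvable G) {e : MonoidAlgebra O G}
    (he : IsBlock e) (her : inv' e = e) (S : SimpleQuot (toK O G e)) {x : G}
    (hx : IsDefectClass O e x) {D E : Subgroup G} (hDE : IsDefectPair x D E) (hne : D ≠ E)
    {N : Subgroup G} (hN : IsOddCore N) (B : OddBlocks O N) (b : Fin B.I.r)
    (hb : e * B.F b ≠ 0) (hr : inv' (B.F b) = B.F b) : False := by
  haveI : IsAlgClosed (resK O) := resK_isAlgClosed O
  haveI : CharP (resK O) 2 := resK_charP O h2
  obtain ⟨hNn, hNo, -⟩ := id hN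
  obtain ⟨hfix, hF1⟩ := real_triv h2 hNn hNo B b hr
  obtain ⟨he0, hee, hec, hprim⟩ := id he
  have hFc : ∀ y, y * B.F b = B.F b * y := fun y => central_of_cj hfix y
  have hFF : B.F b * B.F b = B.F b := by rw [F_mul, if_pos rfl]
  have heF : B.F b * e = e := by
    rcases hprim (B.F b) hFF hFc with h | h
    · exact absurd (by rw [hFc e, h]) hb
    · exact h
  have heF' : e * B.F b = e := by rw [hFc e, heF]
  obtain ⟨Φ⟩ := exists_nblk B h2 hNo b
  have hc0 : toK O G e ≠ 0 := fun h => he0 (idem_eq_zero O hee h)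
  have hce : toK O G e = toK O G (B.F b) := by
    rcases fong hs hN Φ (fun g => by rw [← toK_cj, hfix g]) (toK O G e) (by rw [← map_mul, hee])
      (fun y => by
        obtain ⟨y', rfl⟩ := toK_surjective O y
        rw [← map_mul, ← map_mul, hec]) (by rw [← map_mul, heF']) with h | h
    · exact absurd h hc0
    · exact h
  have heq : e = B.F b := by
    have h1 : (B.F b - e) * (B.F b - e) = B.F b - e := by
      rw [mul_sub, sub_mul, sub_mul, hFF, heF, heF', hee]
      abel
    have h3 := idem_eq_zero O h1 (by rw [map_sub, hce, sub_self])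
    exact (sub_eq_zero.1 h3).symm
  -- `1` is a defect class
  have hcl : classSum O (1 : G) = 1 := by
    unfold classSum
    have h1 : Finset.univ.filter (fun g : G => IsConj 1 g) = {1} := by
      ext g
      rw [Finset.mem_filter, Finset.mem_singleton]
      constructor
      · rintro ⟨-, h⟩
        exact isConj_one_right.1 h
      · rintro rfl
        exact ⟨Finset.mem_univ _, IsConj.refl _⟩
    rw [h1, Finset.sum_singleton, el_one]
  have hw : IsDefectClass O e (1 : G) := by
    refine ⟨by rw [orderOf_one]; exact odd_one, by rw [heq]; exact hF1, ?_⟩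
    rw [hcl, one_mul]
    rintro ⟨n, hn⟩
    have h1 : ∀ n : ℕ, toK O G e ^ (n + 1) = toK O G e := by
      intro n
      induction n with
      | zero => rw [zero_add, pow_one]
      | succ n ih => rw [pow_succ, ih, ← map_mul, hee]
    apply hc0
    rw [← h1 n, pow_succ, hn, zero_mul]
  obtain ⟨D', E', h'⟩ := exists_pair (1 : G)
  have hxr := pair_real hDE hne
  have h1r : IsConj (1 : G) (1 : G)⁻¹ := by rw [inv_one]
  have c1 := defect_card O h2 e hee hec her S hx hw h1r hDE h'
  have c2 := defect_card O h2 e hee hec her S hw hx hxr h' hDE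
  have c3 : Nat.card D' = Nat.card E' := by
    have h3 : cent (1 : G) = ⊤ := by
      rw [eq_top_iff]
      intro g _
      rw [mem_cent_iff]
      group
    have h4 : extCent (1 : G) = ⊤ := by
      rw [eq_top_iff]
      intro g _
      left
      group
    rw [h'.2.2.2.1, h'.2.2.2.2, h3, h4]
  apply hne
  refine Subgroup.eq_of_le_of_card_ge hDE.1 ?_
  omega

private theorem term_case (O : ValuationSubring ℂ) (h2 : (2 : O) ∈ IsLocalRing.maximalIdeal O)
    {G : Type} [Group G] [Fintype G] (hs : IsSolvable G) {e : MonoidAlgebra O G}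
    (he : IsBlock e) (her : inv' e = e) (S : SimpleQuot (toK O G e)) {x : G}
    (hx : IsDefectClass O e x) {D E : Subgroup G} (hDE : IsDefectPair x D E) (hne : D ≠ E)
    {N : Subgroup G} (hN : IsOddCore N) (B : OddBlocks O N) (b : Fin B.I.r)
    (hb : e * B.F b ≠ 0) (hr : inv' (B.F b) ≠ B.F b)
    (htop : ∀ g, cj g (B.F b + inv' (B.F b)) = B.F b + inv' (B.F b)) (u : G) (hu : u * u = 1) :
    Orb O e S.n D E u := by
  obtain ⟨hNn, hNo, -⟩ := id hN
  obtain ⟨he0, hee, hec, hprim⟩ := id he
  obtain ⟨T, hT, hT1, hT2, hNT⟩ := half_struct B hNn b hr he her hb htop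
  obtain ⟨Φ⟩ := exists_nblk B h2 hNo b
  obtain ⟨b', hb'⟩ := F_inv B b
  have hbb' : b ≠ b' := by
    rintro rfl
    exact hr hb'
  have hFF : B.F b * B.F b = B.F b := by rw [F_mul, if_pos rfl]
  have hFF' : B.F b * inv' (B.F b) = 0 := by rw [hb', F_mul, if_neg hbb']
  have hF'F : inv' (B.F b) * B.F b = 0 := by rw [hb', F_mul, if_neg (Ne.symm hbb')]
  have hFs : ∀ g, g ∉ N → (B.F b).coeff g = 0 := fun g hg => F_supp B b hg
  have hFsT : ∀ g, g ∉ T → (B.F b).coeff g = 0 := fun g hg => hFs g (fun h => hg (hNT h))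
  have hTs : IsSolvable T := by
    have hs' : Group.IsSolvable G := hs
    exact (inferInstance : Group.IsSolvable T)
  have hc : e * B.F b = B.F b := by
    rcases fong_sub O h2 hTs hNT (oddCore_sub hN hT).2 Φ hFF hFs hT1 (e * B.F b)
      (by
        calc e * B.F b * (e * B.F b) = e * (B.F b * e) * B.F b := by simp only [mul_assoc]
          _ = e * (e * B.F b) * B.F b := by rw [hec]
          _ = (e * e) * (B.F b * B.F b) := by simp only [mul_assoc]
          _ = e * B.F b := by rw [hee, hFF])
      (supp_T hFF hFsT (fun g hg => by rw [hT2 g hg, hFF']) hec)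
      (fun g hg => by rw [cj_mul, cj_of_central hec g, hT1 g hg])
      (by rw [mul_assoc, hFF]) with h | h
    · exact absurd h hb
    · exact h
  have hc' : e * inv' (B.F b) = inv' (B.F b) := by
    have h1 := congrArg inv' hc
    rw [inv'_mul, her, hec] at h1
    exact h1
  have hhe : (B.F b + inv' (B.F b)) * e = e := by
    have hhh : (B.F b + inv' (B.F b)) * (B.F b + inv' (B.F b)) = B.F b + inv' (B.F b) := by
      have h3 : inv' (B.F b) * inv' (B.F b) = inv' (B.F b) := by rw [← inv'_mul, hFF]
      rw [add_mul, mul_add, mul_add, hFF, hFF', hF'F, h3, add_zero, zero_add]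
    rcases hprim _ hhh (fun y => central_of_cj htop y) with h | h
    · exfalso
      apply below_sum B b hr hb
      rw [← hec, h]
    · exact h
  have heq : e = B.F b + inv' (B.F b) := by
    calc e = (B.F b + inv' (B.F b)) * e := hhe.symm
      _ = e * (B.F b + inv' (B.F b)) := hec _
      _ = e * B.F b + e * inv' (B.F b) := mul_add _ _ _
      _ = B.F b + inv' (B.F b) := by rw [hc, hc']
  exact terminal_orb O h2 hs hee hec her S hx hDE hne hNn hNo B b hr heq hT hNT hT1 hT2 u hu

/-- The orbit-wise identity for all real non-principal blocks with one simple module of solvable groups. -/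
theorem orb_main (O : ValuationSubring ℂ) (h2 : (2 : O) ∈ IsLocalRing.maximalIdeal O) (m : ℕ) :
    ∀ (G : Type) [Group G] [Fintype G], Nat.card G ≤ m → IsSolvable G →
      ∀ (e : MonoidAlgebra O G), IsBlock e → inv' e = e → ∀ (S : SimpleQuot (toK O G e))
        (x : G), IsDefectClass O e x → ∀ (D E : Subgroup G), IsDefectPair x D E → D ≠ E →
          ∀ u : G, u * u = 1 → Orb O e S.n D E u := by
  induction m with
  | zero =>
    intro G _ _ hG
    exact absurd hG (by have : 0 < Nat.card G := Nat.card_pos; omega)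
  | succ m ih =>
    intro G _ _ hG hs e he her S x hx D E hDE hne u hu
    obtain ⟨N, hN⟩ := exists_oddCore G
    obtain ⟨hNn, hNo, -⟩ := id hN
    obtain ⟨he0, hee, hec, hprim⟩ := id he
    obtain ⟨B⟩ := exists_oddBlocks h2 N hNo
    obtain ⟨b, hb⟩ := exists_below B he
    by_cases hr : inv' (B.F b) = B.F b
    · exact (princ_case O h2 hs he her S hx hDE hne hN B b hb hr).elim
    obtain ⟨G1, hI, hNG1, hG1, hG1v⟩ := stab_struct B hNn b hr
    by_cases htop : G1 = ⊤
    · exact term_case O h2 hs he her S hx hDE hne hN B b hb hr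
        (fun g => (hG1 g).1 (by rw [htop]; exact Subgroup.mem_top g)) u hu
    set h := B.F b + inv' (B.F b) with hh
    have heh : e * h ≠ 0 := below_sum B b hr hb
    obtain ⟨R, hR⟩ := exists_trans G1
    have hcov := fr_cover hI he heh hR
    obtain ⟨f1, f2, f3, f4, f5⟩ := fr_facts hI hee hec her hR hcov
    have hbl : IsBlock (res G1 (e * h)) := fr_block hI he her hR hcov
    obtain ⟨S1, hS1⟩ : ∃ S1 : SimpleQuot (toK O G1 (res G1 (e * h))), S.n = G1.index * S1.n := by
      rw [toK_res, map_mul]
      refine fr_simple (impr_toK hI) (by rw [← map_mul, hee]) (fun y => ?_)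
        (by rw [← toK_inv', her]) hR ?_ S
      · obtain ⟨y', rfl⟩ := toK_surjective O y
        rw [← map_mul, ← map_mul, hec]
      · conv_rhs => rw [← hcov]
        rw [map_mul, map_sum]
        simp only [toK_cj]
    obtain ⟨x1, hx1, hx1r⟩ := exists_real_class O h2 (res G1 (e * h)) f2 f3 f4 S1
    obtain ⟨D1, E1, hDE1⟩ := exists_pair x1
    have hconj := defect_transfer O h2 e hee hec her S hx (pair_real hDE hne) hDE G1
      (res G1 (e * h)) f2 f3 f4 S1 hR (by rw [f1]; exact f5) h f1 hI.inv hI.fix hx1 hx1r hDE1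
    have hne1 : D1 ≠ E1 := by
      rintro rfl
      obtain ⟨g, hg1, hg2⟩ := hconj
      apply hne
      ext t
      rw [hg1 t, hg2 t]
    have hcard : Nat.card G1 ≤ m := by
      have h1 := Subgroup.card_le_card_group G1
      have h3 : Nat.card G1 ≠ Nat.card G := fun h4 => htop (Subgroup.eq_top_of_card_eq G1 h4)
      omega
    have hs1 : IsSolvable G1 := by
      have hs' : Group.IsSolvable G := hs
      exact (inferInstance : Group.IsSolvable G1)
    exact orb_transfer hI hec hR f5 hS1 hconj
      (fun v hv => ih G1 hcard hs1 (res G1 (e * h)) hbl f4 S1 x1 hx1 D1 E1 hDE1 hne1 v hv) u hu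
      (fun v hv hvG => gow_vanish' hNn hNo B b hec hv (hG1v v hvG))

end Pool.Agent.Helper44.S3
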