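import Pool.Agent.Helper44.S3.Defs

set_option autoImplicit false
open scoped BigOperators MonoidAlgebra
open Classical

namespace Pool.Agent.Helper44.S3

open Pool.Agent.Helper36.NB

private theorem mono_pi {k : Type} [Field k] {ι : Type} {V : Type}
    [AddCommGroup V] [Module k V] (σ : V →ₗ[k] V) (b : Module.Basis ι k V) (π : ι → ι) (c : ι → k)
    (hσ : ∀ i, σ (b i) = c i • b (π i)) (h2 : ∀ v, σ (σ v) = v) (i : ι) :
    π (π i) = i ∧ c i * c (π i) = 1 := by
  have h := h2 (b i)
  rw [hσ, map_smul, hσ, smul_smul] at h
  have hr := congrArg (fun v => b.repr v i) h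
  simp only [map_smul, Module.Basis.repr_self, Finsupp.smul_apply, smul_eq_mul,
    Finsupp.single_eq_same] at hr
  by_cases hp : π (π i) = i
  · rw [hp] at hr
    rw [Finsupp.single_eq_same, mul_one] at hr
    exact ⟨hp, hr⟩
  · rw [Finsupp.single_apply, if_neg hp, mul_zero] at hr
    exact absurd hr (by simp)

private theorem mono_count {ι : Type} [Fintype ι] (π : ι → ι) (hπ : ∀ i, π (π i) = i)
    (e : ι ≃ Fin (Fintype.card ι)) :
    2 * Fintype.card {i : ι // e i < e (π i)} + Nat.card {i : ι // π i = i} = Fintype.card ι := by
  have h1 : Fintype.card {i : ι // e i < e (π i)} = Fintype.card {i : ι // e (π i) < e i} := by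
    apply Fintype.card_congr
    refine ⟨fun x => ⟨π x.1, ?_⟩, fun x => ⟨π x.1, ?_⟩, ?_, ?_⟩
    · rw [hπ]
      exact x.2
    · rw [hπ]
      exact x.2
    · intro x
      exact Subtype.ext (hπ x.1)
    · intro x
      exact Subtype.ext (hπ x.1)
  have h2 : Nat.card {i : ι // π i = i} = (Finset.univ.filter (fun i => π i = i)).card := by
    rw [Nat.card_eq_fintype_card, Fintype.card_subtype]
  have h3 : (Finset.univ.filter (fun i => e i < e (π i))).card +
      (Finset.univ.filter (fun i => ¬ e i < e (π i))).card = Fintype.card ι := by
    rw [Finset.card_filter_add_card_filter_not, Finset.card_univ]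
  have h4 : (Finset.univ.filter (fun i => ¬ e i < e (π i))).card =
      (Finset.univ.filter (fun i => e (π i) < e i)).card +
      (Finset.univ.filter (fun i => π i = i)).card := by
    rw [← Finset.card_union_of_disjoint]
    · congr 1
      ext i
      simp only [Finset.mem_filter, Finset.mem_univ, true_and, Finset.mem_union, not_lt]
      constructor
      · intro h
        rcases h.lt_or_eq with h | h
        · exact Or.inl h
        · exact Or.inr (e.injective h)
      · rintro (h | h)
        · exact h.le
        · rw [h]
    · rw [Finset.disjoint_filter]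
      intro i _ h h'
      rw [h'] at h
      exact lt_irrefl _ h
  rw [h2]
  rw [Fintype.card_subtype] at h1 ⊢
  rw [Fintype.card_subtype] at h1
  omega

/-- LC (hint). `σ σ = id` gives `π π = id` and `c i * c (π i) = 1`. For `π i = i`: `c i = 1` and
`(σ + 1) (b i) = 2 b i = 0`. For `π i ≠ i` the vectors `(σ + 1) (b i)`, `(σ + 1) (b (π i))` are proportional
and non-zero. So the range has a basis indexed by the pairs `{i, π i}`, `π i ≠ i`. (Alternatively rank-nullity:
the kernel of `σ + 1` has dimension number of orbits of `π`.) -/
theorem mono_rank {k : Type} [Field k] [CharP k 2] {ι : Type} [Fintype ι] {V : Type}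
    [AddCommGroup V] [Module k V] (σ : V →ₗ[k] V) (b : Module.Basis ι k V) (π : ι → ι) (c : ι → k)
    (hσ : ∀ i, σ (b i) = c i • b (π i)) (h2 : ∀ v, σ (σ v) = v) :
    2 * Module.finrank k (LinearMap.range (σ + LinearMap.id)) + Nat.card {i : ι // π i = i} =
      Fintype.card ι := by
  have hp := mono_pi σ b π c hσ h2
  have hπ : ∀ i, π (π i) = i := fun i => (hp i).1
  have hc : ∀ i, c i * c (π i) = 1 := fun i => (hp i).2
  let e := Fintype.equivFin ι
  rw [← mono_count π hπ e]
  congr 2
  let w : {i : ι // e i < e (π i)} → V := fun i => (σ + LinearMap.id : V →ₗ[k] V) (b i.1)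
  have hw : ∀ i : ι, (σ + LinearMap.id : V →ₗ[k] V) (b i) = c i • b (π i) + b i := by
    intro i
    rw [LinearMap.add_apply, hσ, LinearMap.id_apply]
  have hind : LinearIndependent k w := by
    let f : V →ₗ[k] ({i : ι // e i < e (π i)} → k) :=
      LinearMap.pi (fun j => (b.coord j.1))
    apply LinearIndependent.of_comp f
    have hf : (f ∘ w) = fun i => Pi.single i (1 : k) := by
      funext i
      funext j
      simp only [f, w, Function.comp, LinearMap.pi_apply, hw, map_add, map_smul,
        Module.Basis.coord_apply, Module.Basis.repr_self, smul_eq_mul]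
      have hne : π i.1 ≠ j.1 := by
        intro h
        have h3 := j.2
        rw [← h, hπ] at h3
        exact lt_asymm h3 i.2
      rw [Finsupp.single_apply, if_neg hne, mul_zero, zero_add, Finsupp.single_apply,
        Pi.single_apply]
      by_cases hij : i = j
      · subst hij
        simp
      · rw [if_neg (fun h => hij (Subtype.ext h)), if_neg (fun h => hij h.symm)]
    rw [hf]
    convert (Pi.basisFun k {i : ι // e i < e (π i)}).linearIndependent using 1
    funext i
    simp
  have hspan : LinearMap.range (σ + LinearMap.id : V →ₗ[k] V) = Submodule.span k (Set.range w) := by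
    apply le_antisymm
    · rw [LinearMap.range_eq_map, ← b.span_eq, Submodule.map_span, Submodule.span_le]
      rintro _ ⟨_, ⟨i, rfl⟩, rfl⟩
      rcases lt_trichotomy (e i) (e (π i)) with h | h | h
      · exact Submodule.subset_span ⟨⟨i, h⟩, rfl⟩
      · have h5 : π i = i := (e.injective h).symm
        have h6 : c i = 1 := by
          have h7 := hc i
          rw [h5] at h7
          have h8 : (c i - 1) * (c i - 1) = 0 := by
            have h9 : (2 : k) = 0 := CharTwo.two_eq_zero
            linear_combination h7 + (1 - c i) * h9
          have := mul_self_eq_zero.mp h8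
          exact sub_eq_zero.mp this
        have h10 : (σ + LinearMap.id : V →ₗ[k] V) (b i) = 0 := by
          rw [hw, h5, h6, one_smul, ← two_smul k, CharTwo.two_eq_zero, zero_smul]
        rw [h10]
        exact Submodule.zero_mem _
      · have h5 : (σ + LinearMap.id : V →ₗ[k] V) (b i) = c i • (σ + LinearMap.id : V →ₗ[k] V) (b (π i)) := by
          rw [hw, hw, hπ, smul_add, smul_smul, hc, one_smul, add_comm]
        rw [h5]
        apply Submodule.smul_mem
        refine Submodule.subset_span ⟨⟨π i, ?_⟩, rfl⟩
        rw [hπ]
        exact h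
    · rw [Submodule.span_le]
      rintro _ ⟨i, rfl⟩
      exact ⟨b i.1, rfl⟩
  rw [hspan, finrank_span_eq_card hind]

end Pool.Agent.Helper44.S3
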