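import Pool.Agent.Helper44.S3.LA
import Pool.Agent.Helper44.S3.LC

set_option autoImplicit false
open scoped BigOperators MonoidAlgebra
open Classical

namespace Pool.Agent.Helper44.S3

open Pool.Agent.Helper36.NB

variable {Γ : Type} [Group Γ] [Finite Γ] {T G K H M : Subgroup Γ} {k : Type} [Field k] {n : ℕ}

omit [Finite Γ] in
/-- Elements congruent modulo `K` are implemented by the same matrices. -/
private theorem impl_congr (A : StarAct T G k n) (hMG : M ≤ G) (hK : ∀ g ∈ K, A.Triv g)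
    (hKM : K ≤ M) {m m' : Γ} (hm : m ∈ M) (h : m⁻¹ * m' ∈ K) {u : Mt k n}
    (hu : A.Impl m' u) : A.Impl m u := by
  refine ⟨hu.1, fun a => ?_⟩
  have h1 : A.α m' a = A.α m a := by
    have h2 : m' = m * (m⁻¹ * m') := by group
    rw [h2, A.mul m (hMG hm) _ (hMG (hKM h)), hK _ h a]
  rw [← h1]
  exact hu.2 a

omit [Finite Γ] in
/-- `α_y` preserves `Z`. -/
private theorem map_Z (A : StarAct T G k n) (hMG : M ≤ G) (hMn : Norm G M) {y : Γ} (hy : y ∈ G)
    (hyT : y ∉ T) {z : Mt k n} (hz : z ∈ A.Z M) : A.α y z ∈ A.Z M := by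
  unfold StarAct.Z at hz ⊢
  induction hz using Submodule.span_induction with
  | mem x hx =>
    obtain ⟨m, hm, hu⟩ := hx
    refine Submodule.subset_span ⟨y * m⁻¹ * y⁻¹, hMn y hy _ (M.inv_mem hm), ?_⟩
    exact impl_conj_anti A (hMG hm) hy hyT hu
  | zero => simp
  | add x x' _ _ h h' => rw [map_add]; exact Submodule.add_mem _ h h'
  | smul c x _ h => rw [map_smul]; exact Submodule.smul_mem _ c h

/-- CX (hint). Matrices `u_i` implementing representatives `m_i` of the cosets `M / K` span `A.Z M` (elements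
of `K` act trivially); by `hZ` they form a basis. `α_y` maps `A.Z M` to itself: `α_y u_i` implements
`y m_i⁻¹ y⁻¹` (`impl_conj_anti`), so `α_y u_i = c u_j`. Now `mono_rank` for the restriction of `α_y`; the
fixed cosets are those with `y m⁻¹ y⁻¹ ∈ m K`, equivalently `y m y⁻¹ m ∈ K` (`K` is normal in `M`), so their number
times `|K|` is `cneg M K y`. -/
theorem mono_Z [CharP k 2] (A : StarAct T G k n) {r : ℕ}
    (hM : Chief T G K M r) (hKn : Norm G K) (hK : ∀ g ∈ K, A.Triv g)
    (hZ : Module.finrank k (A.Z M) * Nat.card K = Nat.card M) {y : Γ} (hy : y ∈ G) (hyT : y ∉ T)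
    (hy2 : y * y = 1) :
    2 * Module.finrank k (Submodule.map (A.α y + LinearMap.id) (A.Z M)) * Nat.card K +
      cneg M K y = Nat.card M := by
  have hKM := hM.KM
  have hMG := hM.MG
  have hMn := hM.norm
  let S : Subgroup M := K.subgroupOf M
  let ι : Type := M ⧸ S
  have : Fintype ι := Fintype.ofFinite ι
  -- representatives
  let rep : ι → M := Quotient.out
  have hrep : ∀ i : ι, (QuotientGroup.mk (rep i) : ι) = i := fun i => Quotient.out_eq i
  have hu : ∀ i : ι, ∃ u, A.Impl (rep i : Γ) u := fun i =>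
    exists_impl A (hMG (rep i).2) (hM.MT (rep i).2)
  choose u hu using hu
  -- cosets
  have hcos : ∀ m m' : M, ((QuotientGroup.mk m : ι) = QuotientGroup.mk m') ↔
      ((m : Γ)⁻¹ * (m' : Γ) ∈ K) := by
    intro m m'
    rw [QuotientGroup.eq]
    simp only [S, Subgroup.mem_subgroupOf]
    rfl
  -- matrices implementing an element of `M` are multiples of the `u i`
  have hmul : ∀ (m : M) (v : Mt k n), A.Impl (m : Γ) v →
      ∃ c : k, v = c • u (QuotientGroup.mk m) := by
    intro m v hv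
    have h1 : A.Impl (rep (QuotientGroup.mk m) : Γ) v := by
      refine impl_congr A hMG hK hKM (rep (QuotientGroup.mk m)).2 ?_ hv
      exact (hcos _ _).1 (hrep _)
    obtain ⟨c, -, hc⟩ := impl_unique A (hu _) h1
    exact ⟨c, hc⟩
  have huZ : ∀ i, u i ∈ A.Z M := fun i => Submodule.subset_span ⟨rep i, (rep i).2, hu i⟩
  -- the basis
  let w : ι → A.Z M := fun i => ⟨u i, huZ i⟩
  have hspan : (⊤ : Submodule k (A.Z M)) ≤ Submodule.span k (Set.range w) := by
    have h1 : A.Z M ≤ Submodule.span k (Set.range u) := by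
      unfold StarAct.Z
      refine Submodule.span_le.2 ?_
      rintro v ⟨m, hm, hv⟩
      obtain ⟨c, hc⟩ := hmul ⟨m, hm⟩ v hv
      rw [hc]
      exact Submodule.smul_mem _ c (Submodule.subset_span ⟨_, rfl⟩)
    have h2 : Submodule.map (A.Z M).subtype (Submodule.span k (Set.range w)) =
        Submodule.span k (Set.range u) := by
      rw [Submodule.map_span, ← Set.range_comp]
      rfl
    rintro ⟨z, hz⟩ -
    have h3 : z ∈ Submodule.map (A.Z M).subtype (Submodule.span k (Set.range w)) := by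
      rw [h2]; exact h1 hz
    obtain ⟨z', hz', he⟩ := h3
    have h4 : z' = ⟨z, hz⟩ := Subtype.ext he
    rw [← h4]
    exact hz'
  have hcardS : Nat.card S = Nat.card K :=
    Nat.card_congr (Subgroup.subgroupOfEquivOfLe hKM).toEquiv
  have hcardM : Nat.card M = Nat.card ι * Nat.card K := by
    rw [← hcardS]
    exact Subgroup.card_eq_card_quotient_mul_card_subgroup S
  have hKpos : 0 < Nat.card K := Nat.card_pos
  have hfin : Fintype.card ι = Module.finrank k (A.Z M) := by
    rw [← Nat.card_eq_fintype_card]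
    have := hZ.trans hcardM
    exact (Nat.eq_of_mul_eq_mul_right hKpos this).symm
  have hli : LinearIndependent k w := linearIndependent_of_top_le_span_of_card_eq_finrank hspan hfin
  let b : Module.Basis ι k (A.Z M) := Module.Basis.mk hli hspan
  have hb : ∀ i, b i = w i := fun i => Module.Basis.mk_apply hli hspan i
  -- the restriction of `α y`
  have hmap : ∀ z ∈ A.Z M, A.α y z ∈ A.Z M := fun z hz => map_Z A hMG hMn hy hyT hz
  let σ : A.Z M →ₗ[k] A.Z M := (A.α y).restrict hmap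
  let cj' : M → M := fun m => ⟨y * (m : Γ)⁻¹ * y⁻¹, hMn y hy _ (M.inv_mem m.2)⟩
  let π : ι → ι := fun i => QuotientGroup.mk (cj' (rep i))
  have hc : ∀ i, ∃ c : k, A.α y (u i) = c • u (π i) := by
    intro i
    exact hmul (cj' (rep i)) _ (impl_conj_anti A (hMG (rep i).2) hy hyT (hu i))
  choose c hc using hc
  have hσ : ∀ i, σ (b i) = c i • b (π i) := by
    intro i
    rw [hb, hb]
    refine Subtype.ext ?_
    change A.α y (u i) = c i • u (π i)
    exact hc i
  have h2 : ∀ v, σ (σ v) = v := by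
    intro v
    refine Subtype.ext ?_
    change A.α y (A.α y v.1) = v.1
    rw [← A.mul y hy y hy, hy2, A.one]
  have hrk := mono_rank σ b π c hσ h2
  -- the ranges
  have hrange : Module.finrank k (Submodule.map (A.α y + LinearMap.id) (A.Z M)) =
      Module.finrank k (LinearMap.range (σ + LinearMap.id)) := by
    have h3 : Submodule.map (A.α y + LinearMap.id) (A.Z M) =
        Submodule.map (A.Z M).subtype (LinearMap.range (σ + LinearMap.id)) := by
      rw [← LinearMap.range_comp]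
      have h4 : (A.Z M).subtype ∘ₗ (σ + LinearMap.id) =
          (A.α y + LinearMap.id) ∘ₗ (A.Z M).subtype := by
        ext1 z
        rfl
      rw [h4, LinearMap.range_comp, Submodule.range_subtype]
    rw [h3]
    exact Submodule.finrank_map_subtype_eq _ _
  -- the fixed points of `π`
  have hπ : ∀ m : M, π (QuotientGroup.mk m) = QuotientGroup.mk (cj' m) := by
    intro m
    refine (hcos _ _).2 ?_
    have h3 : ((rep (QuotientGroup.mk m) : M) : Γ)⁻¹ * (m : Γ) ∈ K := (hcos _ _).1 (hrep _)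
    set m₀ : Γ := ((rep (QuotientGroup.mk m) : M) : Γ) with hm₀
    have hm₀M : m₀ ∈ M := (rep (QuotientGroup.mk m)).2
    -- `(y m₀⁻¹ y⁻¹)⁻¹ (y m⁻¹ y⁻¹) = y m₀ m⁻¹ y⁻¹`
    have h4 : (y * m₀⁻¹ * y⁻¹)⁻¹ * (y * (m : Γ)⁻¹ * y⁻¹) =
        y * (m₀ * (m₀⁻¹ * (m : Γ))⁻¹ * m₀⁻¹) * y⁻¹ := by group
    change (y * m₀⁻¹ * y⁻¹)⁻¹ * (y * (m : Γ)⁻¹ * y⁻¹) ∈ K
    rw [h4]
    exact hKn y hy _ (hKn m₀ (hMG hm₀M) _ (K.inv_mem h3))
  have hfix : ∀ m : M, π (QuotientGroup.mk m) = QuotientGroup.mk m ↔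
      y * (m : Γ) * y⁻¹ * (m : Γ) ∈ K := by
    intro m
    rw [hπ m, hcos]
    change (y * (m : Γ)⁻¹ * y⁻¹)⁻¹ * (m : Γ) ∈ K ↔ _
    have h4 : (y * (m : Γ)⁻¹ * y⁻¹)⁻¹ * (m : Γ) = y * (m : Γ) * y⁻¹ * (m : Γ) := by group
    rw [h4]
  let F : Set ι := {i | π i = i}
  have hcneg : cneg M K y = Nat.card {i : ι // π i = i} * Nat.card K := by
    have e1 : {m : Γ // m ∈ M ∧ y * m * y⁻¹ * m ∈ K} ≃
        ((QuotientGroup.mk : M → M ⧸ S) ⁻¹' F : Set M) :=
      { toFun := fun m => ⟨⟨m.1, m.2.1⟩, (hfix ⟨m.1, m.2.1⟩).2 m.2.2⟩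
        invFun := fun m => ⟨m.1.1, m.1.2, (hfix m.1).1 m.2⟩
        left_inv := fun m => rfl
        right_inv := fun m => rfl }
    have e2 := QuotientGroup.preimageMkEquivSubgroupProdSet S F
    unfold cneg
    rw [Nat.card_congr (e1.trans e2), Nat.card_prod, hcardS, mul_comm]
    rfl
  rw [← Nat.card_eq_fintype_card] at hrk
  rw [hcneg, hrange, hcardM, ← add_mul, hrk]

end Pool.Agent.Helper44.S3
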