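import Mathlib
import Pool.Agent.Helper44.S3.Main
import Pool.Agent.Helper32.ND.C

/-!
# Conjecture C and the orbit-wise identity: solvable groups, normal defect groups
-/

open scoped BigOperators
open Classical

namespace Pool.Agent.Helper44.S3

open Pool.Agent.Helper36.NB

theorem crisp_solvable (O : ValuationSubring ℂ) (h2 : (2 : O) ∈ IsLocalRing.maximalIdeal O)
    {G : Type} [Group G] [Fintype G] (hsol : Group.IsSolvable G)
    (e : MonoidAlgebra O G) (he : IsBlock e) (her : inv' e = e)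
    (hone : OneSimple (toK O G e))
    (x : G) (hx : IsDefectClass O e x) (D E : Subgroup G) (hDE : IsDefectPair x D E)
    (hne : D ≠ E)
    (j : MonoidAlgebra O G) (hj : IsPrimitiveIdem j) (hje : j * e = j) :
    ((∑ g : G, pim O j (g * g)) / (Nat.card G : ℂ) =
      (Nat.card {y : G // y ∈ E ∧ y ∉ D ∧ y * y = 1} : ℂ)) ∧
    ∀ u : G, u * u = 1 → (∑ s : cent u, pim O j s) / (Nat.card (cent u) : ℂ) =
      (Nat.card {y : G // y ∈ E ∧ y ∉ D ∧ IsConj u y} : ℂ) := by
  obtain ⟨he0, hee, hec, -⟩ := id he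
  have : IsAlgClosed (resK O) := resK_isAlgClosed O
  have hc0 : toK O G e ≠ 0 := fun h => he0 (idem_eq_zero O hee h)
  obtain ⟨S⟩ := simpleQuot_of_oneSimple (toK O G e) hc0 (by rw [← map_mul, hee])
    (fun y => by
      obtain ⟨y', rfl⟩ := toK_surjective O y
      rw [← map_mul, ← map_mul, hec]) hone
  exact final_of_orb O h2 e hee hec S j hj hje D E
    (orb_main O h2 (Nat.card G) G le_rfl hsol e he her S x hx D E hDE hne)

theorem crisp_normal (O : ValuationSubring ℂ) (h2 : (2 : O) ∈ IsLocalRing.maximalIdeal O)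
    {G : Type} [Group G] [Fintype G]
    (e : MonoidAlgebra O G) (he : IsBlock e) (her : inv' e = e)
    (hone : OneSimple (toK O G e))
    (x : G) (hx : IsDefectClass O e x) (D E : Subgroup G) (hDE : IsDefectPair x D E)
    (hne : D ≠ E) (hn : D.Normal)
    (j : MonoidAlgebra O G) (hj : IsPrimitiveIdem j) (hje : j * e = j) :
    ((∑ g : G, pim O j (g * g)) / (Nat.card G : ℂ) =
      (Nat.card {y : G // y ∈ E ∧ y ∉ D ∧ y * y = 1} : ℂ)) ∧
    ∀ u : G, u * u = 1 → (∑ s : cent u, pim O j s) / (Nat.card (cent u) : ℂ) =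
      (Nat.card {y : G // y ∈ E ∧ y ∉ D ∧ IsConj u y} : ℂ) := by
  obtain ⟨he0, hee, hec, -⟩ := id he
  have : IsAlgClosed (resK O) := resK_isAlgClosed O
  have hc0 : toK O G e ≠ 0 := fun h => he0 (idem_eq_zero O hee h)
  obtain ⟨S⟩ := simpleQuot_of_oneSimple (toK O G e) hc0 (by rw [← map_mul, hee])
    (fun y => by
      obtain ⟨y', rfl⟩ := toK_surjective O y
      rw [← map_mul, ← map_mul, hec]) hone
  exact final_of_orb O h2 e hee hec S j hj hje D E
    (Pool.Agent.Helper32.ND.orb_normal O h2 e he her S x hx D E hDE hne hn)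

end Pool.Agent.Helper44.S3
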