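import Pool.Agent.Helper44.S3.LA

set_option autoImplicit false
open scoped BigOperators MonoidAlgebra
open Classical

namespace Pool.Agent.Helper44.S3

open Pool.Agent.Helper36.NB

variable {Γ : Type} [Group Γ] [Finite Γ] {T G K H M : Subgroup Γ} {k : Type} [Field k] {n : ℕ}

/-- A complete family of orthogonal idempotents in `ZA` diagonalising the elements of `S`. -/
private def DAGood (ZA : Subalgebra k (Mt k n)) (S : Set (Mt k n)) : Prop :=
  ∃ (ι : Type) (_ : Fintype ι) (p : ι → Mt k n),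
    (∀ i j, p i * p j = if i = j then p i else 0) ∧ ∑ i, p i = 1 ∧ (∀ i, p i ∈ ZA) ∧
      ∀ u ∈ S, ∀ i, ∃ c : k, u * p i = c • p i

private theorem da_single (ZA : Subalgebra k (Mt k n)) (u : Mt k n) (hu : u ∈ ZA)
    (s : Finset k) (hs : ∀ P : Polynomial k, (∀ ζ ∈ s, P.IsRoot ζ) → Polynomial.aeval u P = 0)
    (hsne : s.Nonempty) : DAGood ZA {u} := by
  have hinj : Set.InjOn (fun x : k => x) (s : Set k) := fun a _ b _ h => h
  have hone : ∀ ζ ∈ s, (Lagrange.basis s (fun x : k => x) ζ).eval ζ = 1 := fun ζ hζ =>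
    Lagrange.eval_basis_self (v := fun x : k => x) hinj hζ
  have hzero : ∀ ζ ξ : k, ξ ∈ s → ζ ≠ ξ → (Lagrange.basis s (fun x : k => x) ζ).eval ξ = 0 :=
    fun ζ ξ hξ h => Lagrange.eval_basis_of_ne (v := fun x : k => x) h hξ
  refine ⟨s, inferInstance, fun ζ => Polynomial.aeval u (Lagrange.basis s (fun x : k => x) ζ), ?_,
    ?_, ?_, ?_⟩
  · intro ζ ξ
    by_cases h : ζ = ξ
    · subst h
      rw [if_pos rfl]
      have h1 := hs (Lagrange.basis s (fun x : k => x) (ζ : k) *
        Lagrange.basis s (fun x : k => x) (ζ : k) - Lagrange.basis s (fun x : k => x) (ζ : k)) (by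
          intro η hη
          rw [Polynomial.IsRoot, Polynomial.eval_sub, Polynomial.eval_mul]
          by_cases hζη : (ζ : k) = η
          · rw [← hζη, hone ζ ζ.2]; ring
          · rw [hzero ζ η hη hζη]; ring)
      rw [map_sub, map_mul, sub_eq_zero] at h1
      exact h1
    · rw [if_neg h]
      have h1 := hs (Lagrange.basis s (fun x : k => x) (ζ : k) *
        Lagrange.basis s (fun x : k => x) (ξ : k)) (by
          intro η hη
          rw [Polynomial.IsRoot, Polynomial.eval_mul]
          by_cases hζη : (ζ : k) = η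
          · have hξη : (ξ : k) ≠ η := fun h2 => h (Subtype.ext (hζη.trans h2.symm))
            rw [hzero ξ η hη hξη, mul_zero]
          · rw [hzero ζ η hη hζη, zero_mul])
      rw [map_mul] at h1
      exact h1
  · have h1 := Lagrange.sum_basis (v := fun x : k => x) hinj hsne
    have h2 := congrArg (Polynomial.aeval u) h1
    rw [map_sum, map_one] at h2
    rw [← h2]
    exact Finset.sum_coe_sort s
      (fun ζ => Polynomial.aeval u (Lagrange.basis s (fun x : k => x) ζ))
  · intro ζ
    exact Algebra.adjoin_le (Set.singleton_subset_iff.mpr hu)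
      (Polynomial.aeval_mem_adjoin_singleton k u)
  · intro v hv ζ
    rw [Set.mem_singleton_iff] at hv
    subst hv
    refine ⟨ζ, ?_⟩
    have h := hs ((Polynomial.X - Polynomial.C (ζ : k)) *
      Lagrange.basis s (fun x : k => x) (ζ : k)) (by
        intro ξ hξ
        rw [Polynomial.IsRoot, Polynomial.eval_mul]
        by_cases hξζ : (ζ : k) = ξ
        · rw [hξζ]; simp
        · rw [hzero ζ ξ hξ hξζ, mul_zero])
    rw [map_mul, map_sub, Polynomial.aeval_X, Polynomial.aeval_C, sub_mul, sub_eq_zero] at h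
    rw [h, Algebra.smul_def]

private theorem da_union (ZA : Subalgebra k (Mt k n)) (hcomm : ∀ a ∈ ZA, ∀ b ∈ ZA, a * b = b * a)
    (S : Set (Mt k n)) (u : Mt k n) (hu : u ∈ ZA) (hS : DAGood ZA S) (h1 : DAGood ZA {u}) :
    DAGood ZA (insert u S) := by
  obtain ⟨ι, hι, p, hp, hps, hpZ, hpS⟩ := hS
  obtain ⟨κ, hκ, q, hq, hqs, hqZ, hqS⟩ := h1
  refine ⟨ι × κ, inferInstance, fun x => p x.1 * q x.2, ?_, ?_, ?_, ?_⟩
  · rintro ⟨i, j⟩ ⟨i', j'⟩
    have h : p i * q j * (p i' * q j') = (p i * p i') * (q j * q j') := by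
      rw [mul_assoc, ← mul_assoc (q j), hcomm _ (hqZ j) _ (hpZ i')]
      simp only [mul_assoc]
    simp only
    rw [h, hp, hq]
    by_cases h1 : i = i'
    · by_cases h2 : j = j'
      · rw [if_pos h1, if_pos h2, if_pos (by rw [h1, h2])]
      · rw [if_neg h2, mul_zero, if_neg (fun h3 => h2 (congrArg Prod.snd h3))]
    · rw [if_neg h1, zero_mul, if_neg (fun h3 => h1 (congrArg Prod.fst h3))]
  · rw [Fintype.sum_prod_type]
    simp only
    have : ∀ i, ∑ j, p i * q j = p i := by
      intro i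
      rw [← Finset.mul_sum, hqs, mul_one]
    simp only [this, hps]
  · rintro ⟨i, j⟩
    exact ZA.mul_mem (hpZ i) (hqZ j)
  · rintro v hv ⟨i, j⟩
    rcases hv with hv | hv
    · subst hv
      obtain ⟨c, hc⟩ := hqS v rfl j
      refine ⟨c, ?_⟩
      simp only
      rw [← mul_assoc, hcomm _ hu _ (hpZ i), mul_assoc, hc, mul_smul_comm]
    · obtain ⟨c, hc⟩ := hpS v hv i
      refine ⟨c, ?_⟩
      simp only
      rw [← mul_assoc, hc, smul_mul_assoc]

private theorem da_finset (ZA : Subalgebra k (Mt k n))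
    (hcomm : ∀ a ∈ ZA, ∀ b ∈ ZA, a * b = b * a) (S : Finset (Mt k n))
    (hS : ∀ u ∈ S, u ∈ ZA ∧ DAGood ZA {u}) : DAGood ZA (S : Set (Mt k n)) := by
  induction S using Finset.induction_on with
  | empty =>
    refine ⟨Unit, inferInstance, fun _ => 1, ?_, ?_, ?_, ?_⟩
    · intro i j
      rw [if_pos rfl, one_mul]
    · simp
    · intro _; exact ZA.one_mem
    · intro u hu; simp at hu
  | insert u S hu ih =>
    rw [Finset.coe_insert]
    exact da_union ZA hcomm _ u (hS u (Finset.mem_insert_self _ _)).1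
      (ih (fun v hv => hS v (Finset.mem_insert_of_mem hv)))
      (hS u (Finset.mem_insert_self _ _)).2

/-- The polynomial `X ^ r - c` is the product of distinct linear factors. -/
private theorem da_pow [IsAlgClosed k] {r : ℕ} (hr0 : (r : k) ≠ 0) (hr1 : 0 < r) (u : Mt k n)
    (c : k) (hc : c ≠ 0) (hu : u ^ r = c • (1 : Mt k n)) :
    ∃ s : Finset k, s.Nonempty ∧
      ∀ P : Polynomial k, (∀ ζ ∈ s, P.IsRoot ζ) → Polynomial.aeval u P = 0 := by
  have hsep : (Polynomial.X ^ r - Polynomial.C c : Polynomial k).Separable :=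
    Polynomial.separable_X_pow_sub_C c hr0 hc
  have hne : (Polynomial.X ^ r - Polynomial.C c : Polynomial k) ≠ 0 := hsep.ne_zero
  have hdeg : (Polynomial.X ^ r - Polynomial.C c : Polynomial k).degree ≠ 0 := by
    rw [Polynomial.degree_X_pow_sub_C hr1]
    exact_mod_cast hr1.ne'
  refine ⟨(Polynomial.X ^ r - Polynomial.C c : Polynomial k).roots.toFinset, ?_, ?_⟩
  · obtain ⟨x, hx⟩ := IsAlgClosed.exists_root _ hdeg
    exact ⟨x, by rw [Multiset.mem_toFinset, Polynomial.mem_roots hne]; exact hx⟩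
  · intro P hP
    have hdvd : (Polynomial.X ^ r - Polynomial.C c : Polynomial k) ∣ P := by
      by_cases hP0 : P = 0
      · rw [hP0]; exact dvd_zero _
      have hsp : (Polynomial.X ^ r - Polynomial.C c : Polynomial k).Splits :=
        IsAlgClosed.splits _
      rw [hsp.dvd_iff_roots_le_roots hne hP0]
      rw [Multiset.le_iff_subset (Polynomial.nodup_roots hsep)]
      intro x hx
      rw [Polynomial.mem_roots hP0]
      exact hP x (Multiset.mem_toFinset.mpr hx)
    obtain ⟨Q, hQ⟩ := hdvd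
    rw [hQ, map_mul, map_sub, map_pow, Polynomial.aeval_X, Polynomial.aeval_C, hu,
      Algebra.smul_def, mul_one, sub_self, zero_mul]

/-- The span `A.Z M` as a subalgebra. -/
private theorem da_alg (A : StarAct T G k n) (hMG : M ≤ G) :
    ∃ ZA : Subalgebra k (Mt k n), ∀ x, x ∈ ZA ↔ x ∈ A.Z M := by
  have hmul : ∀ a ∈ A.Z M, ∀ b ∈ A.Z M, a * b ∈ A.Z M := by
    intro a ha b hb
    have ha' : a ∈ Submodule.span k {u | ∃ m ∈ M, A.Impl m u} := ha
    refine Submodule.span_induction (p := fun a _ => a * b ∈ A.Z M) ?_ ?_ ?_ ?_ ha'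
    · rintro u ⟨m, hm, hu⟩
      have hb' : b ∈ Submodule.span k {u | ∃ m ∈ M, A.Impl m u} := hb
      refine Submodule.span_induction (p := fun b _ => u * b ∈ A.Z M) ?_ ?_ ?_ ?_ hb'
      · rintro v ⟨m', hm', hv⟩
        exact Submodule.subset_span ⟨m * m', M.mul_mem hm hm', impl_mul A (hMG hm) (hMG hm') hu hv⟩
      · rw [mul_zero]; exact Submodule.zero_mem _
      · intro x y _ _ hx hy
        rw [mul_add]; exact Submodule.add_mem _ hx hy
      · intro c x _ hx
        rw [mul_smul_comm]; exact Submodule.smul_mem _ _ hx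
    · rw [zero_mul]; exact Submodule.zero_mem _
    · intro x y _ _ hx hy
      rw [add_mul]; exact Submodule.add_mem _ hx hy
    · intro c x _ hx
      rw [smul_mul_assoc]; exact Submodule.smul_mem _ _ hx
  have hone : (1 : Mt k n) ∈ A.Z M := Submodule.subset_span ⟨1, M.one_mem, impl_one A⟩
  refine ⟨{ carrier := A.Z M
            mul_mem' := fun {a b} ha hb => hmul a ha b hb
            one_mem' := hone
            add_mem' := fun {a b} ha hb => Submodule.add_mem _ ha hb
            zero_mem' := Submodule.zero_mem _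
            algebraMap_mem' := ?_ }, fun x => Iff.rfl⟩
  intro c
  rw [Algebra.algebraMap_eq_smul_one]
  exact Submodule.smul_mem _ _ hone

private theorem da_comm (A : StarAct T G k n) (hC : A.Comm M) :
    ∀ a ∈ A.Z M, ∀ b ∈ A.Z M, a * b = b * a := by
  intro a ha b hb
  have ha' : a ∈ Submodule.span k {u | ∃ m ∈ M, A.Impl m u} := ha
  refine Submodule.span_induction (p := fun a _ => a * b = b * a) ?_ ?_ ?_ ?_ ha'
  · rintro u ⟨m, hm, hu⟩
    have hb' : b ∈ Submodule.span k {u | ∃ m ∈ M, A.Impl m u} := hb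
    refine Submodule.span_induction (p := fun b _ => u * b = b * u) ?_ ?_ ?_ ?_ hb'
    · rintro v ⟨m', hm', hv⟩
      exact hC m hm m' hm' u v hu hv
    · rw [mul_zero, zero_mul]
    · intro x y _ _ hx hy
      rw [mul_add, add_mul, hx, hy]
    · intro c x _ hx
      rw [mul_smul_comm, smul_mul_assoc, hx]
  · rw [mul_zero, zero_mul]
  · intro x y _ _ hx hy
    rw [mul_add, add_mul, hx, hy]
  · intro c x _ hx
    rw [mul_smul_comm, smul_mul_assoc, hx]

private theorem da_impl_pow (A : StarAct T G k n) {g : Γ} (hg : g ∈ G) {u : Mt k n}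
    (hu : A.Impl g u) (r : ℕ) : A.Impl (g ^ r) (u ^ r) := by
  induction r with
  | zero => rw [pow_zero, pow_zero]; exact impl_one A
  | succ r ih =>
    rw [pow_succ, pow_succ]
    exact impl_mul A (G.pow_mem hg r) hg ih hu

/-- DA (hint; simultaneous diagonalisation). For `m ∈ M` with implementing matrix `u`, `u ^ r = c • 1` with
`c ≠ 0` (`m ^ r ∈ K`), and `r ≠ 2` is non-zero in `k`, so for every root `ζ` of `X ^ r = c` the matrix
`e = (1 / r) ∑_{j < r} ζ⁻ʲ u ^ j` is an idempotent in `A.Z M`, `u e = ζ e`, and the sum of these over the `r`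
roots is `1`. The products over `m ∈ M` (finite) of such idempotents, one root for each `m`, are orthogonal with
sum `1`; the `p i` are the non-zero ones. `A.Z M` is closed under multiplication, commutative, and is spanned
by at most `|M : K|` matrices, so `ℓ |K| ≤ |M|`. -/
theorem exists_idems [IsAlgClosed k] [CharP k 2] (A : StarAct T G k n) {r : ℕ}
    (hM : Chief T G K M r) (hr : r ≠ 2) (hK : ∀ g ∈ K, A.Triv g) (hC : A.Comm M) (hn : 0 < n) :
    ∃ (ℓ : ℕ) (p : Fin ℓ → Mt k n), (∀ i j, p i * p j = if i = j then p i else 0) ∧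
      (∀ i, p i ≠ 0) ∧ ∑ i, p i = 1 ∧ A.Z M = Submodule.span k (Set.range p) ∧
      (∀ m ∈ M, ∀ u, A.Impl m u → ∀ i, ∃ c : k, u * p i = c • p i) ∧
      ℓ * Nat.card K ≤ Nat.card M := by
  haveI : Nonempty (Fin n) := ⟨⟨0, hn⟩⟩
  have hr0 : (r : k) ≠ 0 := by
    intro h
    rw [CharP.cast_eq_zero_iff k 2 r] at h
    exact hr ((Nat.prime_dvd_prime_iff_eq Nat.prime_two hM.prime).mp h).symm
  obtain ⟨ZA, hZA⟩ := da_alg (M := M) A hM.MG
  have hcomm : ∀ a ∈ ZA, ∀ b ∈ ZA, a * b = b * a := fun a ha b hb =>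
    da_comm A hC a ((hZA a).mp ha) b ((hZA b).mp hb)
  have hex : ∀ m : M, ∃ u, A.Impl (m : Γ) u := fun m =>
    exists_impl A (hM.MG m.2) (hM.MT m.2)
  choose U hU using hex
  haveI : Fintype M := Fintype.ofFinite M
  have hS : ∀ u ∈ Finset.univ.image U, u ∈ ZA ∧ DAGood ZA {u} := by
    intro u hu
    obtain ⟨m, -, rfl⟩ := Finset.mem_image.mp hu
    have hmem : U m ∈ ZA := (hZA _).mpr (Submodule.subset_span ⟨m, m.2, hU m⟩)
    refine ⟨hmem, ?_⟩
    have hpow := da_impl_pow A (hM.MG m.2) (hU m) r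
    obtain ⟨c, hc⟩ := (triv_iff A hpow).mp (hK _ (hM.pow m m.2))
    have hc0 : c ≠ 0 := by
      rintro rfl
      have h := hpow.1
      rw [hc, zero_smul] at h
      exact not_isUnit_zero h
    obtain ⟨s, hs1, hs2⟩ := da_pow hr0 hM.prime.pos (U m) c hc0 hc
    exact da_single ZA (U m) hmem s hs2 hs1
  obtain ⟨ι, hι, p, hp, hps, hpZ, hpU⟩ := da_finset ZA hcomm _ hS
  -- restrict to the non-zero idempotents
  let J : Type := {i : ι // p i ≠ 0}
  haveI : Fintype J := inferInstance
  let e : Fin (Fintype.card J) ≃ J := (Fintype.equivFin J).symm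
  let q : Fin (Fintype.card J) → Mt k n := fun i => p (e i).1
  have hq : ∀ i j, q i * q j = if i = j then q i else 0 := by
    intro i j
    show p (e i).1 * p (e j).1 = _
    rw [hp]
    by_cases h : i = j
    · rw [if_pos h, if_pos (by rw [h])]
    · rw [if_neg h, if_neg (fun h2 => h (e.injective (Subtype.ext h2)))]
  have hq0 : ∀ i, q i ≠ 0 := fun i => (e i).2
  have hqs : ∑ i, q i = 1 := by
    show ∑ i, p (e i).1 = 1
    rw [Equiv.sum_comp e (fun j : J => p j.1), ← hps]
    rw [← Finset.sum_subtype (Finset.univ.filter (fun i => p i ≠ 0))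
      (fun i => by simp) p]
    exact Finset.sum_filter_ne_zero _
  have hqU : ∀ m ∈ M, ∀ u, A.Impl m u → ∀ i, ∃ c : k, u * q i = c • q i := by
    intro m hm u hu i
    obtain ⟨c, -, hc⟩ := impl_unique A (hU ⟨m, hm⟩) hu
    obtain ⟨d, hd⟩ := hpU (U ⟨m, hm⟩) (Finset.mem_coe.mpr (Finset.mem_image_of_mem _
      (Finset.mem_univ _))) (e i).1
    refine ⟨c * d, ?_⟩
    rw [hc, smul_mul_assoc]
    show c • (U ⟨m, hm⟩ * p (e i).1) = _
    rw [hd, smul_smul]
  have hspan : A.Z M = Submodule.span k (Set.range q) := by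
    apply le_antisymm
    · refine Submodule.span_le.mpr ?_
      rintro u ⟨m, hm, hu⟩
      have h1 : u = ∑ i, u * q i := by rw [← Finset.mul_sum, hqs, mul_one]
      rw [h1]
      refine Submodule.sum_mem _ (fun i _ => ?_)
      obtain ⟨c, hc⟩ := hqU m hm u hu i
      rw [hc]
      exact Submodule.smul_mem _ _ (Submodule.subset_span ⟨i, rfl⟩)
    · refine Submodule.span_le.mpr ?_
      rintro _ ⟨i, rfl⟩
      exact (hZA _).mp (hpZ _)
  refine ⟨Fintype.card J, q, hq, hq0, hqs, hspan, hqU, ?_⟩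
  have hli : LinearIndependent k q := by
    rw [Fintype.linearIndependent_iff]
    intro g hg i
    have h1 := congrArg (fun x => x * q i) hg
    simp only [Finset.sum_mul, smul_mul_assoc, hq, zero_mul] at h1
    rw [Finset.sum_eq_single i] at h1
    · rw [if_pos rfl] at h1
      exact (smul_eq_zero.mp h1).resolve_right (hq0 i)
    · intro j _ hj
      rw [if_neg hj, smul_zero]
    · intro h; exact absurd (Finset.mem_univ _) h
  have hfr : Module.finrank k (A.Z M) = Fintype.card J := by
    rw [hspan, finrank_span_eq_card hli, Fintype.card_fin]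
  -- the spanning set indexed by the cosets
  have hcard : Nat.card M = Nat.card (M ⧸ K.subgroupOf M) * Nat.card K := by
    rw [Subgroup.card_eq_card_quotient_mul_card_subgroup (K.subgroupOf M)]
    congr 1
    exact Nat.card_congr (Subgroup.subgroupOfEquivOfLe hM.KM).toEquiv
  haveI : Fintype (M ⧸ K.subgroupOf M) := Fintype.ofFinite _
  have hle : Module.finrank k (A.Z M) ≤ Nat.card (M ⧸ K.subgroupOf M) := by
    have hsub : A.Z M ≤ Submodule.span k (Set.range
        (fun x : M ⧸ K.subgroupOf M => U x.out)) := by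
      refine Submodule.span_le.mpr ?_
      rintro u ⟨m, hm, hu⟩
      have h1 : ((⟨m, hm⟩ : M) : M ⧸ K.subgroupOf M).out⁻¹ * ⟨m, hm⟩ ∈ K.subgroupOf M := by
        rw [← QuotientGroup.eq]
        exact QuotientGroup.out_eq' _
      set m0 : M := ((⟨m, hm⟩ : M) : M ⧸ K.subgroupOf M).out with hm0
      rw [Subgroup.mem_subgroupOf] at h1
      have hk : A.Triv ((m0 : Γ)⁻¹ * m) := by
        refine hK _ ?_
        simpa using h1
      obtain ⟨v, hv⟩ := exists_impl A (g := (m0 : Γ)⁻¹ * m)
        (G.mul_mem (G.inv_mem (hM.MG m0.2)) (hM.MG hm))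
        (T.mul_mem (T.inv_mem (hM.MT m0.2)) (hM.MT hm))
      obtain ⟨c, hc⟩ := (triv_iff A hv).mp hk
      have h2 := impl_mul A (hM.MG m0.2)
        (G.mul_mem (G.inv_mem (hM.MG m0.2)) (hM.MG hm)) (hU m0) hv
      rw [mul_inv_cancel_left] at h2
      obtain ⟨d, -, hd⟩ := impl_unique A h2 hu
      rw [hd, hc, mul_smul_comm, mul_one]
      exact Submodule.smul_mem _ _ (Submodule.smul_mem _ _ (Submodule.subset_span
        ⟨((⟨m, hm⟩ : M) : M ⧸ K.subgroupOf M), rfl⟩))
    calc Module.finrank k (A.Z M) ≤ Module.finrank k (Submodule.span k (Set.range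
          (fun x : M ⧸ K.subgroupOf M => U x.out))) := Submodule.finrank_mono hsub
      _ ≤ Fintype.card (M ⧸ K.subgroupOf M) := finrank_range_le_card _
      _ = Nat.card (M ⧸ K.subgroupOf M) := (Nat.card_eq_fintype_card).symm
  rw [hcard]
  exact Nat.mul_le_mul_right _ (hfr ▸ hle)

end Pool.Agent.Helper44.S3
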