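import Pool.Agent.Helper36.NB.Defs
import Pool.Agent.Helper36.NB.Nilp

/-!
# Project S3 (real 2-blocks of solvable groups with one simple module): definitions
-/

open scoped BigOperators MonoidAlgebra
open Classical

namespace Pool.Agent.Helper44.S3

open Pool.Agent.Helper36.NB

/-- The matrix algebra. -/
abbrev Mt (k : Type) (n : ℕ) : Type := Matrix (Fin n) (Fin n) k

/-- A star action of the subgroup `G` of `Γ` on the algebra of `n × n` matrices: the elements of
`G ∩ T` act as algebra automorphisms, those of `G ∖ T` as anti-automorphisms, and no proper non-zero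
left ideal is stable under `G ∩ T`. -/
structure StarAct {Γ : Type} [Group Γ] (T G : Subgroup Γ) (k : Type) [Field k] (n : ℕ) where
  α : Γ → (Mt k n →ₗ[k] Mt k n)
  one : ∀ a, α 1 a = a
  mul : ∀ g ∈ G, ∀ h ∈ G, ∀ a, α (g * h) a = α g (α h a)
  aut : ∀ g ∈ G, g ∈ T → ∀ a b, α g (a * b) = α g a * α g b
  anti : ∀ g ∈ G, g ∉ T → ∀ a b, α g (a * b) = α g b * α g a
  irr : ∀ I : Submodule k (Mt k n), (∀ a, ∀ b ∈ I, a * b ∈ I) →
    (∀ g ∈ G, g ∈ T → ∀ b ∈ I, α g b ∈ I) → I = ⊥ ∨ I = ⊤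

/-- The invertible matrix `u` implements the action of `g` (by conjugation). -/
def StarAct.Impl {Γ : Type} [Group Γ] {T G : Subgroup Γ} {k : Type} [Field k] {n : ℕ}
    (A : StarAct T G k n) (g : Γ) (u : Mt k n) : Prop :=
  IsUnit u ∧ ∀ a, A.α g a * u = u * a

/-- The element `g` acts trivially. -/
def StarAct.Triv {Γ : Type} [Group Γ] {T G : Subgroup Γ} {k : Type} [Field k] {n : ℕ}
    (A : StarAct T G k n) (g : Γ) : Prop :=
  ∀ a, A.α g a = a

/-- `G` normalises `L`. -/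
def Norm {Γ : Type} [Group Γ] (G L : Subgroup Γ) : Prop :=
  ∀ g ∈ G, ∀ x ∈ L, g * x * g⁻¹ ∈ L

/-- `K` is normal in `G`, contained in `T`, and `H ≥ K` is a subgroup of `G` of odd index such that
`|H : K|` is a power of `2`. -/
structure Sit {Γ : Type} [Group Γ] (T G K H : Subgroup Γ) : Prop where
  KH : K ≤ H
  HG : H ≤ G
  KT : K ≤ T
  norm : Norm G K
  Hcard : ∃ s : ℕ, Nat.card H = 2 ^ s * Nat.card K
  Gcard : ∃ r : ℕ, Odd r ∧ Nat.card G = r * Nat.card H

/-- `M / K` is a chief factor of `G` inside `T` which is an elementary abelian `r`-group. -/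
structure Chief {Γ : Type} [Group Γ] (T G K M : Subgroup Γ) (r : ℕ) : Prop where
  KM : K ≤ M
  MG : M ≤ G
  MT : M ≤ T
  ne : K ≠ M
  norm : Norm G M
  min : ∀ L : Subgroup Γ, K ≤ L → L ≤ M → Norm G L → L = K ∨ L = M
  prime : r.Prime
  comm : ∀ x ∈ M, ∀ y ∈ M, x * y * x⁻¹ * y⁻¹ ∈ K
  pow : ∀ x ∈ M, x ^ r ∈ K

/-- The number of `g ∈ G` with `g⁻¹ y g ∈ H`. -/
noncomputable def cnt {Γ : Type} [Group Γ] (G H : Subgroup Γ) (y : Γ) : ℕ :=
  Nat.card {g : Γ // g ∈ G ∧ g⁻¹ * y * g ∈ H}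

/-- The number of `m ∈ M` fixed by `y` modulo `K`. -/
noncomputable def cpos {Γ : Type} [Group Γ] (M K : Subgroup Γ) (y : Γ) : ℕ :=
  Nat.card {m : Γ // m ∈ M ∧ y * m * y⁻¹ * m⁻¹ ∈ K}

/-- The number of `m ∈ M` inverted by `y` modulo `K`. -/
noncomputable def cneg {Γ : Type} [Group Γ] (M K : Subgroup Γ) (y : Γ) : ℕ :=
  Nat.card {m : Γ // m ∈ M ∧ y * m * y⁻¹ * m ∈ K}

/-- The span of the matrices implementing elements of `M`. -/
noncomputable def StarAct.Z {Γ : Type} [Group Γ] {T G : Subgroup Γ} {k : Type} [Field k] {n : ℕ}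
    (A : StarAct T G k n) (M : Subgroup Γ) : Submodule k (Mt k n) :=
  Submodule.span k {u | ∃ m ∈ M, A.Impl m u}

/-- All implementing matrices of elements of `M` commute. -/
def StarAct.Comm {Γ : Type} [Group Γ] {T G : Subgroup Γ} {k : Type} [Field k] {n : ℕ}
    (A : StarAct T G k n) (M : Subgroup Γ) : Prop :=
  ∀ m ∈ M, ∀ m' ∈ M, ∀ u u', A.Impl m u → A.Impl m' u' → u * u' = u' * u

/-- The commutator form of `M / K` is non-degenerate. -/
def StarAct.Nondeg {Γ : Type} [Group Γ] {T G : Subgroup Γ} {k : Type} [Field k] {n : ℕ}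
    (A : StarAct T G k n) (M K : Subgroup Γ) : Prop :=
  ∀ m ∈ M, ∀ u, A.Impl m u → (∀ m' ∈ M, ∀ u', A.Impl m' u' → u * u' = u' * u) → m ∈ K

/-- The data of a full matrix block `f` of `k[N]`, inside `k[G]`. -/
structure NBlk {k : Type} [Field k] {G : Type} [Group G] (N : Subgroup G)
    (f : MonoidAlgebra k G) (a : ℕ) where
  φ : Mt k a →ₗ[k] MonoidAlgebra k G
  mul : ∀ x y, φ (x * y) = φ x * φ y
  one : φ 1 = f
  inj : Function.Injective φ
  supp : ∀ x, ∀ g, g ∉ N → (φ x).coeff g = 0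
  surj : ∀ h ∈ N, ∃ x, φ x = el k h * f

/-- `N` is the largest normal subgroup of odd order. -/
def IsOddCore {G : Type} [Group G] (N : Subgroup G) : Prop :=
  N.Normal ∧ Odd (Nat.card N) ∧ ∀ L : Subgroup G, L.Normal → Odd (Nat.card L) → L ≤ N

/-- Conjugation `g a g⁻¹` in the group algebra. -/
noncomputable def cj {R : Type} [CommRing R] {G : Type} [Group G] (g : G)
    (a : MonoidAlgebra R G) : MonoidAlgebra R G :=
  el R g * a * el R g⁻¹

/-- The orbit-wise identity for the element `u`. -/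
def Orb (O : ValuationSubring ℂ) {G : Type} [Group G] [Fintype G] (e : MonoidAlgebra O G) (n : ℕ)
    (D E : Subgroup G) (u : G) : Prop :=
  (Nat.card G : ℂ) * ∑ s ∈ Finset.univ.filter (fun s : G => s * u = u * s), (e.coeff s : ℂ) =
    n * (Nat.card {g : G // g⁻¹ * u * g ∈ E ∧ g⁻¹ * u * g ∉ D} : ℂ)

end Pool.Agent.Helper44.S3
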