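import Pool.Agent.Helper44.S3.Defs2
import Pool.Agent.Helper36.NB.B3

set_option autoImplicit false
open scoped BigOperators MonoidAlgebra
open Classical

namespace Pool.Agent.Helper44.S3

open Pool.Agent.Helper36.NB

private theorem pb_coeff_even (O : ValuationSubring ℂ) {G : Type} [Group G] [Fintype G]
    (h2 : (2 : O) ∈ IsLocalRing.maximalIdeal O) (e : MonoidAlgebra O G) (he : e * e = e)
    (hec : ∀ a, a * e = e * a) (s : G) (hs : Even (orderOf s)) : e.coeff s = 0 := by
  have h := proj_vanish O h2 e he s hs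
  have hc : ∀ g : G, e.coeff (g⁻¹ * s * g) = e.coeff s := by
    intro g
    have h1 := congrArg (fun a : MonoidAlgebra O G => a.coeff (g⁻¹ * s)) (hec (el O g⁻¹))
    simp only [el_mul_coeff, mul_el_coeff] at h1
    rw [inv_inv, mul_inv_cancel_left] at h1
    exact h1.symm
  rw [Finset.sum_congr rfl (fun g _ => hc g), Finset.sum_const, Finset.card_univ,
    nsmul_eq_mul] at h
  rcases mul_eq_zero.1 h with h3 | h3
  · exact absurd h3 (Nat.cast_ne_zero.2 Fintype.card_ne_zero)
  · exact h3

private noncomputable def rt {G : Type} [Group G] (s : G) : G := s ^ ((orderOf s + 1) / 2)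

private theorem rt_mul_rt {G : Type} [Group G] {s : G} (hs : ¬ Even (orderOf s)) :
    rt s * rt s = s := by
  rw [Nat.not_even_iff_odd] at hs
  obtain ⟨k, hk⟩ := hs
  unfold rt
  rw [← pow_add]
  have h1 : (orderOf s + 1) / 2 + (orderOf s + 1) / 2 = orderOf s + 1 := by omega
  rw [h1, pow_succ, pow_orderOf_eq_one, one_mul]

private theorem comb {G : Type} [Group G] [Fintype G] (f : G → ℂ)
    (hf : ∀ s, Even (orderOf s) → f s = 0) :
    ∑ g : G, f (g * g) =
      ∑ u ∈ Finset.univ.filter (fun u : G => u * u = 1), ∑ s ∈ cset u, f s := by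
  have e1 : ∑ g : G, f (g * g) =
      ∑ g ∈ Finset.univ.filter (fun g : G => ¬ Even (orderOf (g * g))), f (g * g) := by
    rw [Finset.sum_filter]
    refine Finset.sum_congr rfl fun g _ => ?_
    by_cases h : Even (orderOf (g * g))
    · simp [h, hf _ h]
    · simp [h]
  have e2 : ∀ u : G, ∑ s ∈ cset u, f s =
      ∑ s ∈ (cset u).filter (fun s => ¬ Even (orderOf s)), f s := by
    intro u
    rw [Finset.sum_filter]
    refine Finset.sum_congr rfl fun s _ => ?_
    by_cases h : Even (orderOf s)
    · simp [h, hf _ h]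
    · simp [h]
  rw [e1, Finset.sum_congr rfl (fun u _ => e2 u), Finset.sum_sigma']
  refine Finset.sum_nbij' (fun g => ⟨g * (rt (g * g))⁻¹, g * g⟩) (fun x => x.1 * rt x.2)
    ?_ ?_ ?_ ?_ ?_
  · intro g hg
    simp only [Finset.mem_filter, Finset.mem_univ, true_and] at hg
    have hc : Commute g (g * g) := (Commute.refl g).mul_right (Commute.refl g)
    have hr : Commute g (rt (g * g)) := hc.pow_right _
    have hr2 : Commute (g * g) (rt (g * g)) := (Commute.refl (g * g)).pow_right _
    have h1 := rt_mul_rt hg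
    simp only [Finset.mem_sigma, Finset.mem_filter, Finset.mem_univ, true_and, cset]
    refine ⟨?_, ?_, hg⟩
    · have h3 : g * (rt (g * g))⁻¹ = (rt (g * g))⁻¹ * g := (hr.inv_right).eq
      calc g * (rt (g * g))⁻¹ * (g * (rt (g * g))⁻¹)
          = g * ((rt (g * g))⁻¹ * g) * (rt (g * g))⁻¹ := by simp only [mul_assoc]
        _ = g * (g * (rt (g * g))⁻¹) * (rt (g * g))⁻¹ := by rw [← h3]
        _ = (g * g) * (rt (g * g) * rt (g * g))⁻¹ := by
            rw [mul_inv_rev]; simp only [mul_assoc]
        _ = 1 := by rw [h1, mul_inv_cancel]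
    · exact ((hc.symm).mul_right hr2.inv_right).eq
  · rintro ⟨u, s⟩ hx
    simp only [Finset.mem_sigma, Finset.mem_filter, Finset.mem_univ, true_and, cset] at hx
    obtain ⟨hu, hsu, hs⟩ := hx
    have hc : Commute u (rt s) := Commute.pow_right (show Commute u s from hsu.symm) _
    have h1 : u * rt s * (u * rt s) = s := by
      calc u * rt s * (u * rt s) = u * (rt s * u) * rt s := by simp only [mul_assoc]
        _ = u * (u * rt s) * rt s := by rw [hc.eq]
        _ = (u * u) * (rt s * rt s) := by simp only [mul_assoc]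
        _ = s := by rw [hu, rt_mul_rt hs, one_mul]
    simp only [Finset.mem_filter, Finset.mem_univ, true_and]
    rw [h1]
    exact hs
  · intro g _
    simp
  · rintro ⟨u, s⟩ hx
    simp only [Finset.mem_sigma, Finset.mem_filter, Finset.mem_univ, true_and, cset] at hx
    obtain ⟨hu, hsu, hs⟩ := hx
    have hc : Commute u (rt s) := Commute.pow_right (show Commute u s from hsu.symm) _
    have h1 : u * rt s * (u * rt s) = s := by
      calc u * rt s * (u * rt s) = u * (rt s * u) * rt s := by simp only [mul_assoc]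
        _ = u * (u * rt s) * rt s := by rw [hc.eq]
        _ = (u * u) * (rt s * rt s) := by simp only [mul_assoc]
        _ = s := by rw [hu, rt_mul_rt hs, one_mul]
    simp only [h1, mul_inv_cancel_right]
  · intro g _
    rfl

/-- PB (hint). `e.coeff s = 0` if `s` has even order (`proj_vanish`; `e` is central, so the sum there is
`|G| e.coeff s`). Write `g = u s`, `u` the `2`-part and `s` the odd part of `g` (powers of `g`). `e.coeff (g g) ≠ 0`
forces `g g` to have odd order, i.e. `u u = 1`. For `u u = 1` the elements `g` with `2`-part `u` are the `u s` with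
`s ∈ C_G(u)` of odd order, `g g = s s`, and `s ↦ s s` is a bijection of this set. The terms `s ∈ C_G(u)` of even order
are zero. -/
theorem sum_sq (O : ValuationSubring ℂ) {G : Type} [Group G] [Fintype G]
    (h2 : (2 : O) ∈ IsLocalRing.maximalIdeal O) (e : MonoidAlgebra O G) (he : e * e = e)
    (hec : ∀ a, a * e = e * a) :
    ∑ g : G, (e.coeff (g * g) : ℂ) =
      ∑ u ∈ Finset.univ.filter (fun u : G => u * u = 1), ∑ s ∈ cset u, (e.coeff s : ℂ) := by
  refine comb (fun g => (e.coeff g : ℂ)) fun s hs => ?_
  rw [pb_coeff_even O h2 e he hec s hs]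
  rfl

end Pool.Agent.Helper44.S3
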