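import Pool.Agent.Helper44.S3.Defs2
import Pool.Agent.Helper44.S3.PA
import Pool.Agent.Helper44.S3.PB

set_option autoImplicit false
open scoped BigOperators MonoidAlgebra
open Classical

namespace Pool.Agent.Helper44.S3

open Pool.Agent.Helper36.NB

private theorem count_conj {G : Type} [Group G] [Finite G] (D E : Subgroup G) (u : G) :
    Nat.card {g : G // g⁻¹ * u * g ∈ E ∧ g⁻¹ * u * g ∉ D} =
      Nat.card (cent u) * Nat.card {y : G // y ∈ E ∧ y ∉ D ∧ IsConj u y} := by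
  have hex : ∀ y : {y : G // y ∈ E ∧ y ∉ D ∧ IsConj u y}, ∃ h : G, h⁻¹ * u * h = y := by
    intro y
    obtain ⟨h, hh⟩ := isConj_iff.1 y.2.2.2
    exact ⟨h⁻¹, by rw [inv_inv]; exact hh⟩
  choose h hh using hex
  have hpy : ∀ p : cent u × {y : G // y ∈ E ∧ y ∉ D ∧ IsConj u y},
      ((p.1 : G) * h p.2)⁻¹ * u * ((p.1 : G) * h p.2) = p.2 := by
    intro p
    have h1 : (p.1 : G) * u = u * p.1 := Subgroup.mem_centralizer_singleton_iff.1 p.1.2
    rw [← hh p.2]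
    calc ((p.1 : G) * h p.2)⁻¹ * u * ((p.1 : G) * h p.2) =
        (h p.2)⁻¹ * (p.1 : G)⁻¹ * (u * p.1) * h p.2 := by group
      _ = (h p.2)⁻¹ * (p.1 : G)⁻¹ * (p.1 * u) * h p.2 := by rw [h1]
      _ = (h p.2)⁻¹ * u * h p.2 := by group
  rw [← Nat.card_prod]
  symm
  refine Nat.card_congr (Equiv.ofBijective
    (fun p : cent u × {y : G // y ∈ E ∧ y ∉ D ∧ IsConj u y} =>
      (⟨(p.1 : G) * h p.2, by
        rw [hpy p]
        exact ⟨p.2.2.1, p.2.2.2.1⟩⟩ : {g : G // g⁻¹ * u * g ∈ E ∧ g⁻¹ * u * g ∉ D})) ⟨?_, ?_⟩)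
  · rintro p q hpq
    have h1 : (p.1 : G) * h p.2 = (q.1 : G) * h q.2 := congrArg Subtype.val hpq
    have h2 : p.2 = q.2 := by
      apply Subtype.ext
      rw [← hpy p, ← hpy q, h1]
    have h3 : p.1 = q.1 := by
      apply Subtype.ext
      rw [h2] at h1
      exact mul_right_cancel h1
    exact Prod.ext h3 h2
  · rintro ⟨g, hg1, hg2⟩
    set y : {y : G // y ∈ E ∧ y ∉ D ∧ IsConj u y} :=
      ⟨g⁻¹ * u * g, hg1, hg2, isConj_iff.2 ⟨g⁻¹, by rw [inv_inv]⟩⟩ with hy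
    have h1 : (h y)⁻¹ * u * h y = g⁻¹ * u * g := hh y
    refine ⟨(⟨g * (h y)⁻¹, ?_⟩, y), ?_⟩
    · rw [Subgroup.mem_centralizer_singleton_iff]
      calc g * (h y)⁻¹ * u = g * ((h y)⁻¹ * u * h y) * (h y)⁻¹ := by group
        _ = g * (g⁻¹ * u * g) * (h y)⁻¹ := by rw [h1]
        _ = u * (g * (h y)⁻¹) := by group
    · apply Subtype.ext
      change g * (h y)⁻¹ * h y = g
      group

private theorem count_all {G : Type} [Group G] [Fintype G] (D E : Subgroup G) :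
    ∑ u ∈ Finset.univ.filter (fun u : G => u * u = 1),
      Nat.card {g : G // g⁻¹ * u * g ∈ E ∧ g⁻¹ * u * g ∉ D} =
      Nat.card G * Nat.card {y : G // y ∈ E ∧ y ∉ D ∧ y * y = 1} := by
  have h1 : ∀ u : G, Nat.card {g : G // g⁻¹ * u * g ∈ E ∧ g⁻¹ * u * g ∉ D} =
      ∑ g : G, if g⁻¹ * u * g ∈ E ∧ g⁻¹ * u * g ∉ D then 1 else 0 := by
    intro u
    rw [Nat.card_eq_fintype_card, Fintype.card_subtype, Finset.card_filter]
  have h2 : Nat.card {y : G // y ∈ E ∧ y ∉ D ∧ y * y = 1} =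
      ∑ y : G, if y ∈ E ∧ y ∉ D ∧ y * y = 1 then 1 else 0 := by
    rw [Nat.card_eq_fintype_card, Fintype.card_subtype, Finset.card_filter]
  rw [Finset.sum_filter]
  simp only [h1]
  have h3 : ∀ u : G, (if u * u = 1 then
      ∑ g : G, (if g⁻¹ * u * g ∈ E ∧ g⁻¹ * u * g ∉ D then 1 else 0) else 0 : ℕ) =
      ∑ g : G, if (g⁻¹ * u * g ∈ E ∧ g⁻¹ * u * g ∉ D ∧ (g⁻¹ * u * g) * (g⁻¹ * u * g) = 1)
        then 1 else 0 := by
    intro u
    have h4 : ∀ g : G, (g⁻¹ * u * g) * (g⁻¹ * u * g) = 1 ↔ u * u = 1 := by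
      intro g
      have h5 : (g⁻¹ * u * g) * (g⁻¹ * u * g) = g⁻¹ * (u * u) * g := by group
      rw [h5]
      constructor
      · intro h6
        have h7 : g * (g⁻¹ * (u * u) * g) * g⁻¹ = g * 1 * g⁻¹ := by rw [h6]
        have h8 : g * (g⁻¹ * (u * u) * g) * g⁻¹ = u * u := by group
        rw [← h8, h7]
        group
      · intro h6
        rw [h6]
        group
    split_ifs with hu
    · refine Finset.sum_congr rfl fun g _ => ?_
      refine if_congr ?_ rfl rfl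
      rw [h4 g]
      tauto
    · symm
      refine Finset.sum_eq_zero fun g _ => ?_
      rw [if_neg]
      rw [h4 g]
      tauto
  rw [Finset.sum_congr rfl fun u _ => h3 u, Finset.sum_comm, h2]
  have h4 : ∀ g : G, ∑ u : G, (if (g⁻¹ * u * g ∈ E ∧ g⁻¹ * u * g ∉ D ∧
      (g⁻¹ * u * g) * (g⁻¹ * u * g) = 1) then 1 else 0 : ℕ) =
      ∑ y : G, if y ∈ E ∧ y ∉ D ∧ y * y = 1 then 1 else 0 := by
    intro g
    refine Fintype.sum_bijective (fun u => g⁻¹ * u * g) ?_ _ _ (fun u => rfl)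
    have := (MulAut.conj g⁻¹).bijective
    simpa [MulAut.conj_apply] using this
  rw [Finset.sum_congr rfl fun g _ => h4 g, Finset.sum_const, Finset.card_univ, smul_eq_mul,
    Nat.card_eq_fintype_card]

/-- PC (hint). `|G| ∑_g pim(g g) S.n = |G|·|G| ∑_g e(g⁻¹ g⁻¹)`-type computation with `coeff_pim`, then `sum_sq`,
`horb` and counting the pairs `(u, g)`, `g⁻¹ u g ∈ E ∖ D`. Second statement: `coeff_pim`, `horb` and
`#{g | g⁻¹ u g ∈ E ∖ D} = |C_G(u)| #{y ∈ E ∖ D | y conjugate to u}`; `s ↦ s⁻¹` is a bijection of `C_G(u)`.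
(`Orb` is stated with the filter which is `cset u`.) -/
theorem final_of_orb (O : ValuationSubring ℂ) {G : Type} [Group G] [Fintype G]
    (h2 : (2 : O) ∈ IsLocalRing.maximalIdeal O) (e : MonoidAlgebra O G) (he : e * e = e)
    (hec : ∀ a, a * e = e * a) (S : SimpleQuot (toK O G e)) (j : MonoidAlgebra O G)
    (hj : IsPrimitiveIdem j) (hje : j * e = j) (D E : Subgroup G)
    (horb : ∀ u : G, u * u = 1 → Orb O e S.n D E u) :
    ((∑ g : G, pim O j (g * g)) / (Nat.card G : ℂ) =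
      (Nat.card {y : G // y ∈ E ∧ y ∉ D ∧ y * y = 1} : ℂ)) ∧
    ∀ u : G, u * u = 1 → (∑ s : cent u, pim O j s) / (Nat.card (cent u) : ℂ) =
      (Nat.card {y : G // y ∈ E ∧ y ∉ D ∧ IsConj u y} : ℂ) := by
  have hn : (S.n : ℂ) ≠ 0 := Nat.cast_ne_zero.2 S.pos.ne'
  have hG : (Nat.card G : ℂ) ≠ 0 := Nat.cast_ne_zero.2 Nat.card_pos.ne'
  have hcp : ∀ g : G, (S.n : ℂ) * pim O j g = (Nat.card G : ℂ) * (e.coeff g⁻¹ : ℂ) := by
    intro g
    have h := coeff_pim O e he hec S j hj hje g⁻¹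
    rw [inv_inv] at h
    exact h.symm
  refine ⟨?_, ?_⟩
  · rw [div_eq_iff hG]
    apply mul_left_cancel₀ hn
    rw [Finset.mul_sum, Finset.sum_congr rfl fun g _ => hcp (g * g), ← Finset.mul_sum]
    have h1 : ∑ g : G, (e.coeff (g * g)⁻¹ : ℂ) = ∑ g : G, (e.coeff (g * g) : ℂ) := by
      refine Fintype.sum_equiv (Equiv.inv G) _ _ fun g => ?_
      rw [Equiv.inv_apply, mul_inv_rev]
    rw [h1, sum_sq O h2 e he hec, Finset.mul_sum]
    have h3 : ∀ u ∈ Finset.univ.filter (fun u : G => u * u = 1),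
        (Nat.card G : ℂ) * ∑ s ∈ cset u, (e.coeff s : ℂ) =
        S.n * (Nat.card {g : G // g⁻¹ * u * g ∈ E ∧ g⁻¹ * u * g ∉ D} : ℂ) := by
      intro u hu
      exact horb u (Finset.mem_filter.1 hu).2
    rw [Finset.sum_congr rfl h3, ← Finset.mul_sum]
    congr 1
    have h4 := count_all D E
    rw [mul_comm (Nat.card G)] at h4
    exact_mod_cast h4
  · intro u hu
    have hC : (Nat.card (cent u) : ℂ) ≠ 0 := Nat.cast_ne_zero.2 Nat.card_pos.ne'
    rw [div_eq_iff hC]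
    apply mul_left_cancel₀ hn
    have h1 : (S.n : ℂ) * ∑ s : cent u, pim O j (s : G) =
        (Nat.card G : ℂ) * ∑ s : cent u, (e.coeff (s : G) : ℂ) := by
      rw [Finset.mul_sum, Finset.mul_sum]
      refine Fintype.sum_equiv (Equiv.inv (cent u)) _ _ fun g => ?_
      rw [hcp (g : G)]
      rfl
    have h3 : ∑ s : cent u, (e.coeff (s : G) : ℂ) =
        ∑ s ∈ Finset.univ.filter (fun s : G => s * u = u * s), (e.coeff s : ℂ) := by
      symm
      refine Finset.sum_subtype _ (fun g => ?_) _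
      rw [Subgroup.mem_centralizer_singleton_iff]
      simp
    have h4 := horb u hu
    unfold Orb at h4
    rw [h1, h3, h4, count_conj D E u]
    push_cast
    ring

end Pool.Agent.Helper44.S3
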